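import Pool.Agent.UIV.Hits

/-! UIV/Cov.  Covariance of a one-body function and a nonnegative function.

One coordinate at a time: average the one-body function over the coordinate. -/

namespace Pool.Agent.UIV

open Finset

variable {ι : Type} [Fintype ι] [DecidableEq ι] {α : ι → Type} [∀ i, Fintype (α i)]
  [∀ i, DecidableEq (α i)]

theorem Pw_wB {q : ι → ℝ} (h0 : ∀ i, 0 ≤ q i) (h1 : ∀ i, q i ≤ 1) : Pw (wB q) := by
  refine ⟨fun i b => ?_, fun i => ?_⟩
  · unfold wB
    split_ifs
    · exact h0 i
    · linarith [h1 i]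
  · rw [Fintype.sum_bool]
    simp [wB]

omit [Fintype ι] [∀ i, Fintype (α i)] in
theorem hit_update (a x : ∀ i, α i) (i : ι) (b : α i) :
    hit a (Function.update x i b) = Function.update (hit a x) i (decide (b = a i)) := by
  funext j
  by_cases h : j = i
  · subst h
    simp [hit]
  · simp [hit, h]

theorem Av_hit {w : ∀ i, α i → ℝ} (hw : Pw w) {p : ι → ℝ} (hu : ∀ i b, w i b = 1 / p i)
    (a : ∀ i, α i) (i : ι) (φ : (ι → Bool) → ℝ) (x : ∀ i, α i) :
    Av w i (fun y => φ (hit a y)) x = Av (wB (fun i => 1 / p i)) i φ (hit a x) := by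
  have hone := hw.one i
  have key : ∀ b, w i b * φ (hit a (Function.update x i b)) =
      w i b * φ (Function.update (hit a x) i false) +
        (if b = a i then 1 / p i * (φ (Function.update (hit a x) i true) -
          φ (Function.update (hit a x) i false)) else 0) := by
    intro b
    rw [hit_update]
    by_cases h : b = a i
    · rw [if_pos h, decide_eq_true h, hu i b]
      ring
    · rw [if_neg h, decide_eq_false h, add_zero]
  unfold Av
  rw [Finset.sum_congr rfl (fun b _ => key b), Finset.sum_add_distrib, ← Finset.sum_mul, hone,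
    Finset.sum_ite_eq' univ (a i), if_pos (Finset.mem_univ _), Fintype.sum_bool]
  simp only [wB, if_true, Bool.false_eq_true, if_false]
  ring

private theorem step_le {w : ∀ i, α i → ℝ} (hw : Pw w) {p : ι → ℝ} (hu : ∀ i b, w i b = 1 / p i)
    (hp : ∀ i, 1 ≤ p i) {R : ∀ i, Finset (α i)} {z : ∀ i, α i} {a : ∀ i, α i}
    {B : ℝ} {φ : (ι → Bool) → ℝ} (hφ : Monotone φ) (h0 : ∀ x, 0 ≤ φ x) (hB : ∀ x, φ x ≤ B)
    {u : (∀ i, α i) → ℝ} (hu0 : ∀ x, 0 ≤ u x) (hins : Ins R z u)
    (hup : ∀ i x, u (Function.update x i (z i)) ≤ u (Function.update x i (a i))) (i : ι) :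
    Ev w (fun x => u x * Av (wB (fun i => 1 / p i)) i φ (hit a x)) -
        B * (1 / p i * Ev w (fun x => if x i ∈ R i then u x else 0)) ≤
      Ev w (fun x => u x * φ (hit a x)) := by
  set Φ : (∀ i, α i) → ℝ := fun y => φ (hit a y) with hΦ
  have hAv : ∀ x, Av (wB (fun i => 1 / p i)) i φ (hit a x) = Av w i Φ x := fun x =>
    (Av_hit hw hu a i φ x).symm
  have hq0 : 0 ≤ 1 / p i := by
    have := hp i
    positivity
  have hone : ∑ b : α i, (1 / p i) = 1 :=
    (Finset.sum_congr rfl (fun b _ => (hu i b).symm)).trans (hw.one i)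
  have main : ∀ x, -(B * (1 / p i)) * Av w i (fun y => if y i ∈ R i then u y else 0) x ≤
      Av w i (fun y => u y * (Φ y - Av w i Φ y)) x := by
    intro x
    set fp := φ (Function.update (hit a x) i true) with hfp
    set fm := φ (Function.update (hit a x) i false) with hfm
    have hD0 : fm ≤ fp := by
      refine hφ ?_
      rw [update_le_update_iff]
      exact ⟨by decide, fun _ _ => le_rfl⟩
    have hDB : fp - fm ≤ B := by
      have := h0 (Function.update (hit a x) i false)
      have := hB (Function.update (hit a x) i true)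
      linarith
    have hm : Av w i Φ x = fm + 1 / p i * (fp - fm) := by
      rw [← hAv]
      unfold Av
      rw [Fintype.sum_bool]
      simp only [wB, if_true, Bool.false_eq_true, if_false]
      rw [← hfp, ← hfm]
      ring
    set S : ℝ := ∑ b : α i, u (Function.update x i b) with hS
    set T : ℝ := ∑ b : α i, (if b ∈ R i then u (Function.update x i b) else 0) with hT
    have hT0 : 0 ≤ T := Finset.sum_nonneg (fun b _ => by
      split_ifs
      · exact hu0 _
      · exact le_rfl)
    have hleft : Av w i (fun y => if y i ∈ R i then u y else 0) x = 1 / p i * T := by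
      unfold Av
      rw [hT, Finset.mul_sum]
      refine Finset.sum_congr rfl (fun b _ => ?_)
      simp only [hu i b, Function.update_self]
    have hright : Av w i (fun y => u y * (Φ y - Av w i Φ y)) x =
        1 / p i * (fp - fm) * (u (Function.update x i (a i)) - 1 / p i * S) := by
      have key : ∀ b : α i, w i b * (u (Function.update x i b) *
          (Φ (Function.update x i b) - Av w i Φ (Function.update x i b))) =
          (if b = a i then 1 / p i * (u (Function.update x i b) * (fp - fm)) else 0) -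
            1 / p i * (1 / p i * (fp - fm)) * u (Function.update x i b) := by
        intro b
        rw [Av_update, hm, hΦ]
        simp only
        rw [hit_update, hu i b]
        by_cases h : b = a i
        · rw [if_pos h, decide_eq_true h, ← hfp]
          ring
        · rw [if_neg h, decide_eq_false h, ← hfm]
          ring
      unfold Av at key ⊢
      rw [Finset.sum_congr rfl (fun b _ => key b), Finset.sum_sub_distrib,
        Finset.sum_ite_eq' univ (a i), if_pos (Finset.mem_univ _), ← Finset.mul_sum, ← hS]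
      ring
    have hqS : 1 / p i * S ≤ u (Function.update x i (a i)) + 1 / p i * T := by
      have e1 : u (Function.update x i (a i)) + 1 / p i * T =
          ∑ b : α i, (1 / p i * u (Function.update x i (a i)) +
            1 / p i * (if b ∈ R i then u (Function.update x i b) else 0)) := by
        rw [Finset.sum_add_distrib, ← Finset.sum_mul, hone, one_mul, hT, Finset.mul_sum]
      rw [e1, hS, Finset.mul_sum]
      refine Finset.sum_le_sum (fun b _ => ?_)
      rw [← mul_add]
      refine mul_le_mul_of_nonneg_left ?_ hq0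
      have ha := hu0 (Function.update x i (a i))
      by_cases hb : b ∈ R i
      · rw [if_pos hb]
        linarith
      · rw [if_neg hb, hins i x b hb, add_zero]
        exact hup i x
    rw [hleft, hright]
    have hq1 : 0 ≤ 1 / p i * (fp - fm) := mul_nonneg hq0 (by linarith)
    have s1 : 1 / p i * (fp - fm) * (-(1 / p i * T)) ≤
        1 / p i * (fp - fm) * (u (Function.update x i (a i)) - 1 / p i * S) :=
      mul_le_mul_of_nonneg_left (by linarith) hq1
    have s2 : 1 / p i * (fp - fm) * (1 / p i * T) ≤ 1 / p i * B * (1 / p i * T) :=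
      mul_le_mul_of_nonneg_right (mul_le_mul_of_nonneg_left hDB hq0) (by positivity)
    nlinarith [s1, s2]
  have h1 := Ev_mono hw main
  rw [Ev_smul, Ev_Av hw, Ev_Av hw] at h1
  have h2 : Ev w (fun x => u x * (Φ x - Av w i Φ x)) =
      Ev w (fun x => u x * Φ x) - Ev w (fun x => u x * Av w i Φ x) := by
    rw [← Ev_sub]
    exact Ev_congr (fun x => mul_sub _ _ _)
  have h3 : Ev w (fun x => u x * Av (wB (fun i => 1 / p i)) i φ (hit a x)) =
      Ev w (fun x => u x * Av w i Φ x) := Ev_congr (fun x => by rw [hAv x])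
  rw [h2] at h1
  rw [h3]
  linarith

omit [∀ i, Fintype (α i)] in
private theorem eq_of_all {φ : (ι → Bool) → ℝ}
    (h : ∀ i y b, φ (Function.update y i b) = φ y) (y y' : ι → Bool) : φ y = φ y' := by
  have key : ∀ s : Finset ι, φ (s.piecewise y y') = φ y' := by
    intro s
    induction s using Finset.induction_on with
    | empty => rw [Finset.piecewise_empty]
    | insert i s hi ih => rw [Finset.piecewise_insert, h, ih]
  rw [← key univ, Finset.piecewise_univ]

private theorem ind_P {w : ∀ i, α i → ℝ} (hw : Pw w) {p : ι → ℝ} (hu : ∀ i b, w i b = 1 / p i)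
    (hp : ∀ i, 1 ≤ p i) {R : ∀ i, Finset (α i)} {z : ∀ i, α i} {a : ∀ i, α i}
    {B : ℝ} {φ : (ι → Bool) → ℝ} (hφ : Monotone φ) (h0 : ∀ x, 0 ≤ φ x) (hB : ∀ x, φ x ≤ B)
    (hE : Ev (wB (fun i => 1 / p i)) φ = 1)
    {u : (∀ i, α i) → ℝ} (hu0 : ∀ x, 0 ≤ u x) (hins : Ins R z u)
    (hup : ∀ i x, u (Function.update x i (z i)) ≤ u (Function.update x i (a i)))
    (P : Finset ι) :
    ∃ ψ : (ι → Bool) → ℝ, Monotone ψ ∧ (∀ x, 0 ≤ ψ x) ∧ (∀ x, ψ x ≤ B) ∧
      Ev (wB (fun i => 1 / p i)) ψ = 1 ∧ (∀ i ∈ P, ∀ y b, ψ (Function.update y i b) = ψ y) ∧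
      Ev w (fun x => u x * ψ (hit a x)) -
        B * ∑ i ∈ P, 1 / p i * Ev w (fun x => if x i ∈ R i then u x else 0) ≤
          Ev w (fun x => u x * φ (hit a x)) := by
  have hq0 : ∀ i, 0 ≤ 1 / p i := fun i => by
    have := hp i
    positivity
  have hq1 : ∀ i, 1 / p i ≤ 1 := fun i => by
    rw [div_le_one (by linarith [hp i])]
    exact hp i
  have hwB : Pw (wB (fun i => 1 / p i)) := Pw_wB hq0 hq1
  induction P using Finset.induction_on with
  | empty => exact ⟨φ, hφ, h0, hB, hE, fun i hi => absurd hi (Finset.notMem_empty i), by simp⟩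
  | insert i P hi ih =>
    obtain ⟨ψ, m1, m2, m3, m4, m5, m6⟩ := ih
    have hval : ∀ y, Av (wB (fun i => 1 / p i)) i ψ y =
        1 / p i * ψ (Function.update y i true) + (1 - 1 / p i) * ψ (Function.update y i false) := by
      intro y
      unfold Av
      rw [Fintype.sum_bool]
      simp only [wB, if_true, Bool.false_eq_true, if_false]
    refine ⟨Av (wB (fun i => 1 / p i)) i ψ, ?_, ?_, ?_, ?_, ?_, ?_⟩
    · intro y y' hyy
      rw [hval, hval]
      have u1 : ψ (Function.update y i true) ≤ ψ (Function.update y' i true) := by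
        refine m1 ?_
        rw [update_le_update_iff]
        exact ⟨le_rfl, fun j _ => hyy j⟩
      have u2 : ψ (Function.update y i false) ≤ ψ (Function.update y' i false) := by
        refine m1 ?_
        rw [update_le_update_iff]
        exact ⟨le_rfl, fun j _ => hyy j⟩
      have := mul_le_mul_of_nonneg_left u1 (hq0 i)
      have := mul_le_mul_of_nonneg_left u2 (sub_nonneg.2 (hq1 i))
      linarith
    · intro y
      rw [hval]
      have := mul_nonneg (hq0 i) (m2 (Function.update y i true))
      have := mul_nonneg (sub_nonneg.2 (hq1 i)) (m2 (Function.update y i false))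
      linarith
    · intro y
      rw [hval]
      have := mul_le_mul_of_nonneg_left (m3 (Function.update y i true)) (hq0 i)
      have := mul_le_mul_of_nonneg_left (m3 (Function.update y i false)) (sub_nonneg.2 (hq1 i))
      linarith
    · rw [Ev_Av hwB, m4]
    · intro j hj y b
      rcases Finset.mem_insert.1 hj with rfl | hj'
      · exact Av_update _ _ _ _ _
      · have hne : j ≠ i := by
          rintro rfl
          exact hi hj'
        rw [hval, hval, Function.update_comm hne, Function.update_comm hne, m5 j hj', m5 j hj']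
    · rw [Finset.sum_insert hi, mul_add]
      have := step_le hw hu hp m1 m2 m3 hu0 hins hup i
      linarith

theorem cov_le {w : ∀ i, α i → ℝ} (hw : Pw w) {p : ι → ℝ} (hu : ∀ i b, w i b = 1 / p i)
    (hp : ∀ i, 1 ≤ p i) {R : ∀ i, Finset (α i)} {z : ∀ i, α i} {a : ∀ i, α i}
    {B : ℝ} {φ : (ι → Bool) → ℝ} (hφ : Monotone φ) (h0 : ∀ x, 0 ≤ φ x) (hB : ∀ x, φ x ≤ B)
    (hE : Ev (wB (fun i => 1 / p i)) φ = 1) {u : (∀ i, α i) → ℝ} (hu0 : ∀ x, 0 ≤ u x)
    (hins : Ins R z u)
    (hup : ∀ i x, u (Function.update x i (z i)) ≤ u (Function.update x i (a i))) :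
    Ev w u - B * ∑ i, 1 / p i * Ev w (fun x => if x i ∈ R i then u x else 0) ≤
      Ev w (fun x => u x * φ (hit a x)) := by
  obtain ⟨ψ, -, -, -, m4, m5, m6⟩ := ind_P hw hu hp hφ h0 hB hE hu0 hins hup univ
  have hq0 : ∀ i, 0 ≤ 1 / p i := fun i => by
    have := hp i
    positivity
  have hq1 : ∀ i, 1 / p i ≤ 1 := fun i => by
    rw [div_le_one (by linarith [hp i])]
    exact hp i
  have hc : ∀ y y', ψ y = ψ y' := eq_of_all (fun i y b => m5 i (Finset.mem_univ i) y b)
  have h1 : ∀ y, ψ y = 1 := by
    intro y
    rw [← m4, Ev_congr (fun x => hc x y), Ev_const (Pw_wB hq0 hq1)]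
  have h2 : Ev w (fun x => u x * ψ (hit a x)) = Ev w u := by
    refine Ev_congr (fun x => ?_)
    rw [h1, mul_one]
  rw [h2] at m6
  exact m6

end Pool.Agent.UIV
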