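import Pool.Agent.UIV.Enr
import Pool.Agent.UIV.Cov
import Pool.Agent.RS.Base

/-! UIV/Cmp.  The competitor with given components.

`e i true = -1`, `e i false = 1/(p i - 1)`, `eS x = ∏_{i∈S} e i (x i)`, `g x = ∑_S y S * eS x`.
`∑_b wB q i b * e i b = 0`, `∑_b wB q i b * (e i b)^2 = 1/(p i - 1)` (`q i = 1/p i`).
`Cm S' eS = [S = S'] eS` (`Tk (kC w S')` of a product: `∏_i (∑_b kC i (x i) b * (if i ∈ S then e i b else 1))`,
`Finset.prod_univ_sum`; the factor is `e i (x i)` for `i ∈ S ∩ S'`, `1` for `i ∉ S ∪ S'`, `0` otherwise), so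
`Cm S g = y S * eS` (`Cm_sum`, `Cm_smul`), `Ev (eS^2) = 1/PH S`, and `En_eq` gives the energy.
`Ev g = y ∅ = 1` (`Ev eS = 0` for `S ≠ ∅`).
`g x = 0` for `cnt x ≤ d`: with `H = {i : x i = true}`,
`eS x = (1/PH S) ∏_{i∈S∩H} (1 - p i) = (1/PH S) ∑_{T ⊆ S∩H} ∏_{i∈T} (-p i)` (`Finset.prod_add`), so
`g x = ∑_{T⊆H} ∏_{i∈T} (-p i) ∑_{S ⊇ T} y S/PH S = 0` as `T.card ≤ H.card ≤ d`. -/

namespace Pool.Agent.UIV

open Finset Pool.Agent.RS

variable {ι : Type} [Fintype ι] [DecidableEq ι]

private noncomputable def ceE (p : ι → ℕ) (i : ι) (b : Bool) : ℝ :=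
  if b then -1 else 1 / ((p i : ℝ) - 1)

private noncomputable def ceS (p : ι → ℕ) (S : Finset ι) (x : ι → Bool) : ℝ :=
  ∏ i, if i ∈ S then ceE p i (x i) else 1

private noncomputable def ceW (p : ι → ℕ) : ι → Bool → ℝ := wB (fun i => 1 / (p i : ℝ))

private theorem ceW_pw {p : ι → ℕ} (hp : ∀ i, 2 ≤ p i) : Pw (α := fun _ : ι => Bool) (ceW p) := by
  refine Pw_wB (fun i => by positivity) (fun i => ?_)
  have h : (2 : ℝ) ≤ p i := by exact_mod_cast hp i
  rw [div_le_one (by linarith)]
  linarith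

private theorem ce_one {p : ι → ℕ} (hp : ∀ i, 2 ≤ p i) (i : ι) :
    ∑ b, ceW p i b * ceE p i b = 0 := by
  have h : (2 : ℝ) ≤ p i := by exact_mod_cast hp i
  have h1 : (p i : ℝ) ≠ 0 := by linarith
  have h2 : (p i : ℝ) - 1 ≠ 0 := by linarith
  rw [Fintype.sum_bool]
  simp only [ceW, wB, ceE, if_true, Bool.false_eq_true, if_false]
  field_simp
  ring

private theorem ce_two {p : ι → ℕ} (hp : ∀ i, 2 ≤ p i) (i : ι) :
    ∑ b, ceW p i b * ceE p i b ^ 2 = 1 / ((p i : ℝ) - 1) := by
  have h : (2 : ℝ) ≤ p i := by exact_mod_cast hp i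
  have h1 : (p i : ℝ) ≠ 0 := by linarith
  have h2 : (p i : ℝ) - 1 ≠ 0 := by linarith
  rw [Fintype.sum_bool]
  simp only [ceW, wB, ceE, if_true, Bool.false_eq_true, if_false]
  field_simp
  ring

private theorem ce_prod (k u : ι → Bool → ℝ) :
    ∑ y : ι → Bool, (∏ i, k i (y i)) * ∏ i, u i (y i) = ∏ i, ∑ b, k i b * u i b := by
  rw [Finset.prod_univ_sum, Fintype.piFinset_univ]
  exact sum_congr rfl fun y _ => by rw [prod_mul_distrib]

private theorem ce_Cm {p : ι → ℕ} (hp : ∀ i, 2 ≤ p i) (S S' : Finset ι) (x : ι → Bool) :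
    Cm (ceW p) S' (ceS p S) x = if S = S' then ceS p S x else 0 := by
  have hw := ceW_pw hp
  have h1 : Cm (ceW p) S' (ceS p S) x =
      ∏ i, ∑ b, kC (ceW p) S' i (x i) b * (if i ∈ S then ceE p i b else 1) := by
    rw [← ce_prod]
    rfl
  have hfac : ∀ i, ∑ b, kC (ceW p) S' i (x i) b * (if i ∈ S then ceE p i b else 1) =
      if i ∈ S' then (if i ∈ S then ceE p i (x i) else 0) else (if i ∈ S then 0 else 1) := by
    intro i
    by_cases h2 : i ∈ S' <;> by_cases h3 : i ∈ S
    · rw [if_pos h2, if_pos h3]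
      have h4 : ∀ b, kC (ceW p) S' i (x i) b * (if i ∈ S then ceE p i b else 1) =
          (if x i = b then ceE p i b else 0) - ceW p i b * ceE p i b := by
        intro b
        rw [kC, if_pos h2, if_pos h3]
        split_ifs <;> ring
      rw [sum_congr rfl fun b _ => h4 b, sum_sub_distrib, ce_one hp i, sum_ite_eq,
        if_pos (mem_univ _), sub_zero]
    · rw [if_pos h2, if_neg h3]
      have h4 : ∀ b, kC (ceW p) S' i (x i) b * (if i ∈ S then ceE p i b else 1) =
          (if x i = b then 1 else 0) - ceW p i b := by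
        intro b
        rw [kC, if_pos h2, if_neg h3, mul_one]
      rw [sum_congr rfl fun b _ => h4 b, sum_sub_distrib, hw.one i, sum_ite_eq,
        if_pos (mem_univ _), sub_self]
    · rw [if_neg h2, if_pos h3]
      have h4 : ∀ b, kC (ceW p) S' i (x i) b * (if i ∈ S then ceE p i b else 1) =
          ceW p i b * ceE p i b := by
        intro b
        rw [kC, if_neg h2, if_pos h3]
      rw [sum_congr rfl fun b _ => h4 b, ce_one hp i]
    · rw [if_neg h2, if_neg h3]
      have h4 : ∀ b, kC (ceW p) S' i (x i) b * (if i ∈ S then ceE p i b else 1) =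
          ceW p i b := by
        intro b
        rw [kC, if_neg h2, if_neg h3, mul_one]
      rw [sum_congr rfl fun b _ => h4 b, hw.one i]
  rw [h1, prod_congr rfl fun i _ => hfac i]
  by_cases hS : S = S'
  · subst hS
    rw [if_pos rfl, ceS]
    refine prod_congr rfl fun i _ => ?_
    split_ifs <;> rfl
  · rw [if_neg hS]
    obtain ⟨i, hi⟩ : ∃ i, ¬ (i ∈ S ↔ i ∈ S') := by
      by_contra h
      push Not at h
      exact hS (Finset.ext h)
    refine prod_eq_zero (mem_univ i) ?_
    by_cases h2 : i ∈ S' <;> by_cases h3 : i ∈ S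
    · exact absurd ⟨fun _ => h2, fun _ => h3⟩ hi
    · rw [if_pos h2, if_neg h3]
    · rw [if_neg h2, if_pos h3]
    · exact absurd ⟨fun h => absurd h h3, fun h => absurd h h2⟩ hi

private theorem ce_Ev_sq {p : ι → ℕ} (hp : ∀ i, 2 ≤ p i) (S : Finset ι) :
    Ev (ceW p) (fun x => ceS p S x ^ 2) = 1 / PH p S := by
  have hw := ceW_pw hp
  have h1 : Ev (ceW p) (fun x => ceS p S x ^ 2) =
      ∏ i, ∑ b, ceW p i b * (if i ∈ S then ceE p i b else 1) ^ 2 := by
    rw [← ce_prod]
    unfold Ev ceS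
    refine sum_congr rfl fun x _ => ?_
    simp only
    rw [← prod_pow]
  have hfac : ∀ i, ∑ b, ceW p i b * (if i ∈ S then ceE p i b else 1) ^ 2 =
      if i ∈ S then 1 / ((p i : ℝ) - 1) else 1 := by
    intro i
    by_cases h3 : i ∈ S
    · simp only [if_pos h3]
      exact ce_two hp i
    · simp only [if_neg h3, one_pow, mul_one]
      exact hw.one i
  rw [h1, prod_congr rfl fun i _ => hfac i, Finset.prod_ite_mem, univ_inter]
  unfold PH
  rw [one_div, ← prod_inv_distrib]
  exact prod_congr rfl fun i _ => one_div _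

private theorem ce_Ev {p : ι → ℕ} (hp : ∀ i, 2 ≤ p i) (S : Finset ι) :
    Ev (ceW p) (ceS p S) = if S = ∅ then 1 else 0 := by
  have hw := ceW_pw hp
  have h1 : Ev (ceW p) (ceS p S) =
      ∏ i, ∑ b, ceW p i b * (if i ∈ S then ceE p i b else 1) := by
    rw [← ce_prod]
    rfl
  by_cases hS : S = ∅
  · rw [h1, if_pos hS]
    refine prod_eq_one fun i _ => ?_
    rw [hS]
    simp only [notMem_empty, if_false, mul_one]
    exact hw.one i
  · rw [h1, if_neg hS]
    obtain ⟨i, hi⟩ := nonempty_iff_ne_empty.2 hS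
    refine prod_eq_zero (mem_univ i) ?_
    simp only [if_pos hi]
    exact ce_one hp i

private theorem ce_expand {p : ι → ℕ} (hp : ∀ i, 2 ≤ p i) (S : Finset ι) (x : ι → Bool) :
    ceS p S x = ∑ T ∈ S.powerset, (∏ i ∈ T, if x i = true then -(p i : ℝ) else 0) / PH p S := by
  rw [← sum_div, ← Finset.prod_one_add, eq_div_iff]
  · unfold ceS PH
    rw [Finset.prod_ite_mem, univ_inter, ← prod_mul_distrib]
    refine prod_congr rfl fun i _ => ?_
    have h : (2 : ℝ) ≤ p i := by exact_mod_cast hp i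
    have h2 : (p i : ℝ) - 1 ≠ 0 := by linarith
    unfold ceE
    by_cases hx : x i = true
    · rw [if_pos hx, if_pos hx]
      ring
    · rw [if_neg hx, if_neg hx]
      field_simp
      ring
  · unfold PH
    refine prod_ne_zero_iff.2 fun i _ => ?_
    have h : (2 : ℝ) ≤ p i := by exact_mod_cast hp i
    linarith

theorem exists_cmp {p : ι → ℕ} (hp : ∀ i, 2 ≤ p i) {d : ℕ} {y : Finset ι → ℝ} (hy0 : y ∅ = 1)
    (hy : ∀ T : Finset ι, T.card ≤ d →
      ∑ S ∈ (univ : Finset (Finset ι)).filter (fun S => T ⊆ S), y S / PH p S = 0) :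
    ∃ g : (ι → Bool) → ℝ, (∀ x, cnt x < d + 1 → g x = 0) ∧
      Ev (wB (fun i => 1 / (p i : ℝ))) g = 1 ∧
      En (wB (fun i => 1 / (p i : ℝ))) (fun i => Real.log (p i)) g =
        ∑ S ∈ (univ : Finset (Finset ι)).filter (fun S => S ≠ ∅),
          y S ^ 2 / PH p S * Real.log (PP p S) := by
  have hw := ceW_pw hp
  refine ⟨fun x => ∑ S : Finset ι, y S * ceS p S x, ?_, ?_, ?_⟩
  · intro x hx
    have h1 : ∀ S ∈ (univ : Finset (Finset ι)), y S * ceS p S x =
        ∑ T ∈ S.powerset, (∏ i ∈ T, if x i = true then -(p i : ℝ) else 0) * (y S / PH p S) := by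
      intro S _
      rw [ce_expand hp, mul_sum]
      exact sum_congr rfl fun T _ => by ring
    show ∑ S : Finset ι, y S * ceS p S x = 0
    rw [sum_congr rfl h1, sum_comm' (t' := univ)
      (s' := fun T => (univ : Finset (Finset ι)).filter (fun S => T ⊆ S))]
    · refine sum_eq_zero fun T _ => ?_
      rw [← mul_sum]
      by_cases hT : T.card ≤ d
      · rw [hy T hT, mul_zero]
      · have h2 : ∃ i ∈ T, x i ≠ true := by
          by_contra h
          push Not at h
          apply hT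
          have h3 : T ⊆ univ.filter (fun i => x i = true) := fun i hi =>
            mem_filter.2 ⟨mem_univ i, h i hi⟩
          have h4 := card_le_card h3
          have h5 : (univ.filter (fun i => x i = true)).card < d + 1 := hx
          omega
        obtain ⟨i, hi, hxi⟩ := h2
        rw [prod_eq_zero hi (if_neg hxi), zero_mul]
    · intro S T
      simp only [mem_univ, mem_powerset, mem_filter, true_and, and_true]
  · show Ev (ceW p) (fun x => ∑ S : Finset ι, y S * ceS p S x) = 1
    rw [Ev_sum (ceW p) univ (fun S x => y S * ceS p S x)]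
    have h1 : ∀ S ∈ (univ : Finset (Finset ι)), Ev (ceW p) (fun x => y S * ceS p S x) =
        if S = ∅ then y S else 0 := by
      intro S _
      rw [Ev_smul, ce_Ev hp]
      split_ifs <;> ring
    rw [sum_congr rfl h1, sum_ite_eq', if_pos (mem_univ _), hy0]
  · show En (ceW p) (fun i => Real.log (p i)) (fun x => ∑ S : Finset ι, y S * ceS p S x) = _
    have hCm : ∀ (S' : Finset ι) (x : ι → Bool),
        Cm (ceW p) S' (fun x => ∑ S : Finset ι, y S * ceS p S x) x = y S' * ceS p S' x := by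
      intro S' x
      rw [Cm_sum S' univ (fun S x => y S * ceS p S x)]
      have h1 : ∀ S ∈ (univ : Finset (Finset ι)), Cm (ceW p) S' (fun x => y S * ceS p S x) x =
          if S = S' then y S * ceS p S x else 0 := by
        intro S _
        rw [Cm_smul, ce_Cm hp]
        split_ifs <;> ring
      rw [sum_congr rfl h1, sum_ite_eq', if_pos (mem_univ _)]
    rw [En_eq hw, sum_filter]
    refine sum_congr rfl fun S _ => ?_
    have h2 : Ev (ceW p) (fun x => Cm (ceW p) S (fun x => ∑ S : Finset ι, y S * ceS p S x) x ^ 2) =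
        y S ^ 2 * (1 / PH p S) := by
      rw [← ce_Ev_sq hp, ← Ev_smul]
      refine Ev_congr fun x => ?_
      rw [hCm]
      ring
    rw [h2]
    by_cases hS : S = ∅
    · rw [if_neg (not_not.2 hS), hS, sum_empty, zero_mul]
    · rw [if_pos hS]
      have h3 : Real.log (PP p S) = ∑ i ∈ S, Real.log (p i) := by
        unfold PP
        rw [Real.log_prod]
        intro i _
        have h : (2 : ℝ) ≤ p i := by exact_mod_cast hp i
        linarith
      rw [h3]
      ring

end Pool.Agent.UIV
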