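import Pool.Agent.UIV.TkA

/-! UIV/Comp.  The decomposition `f = ∑_S Cm w S f` (Efron-Stein / Hoeffding): the components, their
orthogonality, the noise operator and the averages in terms of the components. -/

namespace Pool.Agent.UIV

open Finset

variable {ι : Type} [Fintype ι] [DecidableEq ι] {α : ι → Type} [∀ i, Fintype (α i)]
  [∀ i, DecidableEq (α i)]

omit [Fintype ι] [DecidableEq ι] in
private theorem sum_delta_left (i : ι) (a : α i) (h : α i → ℝ) :
    ∑ c, (if a = c then (1 : ℝ) else 0) * h c = h a := by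
  rw [Finset.sum_eq_single a]
  · rw [if_pos rfl, one_mul]
  · intro c _ hc
    rw [if_neg fun h => hc h.symm, zero_mul]
  · intro h
    exact absurd (Finset.mem_univ a) h

omit [Fintype ι] [DecidableEq ι] in
private theorem sum_delta_right (i : ι) (b : α i) (h : α i → ℝ) :
    ∑ c, h c * (if c = b then (1 : ℝ) else 0) = h b := by
  rw [Finset.sum_eq_single b]
  · rw [if_pos rfl, mul_one]
  · intro c _ hc
    rw [if_neg hc, mul_zero]
  · intro h
    exact absurd (Finset.mem_univ b) h

omit [Fintype ι] in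
private theorem sum_kC_mul {w : ∀ i, α i → ℝ} (hw : Pw w) (S : Finset ι) (i : ι) (a : α i) (r : ℝ) :
    ∑ c, kC w S i a c * r = if i ∈ S then 0 else r := by
  unfold kC
  by_cases hi : i ∈ S
  · rw [if_pos hi]
    have h1 : ∀ c : α i, (if i ∈ S then (if a = c then 1 else 0) - w i c else w i c) * r =
        (if a = c then (1 : ℝ) else 0) * r - w i c * r := by
      intro c
      rw [if_pos hi, sub_mul]
    rw [Finset.sum_congr rfl fun c _ => h1 c, Finset.sum_sub_distrib, sum_delta_left i a fun _ => r,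
      ← Finset.sum_mul, hw.one i, one_mul, sub_self]
  · rw [if_neg hi]
    have h1 : ∀ c : α i, (if i ∈ S then (if a = c then 1 else 0) - w i c else w i c) * r =
        w i c * r := by
      intro c
      rw [if_neg hi]
    rw [Finset.sum_congr rfl fun c _ => h1 c, ← Finset.sum_mul, hw.one i, one_mul]

omit [Fintype ι] in
private theorem sum_mul_kC {w : ∀ i, α i → ℝ} (hw : Pw w) (S : Finset ι) (i : ι) (b : α i) :
    ∑ c, w i c * kC w S i c b = if i ∈ S then 0 else w i b := by
  unfold kC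
  by_cases hi : i ∈ S
  · rw [if_pos hi]
    have h1 : ∀ c : α i, w i c * (if i ∈ S then (if c = b then 1 else 0) - w i b else w i b) =
        w i c * (if c = b then (1 : ℝ) else 0) - w i c * w i b := by
      intro c
      rw [if_pos hi, mul_sub]
    rw [Finset.sum_congr rfl fun c _ => h1 c, Finset.sum_sub_distrib, sum_delta_right i b,
      ← Finset.sum_mul, hw.one i, one_mul, sub_self]
  · rw [if_neg hi]
    have h1 : ∀ c : α i, w i c * (if i ∈ S then (if c = b then 1 else 0) - w i b else w i b) =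
        w i c * w i b := by
      intro c
      rw [if_neg hi]
    rw [Finset.sum_congr rfl fun c _ => h1 c, ← Finset.sum_mul, hw.one i, one_mul]

omit [Fintype ι] in
private theorem kC_comp {w : ∀ i, α i → ℝ} (hw : Pw w) (S S' : Finset ι) (i : ι) (a b : α i) :
    ∑ c, kC w S i a c * kC w S' i c b = if i ∈ S ↔ i ∈ S' then kC w S i a b else 0 := by
  by_cases hi : i ∈ S
  · have h1 : ∀ c : α i, kC w S i a c * kC w S' i c b =
        (if a = c then (1 : ℝ) else 0) * kC w S' i c b - w i c * kC w S' i c b := by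
      intro c
      conv_lhs => rw [kC, if_pos hi]
      rw [sub_mul]
    rw [Finset.sum_congr rfl fun c _ => h1 c, Finset.sum_sub_distrib, sum_delta_left i a,
      sum_mul_kC hw]
    by_cases hi' : i ∈ S'
    · rw [if_pos hi', sub_zero, if_pos ⟨fun _ => hi', fun _ => hi⟩, kC, kC, if_pos hi, if_pos hi']
    · rw [if_neg hi', if_neg fun h => hi' (h.1 hi), kC, if_neg hi', sub_self]
  · have h1 : ∀ c : α i, kC w S i a c * kC w S' i c b = w i c * kC w S' i c b := by
      intro c
      conv_lhs => rw [kC, if_neg hi]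
    rw [Finset.sum_congr rfl fun c _ => h1 c, sum_mul_kC hw]
    by_cases hi' : i ∈ S'
    · rw [if_pos hi', if_neg fun h => hi (h.2 hi')]
    · rw [if_neg hi', if_pos ⟨fun h => absurd h hi, fun h => absurd h hi'⟩, kC, if_neg hi]

theorem sum_Cm {w : ∀ i, α i → ℝ} (f : (∀ i, α i) → ℝ) (x : ∀ i, α i) :
    ∑ S : Finset ι, Cm w S f x = f x := by
  have h := Tk_expand (fun _ => 1) (fun i a b => (if a = b then 1 else 0) - w i b)
    (fun i _ b => w i b) f x
  have h1 : (fun (i : ι) (a b : α i) => (1 : ℝ) * ((if a = b then 1 else 0) - w i b) + w i b) =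
      fun i a b => if a = b then 1 else 0 := by
    funext i a b
    ring
  rw [h1, Tk_id] at h
  rw [h]
  refine Finset.sum_congr rfl fun S _ => ?_
  rw [Finset.prod_const_one, one_mul]
  rfl

theorem Nz_eq {w : ∀ i, α i → ℝ} (θ : ι → ℝ) (f : (∀ i, α i) → ℝ) (x : ∀ i, α i) :
    Nz w θ f x = ∑ S : Finset ι, (∏ i ∈ S, (1 - θ i)) * Cm w S f x := by
  have h := Tk_expand (fun i => 1 - θ i) (fun i a b => (if a = b then 1 else 0) - w i b)
    (fun i _ b => w i b) f x
  have h1 : (fun (i : ι) (a b : α i) => (1 - θ i) * ((if a = b then 1 else 0) - w i b) + w i b) =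
      kN w θ := by
    funext i a b
    unfold kN
    ring
  rw [h1] at h
  unfold Nz
  rw [h]
  rfl

theorem Cm_Cm {w : ∀ i, α i → ℝ} (hw : Pw w) (S S' : Finset ι) (f : (∀ i, α i) → ℝ)
    (x : ∀ i, α i) : Cm w S (Cm w S' f) x = if S = S' then Cm w S f x else 0 := by
  have h : Cm w S (Cm w S' f) x =
      Tk (fun i a b => ∑ c, kC w S i a c * kC w S' i c b) f x := by
    rw [← Tk_comp]
    rfl
  rw [h]
  by_cases hS : S = S'
  · rw [if_pos hS]
    have h1 : (fun (i : ι) (a b : α i) => ∑ c, kC w S i a c * kC w S' i c b) = kC w S := by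
      funext i a b
      rw [kC_comp hw, if_pos (by rw [hS])]
    rw [h1]
    rfl
  · rw [if_neg hS]
    obtain ⟨i, hi⟩ : ∃ i, ¬ (i ∈ S ↔ i ∈ S') := by
      by_contra h1
      push Not at h1
      exact hS (Finset.ext h1)
    unfold Tk
    refine Finset.sum_eq_zero fun y _ => ?_
    rw [Finset.prod_eq_zero (Finset.mem_univ i), zero_mul]
    dsimp only
    rw [kC_comp hw, if_neg hi]

theorem Cm_adj {w : ∀ i, α i → ℝ} (S : Finset ι) (f g : (∀ i, α i) → ℝ) :
    Ev w (fun x => Cm w S f x * g x) = Ev w (fun x => f x * Cm w S g x) := by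
  refine Tk_adj (k := kC w S) (k' := kC w S) ?_ f g
  intro i a b
  unfold kC
  by_cases hi : i ∈ S
  · rw [if_pos hi, if_pos hi]
    by_cases hab : a = b
    · rw [if_pos hab, if_pos hab.symm, hab]
    · rw [if_neg hab, if_neg fun h => hab h.symm]
      ring
  · rw [if_neg hi, if_neg hi, mul_comm]

theorem Cm_orth {w : ∀ i, α i → ℝ} (hw : Pw w) {S S' : Finset ι} (h : S ≠ S')
    (f g : (∀ i, α i) → ℝ) : Ev w (fun x => Cm w S f x * Cm w S' g x) = 0 := by
  have h1 := Cm_adj (w := w) S f (Cm w S' g)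
  rw [h1]
  unfold Ev
  refine Finset.sum_eq_zero fun x _ => ?_
  dsimp only
  rw [Cm_Cm hw, if_neg h, mul_zero, mul_zero]

theorem Ev_mul {w : ∀ i, α i → ℝ} (hw : Pw w) (f g : (∀ i, α i) → ℝ) :
    Ev w (fun x => f x * g x) = ∑ S : Finset ι, Ev w (fun x => Cm w S f x * Cm w S g x) := by
  have h1 : ∀ S : Finset ι, Ev w (fun x => Cm w S f x * Cm w S g x) =
      Ev w (fun x => f x * Cm w S g x) := by
    intro S
    rw [Cm_adj (w := w) S f (Cm w S g)]
    unfold Ev
    refine Finset.sum_congr rfl fun x _ => ?_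
    dsimp only
    rw [Cm_Cm hw, if_pos rfl]
  rw [Finset.sum_congr rfl fun S _ => h1 S]
  unfold Ev
  rw [Finset.sum_comm]
  refine Finset.sum_congr rfl fun x _ => ?_
  dsimp only
  rw [← Finset.mul_sum, ← Finset.mul_sum, sum_Cm]

theorem Cm_dep {w : ∀ i, α i → ℝ} (S : Finset ι) (f : (∀ i, α i) → ℝ) : Dep S (Cm w S f) := by
  refine Tk_dep (k := kC w S) (S := S) ?_ f
  intro i hi a a' b
  unfold kC
  rw [if_neg hi, if_neg hi]

theorem Cm_zero {w : ∀ i, α i → ℝ} (hw : Pw w) {S S' : Finset ι} (h : ¬ S ⊆ S')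
    {f : (∀ i, α i) → ℝ} (hf : Dep S' f) (x : ∀ i, α i) : Cm w S f x = 0 := by
  obtain ⟨i, hi, hi'⟩ := Finset.not_subset.1 h
  refine Tk_dep_zero (k := kC w S) hi' ?_ hf x
  intro a
  have h1 := sum_kC_mul hw S i a 1
  rw [if_pos hi] at h1
  rw [← h1]
  exact Finset.sum_congr rfl fun c _ => (mul_one _).symm

theorem Cm_add {w : ∀ i, α i → ℝ} (S : Finset ι) (f g : (∀ i, α i) → ℝ) (x : ∀ i, α i) :
    Cm w S (fun y => f y + g y) x = Cm w S f x + Cm w S g x :=
  Tk_add (kC w S) f g x

theorem Cm_smul {w : ∀ i, α i → ℝ} (S : Finset ι) (c : ℝ) (f : (∀ i, α i) → ℝ) (x : ∀ i, α i) :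
    Cm w S (fun y => c * f y) x = c * Cm w S f x :=
  Tk_smul (kC w S) c f x

theorem Cm_sum {β : Type} {w : ∀ i, α i → ℝ} (S : Finset ι) (s : Finset β)
    (f : β → (∀ i, α i) → ℝ) (x : ∀ i, α i) :
    Cm w S (fun y => ∑ b ∈ s, f b y) x = ∑ b ∈ s, Cm w S (f b) x :=
  Tk_sum s (kC w S) f x

theorem Cm_Av {w : ∀ i, α i → ℝ} (hw : Pw w) (S : Finset ι) (i : ι) (f : (∀ i, α i) → ℝ)
    (x : ∀ i, α i) : Cm w S (Av w i f) x = if i ∈ S then 0 else Cm w S f x := by
  have h : Cm w S (Av w i f) x = Tk (fun j a b => ∑ c, kC w S j a c *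
      (if j = i then w j b else (if c = b then 1 else 0))) f x := by
    rw [← Tk_comp, Av_eq_Tk]
    rfl
  rw [h]
  by_cases hi : i ∈ S
  · rw [if_pos hi]
    unfold Tk
    refine Finset.sum_eq_zero fun y _ => ?_
    rw [Finset.prod_eq_zero (Finset.mem_univ i), zero_mul]
    dsimp only
    have h1 : ∀ c : α i, kC w S i (x i) c * (if i = i then w i (y i) else
        (if c = y i then 1 else 0)) = kC w S i (x i) c * w i (y i) := by
      intro c
      rw [if_pos rfl]
    rw [Finset.sum_congr rfl fun c _ => h1 c, sum_kC_mul hw, if_pos hi]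
  · rw [if_neg hi]
    have h1 : (fun (j : ι) (a b : α j) => ∑ c, kC w S j a c *
        (if j = i then w j b else (if c = b then 1 else 0))) = kC w S := by
      funext j a b
      by_cases hj : j = i
      · subst hj
        have h2 : ∀ c : α j, kC w S j a c * (if j = j then w j b else
            (if c = b then 1 else 0)) = kC w S j a c * w j b := by
          intro c
          rw [if_pos rfl]
        rw [Finset.sum_congr rfl fun c _ => h2 c, sum_kC_mul hw, if_neg hi, kC, if_neg hi]
      · have h2 : ∀ c : α j, kC w S j a c * (if j = i then w j b else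
            (if c = b then 1 else 0)) = kC w S j a c * (if c = b then 1 else 0) := by
          intro c
          rw [if_neg hj]
        rw [Finset.sum_congr rfl fun c _ => h2 c]
        exact sum_delta_right j b fun c => kC w S j a c
    rw [h1]
    rfl

theorem sub_Av {w : ∀ i, α i → ℝ} (hw : Pw w) (i : ι) (f : (∀ i, α i) → ℝ) (x : ∀ i, α i) :
    f x - Av w i f x = ∑ S ∈ (univ : Finset (Finset ι)).filter (fun S => i ∈ S), Cm w S f x := by
  have h1 := sum_Cm (w := w) f x
  have h2 := sum_Cm (w := w) (Av w i f) x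
  rw [← h1, ← h2, ← Finset.sum_sub_distrib, Finset.sum_filter]
  refine Finset.sum_congr rfl fun S _ => ?_
  rw [Cm_Av hw]
  by_cases hi : i ∈ S
  · rw [if_pos hi, if_pos hi, sub_zero]
  · rw [if_neg hi, if_neg hi, sub_self]

end Pool.Agent.UIV
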