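import Mathlib

/-! UIV/ParU.  Arithmetic of the parameters: `lam = Nat.log 2 L`, `k = 2^(lam/8)`, `s = lam/d`. -/

namespace Pool.Agent.UIV

private theorem pu_grow (A : ℝ) : ∃ m0 : ℕ, ∀ m : ℕ, m0 ≤ m → A * ((m : ℝ) + 1) ^ 3 ≤ 2 ^ m := by
  have h := tendsto_pow_const_div_const_pow_of_one_lt 3 (r := (2 : ℝ)) (by norm_num)
  have hA : 0 < 1 / (2 * (|A| + 1)) := by positivity
  obtain ⟨n0, hn0⟩ := Filter.eventually_atTop.1 (h.eventually_lt_const hA)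
  refine ⟨n0, fun m hm => ?_⟩
  have h1 := hn0 (m + 1) (by omega)
  rw [div_lt_div_iff₀ (by positivity) (by positivity), one_mul, pow_succ (2 : ℝ) m] at h1
  push_cast at h1
  have h2 : A * ((m : ℝ) + 1) ^ 3 ≤ (|A| + 1) * ((m : ℝ) + 1) ^ 3 :=
    mul_le_mul_of_nonneg_right (by linarith [le_abs_self A]) (by positivity)
  linarith

/-- the comparison for the last inequality -/
private theorem pu_last {r : ℕ} {lam d K M : ℝ} (hM : 1 ≤ M) (hl0 : 0 ≤ lam) (hl : lam ≤ 8 * M) (hK : 1 ≤ K)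
    (hd : K ^ 6 ≤ d) (hA : 4 * Real.exp 11 * (768 * r + 8) * M ^ 3 < K) :
    4 * r * Real.exp 9 * lam ^ 2 * K ^ 2 * (K + 2) / d + 8 * Real.exp 9 * K / K ^ 8 <
      Real.exp (-2) / (4 * K) := by
  have hK0 : 0 < K := by linarith
  have hd0 : 0 < d := lt_of_lt_of_le (by positivity) hd
  have h1 : 4 * r * Real.exp 9 * lam ^ 2 * K ^ 2 * (K + 2) / d ≤ 768 * r * Real.exp 9 * M ^ 3 / K ^ 3 := by
    rw [div_le_div_iff₀ hd0 (by positivity)]
    have e1 : lam ^ 2 ≤ 64 * M ^ 3 := by nlinarith [pow_le_pow_right₀ hM (show 2 ≤ 3 by norm_num)]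
    have e2 : K ^ 2 * (K + 2) * K ^ 3 ≤ 3 * d := by
      have : K + 2 ≤ 3 * K := by linarith
      calc K ^ 2 * (K + 2) * K ^ 3 ≤ K ^ 2 * (3 * K) * K ^ 3 := by gcongr
        _ = 3 * K ^ 6 := by ring
        _ ≤ 3 * d := by linarith
    have hr : (0 : ℝ) ≤ r := Nat.cast_nonneg r
    calc 4 * r * Real.exp 9 * lam ^ 2 * K ^ 2 * (K + 2) * K ^ 3 =
          4 * r * Real.exp 9 * lam ^ 2 * (K ^ 2 * (K + 2) * K ^ 3) := by ring
      _ ≤ 4 * r * Real.exp 9 * (64 * M ^ 3) * (3 * d) := by gcongr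
      _ = 768 * r * Real.exp 9 * M ^ 3 * d := by ring
  have h2 : 8 * Real.exp 9 * K / K ^ 8 ≤ 8 * Real.exp 9 * M ^ 3 / K ^ 3 := by
    rw [div_le_div_iff₀ (by positivity) (by positivity)]
    have e1 : (1 : ℝ) ≤ M ^ 3 := one_le_pow₀ hM
    have e2 : K ^ 4 ≤ K ^ 8 := pow_le_pow_right₀ hK (by norm_num)
    calc 8 * Real.exp 9 * K * K ^ 3 = 8 * Real.exp 9 * 1 * K ^ 4 := by ring
      _ ≤ 8 * Real.exp 9 * M ^ 3 * K ^ 8 := by gcongr
  have h3 : 768 * r * Real.exp 9 * M ^ 3 / K ^ 3 + 8 * Real.exp 9 * M ^ 3 / K ^ 3 <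
      Real.exp (-2) / (4 * K) := by
    rw [← add_div, div_lt_div_iff₀ (by positivity) (by positivity)]
    have e1 : Real.exp 11 * Real.exp (-2) = Real.exp 9 := by
      rw [← Real.exp_add]
      norm_num
    have e2 : Real.exp (-2) * (4 * Real.exp 11 * (768 * r + 8) * M ^ 3) < Real.exp (-2) * K :=
      mul_lt_mul_of_pos_left hA (Real.exp_pos _)
    have e3 : K ≤ K ^ 2 := le_self_pow₀ hK (by norm_num)
    have e4 : Real.exp (-2) * K ≤ Real.exp (-2) * K ^ 2 := mul_le_mul_of_nonneg_left e3 (Real.exp_pos _).le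
    have e5 : (768 * r * Real.exp 9 * M ^ 3 + 8 * Real.exp 9 * M ^ 3) * 4 < Real.exp (-2) * K ^ 2 := by
      calc (768 * r * Real.exp 9 * M ^ 3 + 8 * Real.exp 9 * M ^ 3) * 4 =
            Real.exp (-2) * (4 * Real.exp 11 * (768 * r + 8) * M ^ 3) := by rw [← e1]; ring
        _ < Real.exp (-2) * K := e2
        _ ≤ Real.exp (-2) * K ^ 2 := e4
    calc (768 * r * Real.exp 9 * M ^ 3 + 8 * Real.exp 9 * M ^ 3) * (4 * K) =
          (768 * r * Real.exp 9 * M ^ 3 + 8 * Real.exp 9 * M ^ 3) * 4 * K := by ring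
      _ < Real.exp (-2) * K ^ 2 * K := mul_lt_mul_of_pos_right e5 hK0
      _ = Real.exp (-2) * K ^ 3 := by ring
  linarith

theorem par_u (r : ℕ) (C : ℝ) (hC : 0 < C) : ∃ L0 : ℕ, ∀ L d : ℕ, L0 ≤ L → L ^ 3 ≤ d ^ 4 →
    d ≤ L → ∀ lam k : ℕ, lam = Nat.log 2 L → k = 2 ^ (lam / 8) →
    10 ≤ lam ∧ 4 ≤ d ∧ k ≤ d ∧ L ^ 6 < 2 ^ k ∧
    (2 + 3 * C * (lam : ℝ)) ^ 2 * (2 * (d : ℝ) + 4 * d * ((lam : ℝ) + 8)) ≤ (L : ℝ) ^ 6 / 6 ∧
    (d : ℝ) * ((2 + 3 * C * (lam : ℝ)) ^ 2 * (2 / (L : ℝ) ^ 3) *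
      (2 * (d : ℝ) + 4 * d * ((lam : ℝ) + 8))) ≤ 1 / 2 ∧
    (lam : ℝ) / d * k ≤ 1 / 2 ∧
    ∀ μ : ℝ, 0 ≤ μ → μ ≤ (d : ℝ) / 256 + 1 →
      (d : ℝ) * (2 / (Real.exp (-9) / k)) *
          (2 * (r * ((lam : ℝ) / d) ^ 2 * k * ((k : ℝ) + 2)) +
            2 * Real.exp (-(2 * ((lam : ℝ) / d) * Real.log (2 ^ d)))) <
        Real.exp (-(8 * ((lam : ℝ) / d) * μ)) / 4 := by
  obtain ⟨m0, hm0⟩ := pu_grow (6 * 66 * (2 + 24 * C) ^ 2 + 4 * Real.exp 11 * (768 * r + 8) + 100)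
  refine ⟨2 ^ (8 * (m0 + 2)), fun L d hL h1 h2 lam k hlam hk => ?_⟩
  have hL0 : L ≠ 0 := by
    have := Nat.one_le_two_pow (n := 8 * (m0 + 2))
    omega
  have l1 : 2 ^ lam ≤ L := by
    rw [hlam]
    exact Nat.pow_log_le_self 2 hL0
  have l2 : L < 2 ^ (lam + 1) := by
    rw [hlam]
    exact Nat.lt_pow_succ_log_self (by norm_num) L
  have l3 : 8 * (m0 + 2) ≤ lam := by
    rw [hlam]
    exact Nat.le_log_of_pow_le (by norm_num) hL
  obtain ⟨m, hm⟩ : ∃ m, m = lam / 8 := ⟨_, rfl⟩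
  rw [← hm] at hk
  have m1 : m0 + 2 ≤ m := by omega
  have m2 : 8 * m ≤ lam := by omega
  have m3 : lam ≤ 8 * m + 7 := by omega
  have k1 : 1 ≤ k := by
    rw [hk]
    exact Nat.one_le_two_pow
  have k8 : k ^ 8 ≤ L := by
    refine le_trans ?_ l1
    rw [hk, ← pow_mul]
    exact Nat.pow_le_pow_right (by norm_num) (by omega)
  have kd : k ^ 6 ≤ d := by
    by_contra hc
    have c1 : d ^ 4 < (k ^ 6) ^ 4 := Nat.pow_lt_pow_left (by omega) (by norm_num)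
    have c2 : (k ^ 8) ^ 3 ≤ L ^ 3 := Nat.pow_le_pow_left k8 3
    have c3 : (k ^ 6) ^ 4 = (k ^ 8) ^ 3 := by ring
    omega
  -- real variables
  have hKr : (k : ℝ) = 2 ^ m := by
    rw [hk]
    push_cast
    ring
  obtain ⟨M, hM⟩ : ∃ M : ℝ, M = (m : ℝ) + 1 := ⟨_, rfl⟩
  have hM1 : 1 ≤ M := by
    rw [hM]
    have : (0 : ℝ) ≤ m := Nat.cast_nonneg m
    linarith
  have hA := hm0 m (by omega)
  rw [← hKr, ← hM] at hA
  have hM3 : 1 ≤ M ^ 3 := one_le_pow₀ hM1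
  have a1 : 0 ≤ 6 * 66 * (2 + 24 * C) ^ 2 := by positivity
  have a2 : 0 ≤ 4 * Real.exp 11 * (768 * (r : ℝ) + 8) := by positivity
  have A1 : 6 * 66 * (2 + 24 * C) ^ 2 * M ^ 3 ≤ k := by nlinarith
  have A2 : 4 * Real.exp 11 * (768 * (r : ℝ) + 8) * M ^ 3 < k := by nlinarith
  have A3 : 100 * M ^ 3 ≤ k := by nlinarith
  have hMM : M ≤ M ^ 3 := le_self_pow₀ hM1 (by norm_num)
  have A4 : 100 * M ≤ k := by linarith
  have hlamr : (lam : ℝ) ≤ 8 * M := by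
    have : (lam : ℝ) ≤ 8 * m + 7 := by exact_mod_cast m3
    rw [hM]
    linarith
  have hlam0 : (0 : ℝ) ≤ lam := Nat.cast_nonneg lam
  have hK1 : (1 : ℝ) ≤ k := by exact_mod_cast k1
  have hk8 : (k : ℝ) ^ 8 ≤ L := by exact_mod_cast k8
  have hkd : (k : ℝ) ^ 6 ≤ d := by exact_mod_cast kd
  have hdL : (d : ℝ) ≤ L := by exact_mod_cast h2
  have hkk6 : (k : ℝ) ≤ (k : ℝ) ^ 6 := le_self_pow₀ hK1 (by norm_num)
  have hd0 : (0 : ℝ) < d := by linarith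
  have hL1 : (1 : ℝ) ≤ L := by linarith
  have hkL : (k : ℝ) ≤ L := by linarith
  have hP0 : (2 + 3 * C * (lam : ℝ)) ^ 2 * (2 + 4 * ((lam : ℝ) + 8)) ≤ 66 * (2 + 24 * C) ^ 2 * M ^ 3 := by
    have e1 : 2 + 3 * C * (lam : ℝ) ≤ (2 + 24 * C) * M := by nlinarith
    have e2 : 2 + 4 * ((lam : ℝ) + 8) ≤ 66 * M := by linarith
    calc (2 + 3 * C * (lam : ℝ)) ^ 2 * (2 + 4 * ((lam : ℝ) + 8)) ≤ ((2 + 24 * C) * M) ^ 2 * (66 * M) := by gcongr
      _ = 66 * (2 + 24 * C) ^ 2 * M ^ 3 := by ring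
  have hP : (2 + 3 * C * (lam : ℝ)) ^ 2 * (2 + 4 * ((lam : ℝ) + 8)) ≤ L / 6 := by linarith
  have hPn : 0 ≤ (2 + 3 * C * (lam : ℝ)) ^ 2 * (2 + 4 * ((lam : ℝ) + 8)) := by positivity
  refine ⟨by omega, ?_, ?_, ?_, ?_, ?_, ?_, ?_⟩
  · have : (4 : ℝ) ≤ d := by linarith
    exact_mod_cast this
  · have : (k : ℝ) ≤ d := by linarith
    exact_mod_cast this
  · have c1 : 6 * (lam + 1) ≤ k := by
      have : (6 * ((lam : ℝ) + 1)) ≤ k := by linarith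
      exact_mod_cast this
    calc L ^ 6 < (2 ^ (lam + 1)) ^ 6 := Nat.pow_lt_pow_left l2 (by norm_num)
      _ = 2 ^ (6 * (lam + 1)) := by rw [← pow_mul]; ring_nf
      _ ≤ 2 ^ k := Nat.pow_le_pow_right (by norm_num) c1
  · have c1 : (L : ℝ) ^ 2 ≤ (L : ℝ) ^ 6 := pow_le_pow_right₀ hL1 (by norm_num)
    calc (2 + 3 * C * (lam : ℝ)) ^ 2 * (2 * (d : ℝ) + 4 * d * ((lam : ℝ) + 8)) =
          ((2 + 3 * C * (lam : ℝ)) ^ 2 * (2 + 4 * ((lam : ℝ) + 8))) * d := by ring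
      _ ≤ ((L : ℝ) / 6) * L := by gcongr
      _ = (L : ℝ) ^ 2 / 6 := by ring
      _ ≤ (L : ℝ) ^ 6 / 6 := by linarith
  · have hL3 : (0 : ℝ) < L ^ 3 := by positivity
    have c1 : (d : ℝ) * ((2 + 3 * C * (lam : ℝ)) ^ 2 * (2 / (L : ℝ) ^ 3) *
        (2 * (d : ℝ) + 4 * d * ((lam : ℝ) + 8))) =
        2 * (d : ℝ) ^ 2 * ((2 + 3 * C * (lam : ℝ)) ^ 2 * (2 + 4 * ((lam : ℝ) + 8))) / (L : ℝ) ^ 3 := by
      ring
    rw [c1, div_le_iff₀ hL3]
    calc 2 * (d : ℝ) ^ 2 * ((2 + 3 * C * (lam : ℝ)) ^ 2 * (2 + 4 * ((lam : ℝ) + 8))) ≤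
          2 * (L : ℝ) ^ 2 * ((L : ℝ) / 6) := by gcongr
      _ = 1 / 3 * (L : ℝ) ^ 3 := by ring
      _ ≤ 1 / 2 * (L : ℝ) ^ 3 := by linarith
  · have c1 : (lam : ℝ) / d * k = lam * k / d := by ring
    rw [c1, div_le_iff₀ hd0]
    have c2 : (k : ℝ) ^ 2 ≤ (k : ℝ) ^ 6 := pow_le_pow_right₀ hK1 (by norm_num)
    have c3 : (lam : ℝ) * k ≤ (k / 2) * k := mul_le_mul_of_nonneg_right (by linarith) (by linarith)
    nlinarith
  · intro μ hμ hμ2
    have e9 : (2 : ℝ) / (Real.exp (-9) / k) = 2 * Real.exp 9 * k := by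
      rw [Real.exp_neg]
      field_simp
    have e4 : Real.exp (-(2 * ((lam : ℝ) / d) * Real.log (2 ^ d))) ≤ 2 / (L : ℝ) * (1 / (k : ℝ) ^ 8) := by
      have c1 : -(2 * ((lam : ℝ) / d) * Real.log (2 ^ d)) = -(lam * Real.log 2) + -(lam * Real.log 2) := by
        rw [Real.log_pow]
        field_simp
        ring
      have c2 : Real.exp (-(lam * Real.log 2)) = 1 / (2 : ℝ) ^ lam := by
        rw [Real.exp_neg, Real.exp_nat_mul, Real.exp_log (by norm_num), one_div]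
      rw [c1, Real.exp_add, c2]
      have c3 : (L : ℝ) ≤ 2 * 2 ^ lam := by
        have : (L : ℝ) < 2 ^ (lam + 1) := by exact_mod_cast l2
        rw [pow_succ] at this
        linarith
      have c4 : (k : ℝ) ^ 8 ≤ 2 ^ lam := by
        rw [hKr, ← pow_mul]
        exact pow_le_pow_right₀ (by norm_num) (by omega)
      have c5 : (0 : ℝ) < 2 ^ lam := by positivity
      have c6 : 1 / (2 : ℝ) ^ lam ≤ 2 / L := by
        rw [div_le_div_iff₀ c5 (by linarith)]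
        linarith
      have c7 : 1 / (2 : ℝ) ^ lam ≤ 1 / (k : ℝ) ^ 8 := one_div_le_one_div_of_le (by positivity) c4
      exact mul_le_mul c6 c7 (by positivity) (by positivity)
    have hlast := pu_last (r := r) hM1 hlam0 hlamr hK1 hkd A2
    have eR : Real.exp (-2) / (4 * k) ≤ Real.exp (-(8 * ((lam : ℝ) / d) * μ)) / 4 := by
      have c1 : 8 * ((lam : ℝ) / d) * μ ≤ lam / 32 + 1 := by
        have c2 : 8 * ((lam : ℝ) / d) * μ ≤ 8 * ((lam : ℝ) / d) * ((d : ℝ) / 256 + 1) :=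
          mul_le_mul_of_nonneg_left hμ2 (by positivity)
        have c3 : 8 * ((lam : ℝ) / d) * ((d : ℝ) / 256 + 1) = lam / 32 + 8 * lam / d := by
          field_simp
          ring
        have c4 : 8 * (lam : ℝ) / d ≤ 1 := by
          rw [div_le_one hd0]
          linarith
        linarith
      have c2 : (lam : ℝ) / 32 ≤ m * Real.log 2 + 1 := by
        have c3 : (1 / 2 : ℝ) ≤ Real.log 2 := by
          have := Real.log_two_gt_d9
          linarith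
        have c4 : (0 : ℝ) ≤ m := Nat.cast_nonneg m
        have c5 : (m : ℝ) * (1 / 2) ≤ m * Real.log 2 := mul_le_mul_of_nonneg_left c3 c4
        rw [hM] at hlamr
        linarith
      have c3 : Real.exp (-2 - m * Real.log 2) = Real.exp (-2) / k := by
        rw [Real.exp_sub, Real.exp_nat_mul, Real.exp_log (by norm_num), hKr]
      have c4 : Real.exp (-2 - m * Real.log 2) ≤ Real.exp (-(8 * ((lam : ℝ) / d) * μ)) := by
        rw [Real.exp_le_exp]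
        linarith
      rw [c3] at c4
      have c5 : Real.exp (-2) / (4 * k) = Real.exp (-2) / k / 4 := by
        rw [div_div, mul_comm (4 : ℝ)]
      rw [c5]
      linarith
    refine lt_of_le_of_lt ?_ (lt_of_lt_of_le hlast eR)
    rw [e9]
    have f1 : (d : ℝ) * (2 * Real.exp 9 * k) * (2 * (r * ((lam : ℝ) / d) ^ 2 * k * ((k : ℝ) + 2))) =
        4 * r * Real.exp 9 * lam ^ 2 * k ^ 2 * (k + 2) / d := by
      field_simp
      ring
    have f2 : (d : ℝ) * (2 * Real.exp 9 * k) * (2 * Real.exp (-(2 * ((lam : ℝ) / d) * Real.log (2 ^ d)))) ≤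
        8 * Real.exp 9 * k / k ^ 8 := by
      calc (d : ℝ) * (2 * Real.exp 9 * k) * (2 * Real.exp (-(2 * ((lam : ℝ) / d) * Real.log (2 ^ d)))) ≤
            L * (2 * Real.exp 9 * k) * (2 * (2 / (L : ℝ) * (1 / (k : ℝ) ^ 8))) := by gcongr
        _ = 8 * Real.exp 9 * k / k ^ 8 := by
            field_simp
            ring
    rw [mul_add, f1]
    linarith

end Pool.Agent.UIV
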