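import Pool.Agent.UIV.Sieve
import Pool.Agent.UIV.ParU

/-! UIV/CoreU.  The core theorem: no condition on the size of the elements `b ∈ B`.

`lam = Nat.log 2 L`, `k = 2^(lam/8)`, `p : Pri L → ℕ` the coercion, `C`, `L1` from `one_body r`, `L2` from
`par_u r C`, `c = min (1/(512 C)) 1`.  `κ = {b // b ∈ B}`, `card κ ≤ ∑ lam^(..) ≤ c d ≤ d =: K`.
`one_body` gives `c b`, `ψ b` for every `b ∈ B` with `ρ b`; `c b ≤ C lam^(1-(1/2)^(ρ b - 1)) ≤ C lam`, so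
`2 + 3 c b ≤ B0 := 2 + 3 C lam` and `Obd` holds with `B0`.  `μ = 2 ∑ c b + 1 ≤ 2 C c d + 1 ≤ d/256 + 1 ≤ d`.
`Z0 = L^6`, `t0 = 1` (`log q ≥ 1`), `δ = 2/L^3` (`log q ≤ 2 √q`, `√q ≥ L^3`), `P1 = lam + 8`
(`Helper52.mertens2` with `n = k`), `D = 2^d`, `s = lam/d`, `t1 = k` (`log q ≤ k log 2`), `Λ = k + 2`
(`Helper52.mertens1`), `V = exp(-9)/k` (`Helper52.prod_lower`; the product over a subset is larger), `N = T`.
`h1`, `h2`: `2 μ/t0 + 4 K P1 ≤ 2 d + 4 d (lam + 8)` and `par_u`.  `2 μ ≤ d/128 + 2 ≤ d log 2`.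
`hN`: `4 * 2^(4d) * PP T ≤ 2^(2 + 4 d + k (r-1)) ≤ 2^((r+6) d)` (`PP T ≤ (2^k)^(T.card)`), `k ≤ d`.
`sieve_u` gives `t`; the set of the `i : Pri L` with `p i ∣ n0 + M t - b` injects into the filter of the conclusion
(`L^6 < q ≤ 2^k ≤ 2^d`, `q` prime). -/

namespace Pool.Agent.UIV

open Finset Pool.Agent.RS

private theorem pri_spec {L : ℕ} (i : Pri L) :
    (i : ℕ).Prime ∧ (i : ℕ) ≤ 2 ^ 2 ^ (Nat.log 2 L / 8) ∧ L ^ 6 < (i : ℕ) := by
  have h := Finset.mem_sdiff.1 i.2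
  have h1 := Finset.mem_filter.1 h.1
  refine ⟨h1.2, (Finset.mem_Icc.1 h1.1).2, ?_⟩
  by_contra hc
  exact h.2 (Finset.mem_filter.2 ⟨Finset.mem_Icc.2 ⟨h1.2.pos, not_lt.1 hc⟩, h1.2⟩)

private theorem prz_eq (n : ℕ) : prz n = Helper52.pr 0 n := by
  ext q
  rw [Helper52.mem_pr]
  unfold prz
  rw [Finset.mem_filter, Finset.mem_Icc]
  constructor
  · rintro ⟨⟨h1, h2⟩, h3⟩
    exact ⟨h1, h2, h3⟩
  · rintro ⟨h1, h2, h3⟩
    exact ⟨⟨h1, h2⟩, h3⟩

private theorem pri_sum_le {L : ℕ} (f : ℕ → ℝ) (hf : ∀ q : ℕ, q.Prime → 0 ≤ f q) :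
    ∑ i : Pri L, f i ≤ ∑ q ∈ Helper52.pr 0 (2 ^ 2 ^ (Nat.log 2 L / 8)), f q := by
  rw [← prz_eq, Finset.sum_coe_sort (prz (2 ^ 2 ^ (Nat.log 2 L / 8)) \ prz (L ^ 6)) f]
  apply Finset.sum_le_sum_of_subset_of_nonneg Finset.sdiff_subset
  intro q hq _
  exact hf q (Finset.mem_filter.1 hq).2

private theorem pri_prod_ge {L : ℕ} :
    ∏ q ∈ Helper52.pr 0 (2 ^ 2 ^ (Nat.log 2 L / 8)), (1 - 1 / (q : ℝ)) ≤
      ∏ i : Pri L, (1 - 1 / ((i : ℕ) : ℝ)) := by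
  have hq0 : ∀ q ∈ prz (2 ^ 2 ^ (Nat.log 2 L / 8)),
      0 ≤ 1 - 1 / (q : ℝ) ∧ 1 - 1 / (q : ℝ) ≤ 1 := by
    intro q hq
    have h1 : (1 : ℝ) ≤ q := by exact_mod_cast (Finset.mem_filter.1 hq).2.one_lt.le
    have h2 : 1 / (q : ℝ) ≤ 1 := by
      rw [div_le_one (by linarith)]; exact h1
    have h3 : 0 ≤ 1 / (q : ℝ) := by positivity
    exact ⟨by linarith, by linarith⟩
  rw [← prz_eq, Finset.prod_coe_sort (prz (2 ^ 2 ^ (Nat.log 2 L / 8)) \ prz (L ^ 6))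
    (fun q : ℕ => 1 - 1 / (q : ℝ))]
  rw [← Finset.prod_sdiff (Finset.sdiff_subset : prz (2 ^ 2 ^ (Nat.log 2 L / 8)) \ prz (L ^ 6) ⊆
    prz (2 ^ 2 ^ (Nat.log 2 L / 8)))]
  have hA : ∏ q ∈ prz (2 ^ 2 ^ (Nat.log 2 L / 8)) \
      (prz (2 ^ 2 ^ (Nat.log 2 L / 8)) \ prz (L ^ 6)), (1 - 1 / (q : ℝ)) ≤ 1 := by
    apply Finset.prod_le_one
    · intro q hq
      exact (hq0 q (Finset.mem_sdiff.1 hq).1).1
    · intro q hq
      exact (hq0 q (Finset.mem_sdiff.1 hq).1).2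
  have hB : 0 ≤ ∏ q ∈ prz (2 ^ 2 ^ (Nat.log 2 L / 8)) \ prz (L ^ 6), (1 - 1 / (q : ℝ)) := by
    apply Finset.prod_nonneg
    intro q hq
    exact (hq0 q (Finset.mem_sdiff.1 hq).1).1
  calc _ ≤ 1 * ∏ q ∈ prz (2 ^ 2 ^ (Nat.log 2 L / 8)) \ prz (L ^ 6), (1 - 1 / (q : ℝ)) :=
        mul_le_mul_of_nonneg_right hA hB
    _ = _ := one_mul _

open Classical in
theorem coreU (r : ℕ) (hr : 1 ≤ r) : ∃ c : ℝ, 0 < c ∧ ∃ L0 : ℕ, ∀ L d : ℕ, L0 ≤ L →
    L ^ 3 ≤ d ^ 4 → d ≤ L →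
    ∀ (M : ℕ) (n0 : ℤ) (B : Finset ℤ) (ρ : ℤ → ℕ) (T : ℕ),
    (∀ q : ℕ, q.Prime → L ^ 6 < q → Nat.Coprime M q) →
    (∀ b ∈ B, 1 ≤ ρ b ∧ ρ b ≤ r) →
    ∑ b ∈ B, (Nat.log 2 L : ℝ) ^ (1 - (1 / 2 : ℝ) ^ (ρ b - 1)) ≤ c * d → 2 ^ ((r + 6) * d) ≤ T →
    ∃ t < T, ∀ b ∈ B, ρ b ≤ ((Finset.Icc 1 (2 ^ d)).filter (fun q : ℕ => q.Prime ∧
      L ^ 6 < q ∧ (q : ℤ) ∣ n0 + M * (t : ℕ) - b)).card := by
  obtain ⟨C, hC, L1, hL1⟩ := one_body r
  obtain ⟨L2, hL2⟩ := par_u r C hC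
  refine ⟨min (1 / (512 * C)) 1, by positivity, max (max L1 L2) 4, ?_⟩
  intro L d hL hLd hdL M n0 B ρ T hM hρ hcost hT
  have hLL1 : L1 ≤ L := le_trans (le_trans (le_max_left _ _) (le_max_left _ _)) hL
  have hLL2 : L2 ≤ L := le_trans (le_trans (le_max_right _ _) (le_max_left _ _)) hL
  have hL4 : 4 ≤ L := le_trans (le_max_right _ _) hL
  obtain ⟨hlam10, hd4, hkd, hLk, hn1, hn2, hst, hfin⟩ :=
    hL2 L d hLL2 hLd hdL (Nat.log 2 L) (2 ^ (Nat.log 2 L / 8)) rfl rfl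
  set lam := Nat.log 2 L with hlam
  set k : ℕ := 2 ^ (lam / 8) with hk
  have hlam1r : (1 : ℝ) ≤ (lam : ℝ) := by exact_mod_cast (by omega : 1 ≤ lam)
  have hexp : ∀ g : ℕ, 0 ≤ 1 - (1 / 2 : ℝ) ^ g ∧ 1 - (1 / 2 : ℝ) ^ g ≤ 1 := by
    intro g
    have h1 : (1 / 2 : ℝ) ^ g ≤ 1 := pow_le_one₀ (by norm_num) (by norm_num)
    have h2 : 0 < (1 / 2 : ℝ) ^ g := by positivity
    exact ⟨by linarith, by linarith⟩
  have hterm : ∀ b ∈ B, (1 : ℝ) ≤ (lam : ℝ) ^ (1 - (1 / 2 : ℝ) ^ (ρ b - 1)) := fun b _ =>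
    Real.one_le_rpow hlam1r (hexp _).1
  have hcard1 : (B.card : ℝ) ≤ ∑ b ∈ B, (lam : ℝ) ^ (1 - (1 / 2 : ℝ) ^ (ρ b - 1)) := by
    have h := Finset.sum_le_sum hterm
    rw [Finset.sum_const, nsmul_eq_mul, mul_one] at h
    exact h
  have hd0 : (0 : ℝ) ≤ d := Nat.cast_nonneg _
  have hd4r : (4 : ℝ) ≤ d := by exact_mod_cast hd4
  have hcardd : (B.card : ℝ) ≤ d := by
    refine hcard1.trans (hcost.trans ?_)
    calc min (1 / (512 * C)) 1 * (d : ℝ) ≤ 1 * d := mul_le_mul_of_nonneg_right (min_le_right _ _) hd0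
      _ = d := one_mul _
  have hLr : (4 : ℝ) ≤ L := by exact_mod_cast hL4
  have hdLr : (d : ℝ) ≤ L := by exact_mod_cast hdL
  -- the one body functions
  have hw := fun b : {b // b ∈ B} => hL1 L hLL1 (ρ b) (hρ b b.2).1 (hρ b b.2).2
  choose c ψ hc0 hcle hobd using hw
  have hclam : ∀ b, c b ≤ C * lam := by
    intro b
    refine (hcle b).trans (mul_le_mul_of_nonneg_left ?_ hC.le)
    calc (lam : ℝ) ^ (1 - (1 / 2 : ℝ) ^ (ρ b - 1)) ≤ (lam : ℝ) ^ (1 : ℝ) :=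
          Real.rpow_le_rpow_of_exponent_le hlam1r (hexp _).2
      _ = (lam : ℝ) := Real.rpow_one _
  have hsumc : ∑ b, c b ≤ (d : ℝ) / 512 := by
    have h1 : ∑ b, c b ≤ ∑ b : {b // b ∈ B}, C * (lam : ℝ) ^ (1 - (1 / 2 : ℝ) ^ (ρ b - 1)) :=
      Finset.sum_le_sum fun b _ => hcle b
    rw [← Finset.mul_sum, Finset.sum_coe_sort B
        (fun b => (lam : ℝ) ^ (1 - (1 / 2 : ℝ) ^ (ρ b - 1)))] at h1
    have h2 : C * ∑ b ∈ B, (lam : ℝ) ^ (1 - (1 / 2 : ℝ) ^ (ρ b - 1)) ≤ C * (1 / (512 * C) * d) := by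
      apply mul_le_mul_of_nonneg_left _ hC.le
      exact hcost.trans (mul_le_mul_of_nonneg_right (min_le_left _ _) hd0)
    have h3 : C * (1 / (512 * C) * d) = (d : ℝ) / 512 := by
      have := hC.ne'
      field_simp
    linarith
  have hsumc0 : 0 ≤ ∑ b, c b := Finset.sum_nonneg fun b _ => (hc0 b).le
  set μ : ℝ := 2 * ∑ b, c b + 1 with hμ
  have hμ0 : 0 ≤ μ := by linarith
  have hμ1 : μ ≤ (d : ℝ) / 256 + 1 := by rw [hμ]; linarith
  have hμd : μ ≤ d := by linarith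
  have hfin' := hfin μ hμ0 hμ1
  have hlog2 : (0.69 : ℝ) ≤ Real.log 2 := by
    have := Real.log_two_gt_d9
    linarith
  have hlog2' : Real.log 2 ≤ 1 := by
    have := Real.log_two_lt_d9
    linarith
  have hk1 : 1 ≤ k := Nat.one_le_two_pow
  have hk0 : (0 : ℝ) < k := by exact_mod_cast hk1
  have hp := fun i : Pri L => pri_spec i
  have hpr : ∀ i : Pri L, (L : ℝ) ^ 6 ≤ ((i : ℕ) : ℝ) := by
    intro i
    have := (hp i).2.2.le
    exact_mod_cast this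
  have hppos : ∀ i : Pri L, (0 : ℝ) < ((i : ℕ) : ℝ) := fun i => by
    exact_mod_cast (hp i).1.pos
  have hL6 : (4 : ℝ) ≤ (L : ℝ) ^ 6 := by
    calc (4 : ℝ) ≤ L := hLr
      _ = (L : ℝ) ^ 1 := (pow_one _).symm
      _ ≤ (L : ℝ) ^ 6 := pow_le_pow_right₀ (by linarith) (by norm_num)
  have hB0 : (1 : ℝ) ≤ 2 + 3 * C * lam := by
    have : 0 ≤ 3 * C * (lam : ℝ) := by positivity
    linarith
  have hBsq : 0 ≤ (2 + 3 * C * (lam : ℝ)) ^ 2 := sq_nonneg _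
  have hres := sieve_u (ι := Pri L) (κ := {b // b ∈ B}) (p := fun i => (i : ℕ))
    (fun i => (hp i).1) (fun i j hij => Subtype.ext hij) (M := M)
    (fun i => hM i (hp i).1 (hp i).2.2) n0 (fun b => (b : ℤ)) (fun b => ρ b) (r := r)
    (fun b => (hρ b b.2).2) (Z0 := (L : ℝ) ^ 6) (t0 := 1) (δ := 2 / (L : ℝ) ^ 3) (K := (d : ℝ))
    (B := 2 + 3 * C * (lam : ℝ)) (P1 := (lam : ℝ) + 8) (μ := μ)
    (by linarith) hpr one_pos
    (by
      intro i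
      rw [Real.le_log_iff_exp_le (hppos i)]
      have := Real.exp_one_lt_d9
      have := hpr i
      linarith)
    (by positivity)
    (by
      intro i
      have h0 := hppos i
      have h1 : 0 < Real.sqrt ((i : ℕ) : ℝ) := Real.sqrt_pos.2 h0
      have h2 : (L : ℝ) ^ 3 ≤ Real.sqrt ((i : ℕ) : ℝ) := by
        apply Real.le_sqrt_of_sq_le
        calc ((L : ℝ) ^ 3) ^ 2 = (L : ℝ) ^ 6 := by ring
          _ ≤ _ := hpr i
      have h3 : Real.log ((i : ℕ) : ℝ) ≤ 2 * Real.sqrt ((i : ℕ) : ℝ) := by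
        have h4 := Real.log_le_sub_one_of_pos h1
        rw [Real.log_sqrt h0.le] at h4
        linarith
      have h5 : (0 : ℝ) < (L : ℝ) ^ 3 := by positivity
      rw [div_le_div_iff₀ h0 h5]
      calc Real.log ((i : ℕ) : ℝ) * (L : ℝ) ^ 3 ≤
            (2 * Real.sqrt ((i : ℕ) : ℝ)) * Real.sqrt ((i : ℕ) : ℝ) :=
            mul_le_mul h3 h2 h5.le (by positivity)
        _ = 2 * ((i : ℕ) : ℝ) := by rw [mul_assoc, Real.mul_self_sqrt h0.le])
    (by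
      have h1 : (L : ℝ) ^ 2 ≤ (L : ℝ) ^ 6 := pow_le_pow_right₀ (by linarith) (by norm_num)
      nlinarith)
    (by
      have : (Fintype.card {b // b ∈ B} : ℝ) = B.card := by simp
      rw [this]; exact hcardd)
    hB0 (c := c) (fun b => (hc0 b).le) (ψ := ψ)
    (fun b => ⟨(hobd b).zero, (hobd b).nn, (hobd b).mono,
      fun x => ((hobd b).le x).trans (by have := hclam b; linarith), (hobd b).ev, (hobd b).nl⟩)
    hμ
    (by
      have h1 := pri_sum_le (L := L) (fun q : ℕ => 1 / (q : ℝ)) (fun q _ => by positivity)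
      have h2 := Helper52.mertens2 hk1
      have h3 : Real.log ((k : ℕ) : ℝ) ≤ lam := by
        rw [hk]
        push_cast
        rw [Real.log_pow]
        have h4 : ((lam / 8 : ℕ) : ℝ) ≤ lam := by exact_mod_cast Nat.div_le_self lam 8
        have h5 : (0 : ℝ) ≤ ((lam / 8 : ℕ) : ℝ) := Nat.cast_nonneg _
        nlinarith
      refine h1.trans (h2.trans ?_)
      linarith)
    (by
      refine le_trans ?_ hn1
      apply mul_le_mul_of_nonneg_left _ hBsq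
      rw [div_one]
      linarith)
    (by
      refine le_trans ?_ hn2
      apply mul_le_mul_of_nonneg_left _ hd0
      apply mul_le_mul_of_nonneg_left _ (by positivity)
      rw [div_one]
      linarith)
    (D := (2 : ℝ) ^ d) (s := (lam : ℝ) / d) (t1 := (k : ℝ)) (V := Real.exp (-9) / k)
    (Λ := (k : ℝ) + 2) (one_le_pow₀ (by norm_num)) (by positivity)
    (by
      intro i
      have h1 : ((i : ℕ) : ℝ) ≤ (2 : ℝ) ^ k := by exact_mod_cast (hp i).2.1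
      have h2 := Real.log_le_log (hppos i) h1
      rw [Real.log_pow] at h2
      refine h2.trans ?_
      nlinarith)
    hk0.le hst
    (by
      have h1 := pri_sum_le (L := L) (fun q : ℕ => Real.log q / q)
        (fun q _ => div_nonneg (Real.log_natCast_nonneg q) (Nat.cast_nonneg q))
      have h2 := Helper52.mertens1 (n := 2 ^ k) Nat.one_le_two_pow
      have h3 : Real.log 4 = 2 * Real.log 2 := by
        rw [show (4 : ℝ) = 2 ^ 2 by norm_num, Real.log_pow]; norm_num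
      refine h1.trans (h2.trans ?_)
      push_cast
      rw [Real.log_pow, h3]
      nlinarith)
    (by
      rw [Real.log_pow]
      nlinarith)
    (by positivity)
    ((Helper52.prod_lower hk1).trans pri_prod_ge)
    (N := T)
    (by
      have hTr : (2 : ℝ) ^ ((r + 6) * d) ≤ T := by exact_mod_cast hT
      refine le_trans ?_ hTr
      calc (4 : ℝ) * ((2 : ℝ) ^ d) ^ 4 = 2 ^ (2 + d * 4) := by
            rw [pow_add, ← pow_mul]; norm_num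
        _ ≤ 2 ^ ((r + 6) * d) := by
            apply pow_le_pow_right₀ (by norm_num)
            nlinarith)
    (by
      intro S hS
      have hTr : (2 : ℝ) ^ ((r + 6) * d) ≤ T := by exact_mod_cast hT
      refine le_trans ?_ hTr
      have h1 : PP (fun i : Pri L => (i : ℕ)) S ≤ ((2 : ℝ) ^ d) ^ S.card := by
        unfold PP
        rw [← Finset.prod_const]
        apply Finset.prod_le_prod (fun i _ => (hppos i).le)
        intro i _
        calc ((i : ℕ) : ℝ) ≤ (2 : ℝ) ^ k := by exact_mod_cast (hp i).2.1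
          _ ≤ (2 : ℝ) ^ d := pow_le_pow_right₀ (by norm_num) hkd
      calc 4 * ((2 : ℝ) ^ d) ^ 4 * PP (fun i : Pri L => (i : ℕ)) S ≤
            4 * ((2 : ℝ) ^ d) ^ 4 * ((2 : ℝ) ^ d) ^ S.card :=
            mul_le_mul_of_nonneg_left h1 (by positivity)
        _ = 2 ^ (2 + d * 4 + d * S.card) := by
            rw [pow_add, pow_add, ← pow_mul, ← pow_mul]; norm_num
        _ ≤ 2 ^ ((r + 6) * d) := by
            apply pow_le_pow_right₀ (by norm_num)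
            have h2 : S.card + 1 ≤ r := hS
            have h3 : d * (S.card + 1) ≤ d * r := Nat.mul_le_mul_left d h2
            nlinarith)
    hfin'
  obtain ⟨t, htT, ht⟩ := hres
  refine ⟨t, htT, fun b hb => ?_⟩
  refine (ht ⟨b, hb⟩).trans ?_
  rw [← Finset.card_map (Function.Embedding.subtype _)]
  apply Finset.card_le_card
  intro q hq
  rw [Finset.mem_map] at hq
  obtain ⟨i, hi, rfl⟩ := hq
  rw [Finset.mem_filter] at hi
  rw [Finset.mem_filter, Finset.mem_Icc]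
  exact ⟨⟨(hp i).1.pos, (hp i).2.1.trans (Nat.pow_le_pow_right (by norm_num) hkd)⟩, (hp i).1,
    (hp i).2.2, hi.2⟩

end Pool.Agent.UIV
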