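import Mathlib

/-! Project UIV (MP_0ec542_nt): definitions.

Finite product spaces `∀ i, α i` with product weights `∏ w i (x i)` (`Pw w`: every `w i` is a probability
weight).

`Ev w f`      expectation,
`Av w i f`    average over the coordinate `i`,
`Tk k f`      operator with product kernel, `Tk k f x = ∑_y (∏_i k i (x i) (y i)) f y`,
`Cm w S f`    component of `f` at `S` (kernel `δ - w` on `S`, `w` off `S`); `f = ∑_S Cm w S f`,
`Nz w θ f`    noise operator (kernel `(1 - θ i) δ + θ i w i`),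
`Nl w l f`    the operator `∑_i l i (f - Av w i f)`,
`En w l f`    its energy `∑_i l i E (f - Av w i f)^2`,
`Dep S f`     `f` depends only on the coordinates in `S`.

`wB q` is the weight on `Bool` with `P(true) = q i`, `cnt x` the number of `true` coordinates. -/

namespace Pool.Agent.UIV

open Finset

section Prod

variable {ι : Type} [Fintype ι] [DecidableEq ι] {α : ι → Type} [∀ i, Fintype (α i)]
  [∀ i, DecidableEq (α i)]

/-- probability weights -/
structure Pw (w : ∀ i, α i → ℝ) : Prop where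
  nn : ∀ i a, 0 ≤ w i a
  one : ∀ i, ∑ a, w i a = 1

/-- expectation -/
noncomputable def Ev (w : ∀ i, α i → ℝ) (f : (∀ i, α i) → ℝ) : ℝ := ∑ x, (∏ i, w i (x i)) * f x

/-- operator with the product kernel `k` -/
noncomputable def Tk (k : ∀ i, α i → α i → ℝ) (f : (∀ i, α i) → ℝ) (x : ∀ i, α i) : ℝ :=
  ∑ y, (∏ i, k i (x i) (y i)) * f y

/-- average over the coordinate `i` -/
noncomputable def Av (w : ∀ i, α i → ℝ) (i : ι) (f : (∀ i, α i) → ℝ) (x : ∀ i, α i) : ℝ :=
  ∑ a, w i a * f (Function.update x i a)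

/-- kernel of the component at `S` -/
def kC (w : ∀ i, α i → ℝ) (S : Finset ι) (i : ι) (a b : α i) : ℝ :=
  if i ∈ S then (if a = b then 1 else 0) - w i b else w i b

/-- component of `f` at `S` -/
noncomputable def Cm (w : ∀ i, α i → ℝ) (S : Finset ι) (f : (∀ i, α i) → ℝ) (x : ∀ i, α i) : ℝ :=
  Tk (kC w S) f x

/-- kernel of the noise operator -/
def kN (w : ∀ i, α i → ℝ) (θ : ι → ℝ) (i : ι) (a b : α i) : ℝ :=
  (1 - θ i) * (if a = b then 1 else 0) + θ i * w i b

/-- noise operator -/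
noncomputable def Nz (w : ∀ i, α i → ℝ) (θ : ι → ℝ) (f : (∀ i, α i) → ℝ) (x : ∀ i, α i) : ℝ :=
  Tk (kN w θ) f x

/-- the operator `∑ l i (1 - Av i)` -/
noncomputable def Nl (w : ∀ i, α i → ℝ) (l : ι → ℝ) (f : (∀ i, α i) → ℝ) (x : ∀ i, α i) : ℝ :=
  ∑ i, l i * (f x - Av w i f x)

/-- its energy -/
noncomputable def En (w : ∀ i, α i → ℝ) (l : ι → ℝ) (f : (∀ i, α i) → ℝ) : ℝ :=
  ∑ i, l i * Ev w (fun x => (f x - Av w i f x) ^ 2)

/-- `f` depends only on the coordinates in `S` -/
def Dep (S : Finset ι) (f : (∀ i, α i) → ℝ) : Prop := ∀ x y, (∀ i ∈ S, x i = y i) → f x = f y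

end Prod

section Bool

variable {ι : Type} [Fintype ι] [DecidableEq ι]

/-- Bernoulli weights -/
def wB (q : ι → ℝ) (i : ι) (b : Bool) : ℝ := if b then q i else 1 - q i

/-- number of `true` coordinates -/
def cnt (x : ι → Bool) : ℕ := (univ.filter (fun i => x i = true)).card

end Bool

end Pool.Agent.UIV
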