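import Pool.Agent.UIV.Enr
import Pool.Agent.UIV.Cov

/-! UIV/Dir.  The equilibrium function: solution of `Nl ψ = c` on `U = {cnt ≥ ρ}`, `ψ = 0` off `U`.

`V = {x // ρ ≤ cnt x} → ℝ`, `ext φ` = extension by `0`, `(Λ φ) x = Nl (ext φ) x`: linear `V → V`.
Injective: `Λ φ = 0` gives `Ev (ext φ * Nl (ext φ)) = 0 = En (ext φ)` (`En_eq_Nl`), so `ext φ` is constant
(`eq_of_En`), equal to its value `0` at the all-`false` point (`cnt = 0 < ρ`).  So `Λ` is surjective
(`LinearMap.injective_iff_surjective`), `Λ φ = 1` for some `φ`.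
`φ ≥ 0`: let `x` be a minimum of `ext φ` (a finite set); if `ext φ x < 0` then `x ∈ U`, and every
`ext φ x - Av_i (ext φ) x ≤ 0`, so `1 = Nl x ≤ 0`.
`E = Ev (ext φ) = Ev (ext φ * Nl) = En ≥ 0`; `E = 0` would give `ext φ = 0` (`eq_of_En`), but `U ≠ ∅` (the
all-`true` point) where `Nl = 1`.  `ψ = ext φ / E`, `c = 1/E`.
Off `U`: `Nl ψ x = -∑ l i Av_i ψ x ≤ 0 ≤ c`. -/

namespace Pool.Agent.UIV

open Finset

variable {ι : Type} [Fintype ι] [DecidableEq ι]

private theorem dir_Av_add (w : ι → Bool → ℝ) (i : ι) (f g : (ι → Bool) → ℝ) (x : ι → Bool) :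
    Av w i (fun y => f y + g y) x = Av w i f x + Av w i g x := by
  unfold Av
  rw [← sum_add_distrib]
  exact sum_congr rfl fun a _ => by ring

private theorem dir_Av_smul (w : ι → Bool → ℝ) (i : ι) (c : ℝ) (f : (ι → Bool) → ℝ) (x : ι → Bool) :
    Av w i (fun y => c * f y) x = c * Av w i f x := by
  unfold Av
  rw [mul_sum]
  exact sum_congr rfl fun a _ => by ring

private theorem dir_Nl_add (w : ι → Bool → ℝ) (l : ι → ℝ) (f g : (ι → Bool) → ℝ) (x : ι → Bool) :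
    Nl w l (fun y => f y + g y) x = Nl w l f x + Nl w l g x := by
  unfold Nl
  rw [← sum_add_distrib]
  exact sum_congr rfl fun i _ => by rw [dir_Av_add]; ring

private theorem dir_Nl_smul (w : ι → Bool → ℝ) (l : ι → ℝ) (c : ℝ) (f : (ι → Bool) → ℝ)
    (x : ι → Bool) : Nl w l (fun y => c * f y) x = c * Nl w l f x := by
  unfold Nl
  rw [mul_sum]
  exact sum_congr rfl fun i _ => by rw [dir_Av_smul]; ring

private theorem dir_Av_ge {w : ι → Bool → ℝ} (hw : Pw (α := fun _ => Bool) w) (i : ι)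
    {f : (ι → Bool) → ℝ} {c : ℝ} (h : ∀ x, c ≤ f x) (x : ι → Bool) : c ≤ Av w i f x := by
  unfold Av
  calc c = ∑ a, w i a * c := by rw [← sum_mul, hw.one i, one_mul]
    _ ≤ ∑ a, w i a * f (Function.update x i a) :=
        sum_le_sum fun a _ => mul_le_mul_of_nonneg_left (h _) (hw.nn i a)

/-- extension by `0` -/
private noncomputable def dirE (ρ : ℕ) (φ : {x : ι → Bool // ρ ≤ cnt x} → ℝ) (x : ι → Bool) : ℝ :=
  if h : ρ ≤ cnt x then φ ⟨x, h⟩ else 0

private theorem dirE_add (ρ : ℕ) (φ φ' : {x : ι → Bool // ρ ≤ cnt x} → ℝ) (x : ι → Bool) :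
    dirE ρ (φ + φ') x = dirE ρ φ x + dirE ρ φ' x := by
  unfold dirE
  by_cases h : ρ ≤ cnt x
  · rw [dif_pos h, dif_pos h, dif_pos h]; rfl
  · rw [dif_neg h, dif_neg h, dif_neg h, add_zero]

private theorem dirE_smul (ρ : ℕ) (c : ℝ) (φ : {x : ι → Bool // ρ ≤ cnt x} → ℝ) (x : ι → Bool) :
    dirE ρ (c • φ) x = c * dirE ρ φ x := by
  unfold dirE
  by_cases h : ρ ≤ cnt x
  · rw [dif_pos h, dif_pos h]; rfl
  · rw [dif_neg h, dif_neg h, mul_zero]

/-- the operator -/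
private noncomputable def dirL (q : ι → ℝ) (l : ι → ℝ) (ρ : ℕ) :
    ({x : ι → Bool // ρ ≤ cnt x} → ℝ) →ₗ[ℝ] ({x : ι → Bool // ρ ≤ cnt x} → ℝ) where
  toFun φ v := Nl (wB q) l (dirE ρ φ) v.1
  map_add' φ φ' := by
    funext v
    have h : dirE ρ (φ + φ') = fun y => dirE ρ φ y + dirE ρ φ' y := funext (dirE_add ρ φ φ')
    rw [h, dir_Nl_add]
    rfl
  map_smul' c φ := by
    funext v
    have h : dirE ρ (c • φ) = fun y => c * dirE ρ φ y := funext (dirE_smul ρ c φ)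
    rw [h, dir_Nl_smul]
    rfl

theorem exists_eq {q : ι → ℝ} (h0 : ∀ i, 0 < q i) (h1 : ∀ i, q i < 1) {l : ι → ℝ}
    (hl : ∀ i, 0 < l i) {ρ : ℕ} (hρ : 1 ≤ ρ) (hρ' : ρ ≤ Fintype.card ι) :
    ∃ (ψ : (ι → Bool) → ℝ) (c : ℝ), 0 < c ∧ (∀ x, cnt x < ρ → ψ x = 0) ∧
      (∀ x, ρ ≤ cnt x → Nl (wB q) l ψ x = c) ∧ (∀ x, 0 ≤ ψ x) ∧ Ev (wB q) ψ = 1 ∧
      (∀ x, Nl (wB q) l ψ x ≤ c) := by
  have hw : Pw (α := fun _ : ι => Bool) (wB q) := Pw_wB (fun i => (h0 i).le) (fun i => (h1 i).le)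
  have hw0 : ∀ (i : ι) (a : Bool), 0 < wB q i a := by
    intro i a
    unfold wB
    split_ifs
    · exact h0 i
    · have := h1 i
      linarith
  have hcf : cnt (fun _ : ι => false) = 0 := by simp [cnt]
  have hct : cnt (fun _ : ι => true) = Fintype.card ι := by simp [cnt]
  have hinj : Function.Injective (dirL q l ρ) := by
    rw [injective_iff_map_eq_zero]
    intro φ hφ
    have hz : ∀ x, dirE ρ φ x * Nl (wB q) l (dirE ρ φ) x = 0 := by
      intro x
      by_cases hx : ρ ≤ cnt x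
      · have h2 : Nl (wB q) l (dirE ρ φ) x = 0 := congrFun hφ ⟨x, hx⟩
        rw [h2, mul_zero]
      · have h2 : dirE ρ φ x = 0 := dif_neg hx
        rw [h2, zero_mul]
    have hE : En (wB q) l (dirE ρ φ) = 0 := by
      rw [En_eq_Nl hw, Ev_congr hz, Ev_const hw]
    funext v
    have h2 := eq_of_En hw hw0 hl hE v.1 (fun _ => false)
    have h3 : dirE ρ φ (fun _ => false) = 0 := dif_neg (by rw [hcf]; omega)
    have h4 : dirE ρ φ v.1 = φ v := dif_pos v.2
    rw [← h4, h2, h3]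
    rfl
  have hsur : Function.Surjective (dirL q l ρ) := LinearMap.injective_iff_surjective.1 hinj
  obtain ⟨φ, hφ⟩ := hsur fun _ => 1
  obtain ⟨f, hf⟩ : ∃ f : (ι → Bool) → ℝ, f = dirE ρ φ := ⟨_, rfl⟩
  have hfU : ∀ x, ρ ≤ cnt x → Nl (wB q) l f x = 1 := by
    intro x hx
    rw [hf]
    exact congrFun hφ ⟨x, hx⟩
  have hf0 : ∀ x, cnt x < ρ → f x = 0 := by
    intro x hx
    rw [hf]
    exact dif_neg (by omega)
  have hfnn : ∀ x, 0 ≤ f x := by
    obtain ⟨x, hx⟩ := Finite.exists_min f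
    intro y
    refine le_trans ?_ (hx y)
    by_contra hneg
    push Not at hneg
    have hxU : ρ ≤ cnt x := by
      by_contra h
      rw [hf0 x (by omega)] at hneg
      exact lt_irrefl _ hneg
    have h2 := hfU x hxU
    have h3 : Nl (wB q) l f x ≤ 0 := by
      unfold Nl
      refine sum_nonpos fun i _ => ?_
      have h4 := dir_Av_ge hw i hx x
      exact mul_nonpos_of_nonneg_of_nonpos (hl i).le (by linarith)
    linarith
  have hE0 : 0 ≤ Ev (wB q) f := Ev_nonneg hw hfnn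
  have hEne : Ev (wB q) f ≠ 0 := by
    intro h
    have hz := Ev_eq_zero hw0 hfnn h
    have h2 := hfU (fun _ => true) (by rw [hct]; exact hρ')
    have h3 : f = fun _ => 0 := funext hz
    rw [h3] at h2
    simp [Nl, Av] at h2
  have hE : 0 < Ev (wB q) f := lt_of_le_of_ne hE0 (Ne.symm hEne)
  obtain ⟨c, hc⟩ : ∃ c : ℝ, c = (Ev (wB q) f)⁻¹ := ⟨_, rfl⟩
  have hc0 : 0 < c := by rw [hc]; exact inv_pos.2 hE
  refine ⟨fun x => c * f x, c, hc0, ?_, ?_, ?_, ?_, ?_⟩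
  · intro x hx
    simp only
    rw [hf0 x hx, mul_zero]
  · intro x hx
    rw [dir_Nl_smul, hfU x hx, mul_one]
  · intro x
    exact mul_nonneg hc0.le (hfnn x)
  · rw [Ev_smul, hc, inv_mul_cancel₀ hEne]
  · intro x
    rw [dir_Nl_smul]
    by_cases hx : ρ ≤ cnt x
    · rw [hfU x hx, mul_one]
    · have h2 : Nl (wB q) l f x ≤ 0 := by
        unfold Nl
        refine sum_nonpos fun i _ => ?_
        rw [hf0 x (by omega)]
        have h4 := dir_Av_ge hw i hfnn x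
        exact mul_nonpos_of_nonneg_of_nonpos (hl i).le (by linarith)
      have h3 : c * Nl (wB q) l f x ≤ 0 := mul_nonpos_of_nonneg_of_nonpos hc0.le h2
      linarith

end Pool.Agent.UIV
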