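import Pool.Agent.UIV.Defs

/-! UIV/EDefs.  Definitions for the energy of products of one-body functions.

Uniform weights `w i b = 1 / p i`.  `a j : ∀ i, α i` (`j : κ`) are points, `R i` contains all `a j i`, `z i ∉ R i`.
`hit a x` = pattern of the coordinates where `x` agrees with `a`; `fp ψ a s x = ∏_{j∈s} ψ j (hit (a j) x)`.
`Ins R z g`: `g` does not distinguish the values of the coordinate `i` outside `R i`.
`Ep` = `∑_i (l i/p i) ∑_{b ∈ R i} Ev (g(x; i ↦ b) - g(x; i ↦ z i))^2`, an upper bound for the energy.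
`nh R x` = number of coordinates with `x i ∈ R i`. -/

namespace Pool.Agent.UIV

open Finset

variable {ι κ : Type} [Fintype ι] [DecidableEq ι] {α : ι → Type} [∀ i, Fintype (α i)]
  [∀ i, DecidableEq (α i)]

/-- pattern of the coordinates where `x` agrees with `a` -/
def hit (a x : ∀ i, α i) (i : ι) : Bool := decide (x i = a i)

/-- product of one-body functions -/
noncomputable def fp (ψ : κ → (ι → Bool) → ℝ) (a : κ → ∀ i, α i) (s : Finset κ)
    (x : ∀ i, α i) : ℝ := ∏ j ∈ s, ψ j (hit (a j) x)

/-- insensitive outside `R` -/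
def Ins (R : ∀ i, Finset (α i)) (z : ∀ i, α i) (g : (∀ i, α i) → ℝ) : Prop :=
  ∀ i x b, b ∉ R i → g (Function.update x i b) = g (Function.update x i (z i))

/-- upper energy -/
noncomputable def Ep (w : ∀ i, α i → ℝ) (l p : ι → ℝ) (R : ∀ i, Finset (α i)) (z : ∀ i, α i)
    (g : (∀ i, α i) → ℝ) : ℝ :=
  ∑ i, l i / p i * ∑ b ∈ R i,
    Ev w (fun x => (g (Function.update x i b) - g (Function.update x i (z i))) ^ 2)

/-- number of the coordinates in `R` -/
noncomputable def nh (R : ∀ i, Finset (α i)) (x : ∀ i, α i) : ℝ :=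
  ∑ i, if x i ∈ R i then 1 else 0

end Pool.Agent.UIV
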