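import Pool.Agent.UIV.Enr
import Pool.Agent.UIV.Cov

/-! UIV/EnO.  The constant of the equilibrium function is at most the energy of any competitor.

`g` vanishes where `cnt < ρ`, `Ev g = 1`.  `Ev (g * Nl ψ) = c Ev g = c` (`g x * Nl ψ x = c * g x` for all `x`),
`En ψ = Ev (ψ * Nl ψ) = c Ev ψ = c` (`En_eq_Nl`), and `En_mul_le`: `c^2 ≤ En g * c`. -/

namespace Pool.Agent.UIV

open Finset

variable {ι : Type} [Fintype ι] [DecidableEq ι]

theorem eq_le_En {q : ι → ℝ} (h0 : ∀ i, 0 ≤ q i) (h1 : ∀ i, q i ≤ 1) {l : ι → ℝ}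
    (hl : ∀ i, 0 ≤ l i) {ρ : ℕ} {ψ : (ι → Bool) → ℝ} {c : ℝ} (hc : 0 < c)
    (hz : ∀ x, cnt x < ρ → ψ x = 0) (hn : ∀ x, ρ ≤ cnt x → Nl (wB q) l ψ x = c)
    (hE : Ev (wB q) ψ = 1) {g : (ι → Bool) → ℝ} (hg : ∀ x, cnt x < ρ → g x = 0)
    (hgE : Ev (wB q) g = 1) : c ≤ En (wB q) l g := by
  have hw := Pw_wB h0 h1
  have key : ∀ f : (ι → Bool) → ℝ, (∀ x, cnt x < ρ → f x = 0) → Ev (wB q) f = 1 →
      Ev (wB q) (fun x => f x * Nl (wB q) l ψ x) = c := by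
    intro f hf hfE
    have h2 : ∀ x, f x * Nl (wB q) l ψ x = c * f x := by
      intro x
      rcases lt_or_ge (cnt x) ρ with hx | hx
      · rw [hf x hx]
        ring
      · rw [hn x hx]
        ring
    rw [Ev_congr h2, Ev_smul, hfE, mul_one]
  have h3 := En_mul_le hw hl g ψ
  rw [key g hg hgE, En_eq_Nl hw l ψ, key ψ hz hE, sq] at h3
  exact le_of_mul_le_mul_right h3 hc

end Pool.Agent.UIV
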