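import Pool.Agent.UIV.Defs

/-! UIV/EvB.  Basic facts on the expectation. -/

namespace Pool.Agent.UIV

open Finset

variable {ι : Type} [Fintype ι] [DecidableEq ι] {α : ι → Type} [∀ i, Fintype (α i)]

theorem Ev_congr {w : ∀ i, α i → ℝ} {f g : (∀ i, α i) → ℝ} (h : ∀ x, f x = g x) :
    Ev w f = Ev w g := by
  have : f = g := funext h
  rw [this]

theorem Ev_add (w : ∀ i, α i → ℝ) (f g : (∀ i, α i) → ℝ) :
    Ev w (fun x => f x + g x) = Ev w f + Ev w g := by
  unfold Ev
  rw [← Finset.sum_add_distrib]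
  exact Finset.sum_congr rfl fun x _ => mul_add _ _ _

theorem Ev_sub (w : ∀ i, α i → ℝ) (f g : (∀ i, α i) → ℝ) :
    Ev w (fun x => f x - g x) = Ev w f - Ev w g := by
  unfold Ev
  rw [← Finset.sum_sub_distrib]
  exact Finset.sum_congr rfl fun x _ => mul_sub _ _ _

theorem Ev_smul (w : ∀ i, α i → ℝ) (c : ℝ) (f : (∀ i, α i) → ℝ) :
    Ev w (fun x => c * f x) = c * Ev w f := by
  unfold Ev
  rw [Finset.mul_sum]
  exact Finset.sum_congr rfl fun x _ => by ring

theorem Ev_sum {β : Type} (w : ∀ i, α i → ℝ) (s : Finset β) (f : β → (∀ i, α i) → ℝ) :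
    Ev w (fun x => ∑ b ∈ s, f b x) = ∑ b ∈ s, Ev w (f b) := by
  unfold Ev
  rw [Finset.sum_comm]
  exact Finset.sum_congr rfl fun x _ => by rw [Finset.mul_sum]

theorem Ev_one {w : ∀ i, α i → ℝ} (hw : Pw w) : ∑ x : ∀ i, α i, ∏ i, w i (x i) = 1 := by
  have h := Finset.prod_univ_sum (fun i : ι => (Finset.univ : Finset (α i))) (fun i a => w i a)
  rw [Fintype.piFinset_univ] at h
  rw [← h]
  exact Finset.prod_eq_one fun i _ => hw.one i

theorem Ev_const {w : ∀ i, α i → ℝ} (hw : Pw w) (c : ℝ) : Ev w (fun _ => c) = c := by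
  unfold Ev
  rw [← Finset.sum_mul, Ev_one hw, one_mul]

private theorem evb_w {w : ∀ i, α i → ℝ} (hw : Pw w) (x : ∀ i, α i) : 0 ≤ ∏ i, w i (x i) :=
  Finset.prod_nonneg fun i _ => hw.nn i (x i)

theorem Ev_mono {w : ∀ i, α i → ℝ} (hw : Pw w) {f g : (∀ i, α i) → ℝ} (h : ∀ x, f x ≤ g x) :
    Ev w f ≤ Ev w g := by
  unfold Ev
  exact Finset.sum_le_sum fun x _ => mul_le_mul_of_nonneg_left (h x) (evb_w hw x)

theorem Ev_nonneg {w : ∀ i, α i → ℝ} (hw : Pw w) {f : (∀ i, α i) → ℝ} (h : ∀ x, 0 ≤ f x) :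
    0 ≤ Ev w f := by
  unfold Ev
  exact Finset.sum_nonneg fun x _ => mul_nonneg (evb_w hw x) (h x)

/-- if all weights are positive and `f ≥ 0` has expectation `0` then `f = 0` -/
theorem Ev_eq_zero {w : ∀ i, α i → ℝ} (hw : ∀ i a, 0 < w i a) {f : (∀ i, α i) → ℝ}
    (h : ∀ x, 0 ≤ f x) (h0 : Ev w f = 0) (x : ∀ i, α i) : f x = 0 := by
  have hW : ∀ x : ∀ i, α i, 0 < ∏ i, w i (x i) := fun x => Finset.prod_pos fun i _ => hw i (x i)
  unfold Ev at h0
  rw [Finset.sum_eq_zero_iff_of_nonneg (fun x _ => mul_nonneg (hW x).le (h x))] at h0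
  have h1 := h0 x (Finset.mem_univ x)
  rcases mul_eq_zero.1 h1 with h2 | h2
  · exact absurd h2 (hW x).ne'
  · exact h2

theorem Ev_sq_mul_le {w : ∀ i, α i → ℝ} (hw : Pw w) (f g : (∀ i, α i) → ℝ) :
    Ev w (fun x => f x * g x) ^ 2 ≤ Ev w (fun x => f x ^ 2) * Ev w (fun x => g x ^ 2) := by
  have h := Finset.sum_mul_sq_le_sq_mul_sq (Finset.univ : Finset (∀ i, α i))
    (fun x => √(∏ i, w i (x i)) * f x) (fun x => √(∏ i, w i (x i)) * g x)
  have hs : ∀ x : ∀ i, α i, √(∏ i, w i (x i)) ^ 2 = ∏ i, w i (x i) :=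
    fun x => Real.sq_sqrt (evb_w hw x)
  unfold Ev
  have e1 : ∑ x : ∀ i, α i, (∏ i, w i (x i)) * (f x * g x) =
      ∑ x : ∀ i, α i, √(∏ i, w i (x i)) * f x * (√(∏ i, w i (x i)) * g x) := by
    refine Finset.sum_congr rfl fun x _ => ?_
    rw [← hs x]
    rw [Real.sqrt_sq (Real.sqrt_nonneg _)]
    ring
  have e2 : ∀ u : (∀ i, α i) → ℝ, ∑ x : ∀ i, α i, (∏ i, w i (x i)) * u x ^ 2 =
      ∑ x : ∀ i, α i, (√(∏ i, w i (x i)) * u x) ^ 2 := by
    intro u
    refine Finset.sum_congr rfl fun x _ => ?_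
    rw [mul_pow, hs x]
  rw [e1, e2 f, e2 g]
  exact h

private theorem evb_swap (w : ∀ i, α i → ℝ) (i : ι) (x : ∀ i, α i) (a : α i) :
    (∏ j, w j (Function.update x i a j)) * w i (x i) = (∏ j, w j (x j)) * w i a := by
  rw [← Finset.mul_prod_erase Finset.univ (fun j => w j (Function.update x i a j)) (Finset.mem_univ i),
    ← Finset.mul_prod_erase Finset.univ (fun j => w j (x j)) (Finset.mem_univ i),
    Function.update_self]
  have h : ∏ j ∈ Finset.univ.erase i, w j (Function.update x i a j) =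
      ∏ j ∈ Finset.univ.erase i, w j (x j) := by
    refine Finset.prod_congr rfl fun j hj => ?_
    rw [Function.update_of_ne (Finset.ne_of_mem_erase hj)]
  rw [h]
  ring

private def evb_equiv (i : ι) : (∀ i, α i) × α i ≃ (∀ i, α i) × α i where
  toFun p := (Function.update p.1 i p.2, p.1 i)
  invFun p := (Function.update p.1 i p.2, p.1 i)
  left_inv p := by
    simp only [Function.update_idem, Function.update_eq_self, Function.update_self]
  right_inv p := by
    simp only [Function.update_idem, Function.update_eq_self, Function.update_self]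

theorem Ev_Av {w : ∀ i, α i → ℝ} (hw : Pw w) (i : ι) (f : (∀ i, α i) → ℝ) :
    Ev w (Av w i f) = Ev w f := by
  have h1 : Ev w (Av w i f) = ∑ p : (∀ i, α i) × α i,
      (∏ j, w j (p.1 j)) * w i p.2 * f (Function.update p.1 i p.2) := by
    unfold Ev Av
    rw [Fintype.sum_prod_type]
    refine Finset.sum_congr rfl fun x _ => ?_
    rw [Finset.mul_sum]
    exact Finset.sum_congr rfl fun a _ => by ring
  have h2 : Ev w f = ∑ p : (∀ i, α i) × α i, (∏ j, w j (p.1 j)) * w i p.2 * f p.1 := by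
    unfold Ev
    rw [Fintype.sum_prod_type]
    refine Finset.sum_congr rfl fun x _ => ?_
    have h3 : ∑ a, (∏ j, w j (x j)) * w i a * f x = (∏ j, w j (x j)) * f x * ∑ a, w i a := by
      rw [Finset.mul_sum]
      exact Finset.sum_congr rfl fun a _ => by ring
    rw [h3, hw.one i, mul_one]
  rw [h1, h2, ← Equiv.sum_comp (evb_equiv i)]
  refine Finset.sum_congr rfl fun p _ => ?_
  have h4 := evb_swap w i p.1 p.2
  change (∏ j, w j (Function.update p.1 i p.2 j)) * w i (p.1 i) *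
    f (Function.update (Function.update p.1 i p.2) i (p.1 i)) = _
  rw [Function.update_idem, Function.update_eq_self, h4]

theorem Ev_Av_mul {w : ∀ i, α i → ℝ} (hw : Pw w) (i : ι) (f g : (∀ i, α i) → ℝ)
    (hg : ∀ x a, g (Function.update x i a) = g x) :
    Ev w (fun x => f x * g x) = Ev w (fun x => Av w i f x * g x) := by
  rw [← Ev_Av hw i (fun x => f x * g x)]
  refine Ev_congr fun x => ?_
  unfold Av
  rw [Finset.sum_mul]
  refine Finset.sum_congr rfl fun a _ => ?_
  beta_reduce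
  rw [hg]
  ring

theorem Av_const {w : ∀ i, α i → ℝ} (hw : Pw w) (i : ι) {f : (∀ i, α i) → ℝ} {x : ∀ i, α i}
    {c : ℝ} (h : ∀ a, f (Function.update x i a) = c) : Av w i f x = c := by
  unfold Av
  have h1 : ∑ a, w i a * f (Function.update x i a) = (∑ a, w i a) * c := by
    rw [Finset.sum_mul]
    exact Finset.sum_congr rfl fun a _ => by rw [h a]
  rw [h1, hw.one i, one_mul]

theorem Av_update (w : ∀ i, α i → ℝ) (i : ι) (f : (∀ i, α i) → ℝ) (x : ∀ i, α i) (a : α i) :
    Av w i f (Function.update x i a) = Av w i f x := by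
  unfold Av
  refine Finset.sum_congr rfl fun b _ => ?_
  rw [Function.update_idem]

/-- expectation of the indicator of one value of one coordinate -/
theorem Ev_ind [∀ i, DecidableEq (α i)] {w : ∀ i, α i → ℝ} (hw : Pw w) (i : ι) (a : α i)
    (f : (∀ i, α i) → ℝ) : Ev w (fun x => if x i = a then f x else 0) =
      w i a * Ev w (fun x => f (Function.update x i a)) := by
  rw [← Ev_Av hw i, ← Ev_smul]
  refine Ev_congr fun x => ?_
  unfold Av
  rw [Finset.sum_eq_single a]
  · beta_reduce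
    rw [Function.update_self, if_pos rfl]
  · intro b _ hb
    beta_reduce
    rw [Function.update_self, if_neg hb, mul_zero]
  · intro h
    exact absurd (Finset.mem_univ a) h

end Pool.Agent.UIV
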