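import Pool.Agent.UIV.Comp
import Pool.Agent.UIV.EvB

/-! UIV/Enr.  The energy in terms of the components.

Everything follows from the orthogonal decomposition into components. -/

namespace Pool.Agent.UIV

open Finset

variable {ι : Type} [Fintype ι] [DecidableEq ι] {α : ι → Type} [∀ i, Fintype (α i)]
  [∀ i, DecidableEq (α i)]

theorem Nl_eq {w : ∀ i, α i → ℝ} (hw : Pw w) (l : ι → ℝ) (f : (∀ i, α i) → ℝ) (x : ∀ i, α i) :
    Nl w l f x = ∑ S : Finset ι, (∑ i ∈ S, l i) * Cm w S f x := by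
  unfold Nl
  have h1 : ∀ i ∈ (univ : Finset ι), l i * (f x - Av w i f x) =
      ∑ S : Finset ι, if i ∈ S then l i * Cm w S f x else 0 := by
    intro i _
    rw [sub_Av hw i f x, Finset.mul_sum, Finset.sum_filter]
  rw [Finset.sum_congr rfl h1, Finset.sum_comm]
  apply Finset.sum_congr rfl
  intro S _
  rw [Finset.sum_mul, ← Finset.sum_filter]
  congr 1
  ext i
  rw [Finset.mem_filter]
  exact ⟨fun h => h.2, fun h => ⟨Finset.mem_univ i, h⟩⟩

theorem Cm_Nl {w : ∀ i, α i → ℝ} (hw : Pw w) (l : ι → ℝ) (S : Finset ι) (f : (∀ i, α i) → ℝ)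
    (x : ∀ i, α i) : Cm w S (Nl w l f) x = (∑ i ∈ S, l i) * Cm w S f x := by
  have h1 : Nl w l f = fun y => ∑ S' ∈ (univ : Finset (Finset ι)),
      (fun (S' : Finset ι) (y : ∀ i, α i) => (∑ i ∈ S', l i) * Cm w S' f y) S' y :=
    funext fun y => Nl_eq hw l f y
  rw [h1, Cm_sum]
  have h2 : ∀ S' ∈ (univ : Finset (Finset ι)),
      Cm w S (fun y => (∑ i ∈ S', l i) * Cm w S' f y) x =
        if S = S' then (∑ i ∈ S, l i) * Cm w S f x else 0 := by
    intro S' _
    rw [Cm_smul, Cm_Cm hw]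
    by_cases h3 : S = S'
    · rw [if_pos h3, if_pos h3, h3]
    · rw [if_neg h3, if_neg h3, mul_zero]
  rw [Finset.sum_congr rfl h2, Finset.sum_ite_eq, if_pos (Finset.mem_univ S)]

theorem Ev_Nl {w : ∀ i, α i → ℝ} (hw : Pw w) (l : ι → ℝ) (f g : (∀ i, α i) → ℝ) :
    Ev w (fun x => f x * Nl w l g x) =
      ∑ S : Finset ι, (∑ i ∈ S, l i) * Ev w (fun x => Cm w S f x * Cm w S g x) := by
  rw [Ev_mul hw f (Nl w l g)]
  apply Finset.sum_congr rfl
  intro S _
  rw [← Ev_smul]
  apply Ev_congr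
  intro x
  rw [Cm_Nl hw]
  ring

theorem Ev_Nl_symm {w : ∀ i, α i → ℝ} (hw : Pw w) (l : ι → ℝ) (f g : (∀ i, α i) → ℝ) :
    Ev w (fun x => f x * Nl w l g x) = Ev w (fun x => g x * Nl w l f x) := by
  rw [Ev_Nl hw, Ev_Nl hw]
  apply Finset.sum_congr rfl
  intro S _
  congr 1
  apply Ev_congr
  intro x
  exact mul_comm _ _

private theorem enr_comp {w : ∀ i, α i → ℝ} (hw : Pw w) (S : Finset ι) (i : ι)
    (f : (∀ i, α i) → ℝ) (x : ∀ i, α i) :
    Cm w S (fun y => f y - Av w i f y) x = if i ∈ S then Cm w S f x else 0 := by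
  have h1 : (fun y => f y - Av w i f y) = fun y => f y + (fun z => (-1 : ℝ) * Av w i f z) y := by
    funext y
    ring
  rw [h1, Cm_add, Cm_smul, Cm_Av hw]
  by_cases h2 : i ∈ S
  · rw [if_pos h2, if_pos h2]
    ring
  · rw [if_neg h2, if_neg h2]
    ring

theorem En_eq {w : ∀ i, α i → ℝ} (hw : Pw w) (l : ι → ℝ) (f : (∀ i, α i) → ℝ) :
    En w l f = ∑ S : Finset ι, (∑ i ∈ S, l i) * Ev w (fun x => Cm w S f x ^ 2) := by
  unfold En
  have h1 : ∀ i ∈ (univ : Finset ι), l i * Ev w (fun x => (f x - Av w i f x) ^ 2) =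
      ∑ S : Finset ι, if i ∈ S then l i * Ev w (fun x => Cm w S f x ^ 2) else 0 := by
    intro i _
    have h2 : Ev w (fun x => (f x - Av w i f x) ^ 2) =
        Ev w (fun x => (fun y => f y - Av w i f y) x * (fun y => f y - Av w i f y) x) :=
      Ev_congr fun x => by ring
    rw [h2, Ev_mul hw, Finset.mul_sum]
    apply Finset.sum_congr rfl
    intro S _
    by_cases h3 : i ∈ S
    · rw [if_pos h3]
      congr 1
      apply Ev_congr
      intro x
      rw [enr_comp hw, if_pos h3]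
      ring
    · rw [if_neg h3]
      have h4 : Ev w (fun x => Cm w S (fun y => f y - Av w i f y) x *
          Cm w S (fun y => f y - Av w i f y) x) = Ev w (fun _ => (0 : ℝ)) := by
        apply Ev_congr
        intro x
        rw [enr_comp hw, if_neg h3, mul_zero]
      rw [h4, Ev_const hw, mul_zero]
  rw [Finset.sum_congr rfl h1, Finset.sum_comm]
  apply Finset.sum_congr rfl
  intro S _
  rw [Finset.sum_mul, ← Finset.sum_filter]
  congr 1
  ext i
  rw [Finset.mem_filter]
  exact ⟨fun h => h.2, fun h => ⟨Finset.mem_univ i, h⟩⟩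

theorem En_eq_Nl {w : ∀ i, α i → ℝ} (hw : Pw w) (l : ι → ℝ) (f : (∀ i, α i) → ℝ) :
    En w l f = Ev w (fun x => f x * Nl w l f x) := by
  rw [En_eq hw, Ev_Nl hw]
  apply Finset.sum_congr rfl
  intro S _
  congr 1
  apply Ev_congr
  intro x
  ring

theorem En_mul_le {w : ∀ i, α i → ℝ} (hw : Pw w) {l : ι → ℝ} (hl : ∀ i, 0 ≤ l i)
    (f g : (∀ i, α i) → ℝ) :
    Ev w (fun x => f x * Nl w l g x) ^ 2 ≤ En w l f * En w l g := by
  rw [En_eq hw, En_eq hw, Ev_Nl hw]
  have key : ∀ t : ℝ, 0 ≤ (∑ S : Finset ι, (∑ i ∈ S, l i) * Ev w (fun x => Cm w S f x ^ 2)) * (t * t) +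
      (2 * ∑ S : Finset ι, (∑ i ∈ S, l i) * Ev w (fun x => Cm w S f x * Cm w S g x)) * t +
      ∑ S : Finset ι, (∑ i ∈ S, l i) * Ev w (fun x => Cm w S g x ^ 2) := by
    intro t
    have h1 : (∑ S : Finset ι, (∑ i ∈ S, l i) * Ev w (fun x => Cm w S f x ^ 2)) * (t * t) +
        (2 * ∑ S : Finset ι, (∑ i ∈ S, l i) * Ev w (fun x => Cm w S f x * Cm w S g x)) * t +
        ∑ S : Finset ι, (∑ i ∈ S, l i) * Ev w (fun x => Cm w S g x ^ 2) =
        ∑ S : Finset ι, (∑ i ∈ S, l i) * Ev w (fun x => (t * Cm w S f x + Cm w S g x) ^ 2) := by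
      rw [Finset.mul_sum, Finset.sum_mul, Finset.sum_mul, ← Finset.sum_add_distrib,
        ← Finset.sum_add_distrib]
      apply Finset.sum_congr rfl
      intro S _
      have h2 : Ev w (fun x => (t * Cm w S f x + Cm w S g x) ^ 2) =
          Ev w (fun x => (t * t) * Cm w S f x ^ 2 + ((2 * t) * (Cm w S f x * Cm w S g x) +
            Cm w S g x ^ 2)) := Ev_congr fun x => by ring
      rw [h2, Ev_add, Ev_add, Ev_smul, Ev_smul]
      ring
    rw [h1]
    apply Finset.sum_nonneg
    intro S _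
    exact mul_nonneg (Finset.sum_nonneg fun i _ => hl i) (Ev_nonneg hw fun x => sq_nonneg _)
  have h3 := discrim_le_zero key
  unfold discrim at h3
  nlinarith [h3]

theorem eq_of_En {w : ∀ i, α i → ℝ} (hw : Pw w) (hw0 : ∀ i a, 0 < w i a) {l : ι → ℝ}
    (hl : ∀ i, 0 < l i) {f : (∀ i, α i) → ℝ} (h : En w l f = 0) (x y : ∀ i, α i) :
    f x = f y := by
  unfold En at h
  have h1 := (Finset.sum_eq_zero_iff_of_nonneg (fun i _ =>
    mul_nonneg (hl i).le (Ev_nonneg hw fun x => sq_nonneg (f x - Av w i f x)))).1 h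
  have h2 : ∀ (i : ι) (x : ∀ i, α i), f x = Av w i f x := by
    intro i x
    have h3 : Ev w (fun x => (f x - Av w i f x) ^ 2) = 0 := by
      rcases mul_eq_zero.1 (h1 i (Finset.mem_univ i)) with h4 | h4
      · exact absurd h4 (hl i).ne'
      · exact h4
    have h4 := Ev_eq_zero hw0 (fun x => sq_nonneg (f x - Av w i f x)) h3 x
    have h5 : f x - Av w i f x = 0 := by
      exact pow_eq_zero_iff (two_ne_zero) |>.1 h4
    linarith
  have h3 : ∀ (i : ι) (x : ∀ i, α i) (a : α i), f (Function.update x i a) = f x := by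
    intro i x a
    rw [h2 i (Function.update x i a), Av_update, ← h2 i x]
  have h4 : ∀ s : Finset ι, f (fun j => if j ∈ s then y j else x j) = f x := by
    intro s
    induction s using Finset.induction_on with
    | empty =>
      congr 1
    | insert i s _ ih =>
      have h5 : (fun j => if j ∈ insert i s then y j else x j) =
          Function.update (fun j => if j ∈ s then y j else x j) i (y i) := by
        funext j
        by_cases h6 : j = i
        · subst h6
          rw [if_pos (Finset.mem_insert_self j s), Function.update_self]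
        · rw [Function.update_of_ne h6]
          have h7 : j ∈ insert i s ↔ j ∈ s := by
            rw [Finset.mem_insert]
            exact ⟨fun h => h.resolve_left h6, fun h => Or.inr h⟩
          by_cases h8 : j ∈ s
          · rw [if_pos (h7.2 h8), if_pos h8]
          · rw [if_neg (fun h => h8 (h7.1 h)), if_neg h8]
      rw [h5, h3, ih]
  have h5 := h4 univ
  have h6 : (fun j => if j ∈ (univ : Finset ι) then y j else x j) = y := by
    funext j
    rw [if_pos (Finset.mem_univ j)]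
  rw [h6] at h5
  exact h5.symm

end Pool.Agent.UIV
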