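import Pool.Agent.UIV.EDefs
import Pool.Agent.UIV.EvB

/-! UIV/Hits.  The upper energy `Ep` bounds the energy (`En_le_Ep`) and the expected number of hits (`hits_le`). -/

namespace Pool.Agent.UIV

open Finset

variable {ι : Type} [Fintype ι] [DecidableEq ι] {α : ι → Type} [∀ i, Fintype (α i)]
  [∀ i, DecidableEq (α i)]

theorem Ev_R {w : ∀ i, α i → ℝ} (hw : Pw w) {p : ι → ℝ} (hu : ∀ i b, w i b = 1 / p i) (i : ι)
    (R : Finset (α i)) (h : (∀ i, α i) → ℝ) :
    Ev w (fun x => if x i ∈ R then h x else 0) =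
      1 / p i * ∑ b ∈ R, Ev w (fun x => h (Function.update x i b)) := by
  have h1 : ∀ x : ∀ i, α i, (if x i ∈ R then h x else 0) = ∑ b ∈ R, if x i = b then h x else 0 :=
    fun x => (Finset.sum_ite_eq R (x i) (fun _ => h x)).symm
  rw [Ev_congr h1, Ev_sum w R (fun b x => if x i = b then h x else 0), Finset.mul_sum]
  refine Finset.sum_congr rfl fun b _ => ?_
  rw [Ev_ind hw i b h, hu i b]

/-- the mean minimises the quadratic deviation -/
private theorem hits_var {β : Type} [Fintype β] (w : β → ℝ) (h1 : ∑ a, w a = 1) (y : β → ℝ)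
    (c : ℝ) : ∑ a, w a * (y a - ∑ b, w b * y b) ^ 2 ≤ ∑ a, w a * (y a - c) ^ 2 := by
  obtain ⟨m, hm⟩ : ∃ m, m = ∑ b, w b * y b := ⟨_, rfl⟩
  rw [← hm]
  have e : ∀ t : ℝ, ∑ a, w a * (y a - t) ^ 2 = ∑ a, w a * y a ^ 2 - 2 * t * m + t ^ 2 := by
    intro t
    have e1 : ∀ a, w a * (y a - t) ^ 2 = w a * y a ^ 2 - 2 * t * (w a * y a) + t ^ 2 * w a :=
      fun a => by ring
    rw [Finset.sum_congr rfl fun a _ => e1 a, Finset.sum_add_distrib, Finset.sum_sub_distrib,
      ← Finset.mul_sum, ← Finset.mul_sum, h1, ← hm, mul_one]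
  rw [e m, e c]
  nlinarith [sq_nonneg (m - c)]

private theorem hits_diff {w : ∀ i, α i → ℝ} (hw : Pw w) {p : ι → ℝ}
    (hu : ∀ i b, w i b = 1 / p i) {R : ∀ i, Finset (α i)} {z : ∀ i, α i}
    {g : (∀ i, α i) → ℝ} (hg : Ins R z g) (i : ι) :
    Ev w (fun x => (g x - g (Function.update x i (z i))) ^ 2) =
      1 / p i * ∑ b ∈ R i, Ev w (fun x =>
        (g (Function.update x i b) - g (Function.update x i (z i))) ^ 2) := by
  have h := Ev_R hw hu i (R i) (fun x => (g x - g (Function.update x i (z i))) ^ 2)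
  simp only [Function.update_idem] at h
  rw [← h]
  refine Ev_congr fun x => ?_
  split_ifs with hx
  · rfl
  · have h1 := hg i x (x i) hx
    rw [Function.update_eq_self] at h1
    rw [← h1]
    ring

private theorem hits_half {w : ∀ i, α i → ℝ} (hw : Pw w) {p : ι → ℝ}
    (hu : ∀ i b, w i b = 1 / p i) {i : ι} (hp : 0 < p i) {R : ∀ i, Finset (α i)}
    {z : ∀ i, α i} {K : ℝ} {g : (∀ i, α i) → ℝ} (hg : Ins R z g)
    (hR : ((R i).card : ℝ) ≤ K) (hK : 2 * K ≤ p i) :
    Ev w (fun x => g (Function.update x i (z i)) ^ 2) ≤ 2 * Ev w (fun x => g x ^ 2) := by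
  rw [← Ev_Av hw i (fun x => g x ^ 2), ← Ev_smul]
  refine Ev_mono hw fun x => ?_
  have hcard : (Fintype.card (α i) : ℝ) * (1 / p i) = 1 := by
    have h := hw.one i
    rw [Finset.sum_congr rfl fun a _ => hu i a, Finset.sum_const, nsmul_eq_mul,
      Finset.card_univ] at h
    exact h
  unfold Av
  beta_reduce
  obtain ⟨c, hc⟩ : ∃ c, c = g (Function.update x i (z i)) ^ 2 := ⟨_, rfl⟩
  rw [← hc]
  have hc0 : 0 ≤ c := hc ▸ sq_nonneg _
  have h1 : ∑ a ∈ Finset.univ \ R i, w i a * g (Function.update x i a) ^ 2 ≤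
      ∑ a, w i a * g (Function.update x i a) ^ 2 :=
    Finset.sum_le_sum_of_subset_of_nonneg Finset.sdiff_subset
      fun a _ _ => mul_nonneg (hw.nn i a) (sq_nonneg _)
  have h2 : ∑ a ∈ Finset.univ \ R i, w i a * g (Function.update x i a) ^ 2 =
      ((Finset.univ \ R i).card : ℝ) * (1 / p i * c) := by
    rw [← nsmul_eq_mul, ← Finset.sum_const]
    refine Finset.sum_congr rfl fun a ha => ?_
    rw [hu i a, hg i x a (Finset.mem_sdiff.1 ha).2, hc]
  have h3 : ((Finset.univ \ R i).card : ℝ) = Fintype.card (α i) - (R i).card := by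
    rw [Finset.card_sdiff_of_subset (Finset.subset_univ _), Finset.card_univ,
      Nat.cast_sub (Finset.card_le_univ _)]
  have h4 : ((R i).card : ℝ) * (1 / p i) ≤ 1 / 2 := by
    rw [mul_one_div, div_le_iff₀ hp]
    linarith
  have h5 : ((Finset.univ \ R i).card : ℝ) * (1 / p i * c) =
      (Fintype.card (α i) : ℝ) * (1 / p i) * c - ((R i).card : ℝ) * (1 / p i) * c := by
    rw [h3]
    ring
  rw [hcard] at h5
  have h6 : ((R i).card : ℝ) * (1 / p i) * c ≤ 1 / 2 * c := mul_le_mul_of_nonneg_right h4 hc0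
  linarith

theorem En_le_Ep {w : ∀ i, α i → ℝ} (hw : Pw w) {p : ι → ℝ} (hu : ∀ i b, w i b = 1 / p i)
    {l : ι → ℝ} (hl : ∀ i, 0 ≤ l i) {R : ∀ i, Finset (α i)} {z : ∀ i, α i}
    {g : (∀ i, α i) → ℝ} (hg : Ins R z g) : En w l g ≤ Ep w l p R z g := by
  unfold En Ep
  refine Finset.sum_le_sum fun i _ => ?_
  have h1 : Ev w (fun x => (g x - Av w i g x) ^ 2) ≤
      Ev w (fun x => (g x - g (Function.update x i (z i))) ^ 2) := by
    rw [← Ev_Av hw i (fun x => (g x - Av w i g x) ^ 2),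
      ← Ev_Av hw i (fun x => (g x - g (Function.update x i (z i))) ^ 2)]
    refine Ev_mono hw fun x => ?_
    have h2 := hits_var (w i) (hw.one i) (fun a => g (Function.update x i a))
      (g (Function.update x i (z i)))
    have e1 : Av w i (fun x => (g x - Av w i g x) ^ 2) x = ∑ a, w i a *
        (g (Function.update x i a) - ∑ b, w i b * g (Function.update x i b)) ^ 2 := by
      unfold Av
      refine Finset.sum_congr rfl fun a _ => ?_
      simp only [Function.update_idem]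
    have e2 : Av w i (fun x => (g x - g (Function.update x i (z i))) ^ 2) x = ∑ a, w i a *
        (g (Function.update x i a) - g (Function.update x i (z i))) ^ 2 := by
      unfold Av
      refine Finset.sum_congr rfl fun a _ => ?_
      simp only [Function.update_idem]
    rw [e1, e2]
    exact h2
  have h3 := hits_diff hw hu hg i
  have h4 : l i * Ev w (fun x => (g x - Av w i g x) ^ 2) ≤
      l i * Ev w (fun x => (g x - g (Function.update x i (z i))) ^ 2) :=
    mul_le_mul_of_nonneg_left h1 (hl i)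
  refine h4.trans (le_of_eq ?_)
  rw [h3]
  ring

theorem hits_le {w : ∀ i, α i → ℝ} (hw : Pw w) {p : ι → ℝ} (hu : ∀ i b, w i b = 1 / p i)
    (hp : ∀ i, 0 < p i) {l : ι → ℝ} {t0 : ℝ} (ht0 : 0 < t0) (hl : ∀ i, t0 ≤ l i)
    {R : ∀ i, Finset (α i)} {z : ∀ i, α i} {K : ℝ} (hR : ∀ i, ((R i).card : ℝ) ≤ K)
    (hK : ∀ i, 2 * K ≤ p i) {g : (∀ i, α i) → ℝ} (hg : Ins R z g) :
    Ev w (fun x => nh R x * g x ^ 2) ≤
      2 / t0 * Ep w l p R z g + 4 * K * (∑ i, 1 / p i) * Ev w (fun x => g x ^ 2) := by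
  have e0 : Ev w (fun x => nh R x * g x ^ 2) =
      ∑ i, 1 / p i * ∑ b ∈ R i, Ev w (fun x => g (Function.update x i b) ^ 2) := by
    have e1 : ∀ x : ∀ i, α i, nh R x * g x ^ 2 = ∑ i, if x i ∈ R i then g x ^ 2 else 0 := by
      intro x
      unfold nh
      rw [Finset.sum_mul]
      refine Finset.sum_congr rfl fun i _ => ?_
      split_ifs
      · rw [one_mul]
      · rw [zero_mul]
    rw [Ev_congr e1, Ev_sum w Finset.univ (fun i x => if x i ∈ R i then g x ^ 2 else 0)]
    refine Finset.sum_congr rfl fun i _ => ?_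
    exact Ev_R hw hu i (R i) (fun x => g x ^ 2)
  rw [e0]
  unfold Ep
  rw [Finset.mul_sum, Finset.mul_sum, Finset.sum_mul, ← Finset.sum_add_distrib]
  refine Finset.sum_le_sum fun i _ => ?_
  have hpi := hp i
  have h1 : ∀ b, Ev w (fun x => g (Function.update x i b) ^ 2) ≤
      2 * Ev w (fun x => (g (Function.update x i b) - g (Function.update x i (z i))) ^ 2) +
        2 * Ev w (fun x => g (Function.update x i (z i)) ^ 2) := by
    intro b
    rw [← Ev_smul, ← Ev_smul, ← Ev_add]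
    refine Ev_mono hw fun x => ?_
    nlinarith [sq_nonneg (g (Function.update x i b) - 2 * g (Function.update x i (z i)))]
  have h2 : ∑ b ∈ R i, Ev w (fun x => g (Function.update x i b) ^ 2) ≤
      2 * ∑ b ∈ R i, Ev w (fun x =>
        (g (Function.update x i b) - g (Function.update x i (z i))) ^ 2) +
      2 * ((R i).card : ℝ) * Ev w (fun x => g (Function.update x i (z i)) ^ 2) := by
    refine (Finset.sum_le_sum fun b _ => h1 b).trans (le_of_eq ?_)
    rw [Finset.sum_add_distrib, ← Finset.mul_sum, Finset.sum_const, nsmul_eq_mul]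
    ring
  have h3 := hits_half hw hu hpi hg (hR i) (hK i)
  set X := ∑ b ∈ R i, Ev w (fun x =>
    (g (Function.update x i b) - g (Function.update x i (z i))) ^ 2) with hX
  have hX0 : 0 ≤ X := Finset.sum_nonneg fun b _ => Ev_nonneg hw fun x => sq_nonneg _
  set Z := Ev w (fun x => g (Function.update x i (z i)) ^ 2) with hZ
  have hZ0 : 0 ≤ Z := Ev_nonneg hw fun x => sq_nonneg _
  set E := Ev w (fun x => g x ^ 2) with hE
  have hinv : 0 ≤ 1 / p i := (one_div_pos.2 hpi).le
  have h4 : 1 / p i * ∑ b ∈ R i, Ev w (fun x => g (Function.update x i b) ^ 2) ≤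
      1 / p i * (2 * X + 2 * ((R i).card : ℝ) * Z) := mul_le_mul_of_nonneg_left h2 hinv
  refine h4.trans ?_
  have h5 : 2 * ((R i).card : ℝ) * Z ≤ 4 * K * E := by
    have h6 : ((R i).card : ℝ) * Z ≤ K * Z := mul_le_mul_of_nonneg_right (hR i) hZ0
    have hK0 : 0 ≤ K := le_trans (Nat.cast_nonneg _) (hR i)
    have h7 : K * Z ≤ K * (2 * E) := mul_le_mul_of_nonneg_left h3 hK0
    linarith
  have h8 : 1 / p i * (2 * X) ≤ 2 / t0 * (l i / p i * X) := by
    have h9 : 1 ≤ l i / t0 := (one_le_div ht0).2 (hl i)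
    have h10 : 0 ≤ 1 / p i * (2 * X) := mul_nonneg hinv (by linarith)
    have h11 : 1 / p i * (2 * X) * 1 ≤ 1 / p i * (2 * X) * (l i / t0) :=
      mul_le_mul_of_nonneg_left h9 h10
    have h12 : 1 / p i * (2 * X) * (l i / t0) = 2 / t0 * (l i / p i * X) := by
      ring
    linarith
  have h13 : 1 / p i * (2 * ((R i).card : ℝ) * Z) ≤ 1 / p i * (4 * K * E) :=
    mul_le_mul_of_nonneg_left h5 hinv
  have h14 : 1 / p i * (4 * K * E) = 4 * K * (1 / p i) * E := by ring
  rw [mul_add]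
  linarith

end Pool.Agent.UIV
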