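import Pool.Agent.UIV.ProdE

/-! UIV/Ind.  The energy bound for products of one-body functions, by strong induction on `s`.

`h = 2 μ/t0 + 4 K P1`.  For `j ∈ s`, `g = fp (s.erase j)`, `W = Ev g^2 > 0`, `Ep g ≤ μ W`:
(1) `Ev (nh g^2) ≤ h W` (`hits_le`, `fp_ins`).
(2) `cov_le` with `u = g^2`: `Ev (g^2 ψ) ≥ W - (B/Z0) Ev (nh g^2) ≥ W - (B h/Z0) W ≥ (3/4) W`
(`∑_i (1/p i) Ev (1 u) ≤ (1/Z0) Ev (nh u)`; `Ins` and monotonicity of `u` from `fp_ins`, `fp_up`).
(3) `cov_le` with `u = g^2 ψ`: `Ev (g^2 ψ^2) ≥ Ev (g^2 ψ) - (B/Z0) Ev (nh g^2 ψ) ≥ Ev (g^2 ψ) - (B^2 h/Z0) W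
≥ (1 - 4/3 * 1/6) Ev (g^2 ψ) ≥ (3/4) Ev (g^2 ψ)`.
`fp s x = g x * ψ j (hit (a j) x)`, so with `E = Ev (fp s)^2`: `Ev (g^2 ψ) ≤ (4/3) E`, `W ≤ (16/9) E`, `E > 0`.
(4) `Ep_prod_le`: `Ep (fp s) ≤ ∑_j (c j (4/3) E + B^2 δ h (16/9) E) ≤ (2 ∑_j c j + 1) E`.
`s = ∅`: `fp = 1`, `Ep = 0`, `Ev = 1`. -/

namespace Pool.Agent.UIV

open Finset

variable {ι κ : Type} [Fintype ι] [DecidableEq ι] [Fintype κ] [DecidableEq κ] {α : ι → Type}
  [∀ i, Fintype (α i)] [∀ i, DecidableEq (α i)]

omit [Fintype ι] [DecidableEq ι] [Fintype κ] [∀ i, Fintype (α i)] in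
private theorem ind_erase (ψ : κ → (ι → Bool) → ℝ) (a : κ → ∀ i, α i) {s : Finset κ} {j : κ}
    (hj : j ∈ s) (x : ∀ i, α i) :
    fp ψ a s x = fp ψ a (s.erase j) x * ψ j (hit (a j) x) := by
  unfold fp
  rw [← Finset.mul_prod_erase s _ hj, mul_comm]

omit [Fintype ι] [DecidableEq ι] [Fintype κ] [DecidableEq κ] [∀ i, Fintype (α i)] in
private theorem ind_nn {ψ : κ → (ι → Bool) → ℝ} (h0 : ∀ j x, 0 ≤ ψ j x) (a : κ → ∀ i, α i)
    (s : Finset κ) (x : ∀ i, α i) : 0 ≤ fp ψ a s x := by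
  unfold fp
  exact Finset.prod_nonneg fun j _ => h0 j _

private theorem ind_nh {w : ∀ i, α i → ℝ} (hw : Pw w) {p : ι → ℝ} {Z0 : ℝ} (hZ0 : 1 ≤ Z0)
    (hp : ∀ i, Z0 ≤ p i) {R : ∀ i, Finset (α i)} {u : (∀ i, α i) → ℝ} (hu0 : ∀ x, 0 ≤ u x) :
    ∑ i, 1 / p i * Ev w (fun x => if x i ∈ R i then u x else 0) ≤
      1 / Z0 * Ev w (fun x => nh R x * u x) := by
  have e1 : Ev w (fun x => nh R x * u x) =
      ∑ i, Ev w (fun x => if x i ∈ R i then u x else 0) := by
    rw [← Ev_sum]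
    refine Ev_congr fun x => ?_
    unfold nh
    rw [Finset.sum_mul]
    refine Finset.sum_congr rfl fun i _ => ?_
    rw [ite_mul, one_mul, zero_mul]
  rw [e1, Finset.mul_sum]
  refine Finset.sum_le_sum fun i _ => ?_
  refine mul_le_mul_of_nonneg_right ?_ (Ev_nonneg hw fun x => ?_)
  · exact one_div_le_one_div_of_le (by linarith) (hp i)
  · split_ifs
    · exact hu0 x
    · exact le_rfl

theorem energy_bound {w : ∀ i, α i → ℝ} (hw : Pw w) {p : ι → ℝ} (hu : ∀ i b, w i b = 1 / p i)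
    {Z0 : ℝ} (hZ0 : 1 ≤ Z0) (hp : ∀ i, Z0 ≤ p i) {l : ι → ℝ} {t0 : ℝ} (ht0 : 0 < t0)
    (hl : ∀ i, t0 ≤ l i) {δ : ℝ} (hδ0 : 0 ≤ δ) (hδ : ∀ i, l i / p i ≤ δ)
    {R : ∀ i, Finset (α i)} {z : ∀ i, α i} {a : κ → ∀ i, α i} (ha : ∀ j i, a j i ∈ R i)
    (hz : ∀ i, z i ∉ R i) {K : ℝ} (hR : ∀ i, ((R i).card : ℝ) ≤ K) (hK : 2 * K ≤ Z0)
    (hκ : (Fintype.card κ : ℝ) ≤ K) {B : ℝ} (hB1 : 1 ≤ B) {ψ : κ → (ι → Bool) → ℝ}
    (hψ : ∀ j, Monotone (ψ j)) (h0 : ∀ j x, 0 ≤ ψ j x) (hB : ∀ j x, ψ j x ≤ B)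
    (hE : ∀ j, Ev (wB (fun i => 1 / p i)) (ψ j) = 1) {c : κ → ℝ} (hc0 : ∀ j, 0 ≤ c j)
    (hc : ∀ j x, Nl (wB (fun i => 1 / p i)) l (ψ j) x ≤ c j) {μ P1 : ℝ}
    (hμ : μ = 2 * ∑ j, c j + 1) (hP1 : ∑ i, 1 / p i ≤ P1)
    (h1 : B ^ 2 * (2 * μ / t0 + 4 * K * P1) ≤ Z0 / 6)
    (h2 : K * (B ^ 2 * δ * (2 * μ / t0 + 4 * K * P1)) ≤ 1 / 2) (s : Finset κ) :
    0 < Ev w (fun x => fp ψ a s x ^ 2) ∧
      Ep w l p R z (fp ψ a s) ≤ μ * Ev w (fun x => fp ψ a s x ^ 2) := by
  have hp1 : ∀ i, 1 ≤ p i := fun i => hZ0.trans (hp i)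
  have hp0 : ∀ i, 0 < p i := fun i => lt_of_lt_of_le one_pos (hp1 i)
  have hZ00 : 0 < Z0 := lt_of_lt_of_le one_pos hZ0
  have hl0 : ∀ i, 0 ≤ l i := fun i => ht0.le.trans (hl i)
  have hK0 : 0 ≤ K := le_trans (Nat.cast_nonneg _) hκ
  have hB0 : 0 < B := lt_of_lt_of_le one_pos hB1
  have hcs : 0 ≤ ∑ j, c j := Finset.sum_nonneg fun j _ => hc0 j
  have hμ1 : 1 ≤ μ := by
    rw [hμ]
    linarith
  have hPs : 0 ≤ ∑ i, 1 / p i := Finset.sum_nonneg fun i _ => (one_div_pos.2 (hp0 i)).le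
  have hP0 : 0 ≤ P1 := hPs.trans hP1
  obtain ⟨h, hh⟩ : ∃ h, h = 2 * μ / t0 + 4 * K * P1 := ⟨_, rfl⟩
  rw [← hh] at h1 h2
  have hh0 : 0 ≤ h := by
    rw [hh]
    positivity
  have hBh : B ^ 2 * h / Z0 ≤ 1 / 6 := by
    rw [div_le_iff₀ hZ00]
    linarith
  induction s using Finset.strongInduction with
  | H s ih =>
    rcases s.eq_empty_or_nonempty with rfl | hs
    · have e1 : fp ψ a (∅ : Finset κ) = fun _ => 1 := by
        funext x
        unfold fp
        exact Finset.prod_empty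
      have e2 : Ev w (fun x => fp ψ a (∅ : Finset κ) x ^ 2) = 1 := by
        rw [e1]
        show Ev w (fun _ => (1 : ℝ) ^ 2) = 1
        rw [Ev_const hw]
        norm_num
      have e3 : Ep w l p R z (fp ψ a (∅ : Finset κ)) = 0 := by
        rw [e1]
        unfold Ep
        refine Finset.sum_eq_zero fun i _ => ?_
        rw [Finset.sum_eq_zero fun b _ => ?_, mul_zero]
        show Ev w (fun _ => ((1 : ℝ) - 1) ^ 2) = 0
        rw [Ev_const hw]
        norm_num
      rw [e2, e3]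
      exact ⟨one_pos, by linarith⟩
    -- the data for `j ∈ s`
    have key : ∀ j ∈ s,
        Ev w (fun x => fp ψ a (s.erase j) x ^ 2 * ψ j (hit (a j) x)) ≤
          4 / 3 * Ev w (fun x => fp ψ a s x ^ 2) ∧
        Ev w (fun x => nh R x * fp ψ a (s.erase j) x ^ 2) ≤
          h * (16 / 9 * Ev w (fun x => fp ψ a s x ^ 2)) ∧
        0 < Ev w (fun x => fp ψ a s x ^ 2) := by
      intro j hj
      obtain ⟨hW, hEW⟩ := ih (s.erase j) (Finset.erase_ssubset hj)
      have hins := fp_ins (ψ := ψ) (a := a) (R := R) (z := z) ha hz (s.erase j)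
      have hinsS := fp_ins (ψ := ψ) (a := a) (R := R) (z := z) ha hz s
      have hup := fp_up hψ h0 ha hz (s.erase j)
      have hupS := fp_up hψ h0 ha hz s
      have hnn := ind_nn h0 a (s.erase j)
      have hnnS := ind_nn h0 a s
      have hN : Ev w (fun x => nh R x * fp ψ a (s.erase j) x ^ 2) ≤
          h * Ev w (fun x => fp ψ a (s.erase j) x ^ 2) := by
        have g1 := hits_le hw hu hp0 ht0 hl hR (fun i => hK.trans (hp i)) hins
        have g2 : 2 / t0 * Ep w l p R z (fp ψ a (s.erase j)) ≤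
            2 / t0 * (μ * Ev w (fun x => fp ψ a (s.erase j) x ^ 2)) :=
          mul_le_mul_of_nonneg_left hEW (by positivity)
        have g3 : 4 * K * (∑ i, 1 / p i) * Ev w (fun x => fp ψ a (s.erase j) x ^ 2) ≤
            4 * K * P1 * Ev w (fun x => fp ψ a (s.erase j) x ^ 2) :=
          mul_le_mul_of_nonneg_right (mul_le_mul_of_nonneg_left hP1 (by positivity)) hW.le
        have g4 : h * Ev w (fun x => fp ψ a (s.erase j) x ^ 2) =
            2 / t0 * (μ * Ev w (fun x => fp ψ a (s.erase j) x ^ 2)) +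
              4 * K * P1 * Ev w (fun x => fp ψ a (s.erase j) x ^ 2) := by
          rw [hh]
          ring
        linarith
      -- (2)
      have hA : Ev w (fun x => fp ψ a (s.erase j) x ^ 2) -
          B * (1 / Z0 * Ev w (fun x => nh R x * fp ψ a (s.erase j) x ^ 2)) ≤
          Ev w (fun x => fp ψ a (s.erase j) x ^ 2 * ψ j (hit (a j) x)) := by
        have g1 := cov_le hw hu hp1 (R := R) (z := z) (a := a j) (hψ j) (h0 j) (hB j) (hE j)
          (u := fun x => fp ψ a (s.erase j) x ^ 2) (fun x => sq_nonneg _)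
          (fun i x b hb => by
            show fp ψ a (s.erase j) (Function.update x i b) ^ 2 =
              fp ψ a (s.erase j) (Function.update x i (z i)) ^ 2
            rw [hins i x b hb])
          (fun i x => pow_le_pow_left₀ (hnn _) (hup i x _) 2)
        have g2 := ind_nh hw hZ0 hp (R := R) (u := fun x => fp ψ a (s.erase j) x ^ 2)
          (fun x => sq_nonneg _)
        have g3 := mul_le_mul_of_nonneg_left g2 hB0.le
        linarith
      -- (3)
      have hE3 : Ev w (fun x => fp ψ a (s.erase j) x ^ 2 * ψ j (hit (a j) x)) -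
          B * (1 / Z0 * Ev w (fun x => nh R x *
            (fp ψ a (s.erase j) x ^ 2 * ψ j (hit (a j) x)))) ≤
          Ev w (fun x => fp ψ a s x ^ 2) := by
        have g1 := cov_le hw hu hp1 (R := R) (z := z) (a := a j) (hψ j) (h0 j) (hB j) (hE j)
          (u := fun x => fp ψ a (s.erase j) x ^ 2 * ψ j (hit (a j) x))
          (fun x => mul_nonneg (sq_nonneg _) (h0 _ _))
          (fun i x b hb => by
            show fp ψ a (s.erase j) (Function.update x i b) ^ 2 *
                ψ j (hit (a j) (Function.update x i b)) =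
              fp ψ a (s.erase j) (Function.update x i (z i)) ^ 2 *
                ψ j (hit (a j) (Function.update x i (z i)))
            have g5 : ∀ y, fp ψ a (s.erase j) y ^ 2 * ψ j (hit (a j) y) =
                fp ψ a (s.erase j) y * fp ψ a s y := by
              intro y
              rw [ind_erase ψ a hj y]
              ring
            rw [g5, g5, hins i x b hb, hinsS i x b hb])
          (fun i x => by
            show fp ψ a (s.erase j) (Function.update x i (z i)) ^ 2 *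
                ψ j (hit (a j) (Function.update x i (z i))) ≤
              fp ψ a (s.erase j) (Function.update x i (a j i)) ^ 2 *
                ψ j (hit (a j) (Function.update x i (a j i)))
            have g5 : ∀ y, fp ψ a (s.erase j) y ^ 2 * ψ j (hit (a j) y) =
                fp ψ a (s.erase j) y * fp ψ a s y := by
              intro y
              rw [ind_erase ψ a hj y]
              ring
            rw [g5, g5]
            exact mul_le_mul (hup i x _) (hupS i x _) (hnnS _) (hnn _))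
        have g2 := ind_nh hw hZ0 hp (R := R)
          (u := fun x => fp ψ a (s.erase j) x ^ 2 * ψ j (hit (a j) x))
          (fun x => mul_nonneg (sq_nonneg _) (h0 _ _))
        have g3 := mul_le_mul_of_nonneg_left g2 hB0.le
        have g4 : Ev w (fun x => fp ψ a s x ^ 2) =
            Ev w (fun x => fp ψ a (s.erase j) x ^ 2 * ψ j (hit (a j) x) * ψ j (hit (a j) x)) := by
          refine Ev_congr fun x => ?_
          rw [ind_erase ψ a hj x]
          ring
        rw [g4]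
        linarith
      have hnh : ∀ x, 0 ≤ nh R x := by
        intro x
        unfold nh
        refine Finset.sum_nonneg fun i _ => ?_
        split_ifs
        · exact zero_le_one
        · exact le_rfl
      have hN2 : Ev w (fun x => nh R x * (fp ψ a (s.erase j) x ^ 2 * ψ j (hit (a j) x))) ≤
          B * Ev w (fun x => nh R x * fp ψ a (s.erase j) x ^ 2) := by
        rw [← Ev_smul]
        refine Ev_mono hw fun x => ?_
        have g1 : nh R x * fp ψ a (s.erase j) x ^ 2 * ψ j (hit (a j) x) ≤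
            nh R x * fp ψ a (s.erase j) x ^ 2 * B :=
          mul_le_mul_of_nonneg_left (hB j _) (mul_nonneg (hnh x) (sq_nonneg _))
        linarith
      generalize Ev w (fun x => fp ψ a s x ^ 2) = E at *
      generalize Ev w (fun x => fp ψ a (s.erase j) x ^ 2 * ψ j (hit (a j) x)) = A at *
      generalize Ev w (fun x => nh R x * fp ψ a (s.erase j) x ^ 2) = N at *
      generalize Ev w (fun x => nh R x * (fp ψ a (s.erase j) x ^ 2 * ψ j (hit (a j) x))) = N' at *
      generalize Ev w (fun x => fp ψ a (s.erase j) x ^ 2) = W at *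
      -- `B * (1 / Z0 * N) ≤ W / 6`
      have c1 : B * (1 / Z0 * (B * N)) ≤ 1 / 6 * W := by
        have d1 : B * (1 / Z0 * (B * N)) ≤ B * (1 / Z0 * (B * (h * W))) := by
          refine mul_le_mul_of_nonneg_left ?_ hB0.le
          refine mul_le_mul_of_nonneg_left ?_ (by positivity)
          exact mul_le_mul_of_nonneg_left hN hB0.le
        have d2 : B * (1 / Z0 * (B * (h * W))) = B ^ 2 * h / Z0 * W := by ring
        have d3 := mul_le_mul_of_nonneg_right hBh hW.le
        linarith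
      have c2 : B * (1 / Z0 * N') ≤ 1 / 6 * W := by
        refine le_trans ?_ c1
        refine mul_le_mul_of_nonneg_left ?_ hB0.le
        exact mul_le_mul_of_nonneg_left hN2 (by positivity)
      have c3 : B * (1 / Z0 * N) ≤ 1 / 6 * W := by
        have d1 : B * (1 / Z0 * N) ≤ B * (1 / Z0 * (h * W)) := by
          refine mul_le_mul_of_nonneg_left ?_ hB0.le
          exact mul_le_mul_of_nonneg_left hN (by positivity)
        have d2 : B * (1 / Z0 * (h * W)) ≤ B * (1 / Z0 * (B * (h * W))) := by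
          refine mul_le_mul_of_nonneg_left ?_ hB0.le
          refine mul_le_mul_of_nonneg_left ?_ (by positivity)
          have : 0 ≤ h * W := by positivity
          nlinarith
        have d3 : B * (1 / Z0 * (B * (h * W))) = B ^ 2 * h / Z0 * W := by ring
        have d4 := mul_le_mul_of_nonneg_right hBh hW.le
        linarith
      have c4 : A ≤ 4 / 3 * E := by linarith
      have c5 : W ≤ 16 / 9 * E := by linarith
      refine ⟨c4, hN.trans (mul_le_mul_of_nonneg_left c5 hh0), by linarith⟩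
    obtain ⟨j0, hj0⟩ := hs
    have hE0 := (key j0 hj0).2.2
    refine ⟨hE0, ?_⟩
    have g1 := Ep_prod_le hw hu hp1 hl0 hδ ha hz hψ h0 hB hc s
    refine g1.trans ?_
    have g2 : ∑ j ∈ s, (c j * Ev w (fun x => fp ψ a (s.erase j) x ^ 2 * ψ j (hit (a j) x)) +
        B ^ 2 * δ * Ev w (fun x => nh R x * fp ψ a (s.erase j) x ^ 2)) ≤
        ∑ j ∈ s, (c j * (4 / 3 * Ev w (fun x => fp ψ a s x ^ 2)) +
          B ^ 2 * δ * (h * (16 / 9 * Ev w (fun x => fp ψ a s x ^ 2)))) := by
      refine Finset.sum_le_sum fun j hj => ?_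
      obtain ⟨k1, k2, -⟩ := key j hj
      exact add_le_add (mul_le_mul_of_nonneg_left k1 (hc0 j))
        (mul_le_mul_of_nonneg_left k2 (by positivity))
    refine g2.trans ?_
    generalize Ev w (fun x => fp ψ a s x ^ 2) = E at *
    rw [Finset.sum_add_distrib, ← Finset.sum_mul, Finset.sum_const, nsmul_eq_mul]
    have g3 : ∑ j ∈ s, c j ≤ ∑ j, c j :=
      Finset.sum_le_sum_of_subset_of_nonneg (Finset.subset_univ s) fun j _ _ => hc0 j
    have g4 : (s.card : ℝ) ≤ K := le_trans (by exact_mod_cast Finset.card_le_univ s) hκ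
    have g5 : (s.card : ℝ) * (B ^ 2 * δ * (h * (16 / 9 * E))) ≤ 16 / 9 * E * (1 / 2) := by
      have d1 : (s.card : ℝ) * (B ^ 2 * δ * h) ≤ K * (B ^ 2 * δ * h) :=
        mul_le_mul_of_nonneg_right g4 (by positivity)
      have d2 := mul_le_mul_of_nonneg_left (d1.trans h2) (by positivity : (0 : ℝ) ≤ 16 / 9 * E)
      calc (s.card : ℝ) * (B ^ 2 * δ * (h * (16 / 9 * E)))
          = 16 / 9 * E * ((s.card : ℝ) * (B ^ 2 * δ * h)) := by ring
        _ ≤ _ := d2
    have g6 : (∑ j ∈ s, c j) * (4 / 3 * E) ≤ (∑ j, c j) * (4 / 3 * E) :=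
      mul_le_mul_of_nonneg_right g3 (by positivity)
    have g7 : 0 ≤ (∑ j, c j) * E := by positivity
    rw [hμ]
    nlinarith

end Pool.Agent.UIV
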