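import Pool.Agent.UIV.Per
import Pool.Agent.UIV.Enr
import Pool.Agent.RS.Base

/-! UIV/IntSq.  Mean square of a function of level `D` along a progression.

`card_PP`: `S ↦ ∏_{i∈S} p i` is injective (the `p i` are distinct primes: `i ∈ S ↔ p i ∣ ∏_S p`) and maps into
`Icc 1 ⌊D⌋`.
`int_sq`: `G = ∑_{PP S ≤ D} Cm S G` (`sum_Cm`), and `Cm S G = 0` unless `S ⊆ univ \ T` (`Cm_zero`).
`e S = √(Ev (Cm S G)^2)`, `|Cm S G x| ≤ √(PP S) e S` (`sup_dep`, `Cm_dep`).
`∑_t G^2 - N Ev G^2 = ∑_{S,S'} (∑_t Cm S G Cm S' G - N Ev (Cm S G Cm S' G))`; `Cm S G * Cm S' G` depends on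
`S ∪ S'`, disjoint from `T`, so `per_avg` bounds the term by
`2 PP (S ∪ S') √(PP S) √(PP S') e S e S' ≤ 2 (PP S)^(3/2) e S * (PP S')^(3/2) e S'`.  The sum is
`≤ 2 (∑_{PP S ≤ D} (PP S)^(3/2) e S)^2 ≤ 2 (∑_{PP S ≤ D} (PP S)^3) ∑ e S^2 ≤ 2 (D * D^3) Ev G^2`
(`Finset.sum_mul_sq_le_sq_mul_sq`, `card_PP`, `Ev_mul`). -/

namespace Pool.Agent.UIV

open Finset Pool.Agent.RS

variable {ι : Type} [Fintype ι] [DecidableEq ι]

open Classical in
theorem card_PP {p : ι → ℕ} (hp : ∀ i, (p i).Prime) (hinj : Function.Injective p) {D : ℝ}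
    (hD : 1 ≤ D) :
    (((univ : Finset (Finset ι)).filter (fun S => PP p S ≤ D)).card : ℝ) ≤ D := by
  have hD0 : 0 ≤ D := by linarith
  have hmem : ∀ (S : Finset ι) (i : ι), i ∈ S ↔ p i ∣ ∏ j ∈ S, p j := by
    intro S i
    constructor
    · intro h
      exact Finset.dvd_prod_of_mem p h
    · intro h
      obtain ⟨j, hj, hd⟩ := ((hp i).prime.dvd_finsetProd_iff p).1 h
      have h1 : p i = p j := (Nat.prime_dvd_prime_iff_eq (hp i) (hp j)).1 hd
      rw [hinj h1]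
      exact hj
  have hinj2 : Function.Injective (fun S : Finset ι => ∏ j ∈ S, p j) := by
    intro S S' h
    ext i
    rw [hmem S i, hmem S' i]
    have h1 : ∏ j ∈ S, p j = ∏ j ∈ S', p j := h
    rw [h1]
  have h1 : ((univ : Finset (Finset ι)).filter (fun S => PP p S ≤ D)).card ≤
      (Finset.Icc 1 ⌊D⌋₊).card := by
    refine Finset.card_le_card_of_injOn (fun S : Finset ι => ∏ j ∈ S, p j) ?_ (hinj2.injOn)
    intro S hS
    have h2 : PP p S ≤ D := (mem_filter.1 (mem_coe.1 hS)).2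
    refine mem_coe.2 (Finset.mem_Icc.2 ⟨?_, ?_⟩)
    · exact Finset.prod_pos fun i _ => (hp i).pos
    · refine Nat.le_floor ?_
      have h3 : ((∏ j ∈ S, p j : ℕ) : ℝ) = PP p S := by
        unfold PP
        push_cast
        rfl
      exact h3.le.trans h2
  rw [Nat.card_Icc, Nat.add_sub_cancel] at h1
  have h2 : (((univ : Finset (Finset ι)).filter (fun S => PP p S ≤ D)).card : ℝ) ≤ (⌊D⌋₊ : ℝ) := by
    exact_mod_cast h1
  exact h2.trans (Nat.floor_le hD0)

private theorem isq_one {p : ι → ℕ} (hp : ∀ i, (p i).Prime) (S : Finset ι) : 1 ≤ PP p S := by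
  unfold PP
  have h := Finset.prod_le_prod (s := S) (f := fun _ => (1 : ℝ)) (g := fun i => (p i : ℝ))
    (fun _ _ => zero_le_one) (fun i _ => by exact_mod_cast (hp i).one_lt.le)
  rwa [prod_const_one] at h

private theorem isq_union {p : ι → ℕ} (hp : ∀ i, (p i).Prime) (S S' : Finset ι) :
    PP p (S ∪ S') ≤ PP p S * PP p S' := by
  have h1 : PP p (S ∪ S') * PP p (S ∩ S') = PP p S * PP p S' := by
    unfold PP
    exact prod_union_inter
  have h2 := isq_one hp (S ∩ S')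
  have h3 := isq_one hp (S ∪ S')
  nlinarith [h1, h2, h3]

private theorem isq_sup {p : ι → ℕ} [∀ i, NeZero (p i)] (hp : ∀ i, (p i).Prime) (S : Finset ι)
    (G : (∀ i, ZMod (p i)) → ℝ) (x : ∀ i, ZMod (p i)) :
    |Cm (wZ p) S G x| ≤ √(PP p S) * √(Ev (wZ p) (fun x => Cm (wZ p) S G x ^ 2)) := by
  have h1 := sup_dep (Pw_wZ p) (Cm_dep (w := wZ p) S G) x
  have h2 : ∏ i ∈ S, wZ p i (x i) = (PP p S)⁻¹ := by
    unfold wZ PP
    rw [← prod_inv_distrib]
    exact prod_congr rfl fun i _ => one_div _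
  rw [h2] at h1
  have h3 : 0 < PP p S := lt_of_lt_of_le one_pos (isq_one hp S)
  have h4 : Cm (wZ p) S G x ^ 2 ≤ PP p S * Ev (wZ p) (fun x => Cm (wZ p) S G x ^ 2) := by
    have h5 := mul_le_mul_of_nonneg_left h1 h3.le
    rwa [← mul_assoc, mul_inv_cancel₀ h3.ne', one_mul] at h5
  rw [← Real.sqrt_mul h3.le, ← Real.sqrt_sq_eq_abs]
  exact Real.sqrt_le_sqrt h4

theorem int_sq {p : ι → ℕ} [∀ i, NeZero (p i)] (hp : ∀ i, (p i).Prime)
    (hinj : Function.Injective p) {M : ℕ} {T : Finset ι} (hM : ∀ i, i ∉ T → Nat.Coprime M (p i))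
    (n0 : ℤ) {D : ℝ} (hD : 1 ≤ D) {G : (∀ i, ZMod (p i)) → ℝ} (hT : Dep (univ \ T) G)
    (hG : ∀ S : Finset ι, D < PP p S → ∀ x, Cm (wZ p) S G x = 0) (N : ℕ) :
    |∑ t ∈ range N, G (rs p (n0 + M * (t : ℕ))) ^ 2 - N * Ev (wZ p) (fun x => G x ^ 2)| ≤
      2 * D ^ 4 * Ev (wZ p) (fun x => G x ^ 2) := by
  classical
  have hw := Pw_wZ p
  have hD0 : 0 ≤ D := by linarith
  obtain ⟨C, hC⟩ : ∃ C : Finset ι → (∀ i, ZMod (p i)) → ℝ, C = fun S => Cm (wZ p) S G := ⟨_, rfl⟩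
  obtain ⟨F, hF⟩ : ∃ F : Finset (Finset ι), F = univ.filter (fun S => PP p S ≤ D) := ⟨_, rfl⟩
  have hFc : (F.card : ℝ) ≤ D := by
    rw [hF]
    exact card_PP hp hinj hD
  have hco : ∀ i j, i ≠ j → Nat.Coprime (p i) (p j) := fun i j hij =>
    (Nat.coprime_primes (hp i) (hp j)).2 fun h => hij (hinj h)
  have hsum : ∀ x, G x = ∑ S ∈ F, C S x := by
    intro x
    rw [← sum_Cm (w := wZ p) G x, hC]
    refine (sum_subset (subset_univ F) fun S _ hS => ?_).symm
    refine hG S ?_ x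
    rw [hF, mem_filter, not_and] at hS
    exact not_le.1 (hS (mem_univ S))
  have hsq : ∀ x, G x ^ 2 = ∑ S ∈ F, ∑ S' ∈ F, C S x * C S' x := by
    intro x
    rw [hsum x, sq, sum_mul_sum]
  have hEv : Ev (wZ p) (fun x => G x ^ 2) =
      ∑ S ∈ F, ∑ S' ∈ F, Ev (wZ p) (fun x => C S x * C S' x) := by
    rw [Ev_congr hsq, Ev_sum (wZ p) F (fun S x => ∑ S' ∈ F, C S x * C S' x)]
    refine sum_congr rfl fun S _ => ?_
    exact Ev_sum (wZ p) F (fun S' x => C S x * C S' x)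
  obtain ⟨e, he⟩ : ∃ e : Finset ι → ℝ, e = fun S => √(Ev (wZ p) (fun x => C S x ^ 2)) := ⟨_, rfl⟩
  have he0 : ∀ S, 0 ≤ e S := fun S => by
    rw [he]
    exact Real.sqrt_nonneg _
  have hsup : ∀ S x, |C S x| ≤ √(PP p S) * e S := by
    intro S x
    rw [he, hC]
    exact isq_sup hp S G x
  have hP0 : ∀ S, 0 ≤ PP p S := fun S => zero_le_one.trans (isq_one hp S)
  obtain ⟨a, ha⟩ : ∃ a : Finset ι → ℝ, a = fun S => PP p S * √(PP p S) * e S := ⟨_, rfl⟩
  have ha0 : ∀ S, 0 ≤ a S := fun S => by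
    rw [ha]
    exact mul_nonneg (mul_nonneg (hP0 S) (Real.sqrt_nonneg _)) (he0 S)
  have hterm : ∀ S S' : Finset ι,
      |∑ t ∈ range N, C S (rs p (n0 + M * (t : ℕ))) * C S' (rs p (n0 + M * (t : ℕ))) -
        N * Ev (wZ p) (fun x => C S x * C S' x)| ≤ 2 * (a S * a S') := by
    intro S S'
    by_cases h1 : S ⊆ univ \ T
    · by_cases h2 : S' ⊆ univ \ T
      · have h3 : Dep (S ∪ S') (fun x => C S x * C S' x) := by
          intro x y hxy
          have h4 : C S x = C S y := by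
            rw [hC]
            exact Cm_dep S G x y fun i hi => hxy i (mem_union_left _ hi)
          have h5 : C S' x = C S' y := by
            rw [hC]
            exact Cm_dep S' G x y fun i hi => hxy i (mem_union_right _ hi)
          show C S x * C S' x = C S y * C S' y
          rw [h4, h5]
        have h4 : ∀ i ∈ S ∪ S', Nat.Coprime M (p i) := by
          intro i hi
          refine hM i ?_
          rcases mem_union.1 hi with hi | hi
          · exact (mem_sdiff.1 (h1 hi)).2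
          · exact (mem_sdiff.1 (h2 hi)).2
        have h5 : ∀ x, |C S x * C S' x| ≤ (√(PP p S) * e S) * (√(PP p S') * e S') := by
          intro x
          rw [abs_mul]
          exact mul_le_mul (hsup S x) (hsup S' x) (abs_nonneg _)
            (mul_nonneg (Real.sqrt_nonneg _) (he0 S))
        have h6 := per_avg hco h4 n0 h3 h5 N
        refine h6.trans ?_
        have h7 : (∏ i ∈ S ∪ S', (p i : ℝ)) ≤ PP p S * PP p S' := isq_union hp S S'
        have h8 : 0 ≤ (√(PP p S) * e S) * (√(PP p S') * e S') :=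
          mul_nonneg (mul_nonneg (Real.sqrt_nonneg _) (he0 S))
            (mul_nonneg (Real.sqrt_nonneg _) (he0 S'))
        have h9 := mul_le_mul_of_nonneg_right h7 h8
        have h10 : a S * a S' =
            PP p S * PP p S' * ((√(PP p S) * e S) * (√(PP p S') * e S')) := by
          rw [ha]
          ring
        rw [h10]
        linarith
      · have h3 : ∀ x, C S' x = 0 := fun x => by
          rw [hC]
          exact Cm_zero hw h2 hT x
        have h4 : ∀ x, C S x * C S' x = 0 := fun x => by rw [h3 x, mul_zero]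
        have h5 : Ev (wZ p) (fun x => C S x * C S' x) = 0 := by
          rw [Ev_congr h4, Ev_const hw]
        rw [h5, sum_congr rfl fun t _ => h4 _, sum_const_zero, mul_zero, sub_zero, abs_zero]
        exact mul_nonneg zero_le_two (mul_nonneg (ha0 S) (ha0 S'))
    · have h3 : ∀ x, C S x = 0 := fun x => by
        rw [hC]
        exact Cm_zero hw h1 hT x
      have h4 : ∀ x, C S x * C S' x = 0 := fun x => by rw [h3 x, zero_mul]
      have h5 : Ev (wZ p) (fun x => C S x * C S' x) = 0 := by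
        rw [Ev_congr h4, Ev_const hw]
      rw [h5, sum_congr rfl fun t _ => h4 _, sum_const_zero, mul_zero, sub_zero, abs_zero]
      exact mul_nonneg zero_le_two (mul_nonneg (ha0 S) (ha0 S'))
  have hdiff : ∑ t ∈ range N, G (rs p (n0 + M * (t : ℕ))) ^ 2 - N * Ev (wZ p) (fun x => G x ^ 2) =
      ∑ S ∈ F, ∑ S' ∈ F,
        (∑ t ∈ range N, C S (rs p (n0 + M * (t : ℕ))) * C S' (rs p (n0 + M * (t : ℕ))) -
          N * Ev (wZ p) (fun x => C S x * C S' x)) := by
    have h1 : ∑ t ∈ range N, G (rs p (n0 + M * (t : ℕ))) ^ 2 =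
        ∑ S ∈ F, ∑ S' ∈ F, ∑ t ∈ range N,
          C S (rs p (n0 + M * (t : ℕ))) * C S' (rs p (n0 + M * (t : ℕ))) := by
      rw [sum_congr rfl fun t _ => hsq (rs p (n0 + M * (t : ℕ))), sum_comm]
      refine sum_congr rfl fun S _ => ?_
      rw [sum_comm]
    rw [h1, hEv, mul_sum, ← sum_sub_distrib]
    refine sum_congr rfl fun S _ => ?_
    rw [mul_sum, ← sum_sub_distrib]
  rw [hdiff]
  have hb1 : |∑ S ∈ F, ∑ S' ∈ F,
        (∑ t ∈ range N, C S (rs p (n0 + M * (t : ℕ))) * C S' (rs p (n0 + M * (t : ℕ))) -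
          N * Ev (wZ p) (fun x => C S x * C S' x))| ≤ 2 * (∑ S ∈ F, a S) ^ 2 := by
    refine (abs_sum_le_sum_abs _ _).trans ?_
    refine (sum_le_sum fun S _ => abs_sum_le_sum_abs _ _).trans ?_
    refine (sum_le_sum fun S _ => sum_le_sum fun S' _ => hterm S S').trans ?_
    rw [sq, sum_mul_sum, mul_sum]
    refine sum_le_sum fun S _ => ?_
    rw [mul_sum]
  have hb2 : (∑ S ∈ F, a S) ^ 2 ≤
      (∑ S ∈ F, (PP p S * √(PP p S)) ^ 2) * ∑ S ∈ F, e S ^ 2 := by
    rw [ha]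
    exact Finset.sum_mul_sq_le_sq_mul_sq F (fun S => PP p S * √(PP p S)) e
  have hb3 : ∑ S ∈ F, (PP p S * √(PP p S)) ^ 2 ≤ D * D ^ 3 := by
    have h1 : ∀ S ∈ F, (PP p S * √(PP p S)) ^ 2 ≤ D ^ 3 := by
      intro S hS
      rw [hF] at hS
      have h2 : PP p S ≤ D := (mem_filter.1 hS).2
      rw [mul_pow, Real.sq_sqrt (hP0 S), ← pow_succ]
      exact pow_le_pow_left₀ (hP0 S) h2 3
    refine (sum_le_sum h1).trans ?_
    rw [sum_const, nsmul_eq_mul]
    exact mul_le_mul_of_nonneg_right hFc (pow_nonneg hD0 3)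
  have hb4 : ∑ S ∈ F, e S ^ 2 ≤ Ev (wZ p) (fun x => G x ^ 2) := by
    have h1 : ∀ S, e S ^ 2 = Ev (wZ p) (fun x => C S x ^ 2) := by
      intro S
      rw [he]
      exact Real.sq_sqrt (Ev_nonneg hw fun x => sq_nonneg _)
    have h2 : Ev (wZ p) (fun x => G x ^ 2) = ∑ S : Finset ι, Ev (wZ p) (fun x => C S x ^ 2) := by
      rw [Ev_congr (f := fun x => G x ^ 2) (g := fun x => G x * G x) fun x => sq (G x), Ev_mul hw]
      refine sum_congr rfl fun S _ => ?_
      rw [hC]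
      exact Ev_congr fun x => (sq _).symm
    rw [h2, sum_congr rfl fun S _ => h1 S]
    exact sum_le_sum_of_subset_of_nonneg (subset_univ F) fun S _ _ =>
      Ev_nonneg hw fun x => sq_nonneg _
  have hE0 : 0 ≤ Ev (wZ p) (fun x => G x ^ 2) := Ev_nonneg hw fun x => sq_nonneg _
  have hb5 : (∑ S ∈ F, (PP p S * √(PP p S)) ^ 2) * ∑ S ∈ F, e S ^ 2 ≤
      D * D ^ 3 * Ev (wZ p) (fun x => G x ^ 2) :=
    mul_le_mul hb3 hb4 (sum_nonneg fun S _ => sq_nonneg _)
      (mul_nonneg hD0 (pow_nonneg hD0 3))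
  calc _ ≤ 2 * (∑ S ∈ F, a S) ^ 2 := hb1
    _ ≤ 2 * (D * D ^ 3 * Ev (wZ p) (fun x => G x ^ 2)) :=
        mul_le_mul_of_nonneg_left (hb2.trans hb5) zero_le_two
    _ = 2 * D ^ 4 * Ev (wZ p) (fun x => G x ^ 2) := by ring

end Pool.Agent.UIV
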