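import Pool.Agent.UIV.Noi

/-! UIV/Leak.  A function which vanishes when fewer than `ρ` coordinates hit `a` keeps this property
approximately under a small noise. -/

namespace Pool.Agent.UIV

open Finset

variable {ι : Type} [Fintype ι] [DecidableEq ι] {α : ι → Type} [∀ i, Fintype (α i)]
  [∀ i, DecidableEq (α i)]

/-- number of coordinates where `x` agrees with `a` -/
def Hc (a x : ∀ i, α i) : ℕ := (univ.filter (fun i => x i = a i)).card

omit [Fintype ι] [DecidableEq ι] in
private theorem lk_ind_eq {w : ∀ i, α i → ℝ} (i : ι) (b : α i) :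
    ∑ c, w i c * (if c = b then (1 : ℝ) else 0) = w i b := by
  have h : ∀ c : α i, w i c * (if c = b then (1 : ℝ) else 0) = if c = b then w i c else 0 := by
    intro c
    split_ifs
    · exact mul_one _
    · exact mul_zero _
  rw [Finset.sum_congr rfl (fun c _ => h c), Finset.sum_ite_eq' univ b (fun c => w i c)]
  exact if_pos (mem_univ b)

/-- a point of `Z` rarely moves to `U` -/
private theorem lk_v {w : ∀ i, α i → ℝ} (hw : Pw w) {θ : ι → ℝ} (h0 : ∀ i, 0 ≤ θ i)
    (h1 : ∀ i, θ i ≤ 1) (a : ∀ i, α i) (ρ : ℕ) {x : ∀ i, α i} (hx : Hc a x < ρ) :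
    Nz w θ (fun y => if Hc a y < ρ then 0 else 1) x ≤ ∑ i, θ i * w i (a i) := by
  have hle : ∀ y : ∀ i, α i, (fun y => if Hc a y < ρ then (0 : ℝ) else 1) y ≤
      (fun y => ∑ i ∈ univ.filter (fun i => ¬ x i = a i), (if y i = a i then (1 : ℝ) else 0)) y := by
    intro y
    show (if Hc a y < ρ then (0 : ℝ) else 1) ≤
      ∑ i ∈ univ.filter (fun i => ¬ x i = a i), (if y i = a i then (1 : ℝ) else 0)
    have hnn : ∀ i ∈ univ.filter (fun i => ¬ x i = a i), (0 : ℝ) ≤ (if y i = a i then (1 : ℝ) else 0) := by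
      intro i _
      split_ifs
      · exact zero_le_one
      · exact le_rfl
    by_cases hy : Hc a y < ρ
    · rw [if_pos hy]
      exact Finset.sum_nonneg hnn
    · rw [if_neg hy]
      have hex : ∃ i, y i = a i ∧ ¬ x i = a i := by
        by_contra hcon
        push Not at hcon
        have hsub : univ.filter (fun i => y i = a i) ⊆ univ.filter (fun i => x i = a i) := by
          intro i hi
          rw [mem_filter] at hi ⊢
          exact ⟨mem_univ i, hcon i hi.2⟩
        have hc := Finset.card_le_card hsub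
        unfold Hc at hx hy
        omega
      obtain ⟨i, hi1, hi2⟩ := hex
      have hmem : i ∈ univ.filter (fun i => ¬ x i = a i) := mem_filter.2 ⟨mem_univ i, hi2⟩
      have h2 := Finset.single_le_sum hnn hmem
      rw [if_pos hi1] at h2
      exact h2
  refine (Nz_mono hw h0 h1 hle x).trans ?_
  rw [Nz_sum]
  have hterm : ∀ i ∈ univ.filter (fun i => ¬ x i = a i),
      Nz w θ (fun y : ∀ i, α i => if y i = a i then (1 : ℝ) else 0) x = θ i * w i (a i) := by
    intro i hi
    rw [mem_filter] at hi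
    rw [Nz_one_coord hw θ i (fun c => if c = a i then (1 : ℝ) else 0) x, if_neg hi.2, mul_zero,
      zero_add, lk_ind_eq]
  rw [Finset.sum_congr rfl hterm]
  exact Finset.sum_le_sum_of_subset_of_nonneg (Finset.filter_subset _ _)
    (fun i _ _ => mul_nonneg (h0 i) (hw.nn i _))

/-- a point of `U` rarely moves to `Z` -/
private theorem lk_z {w : ∀ i, α i → ℝ} (hw : Pw w) {θ : ι → ℝ} (h0 : ∀ i, 0 ≤ θ i)
    (h1 : ∀ i, θ i ≤ 1) {τ : ℝ} (hτ : ∀ i, θ i ≤ τ) (a : ∀ i, α i) (ρ : ℕ) {y : ∀ i, α i}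
    (hy : ρ ≤ Hc a y) :
    Nz w θ (fun x => if Hc a x < ρ then 1 else 0) y ≤ ρ * τ := by
  obtain ⟨G, hG1, hG2⟩ := Finset.exists_subset_card_eq hy
  have hle : ∀ x : ∀ i, α i, (fun x => if Hc a x < ρ then (1 : ℝ) else 0) x ≤
      (fun x => ∑ i ∈ G, (if x i = a i then (0 : ℝ) else 1)) x := by
    intro x
    show (if Hc a x < ρ then (1 : ℝ) else 0) ≤ ∑ i ∈ G, (if x i = a i then (0 : ℝ) else 1)
    have hnn : ∀ i ∈ G, (0 : ℝ) ≤ (if x i = a i then (0 : ℝ) else 1) := by
      intro i _
      split_ifs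
      · exact le_rfl
      · exact zero_le_one
    by_cases hx : Hc a x < ρ
    · rw [if_pos hx]
      have hex : ∃ i ∈ G, ¬ x i = a i := by
        by_contra hcon
        push Not at hcon
        have hsub : G ⊆ univ.filter (fun i => x i = a i) := by
          intro i hi
          rw [mem_filter]
          exact ⟨mem_univ i, hcon i hi⟩
        have hc := Finset.card_le_card hsub
        unfold Hc at hx
        omega
      obtain ⟨i, hi1, hi2⟩ := hex
      have h2 := Finset.single_le_sum hnn hi1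
      rw [if_neg hi2] at h2
      exact h2
    · rw [if_neg hx]
      exact Finset.sum_nonneg hnn
  refine (Nz_mono hw h0 h1 hle y).trans ?_
  rw [Nz_sum]
  have hterm : ∀ i ∈ G,
      Nz w θ (fun x : ∀ i, α i => if x i = a i then (0 : ℝ) else 1) y ≤ τ := by
    intro i hi
    have hi' := hG1 hi
    rw [mem_filter] at hi'
    rw [Nz_one_coord hw θ i (fun c => if c = a i then (0 : ℝ) else 1) y, if_pos hi'.2, mul_zero,
      zero_add]
    have h3 : ∑ c, w i c * (if c = a i then (0 : ℝ) else 1) ≤ 1 := by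
      refine (Finset.sum_le_sum (fun c _ => ?_)).trans (hw.one i).le
      split_ifs
      · rw [mul_zero]
        exact hw.nn i c
      · exact (mul_one _).le
    have h4 : 0 ≤ ∑ c, w i c * (if c = a i then (0 : ℝ) else 1) := by
      refine Finset.sum_nonneg (fun c _ => mul_nonneg (hw.nn i c) ?_)
      split_ifs
      · exact le_rfl
      · exact zero_le_one
    calc θ i * ∑ c, w i c * (if c = a i then (0 : ℝ) else 1) ≤ θ i * 1 :=
          mul_le_mul_of_nonneg_left h3 (h0 i)
      _ = θ i := mul_one _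
      _ ≤ τ := hτ i
  refine (Finset.sum_le_sum hterm).trans ?_
  rw [Finset.sum_const, nsmul_eq_mul, hG2]

theorem leak {w : ∀ i, α i → ℝ} (hw : Pw w) {θ : ι → ℝ} (h0 : ∀ i, 0 ≤ θ i)
    (h1 : ∀ i, θ i ≤ 1) {τ : ℝ} (hτ : ∀ i, θ i ≤ τ) (a : ∀ i, α i) (ρ : ℕ)
    {f : (∀ i, α i) → ℝ} (hf : ∀ x, Hc a x < ρ → f x = 0) :
    Ev w (fun x => if Hc a x < ρ then Nz w θ f x ^ 2 else 0) ≤
      (∑ i, θ i * w i (a i)) * (ρ * τ) * Ev w (fun x => f x ^ 2) := by
  have hA : 0 ≤ ∑ i, θ i * w i (a i) :=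
    Finset.sum_nonneg (fun i _ => mul_nonneg (h0 i) (hw.nn i _))
  have hsq : ∀ x, 0 ≤ Nz w θ (fun y => f y ^ 2) x := fun x =>
    Nz_nonneg hw h0 h1 (fun y => sq_nonneg (f y)) x
  have e1 : Ev w (fun x => if Hc a x < ρ then Nz w θ f x ^ 2 else 0) ≤
      Ev w (fun x => (∑ i, θ i * w i (a i)) *
        (Nz w θ (fun y => f y ^ 2) x * (if Hc a x < ρ then 1 else 0))) := by
    refine Ev_mono hw (fun x => ?_)
    by_cases hx : Hc a x < ρ
    · rw [if_pos hx, if_pos hx, mul_one]
      have h2 := Nz_sq_le hw h0 h1 (v := fun y => if Hc a y < ρ then (0 : ℝ) else 1) (f := f)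
        (fun y => by
          by_cases hy : Hc a y < ρ
          · left
            exact if_pos hy
          · right
            exact if_neg hy)
        (fun y hy => by
          by_cases hy' : Hc a y < ρ
          · exact hf y hy'
          · exfalso
            have h3 : (if Hc a y < ρ then (0 : ℝ) else 1) = 0 := hy
            rw [if_neg hy'] at h3
            exact one_ne_zero h3) x
      exact h2.trans (mul_le_mul_of_nonneg_right (lk_v hw h0 h1 a ρ hx) (hsq x))
    · rw [if_neg hx, if_neg hx, mul_zero, mul_zero]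
  have e2 : Ev w (fun x => (∑ i, θ i * w i (a i)) *
        (Nz w θ (fun y => f y ^ 2) x * (if Hc a x < ρ then 1 else 0))) =
      (∑ i, θ i * w i (a i)) *
        Ev w (fun x => f x ^ 2 * Nz w θ (fun y => if Hc a y < ρ then (1 : ℝ) else 0) x) := by
    rw [Ev_smul, Nz_adj θ (fun y => f y ^ 2) (fun y => if Hc a y < ρ then (1 : ℝ) else 0)]
  have e3 : Ev w (fun x => f x ^ 2 * Nz w θ (fun y => if Hc a y < ρ then (1 : ℝ) else 0) x) ≤
      Ev w (fun x => (ρ * τ) * f x ^ 2) := by
    refine Ev_mono hw (fun y => ?_)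
    by_cases hy : Hc a y < ρ
    · rw [hf y hy]
      simp
    · rw [mul_comm]
      exact mul_le_mul_of_nonneg_right (lk_z hw h0 h1 hτ a ρ (not_lt.1 hy)) (sq_nonneg _)
  rw [Ev_smul] at e3
  calc Ev w (fun x => if Hc a x < ρ then Nz w θ f x ^ 2 else 0)
      ≤ (∑ i, θ i * w i (a i)) *
        Ev w (fun x => f x ^ 2 * Nz w θ (fun y => if Hc a y < ρ then (1 : ℝ) else 0) x) :=
        e1.trans e2.le
    _ ≤ (∑ i, θ i * w i (a i)) * ((ρ * τ) * Ev w (fun x => f x ^ 2)) :=
        mul_le_mul_of_nonneg_left e3 hA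
    _ = (∑ i, θ i * w i (a i)) * (ρ * τ) * Ev w (fun x => f x ^ 2) := by ring

end Pool.Agent.UIV
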