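import Pool.Agent.UIV.Cov

/-! UIV/Mon.  The equilibrium function is monotone (minimum principle for the increments). -/

namespace Pool.Agent.UIV

open Finset

variable {ι : Type} [Fintype ι] [DecidableEq ι]

omit [DecidableEq ι] in
private theorem cnt_le_cnt {x y : ι → Bool} (h : ∀ i, x i = true → y i = true) :
    cnt x ≤ cnt y := by
  unfold cnt
  refine Finset.card_le_card (fun i hi => ?_)
  rw [Finset.mem_filter] at hi ⊢
  exact ⟨hi.1, h i hi.2⟩

private theorem step {q : ι → ℝ} (h0 : ∀ i, 0 ≤ q i) (h1 : ∀ i, q i ≤ 1) {l : ι → ℝ}
    (hl : ∀ i, 0 < l i) {ρ : ℕ} {ψ : (ι → Bool) → ℝ} {c : ℝ}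
    (hz : ∀ x, cnt x < ρ → ψ x = 0) (hn : ∀ x, ρ ≤ cnt x → Nl (wB q) l ψ x = c)
    (hnn : ∀ x, 0 ≤ ψ x) (i : ι) (y : ι → Bool) :
    ψ (Function.update y i false) ≤ ψ (Function.update y i true) := by
  obtain ⟨x, hx⟩ := Finite.exists_min
    (fun z : ι → Bool => ψ (Function.update z i true) - ψ (Function.update z i false))
  have hpw : Pw (wB q) := Pw_wB h0 h1
  suffices h : 0 ≤ ψ (Function.update x i true) - ψ (Function.update x i false) by
    have := hx y
    linarith
  by_contra hneg
  rw [not_le] at hneg
  have hcm : ρ ≤ cnt (Function.update x i false) := by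
    by_contra hc
    rw [not_le] at hc
    have e1 := hz _ hc
    have e2 := hnn (Function.update x i true)
    rw [e1] at hneg
    linarith
  have hcp : ρ ≤ cnt (Function.update x i true) := by
    refine hcm.trans (cnt_le_cnt (fun j hj => ?_))
    by_cases hji : j = i
    · subst hji
      simp
    · rw [Function.update_of_ne hji] at hj ⊢
      exact hj
  have e1 := hn _ hcm
  have e2 := hn _ hcp
  have e3 : ∑ k, l k * ((ψ (Function.update x i true) -
      Av (wB q) k ψ (Function.update x i true)) - (ψ (Function.update x i false) -
        Av (wB q) k ψ (Function.update x i false))) = 0 := by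
    have : ∀ k ∈ (univ : Finset ι), l k * ((ψ (Function.update x i true) -
      Av (wB q) k ψ (Function.update x i true)) - (ψ (Function.update x i false) -
        Av (wB q) k ψ (Function.update x i false))) =
        l k * (ψ (Function.update x i true) - Av (wB q) k ψ (Function.update x i true)) -
        l k * (ψ (Function.update x i false) - Av (wB q) k ψ (Function.update x i false)) :=
      fun k _ => by ring
    rw [Finset.sum_congr rfl this, Finset.sum_sub_distrib]
    unfold Nl at e1 e2
    rw [e1, e2, sub_self]
  have hself : ∀ b, Av (wB q) i ψ (Function.update x i b) =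
      ∑ a, wB q i a * ψ (Function.update x i a) := by
    intro b
    unfold Av
    simp only [Function.update_idem]
  have hk : ∀ k, k ≠ i → (ψ (Function.update x i true) -
      Av (wB q) k ψ (Function.update x i true)) - (ψ (Function.update x i false) -
        Av (wB q) k ψ (Function.update x i false)) ≤ 0 := by
    intro k hki
    have f1 : Av (wB q) k ψ (Function.update x i true) -
        Av (wB q) k ψ (Function.update x i false) =
        ∑ b, wB q k b * (ψ (Function.update (Function.update x k b) i true) -
          ψ (Function.update (Function.update x k b) i false)) := by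
      unfold Av
      rw [← Finset.sum_sub_distrib]
      refine Finset.sum_congr rfl (fun b _ => ?_)
      rw [Function.update_comm hki, Function.update_comm hki]
      ring
    have f2 : ∑ b, wB q k b * (ψ (Function.update x i true) - ψ (Function.update x i false)) ≤
        ∑ b, wB q k b * (ψ (Function.update (Function.update x k b) i true) -
          ψ (Function.update (Function.update x k b) i false)) :=
      Finset.sum_le_sum (fun b _ => mul_le_mul_of_nonneg_left (hx _) (hpw.nn k b))
    rw [← Finset.sum_mul, hpw.one k, one_mul] at f2
    linarith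
  have hlt : ∑ k, l k * ((ψ (Function.update x i true) -
      Av (wB q) k ψ (Function.update x i true)) - (ψ (Function.update x i false) -
        Av (wB q) k ψ (Function.update x i false))) < ∑ _k : ι, (0 : ℝ) := by
    refine Finset.sum_lt_sum (fun k _ => ?_) ⟨i, Finset.mem_univ i, ?_⟩
    · by_cases hki : k = i
      · subst hki
        rw [hself, hself]
        exact mul_nonpos_of_nonneg_of_nonpos (hl k).le (by linarith)
      · exact mul_nonpos_of_nonneg_of_nonpos (hl k).le (hk k hki)
    · rw [hself, hself]
      exact mul_neg_of_pos_of_neg (hl i) (by linarith)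
  rw [e3, Finset.sum_const_zero] at hlt
  exact lt_irrefl _ hlt

theorem eq_mono {q : ι → ℝ} (h0 : ∀ i, 0 ≤ q i) (h1 : ∀ i, q i ≤ 1) {l : ι → ℝ}
    (hl : ∀ i, 0 < l i) {ρ : ℕ} {ψ : (ι → Bool) → ℝ} {c : ℝ}
    (hz : ∀ x, cnt x < ρ → ψ x = 0) (hn : ∀ x, ρ ≤ cnt x → Nl (wB q) l ψ x = c)
    (hnn : ∀ x, 0 ≤ ψ x) : Monotone ψ := by
  intro x y hxy
  have key : ∀ P : Finset ι, ψ x ≤ ψ (P.piecewise y x) := by
    intro P
    induction P using Finset.induction_on with
    | empty => rw [Finset.piecewise_empty]
    | insert j P hj ih =>
      rw [Finset.piecewise_insert]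
      refine ih.trans ?_
      have hzj : P.piecewise y x j = x j := Finset.piecewise_eq_of_notMem _ _ _ hj
      by_cases hxj : x j = y j
      · rw [← hxj, ← hzj, Function.update_eq_self]
      · have hle := hxy j
        have hx0 : x j = false := by
          cases hx : x j
          · rfl
          · exfalso
            rw [hx] at hle hxj
            cases hy : y j
            · rw [hy] at hle
              exact Bool.noConfusion (hle rfl)
            · exact hxj hy.symm
        have hy1 : y j = true := by
          cases hy : y j
          · exact absurd (hx0.trans hy.symm) hxj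
          · rfl
        have := step h0 h1 hl hz hn hnn j (P.piecewise y x)
        rw [hy1]
        refine le_trans (le_of_eq ?_) this
        rw [← hx0, ← hzj, Function.update_eq_self]
  have := key univ
  rwa [Finset.piecewise_univ] at this

end Pool.Agent.UIV
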