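import Pool.Agent.UIV.Comp
import Pool.Agent.UIV.EvB

/-! UIV/Noi.  The noise operator `Nz w θ`, `0 ≤ θ i ≤ 1`: a Markov operator, symmetric for `∏ w`.

The kernel is nonnegative with row sums `1` and symmetric for `w`; the rest is the theorem of
Fubini for finite products and Cauchy-Schwarz. -/

namespace Pool.Agent.UIV

open Finset

variable {ι : Type} [Fintype ι] [DecidableEq ι] {α : ι → Type} [∀ i, Fintype (α i)]
  [∀ i, DecidableEq (α i)]

private theorem noi_nn {w : ∀ i, α i → ℝ} (hw : Pw w) {θ : ι → ℝ} (h0 : ∀ i, 0 ≤ θ i)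
    (h1 : ∀ i, θ i ≤ 1) (x y : ∀ i, α i) : 0 ≤ ∏ i, kN w θ i (x i) (y i) := by
  refine Finset.prod_nonneg fun i _ => ?_
  unfold kN
  have e1 := hw.nn i (y i)
  have e2 := h0 i
  have e3 := h1 i
  have e4 : (0 : ℝ) ≤ if x i = y i then 1 else 0 := by split_ifs <;> norm_num
  have e5 : 0 ≤ (1 - θ i) * (if x i = y i then (1 : ℝ) else 0) := mul_nonneg (by linarith) e4
  have e6 : 0 ≤ θ i * w i (y i) := mul_nonneg e2 e1
  linarith

private theorem noi_row {w : ∀ i, α i → ℝ} (θ : ι → ℝ) (i : ι) (h : α i → ℝ) (a : α i) :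
    ∑ b, kN w θ i a b * h b = (1 - θ i) * h a + θ i * ∑ b, w i b * h b := by
  have e1 : ∀ b, kN w θ i a b * h b = (if a = b then (1 - θ i) * h b else 0) + θ i * (w i b * h b) := by
    intro b
    unfold kN
    split_ifs
    · ring
    · ring
  rw [Finset.sum_congr rfl fun b _ => e1 b, Finset.sum_add_distrib, Finset.sum_ite_eq,
    if_pos (Finset.mem_univ a), ← Finset.mul_sum]

private theorem noi_one {w : ∀ i, α i → ℝ} (hw : Pw w) (θ : ι → ℝ) (i : ι) (a : α i) :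
    ∑ b, kN w θ i a b = 1 := by
  have h := noi_row (w := w) θ i (fun _ => 1) a
  simp only [mul_one] at h
  rw [h, hw.one i]
  ring

private theorem noi_sum {G : ∀ i, α i → ℝ} : ∑ y : ∀ i, α i, ∏ i, G i (y i) = ∏ i, ∑ b, G i b := by
  rw [Finset.prod_univ_sum, Fintype.piFinset_univ]

private theorem noi_tot {w : ∀ i, α i → ℝ} (hw : Pw w) (θ : ι → ℝ) (x : ∀ i, α i) :
    ∑ y : ∀ i, α i, ∏ i, kN w θ i (x i) (y i) = 1 := by
  rw [noi_sum (G := fun i b => kN w θ i (x i) b)]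
  exact Finset.prod_eq_one fun i _ => noi_one hw θ i (x i)

theorem Nz_mono {w : ∀ i, α i → ℝ} (hw : Pw w) {θ : ι → ℝ} (h0 : ∀ i, 0 ≤ θ i)
    (h1 : ∀ i, θ i ≤ 1) {f g : (∀ i, α i) → ℝ} (h : ∀ x, f x ≤ g x) (x : ∀ i, α i) :
    Nz w θ f x ≤ Nz w θ g x := by
  exact Finset.sum_le_sum fun y _ => mul_le_mul_of_nonneg_left (h y) (noi_nn hw h0 h1 x y)

theorem Nz_nonneg {w : ∀ i, α i → ℝ} (hw : Pw w) {θ : ι → ℝ} (h0 : ∀ i, 0 ≤ θ i)
    (h1 : ∀ i, θ i ≤ 1) {f : (∀ i, α i) → ℝ} (h : ∀ x, 0 ≤ f x) (x : ∀ i, α i) :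
    0 ≤ Nz w θ f x := by
  exact Finset.sum_nonneg fun y _ => mul_nonneg (noi_nn hw h0 h1 x y) (h y)

theorem Nz_const {w : ∀ i, α i → ℝ} (hw : Pw w) (θ : ι → ℝ) (c : ℝ) (x : ∀ i, α i) :
    Nz w θ (fun _ => c) x = c := by
  show ∑ y : ∀ i, α i, (∏ i, kN w θ i (x i) (y i)) * c = c
  rw [← Finset.sum_mul, noi_tot hw θ x, one_mul]

theorem Nz_add (w : ∀ i, α i → ℝ) (θ : ι → ℝ) (f g : (∀ i, α i) → ℝ) (x : ∀ i, α i) :
    Nz w θ (fun y => f y + g y) x = Nz w θ f x + Nz w θ g x := by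
  exact Tk_add _ f g x

theorem Nz_smul (w : ∀ i, α i → ℝ) (θ : ι → ℝ) (c : ℝ) (f : (∀ i, α i) → ℝ) (x : ∀ i, α i) :
    Nz w θ (fun y => c * f y) x = c * Nz w θ f x := by
  exact Tk_smul _ c f x

theorem Nz_sum {β : Type} (w : ∀ i, α i → ℝ) (θ : ι → ℝ) (s : Finset β)
    (f : β → (∀ i, α i) → ℝ) (x : ∀ i, α i) :
    Nz w θ (fun y => ∑ b ∈ s, f b y) x = ∑ b ∈ s, Nz w θ (f b) x := by
  exact Tk_sum s _ f x

theorem Nz_one_coord {w : ∀ i, α i → ℝ} (hw : Pw w) (θ : ι → ℝ) (i : ι) (h : α i → ℝ)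
    (x : ∀ i, α i) : Nz w θ (fun y => h (y i)) x = (1 - θ i) * h (x i) + θ i * ∑ a, w i a * h a := by
  obtain ⟨E, hE⟩ : ∃ E : ∀ j, α j → ℝ, E = fun j b => if hj : j = i then h (hj ▸ b) else 1 := ⟨_, rfl⟩
  have hEi : ∀ b : α i, E i b = h b := by
    intro b
    rw [hE]
    exact dif_pos rfl
  have hEj : ∀ j, j ≠ i → ∀ b : α j, E j b = 1 := by
    intro j hj b
    rw [hE]
    exact dif_neg hj
  have h1 : ∀ y : ∀ j, α j, (∏ j, kN w θ j (x j) (y j)) * h (y i) =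
      ∏ j, (kN w θ j (x j) (y j) * E j (y j)) := by
    intro y
    rw [Finset.prod_mul_distrib, Finset.prod_eq_single i (f := fun j => E j (y j))
      (fun j _ hj => hEj j hj (y j)) (fun h => absurd (Finset.mem_univ i) h), hEi]
  show ∑ y : ∀ j, α j, (∏ j, kN w θ j (x j) (y j)) * h (y i) = _
  rw [Finset.sum_congr rfl fun y _ => h1 y, noi_sum (G := fun j b => kN w θ j (x j) b * E j b),
    Finset.prod_eq_single i]
  · rw [← noi_row (w := w) θ i h (x i)]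
    exact Finset.sum_congr rfl fun b _ => by rw [hEi]
  · intro j _ hj
    rw [Finset.sum_congr rfl fun b _ => by rw [hEj j hj b, mul_one], noi_one hw]
  · intro h
    exact absurd (Finset.mem_univ i) h

theorem Nz_sq_le {w : ∀ i, α i → ℝ} (hw : Pw w) {θ : ι → ℝ} (h0 : ∀ i, 0 ≤ θ i)
    (h1 : ∀ i, θ i ≤ 1) {v f : (∀ i, α i) → ℝ} (hv : ∀ x, v x = 0 ∨ v x = 1)
    (hf : ∀ x, v x = 0 → f x = 0) (x : ∀ i, α i) :
    Nz w θ f x ^ 2 ≤ Nz w θ v x * Nz w θ (fun y => f y ^ 2) x := by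
  have hv0 : ∀ y, 0 ≤ v y := by
    intro y
    rcases hv y with h | h <;> rw [h]
    exact zero_le_one
  refine Finset.sum_sq_le_sum_mul_sum_of_sq_eq_mul _
    (fun y _ => mul_nonneg (noi_nn hw h0 h1 x y) (hv0 y))
    (fun y _ => mul_nonneg (noi_nn hw h0 h1 x y) (sq_nonneg (f y))) fun y _ => ?_
  rcases hv y with h | h
  · rw [h, hf y h]
    ring
  · rw [h]
    ring

theorem Nz_adj {w : ∀ i, α i → ℝ} (θ : ι → ℝ) (f g : (∀ i, α i) → ℝ) :
    Ev w (fun x => Nz w θ f x * g x) = Ev w (fun x => f x * Nz w θ g x) := by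
  refine Tk_adj (fun i a b => ?_) f g
  unfold kN
  by_cases hab : a = b
  · subst hab
    ring
  · rw [if_neg hab, if_neg (Ne.symm hab)]
    ring

end Pool.Agent.UIV
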