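import Pool.Agent.UIV.Enr
import Pool.Agent.UIV.Noi
import Pool.Agent.UIV.Cov

/-! UIV/SupO.  Sup bound for a function with `Nl ψ ≤ c`, mean `1`.

`q i = 1/p i`, `l i = log (p i)`, `θ_u i = 1 - exp (-u l i) ∈ [0,1]` for `u ≥ 0`.
`f u = Nz (wB q) θ_u ψ x = ∑_S exp (-u l(S)) Cm S ψ x` (`Nz_eq`, `∏_S (1 - θ_u) = exp (-u ∑_S l)`), so
`f' u = -∑_S l(S) exp (-u l(S)) Cm S ψ x = -Nz θ_u (Nl ψ) x` (`Nz_eq`, `Cm_Nl`) `≥ -c` (`Nz_mono`, `Nz_const`).
Hence `u ↦ f u + c u` is monotone on `[0, 3]` (derivative `≥ 0`; `monotoneOn_of_deriv_nonneg`), so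
`ψ x = f 0 ≤ f 3 + 3 c` (`f 0 = ψ x`: `θ_0 = 0`, `Nz_eq`, `sum_Cm`).
`f 3 ≤ 2`: with `e = exp (-3 log p) = p^(-3)` the kernel `e δ(a,b) + (1 - e) w b` is `≤ (1 + 1/p^2) w b` for all four
pairs (`a = b = true`: `e + (1-e)/p = (1/p)(1 + p^(-2) - p^(-3))`; `a = b = false`:
`e + (1-e)(1-1/p)`, `e = (1 - 1/p) e p/(p-1)`, `e/(p-1) ≤ 1/p^2`; `a ≠ b`: `(1-e) w b`).  So
`f 3 ≤ ∏ (1 + 1/p i^2) Ev ψ ≤ exp (∑ 1/p i^2) ≤ exp (1/2) ≤ 2` (`ψ ≥ 0`). -/

namespace Pool.Agent.UIV

open Finset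

variable {ι : Type} [Fintype ι] [DecidableEq ι]

private theorem wB_pw {p : ι → ℝ} (hp : ∀ i, 2 ≤ p i) : Pw (wB (fun i => 1 / p i)) := by
  refine Pw_wB (fun i => ?_) (fun i => ?_)
  · have := hp i; positivity
  · have h2 := hp i
    rw [div_le_one (by linarith)]; linarith

private theorem ker_le {p : ℝ} (hp : 2 ≤ p) (a b : Bool) :
    (1 - (1 - Real.exp (-(3 * Real.log p)))) * (if a = b then 1 else 0) +
      (1 - Real.exp (-(3 * Real.log p))) * (if b then 1 / p else 1 - 1 / p) ≤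
      (1 + 1 / p ^ 2) * (if b then 1 / p else 1 - 1 / p) := by
  have hp0 : 0 < p := by linarith
  have he : Real.exp (-(3 * Real.log p)) = (1 / p) ^ 3 := by
    rw [Real.exp_neg, show (3 : ℝ) * Real.log p = Real.log p * 3 by ring,
      show Real.log p * 3 = (3 : ℕ) * Real.log p by push_cast; ring, Real.exp_nat_mul,
      Real.exp_log hp0, one_div, inv_pow]
  rw [he]
  have ht0 : 0 < 1 / p := by positivity
  have ht1 : 1 / p ≤ 1 / 2 := by
    apply one_div_le_one_div_of_le <;> linarith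
  have hsq : 1 / p ^ 2 = (1 / p) ^ 2 := by rw [one_div_pow]
  rw [hsq]
  set t := 1 / p with ht
  have h3 : 0 < t ^ 3 := by positivity
  have h2 : 0 < t ^ 2 := by positivity
  have h4 : 0 < t ^ 4 := by positivity
  cases a <;> cases b <;> simp only [if_true, if_false, Bool.false_eq_true,
    Bool.true_eq_false, mul_one, mul_zero, zero_add]
  · -- false false
    have : t ^ 4 ≤ t ^ 2 - t ^ 3 := by
      have : t ^ 2 - t ^ 3 - t ^ 4 = t ^ 2 * (1 - t - t ^ 2) := by ring
      have h5 : 0 ≤ 1 - t - t ^ 2 := by nlinarith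
      nlinarith [mul_nonneg h2.le h5]
    nlinarith
  · nlinarith [mul_pos h3 ht0, mul_pos h2 ht0]
  · have h6 : 0 ≤ 1 - t := by linarith
    nlinarith [mul_nonneg h3.le h6, mul_nonneg h2.le h6]
  · nlinarith [mul_pos h3 ht0, mul_pos h2 ht0]

private theorem ker_nn {p : ℝ} (hp : 2 ≤ p) (a b : Bool) :
    0 ≤ (1 - (1 - Real.exp (-(3 * Real.log p)))) * (if a = b then (1 : ℝ) else 0) +
      (1 - Real.exp (-(3 * Real.log p))) * (if b then 1 / p else 1 - 1 / p) := by
  have hl : 0 ≤ Real.log p := Real.log_nonneg (by linarith)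
  have he1 : Real.exp (-(3 * Real.log p)) ≤ 1 := by
    rw [Real.exp_le_one_iff]; linarith
  have he0 := Real.exp_pos (-(3 * Real.log p))
  have hw : 0 ≤ (if b then 1 / p else 1 - 1 / p) := by
    split
    · positivity
    · have : 1 / p ≤ 1 := by rw [div_le_one (by linarith)]; linarith
      linarith
  have hd : 0 ≤ (if a = b then (1 : ℝ) else 0) := by split <;> norm_num
  have h1 : 0 ≤ (1 - (1 - Real.exp (-(3 * Real.log p)))) := by linarith
  have h2 : 0 ≤ 1 - Real.exp (-(3 * Real.log p)) := by linarith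
  positivity

private theorem end_le {p : ι → ℝ} (hp : ∀ i, 2 ≤ p i) (hp2 : ∑ i, 1 / p i ^ 2 ≤ 1 / 2)
    {ψ : (ι → Bool) → ℝ} (hnn : ∀ x, 0 ≤ ψ x)
    (hE : Ev (wB (fun i => 1 / p i)) ψ = 1) (x : ι → Bool) :
    Nz (wB (fun i => 1 / p i)) (fun i => 1 - Real.exp (-(3 * Real.log (p i)))) ψ x ≤ 2 := by
  have h1 : Nz (wB (fun i => 1 / p i)) (fun i => 1 - Real.exp (-(3 * Real.log (p i)))) ψ x ≤
      ∏ i, (1 + 1 / p i ^ 2) := by
    have h2 : (∏ i, (1 + 1 / p i ^ 2)) =
        (∏ i, (1 + 1 / p i ^ 2)) * Ev (wB (fun i => 1 / p i)) ψ := by rw [hE, mul_one]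
    rw [h2]
    unfold Nz Tk Ev
    rw [Finset.mul_sum]
    refine Finset.sum_le_sum fun y _ => ?_
    rw [← mul_assoc, ← Finset.prod_mul_distrib]
    refine mul_le_mul_of_nonneg_right ?_ (hnn y)
    refine Finset.prod_le_prod (fun i _ => ?_) (fun i _ => ?_)
    · exact ker_nn (hp i) (x i) (y i)
    · exact ker_le (hp i) (x i) (y i)
  refine h1.trans ?_
  have h3 : (∏ i, (1 + 1 / p i ^ 2)) ≤ Real.exp (∑ i, 1 / p i ^ 2) := by
    rw [Real.exp_sum]
    refine Finset.prod_le_prod (fun i _ => ?_) (fun i _ => ?_)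
    · have := hp i; positivity
    · have := Real.add_one_le_exp (1 / p i ^ 2)
      linarith
  have h4 : Real.exp (∑ i, 1 / p i ^ 2) ≤ Real.exp (1 / 2) := Real.exp_le_exp.mpr hp2
  have h5 : Real.exp (1 / 2) ≤ 2 := by
    have h6 : Real.exp (1 / 2) ^ 2 = Real.exp 1 := by
      rw [← Real.exp_nat_mul]; norm_num
    have h7 := Real.exp_one_lt_d9
    have h8 := Real.exp_pos (1 / 2)
    nlinarith
  linarith

private theorem nz_u (p : ι → ℝ) (g : (ι → Bool) → ℝ) (x : ι → Bool) (u : ℝ) :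
    Nz (wB (fun i => 1 / p i)) (fun i => 1 - Real.exp (-(u * Real.log (p i)))) g x =
      ∑ S : Finset ι, Real.exp (-(u * ∑ i ∈ S, Real.log (p i))) *
        Cm (wB (fun i => 1 / p i)) S g x := by
  rw [Nz_eq]
  refine Finset.sum_congr rfl fun S _ => ?_
  congr 1
  rw [Finset.mul_sum, ← Finset.sum_neg_distrib, Real.exp_sum]
  refine Finset.prod_congr rfl fun i _ => ?_
  ring

theorem eq_sup {p : ι → ℝ} (hp : ∀ i, 2 ≤ p i) (hp2 : ∑ i, 1 / p i ^ 2 ≤ 1 / 2)
    {ψ : (ι → Bool) → ℝ} {c : ℝ} (hc : 0 ≤ c) (hnn : ∀ x, 0 ≤ ψ x)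
    (hE : Ev (wB (fun i => 1 / p i)) ψ = 1)
    (hn : ∀ x, Nl (wB (fun i => 1 / p i)) (fun i => Real.log (p i)) ψ x ≤ c)
    (x : ι → Bool) : ψ x ≤ 2 + 3 * c := by
  have hw := wB_pw hp
  set w := wB (fun i => 1 / p i) with hwdef
  set l : ι → ℝ := fun i => Real.log (p i) with hldef
  have hl : ∀ i, 0 ≤ l i := fun i => Real.log_nonneg (by have := hp i; linarith)
  set L : Finset ι → ℝ := fun S => ∑ i ∈ S, l i with hL
  set F : ℝ → ℝ := fun u => (∑ S : Finset ι, Real.exp (-(u * L S)) * Cm w S ψ x) + c * u with hF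
  have hd : ∀ u, HasDerivAt F
      ((∑ S : Finset ι, (Real.exp (-(u * L S)) * (-(L S))) * Cm w S ψ x) + c) u := by
    intro u
    have h1 : HasDerivAt (fun u : ℝ => ∑ S : Finset ι, Real.exp (-(u * L S)) * Cm w S ψ x)
        (∑ S : Finset ι, (Real.exp (-(u * L S)) * (-(L S))) * Cm w S ψ x) u := by
      refine HasDerivAt.fun_sum fun S _ => ?_
      have h2 : HasDerivAt (fun u : ℝ => -(u * L S)) (-(L S)) u := by
        have h := (((hasDerivAt_id u).mul_const (L S))).fun_neg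
        simp only [id, one_mul] at h
        exact h
      exact (h2.exp).mul_const _
    have h3 : HasDerivAt (fun u : ℝ => c * u) c u := by
      simpa using (hasDerivAt_id u).const_mul c
    exact h1.add h3
  have hder : ∀ u, 0 ≤ u →
      0 ≤ (∑ S : Finset ι, (Real.exp (-(u * L S)) * (-(L S))) * Cm w S ψ x) + c := by
    intro u hu
    have h1 : Nz w (fun i => 1 - Real.exp (-(u * Real.log (p i)))) (Nl w l ψ) x ≤ c := by
      have h2 := Nz_mono hw (θ := fun i => 1 - Real.exp (-(u * Real.log (p i))))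
        (fun i => by
          have : Real.exp (-(u * Real.log (p i))) ≤ 1 := by
            rw [Real.exp_le_one_iff]
            have := mul_nonneg hu (hl i)
            simp only [hldef] at this
            linarith
          linarith)
        (fun i => by
          have := Real.exp_pos (-(u * Real.log (p i)))
          linarith)
        (f := Nl w l ψ) (g := fun _ => c) hn x
      rw [Nz_const hw] at h2
      exact h2
    rw [nz_u p (Nl w l ψ) x u] at h1
    have h3 : ∑ S : Finset ι, Real.exp (-(u * ∑ i ∈ S, Real.log (p i))) *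
        Cm (wB (fun i => 1 / p i)) S (Nl w l ψ) x =
        -∑ S : Finset ι, (Real.exp (-(u * L S)) * (-(L S))) * Cm w S ψ x := by
      rw [← Finset.sum_neg_distrib]
      refine Finset.sum_congr rfl fun S _ => ?_
      rw [← hwdef, Cm_Nl hw]
      simp only [hL, hldef]
      ring
    rw [h3] at h1
    linarith
  have hmono : MonotoneOn F (Set.Icc 0 3) := by
    refine monotoneOn_of_deriv_nonneg (convex_Icc 0 3) ?_ ?_ ?_
    · exact fun u _ => (hd u).continuousAt.continuousWithinAt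
    · exact fun u _ => (hd u).differentiableAt.differentiableWithinAt
    · intro u hu
      rw [interior_Icc] at hu
      rw [(hd u).deriv]
      exact hder u hu.1.le
  have h03 := hmono (Set.left_mem_Icc.mpr (by norm_num)) (Set.right_mem_Icc.mpr (by norm_num))
    (by norm_num : (0 : ℝ) ≤ 3)
  have hF0 : F 0 = ψ x := by
    simp only [hF, zero_mul, neg_zero, Real.exp_zero, one_mul, mul_zero, add_zero]
    exact sum_Cm ψ x
  have hF3 : F 3 ≤ 2 + 3 * c := by
    have h1 := end_le hp hp2 hnn hE x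
    rw [nz_u p ψ x 3] at h1
    simp only [hF, hL, hldef, hwdef]
    linarith
  rw [hF0] at h03
  exact h03.trans hF3

end Pool.Agent.UIV
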