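import Pool.Agent.UIV.Dir
import Pool.Agent.UIV.Mon
import Pool.Agent.UIV.SupO
import Pool.Agent.UIV.EnO
import Pool.Agent.UIV.Cmp
import Pool.Agent.RT.Wgt
import Pool.Agent.RT.Qlow
import Pool.Agent.RS.Tot
import Pool.Agent.Helper52.PrimeSums

/-! UIV/One.  The one-body functions for the primes in `(L^6, 2^k]`, `k = 2^(lam/8)`, `lam = Nat.log 2 L`.

`V = exp(-9)/(6 (lam + 1))` bounds the product over the primes up to `L^6` from below, the dual quadratic form is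
bounded below by `RT.Qlow`, `RT.exists_wt` and `exists_cmp` give a competitor of energy
`≤ C lam^(1-β)`, and the equilibrium function (`exists_eq`, `eq_mono`, `eq_sup`, `eq_le_En`) has a constant at most
this energy. -/

namespace Pool.Agent.UIV

open Finset Pool.Agent.RS

/-- the primes in `(L^6, 2^(2^(lam/8))]` -/
abbrev Pri (L : ℕ) : Type := {q // q ∈ prz (2 ^ 2 ^ (Nat.log 2 L / 8)) \ prz (L ^ 6)}

/-- properties of a one-body function -/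
structure Obd {ι : Type} [Fintype ι] [DecidableEq ι] (p : ι → ℝ) (ρ : ℕ) (c B : ℝ)
    (ψ : (ι → Bool) → ℝ) : Prop where
  zero : ∀ x, cnt x < ρ → ψ x = 0
  nn : ∀ x, 0 ≤ ψ x
  mono : Monotone ψ
  le : ∀ x, ψ x ≤ B
  ev : Ev (wB (fun i => 1 / p i)) ψ = 1
  nl : ∀ x, Nl (wB (fun i => 1 / p i)) (fun i => Real.log (p i)) ψ x ≤ c

private theorem one_mem {z q : ℕ} : q ∈ prz z ↔ q ≤ z ∧ q.Prime := by
  unfold prz
  rw [mem_filter, mem_Icc]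
  constructor
  · rintro ⟨⟨_, h2⟩, h3⟩
    exact ⟨h2, h3⟩
  · rintro ⟨h2, h3⟩
    exact ⟨⟨h3.one_lt.le, h2⟩, h3⟩

private theorem one_prime {L : ℕ} (i : Pri L) : ((i : ℕ)).Prime :=
  (one_mem.1 (mem_sdiff.1 i.2).1).2

private theorem one_gt {L : ℕ} (i : Pri L) : L ^ 6 < (i : ℕ) := by
  have h1 := (mem_sdiff.1 i.2).2
  by_contra h
  exact h1 (one_mem.2 ⟨by omega, one_prime i⟩)

private theorem one_sq {L : ℕ} (hL : 2 ≤ L) : ∑ i : Pri L, 1 / (((i : ℕ) : ℝ)) ^ 2 ≤ 1 / 2 := by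
  have hm : 2 ≤ L ^ 6 := by
    calc 2 ≤ L := hL
      _ = L ^ 1 := (pow_one L).symm
      _ ≤ L ^ 6 := Nat.pow_le_pow_right (by omega) (by norm_num)
  have hmr : (2 : ℝ) ≤ ((L ^ 6 : ℕ) : ℝ) := by exact_mod_cast hm
  have h1 : ∑ i : Pri L, 1 / (((i : ℕ) : ℝ)) ^ 2 =
      ∑ q ∈ prz (2 ^ 2 ^ (Nat.log 2 L / 8)) \ prz (L ^ 6), 1 / ((q : ℝ)) ^ 2 :=
    Finset.sum_coe_sort (prz (2 ^ 2 ^ (Nat.log 2 L / 8)) \ prz (L ^ 6))
      (fun q : ℕ => 1 / ((q : ℝ)) ^ 2)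
  rw [h1]
  obtain ⟨N, hN⟩ : ∃ N : ℕ, N = max (L ^ 6) (2 ^ 2 ^ (Nat.log 2 L / 8)) := ⟨_, rfl⟩
  have h2 : prz (2 ^ 2 ^ (Nat.log 2 L / 8)) \ prz (L ^ 6) ⊆ Ioc (L ^ 6) N := by
    intro q hq
    have h3 := mem_sdiff.1 hq
    have h4 := one_mem.1 h3.1
    rw [mem_Ioc]
    constructor
    · by_contra h
      exact h3.2 (one_mem.2 ⟨by omega, h4.2⟩)
    · rw [hN]
      exact h4.1.trans (le_max_right _ _)
  have h3 : ∑ q ∈ prz (2 ^ 2 ^ (Nat.log 2 L / 8)) \ prz (L ^ 6), 1 / ((q : ℝ)) ^ 2 ≤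
      ∑ q ∈ Ioc (L ^ 6) N, 1 / ((q : ℝ)) ^ 2 :=
    sum_le_sum_of_subset_of_nonneg h2 fun q _ _ => by positivity
  have h4 : ∑ q ∈ Ioc (L ^ 6) N, 1 / ((q : ℝ)) ^ 2 = ∑ q ∈ Ioc (L ^ 6) N, (((q : ℝ)) ^ 2)⁻¹ :=
    sum_congr rfl fun q _ => one_div _
  have h5 := sum_Ioc_inv_sq_le_sub (α := ℝ) (k := L ^ 6) (n := N) (by omega)
    (by rw [hN]; exact le_max_left _ _)
  have h6 : (0 : ℝ) ≤ ((N : ℕ) : ℝ)⁻¹ := by positivity
  have h7 : (((L ^ 6 : ℕ) : ℝ))⁻¹ ≤ 1 / 2 := by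
    rw [one_div]
    exact inv_anti₀ (by norm_num) hmr
  rw [h4] at h3
  linarith

private theorem one_prod {L : ℕ} (_hL : 1 ≤ L) :
    Real.exp (-9) / (6 * ((Nat.log 2 L : ℝ) + 1)) ≤ ∏ q ∈ prz (L ^ 6), (1 - 1 / (q : ℝ)) := by
  have h1 := Pool.Agent.Helper52.prod_lower (a := 6 * (Nat.log 2 L + 1)) (by omega)
  have hlt : L ^ 6 < 2 ^ (6 * (Nat.log 2 L + 1)) := by
    have h2 : L < 2 ^ (Nat.log 2 L + 1) := Nat.lt_pow_succ_log_self (by norm_num) L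
    calc L ^ 6 < (2 ^ (Nat.log 2 L + 1)) ^ 6 := Nat.pow_lt_pow_left h2 (by norm_num)
      _ = 2 ^ (6 * (Nat.log 2 L + 1)) := by rw [← pow_mul, mul_comm]
  have hsub : prz (L ^ 6) ⊆ Pool.Agent.Helper52.pr 0 (2 ^ (6 * (Nat.log 2 L + 1))) := by
    intro q hq
    have h3 := one_mem.1 hq
    rw [Pool.Agent.Helper52.mem_pr]
    exact ⟨h3.2.pos, h3.1.trans hlt.le, h3.2⟩
  have h01 : ∀ q ∈ Pool.Agent.Helper52.pr 0 (2 ^ (6 * (Nat.log 2 L + 1))),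
      0 ≤ 1 - 1 / (q : ℝ) ∧ 1 - 1 / (q : ℝ) ≤ 1 := by
    intro q hq
    have h3 := (Pool.Agent.Helper52.mem_pr.1 hq).2.2.one_lt
    have h4 : (1 : ℝ) < (q : ℝ) := by exact_mod_cast h3
    have h5 : (0 : ℝ) ≤ 1 / (q : ℝ) := by positivity
    have h6 : 1 / (q : ℝ) ≤ 1 := by
      rw [div_le_one (by linarith)]
      exact h4.le
    constructor <;> linarith
  have h2 : ∏ q ∈ Pool.Agent.Helper52.pr 0 (2 ^ (6 * (Nat.log 2 L + 1))), (1 - 1 / (q : ℝ)) ≤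
      ∏ q ∈ prz (L ^ 6), (1 - 1 / (q : ℝ)) := by
    rw [← prod_sdiff hsub]
    have h3 : ∏ q ∈ Pool.Agent.Helper52.pr 0 (2 ^ (6 * (Nat.log 2 L + 1))) \ prz (L ^ 6),
        (1 - 1 / (q : ℝ)) ≤ 1 :=
      prod_le_one (fun q hq => (h01 q (mem_sdiff.1 hq).1).1) (fun q hq => (h01 q (mem_sdiff.1 hq).1).2)
    have h4 : 0 ≤ ∏ q ∈ prz (L ^ 6), (1 - 1 / (q : ℝ)) :=
      prod_nonneg fun q hq => (h01 q (hsub hq)).1
    calc _ ≤ 1 * ∏ q ∈ prz (L ^ 6), (1 - 1 / (q : ℝ)) := mul_le_mul_of_nonneg_right h3 h4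
      _ = _ := one_mul _
  refine le_trans (le_of_eq ?_) (h1.trans h2)
  push_cast
  ring

/-- all conditions on `lam` -/
private theorem one_large (J1 : ℕ) : ∃ l0 : ℕ, ∀ l : ℕ, l0 ≤ l → 32 ≤ l ∧ J1 ≤ l / 16 ∧
    6 * (l + 1) ≤ 2 ^ (l / 8) ∧ 6 * ((l : ℝ) + 1) * Real.exp 9 ≤ 2 ^ (l / 16) * Real.log 2 := by
  have h1 : Filter.Tendsto (fun n : ℕ => (n : ℝ) / 2 ^ n) Filter.atTop (nhds 0) := by
    have h := tendsto_pow_const_div_const_pow_of_one_lt 1 (by norm_num : (1 : ℝ) < 2)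
    simpa using h
  have hpos : (0 : ℝ) < 1 / (6 * 33 * Real.exp 9 * 2) := by positivity
  have h2 := (h1.eventually (gt_mem_nhds hpos)).and (Filter.eventually_ge_atTop (max 2 J1))
  rw [Filter.eventually_atTop] at h2
  obtain ⟨n0, hn0⟩ := h2
  refine ⟨16 * n0 + 32, ?_⟩
  intro l hl
  have hn : n0 ≤ l / 16 := by omega
  obtain ⟨h3, h4⟩ := hn0 (l / 16) hn
  obtain ⟨n, hnd⟩ : ∃ n : ℕ, n = l / 16 := ⟨_, rfl⟩
  rw [← hnd] at h3 h4 ⊢
  have hn2 : 2 ≤ n := (le_max_left _ _).trans h4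
  have hnr : (2 : ℝ) ≤ (n : ℝ) := by exact_mod_cast hn2
  have hl2 : l + 1 ≤ 16 * n + 16 := by omega
  have hl3 : (l : ℝ) + 1 ≤ 16 * (n : ℝ) + 16 := by exact_mod_cast hl2
  have hl4 : (l : ℝ) + 1 ≤ 33 * (n : ℝ) := by linarith
  have hp2 : (0 : ℝ) < 2 ^ n := by positivity
  have he : 0 < Real.exp 9 := Real.exp_pos 9
  have h5 : (n : ℝ) * (6 * 33 * Real.exp 9 * 2) ≤ 2 ^ n := by
    rw [div_lt_iff₀ hp2] at h3
    have h6 : (n : ℝ) * (6 * 33 * Real.exp 9 * 2) <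
        1 / (6 * 33 * Real.exp 9 * 2) * 2 ^ n * (6 * 33 * Real.exp 9 * 2) :=
      mul_lt_mul_of_pos_right h3 (by positivity)
    have h7 : 1 / (6 * 33 * Real.exp 9 * 2) * 2 ^ n * (6 * 33 * Real.exp 9 * 2) = (2 : ℝ) ^ n := by
      field_simp
    rw [h7] at h6
    exact h6.le
  have h8 : 6 * ((l : ℝ) + 1) * Real.exp 9 * 2 ≤ 2 ^ n := by
    have h9 : 6 * ((l : ℝ) + 1) * Real.exp 9 * 2 ≤ 6 * (33 * (n : ℝ)) * Real.exp 9 * 2 := by
      have := mul_le_mul_of_nonneg_right hl4 he.le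
      nlinarith
    calc _ ≤ 6 * (33 * (n : ℝ)) * Real.exp 9 * 2 := h9
      _ = (n : ℝ) * (6 * 33 * Real.exp 9 * 2) := by ring
      _ ≤ _ := h5
  refine ⟨by omega, (le_max_right _ _).trans h4, ?_, ?_⟩
  · have h9 : (6 * (l + 1) : ℝ) ≤ 2 ^ n := by
      have h10 : (1 : ℝ) ≤ Real.exp 9 := by
        have := Real.add_one_le_exp (9 : ℝ)
        linarith
      have h11 : 0 ≤ 6 * ((l : ℝ) + 1) := by positivity
      nlinarith
    have h10 : 6 * (l + 1) ≤ 2 ^ n := by exact_mod_cast h9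
    refine h10.trans (Nat.pow_le_pow_right (by norm_num) ?_)
    omega
  · have hlog : (1 / 2 : ℝ) ≤ Real.log 2 := by
      have := Real.log_two_gt_d9
      linarith
    calc 6 * ((l : ℝ) + 1) * Real.exp 9 ≤ 2 ^ n * (1 / 2) := by linarith
      _ ≤ 2 ^ n * Real.log 2 := mul_le_mul_of_nonneg_left hlog hp2.le

theorem one_body (r : ℕ) : ∃ C : ℝ, 0 < C ∧ ∃ L0 : ℕ, ∀ L : ℕ, L0 ≤ L → ∀ ρ : ℕ, 1 ≤ ρ → ρ ≤ r →
    ∃ (c : ℝ) (ψ : (Pri L → Bool) → ℝ), 0 < c ∧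
      c ≤ C * (Nat.log 2 L : ℝ) ^ (1 - (1 / 2 : ℝ) ^ (ρ - 1)) ∧
      Obd (fun i : Pri L => ((i : ℕ) : ℝ)) ρ c (2 + 3 * c) ψ := by
  classical
  have hc1 : (0 : ℝ) < Real.exp (-9) / 2 := by positivity
  choose cf hcf J0 hQ using fun d : ℕ => Pool.Agent.RT.Qlow d (Real.exp (-9) / 2) hc1
  obtain ⟨J1, hJ1⟩ : ∃ J1 : ℕ, ∀ d < r, J0 d ≤ J1 :=
    ⟨∑ d ∈ range r, J0 d, fun d hd =>
      single_le_sum (f := J0) (fun _ _ => Nat.zero_le _) (mem_range.2 hd)⟩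
  obtain ⟨l0, hl0⟩ := one_large J1
  refine ⟨1 + ∑ d ∈ range r, 384 * Real.exp 9 / cf d, ?_, 2 ^ l0, ?_⟩
  · have : 0 ≤ ∑ d ∈ range r, 384 * Real.exp 9 / cf d :=
      sum_nonneg fun d _ => div_nonneg (by positivity) (hcf d).le
    linarith
  intro L hL ρ hρ hρr
  have hL1 : 1 ≤ L := le_trans Nat.one_le_two_pow hL
  obtain ⟨l, hl⟩ : ∃ l : ℕ, l = Nat.log 2 L := ⟨_, rfl⟩
  have hll : l0 ≤ l := by
    rw [hl]
    exact Nat.le_log_of_pow_le (by norm_num) hL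
  obtain ⟨h32, hJl, h6l, hbig⟩ := hl0 l hll
  have hLl : 2 ^ l ≤ L := by
    rw [hl]
    exact Nat.pow_log_le_self 2 (by omega)
  have hL2 : 2 ≤ L := by
    have : 2 ^ 1 ≤ 2 ^ l := Nat.pow_le_pow_right (by norm_num) (by omega)
    omega
  obtain ⟨d, hd⟩ : ∃ d : ℕ, d = ρ - 1 := ⟨_, rfl⟩
  have hρd : ρ = d + 1 := by omega
  have hdr : d < r := by omega
  obtain ⟨z, hz⟩ : ∃ z : ℕ, z = 2 ^ 2 ^ (Nat.log 2 L / 8) := ⟨_, rfl⟩
  have hL6z : L ^ 6 ≤ z := by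
    have h2 : L < 2 ^ (l + 1) := by
      rw [hl]
      exact Nat.lt_pow_succ_log_self (by norm_num) L
    calc L ^ 6 ≤ (2 ^ (l + 1)) ^ 6 := Nat.pow_le_pow_left h2.le 6
      _ = 2 ^ (6 * (l + 1)) := by rw [← pow_mul, mul_comm]
      _ ≤ 2 ^ 2 ^ (l / 8) := Nat.pow_le_pow_right (by norm_num) h6l
      _ = z := by rw [hz, hl]
  have hEz : prz (L ^ 6) ⊆ prz z := fun q hq =>
    one_mem.2 ⟨(one_mem.1 hq).1.trans hL6z, (one_mem.1 hq).2⟩
  have hlr : (32 : ℝ) ≤ (l : ℝ) := by exact_mod_cast h32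
  obtain ⟨V, hV⟩ : ∃ V : ℝ, V = Real.exp (-9) / (6 * ((l : ℝ) + 1)) := ⟨_, rfl⟩
  have hV0 : 0 < V := by rw [hV]; positivity
  have hVp : V ≤ ∏ q ∈ prz (L ^ 6), (1 - 1 / (q : ℝ)) := by
    rw [hV, hl]
    exact one_prod hL1
  have hlog2 := Real.log_two_gt_d9
  have hE : ∀ q ∈ prz z \ prz (L ^ 6), Real.exp (-9) / 2 ≤ V * Real.log q := by
    intro q hq
    have h3 := mem_sdiff.1 hq
    have h4 := one_mem.1 h3.1
    have h5 : L ^ 6 < q := by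
      by_contra h
      exact h3.2 (one_mem.2 ⟨by omega, h4.2⟩)
    have h6 : (2 : ℝ) ^ (6 * l) ≤ (q : ℝ) := by
      have h7 : 2 ^ (6 * l) ≤ q := by
        calc 2 ^ (6 * l) = (2 ^ l) ^ 6 := by rw [← pow_mul, mul_comm]
          _ ≤ L ^ 6 := Nat.pow_le_pow_left hLl 6
          _ ≤ q := h5.le
      exact_mod_cast h7
    have h7 : (6 * (l : ℝ)) * Real.log 2 ≤ Real.log q := by
      have h8 := Real.log_le_log (by positivity) h6
      rw [Real.log_pow] at h8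
      push_cast at h8
      exact h8
    have h8 : 3 * ((l : ℝ) + 1) ≤ (6 * (l : ℝ)) * Real.log 2 := by nlinarith
    calc Real.exp (-9) / 2 = V * (3 * ((l : ℝ) + 1)) := by
          rw [hV]
          field_simp
          ring
      _ ≤ V * Real.log q := mul_le_mul_of_nonneg_left (h8.trans h7) hV0.le
  have hz1 : (1 : ℝ) < (z : ℝ) := by
    have h3 : 2 ≤ L ^ 6 := by
      calc 2 ≤ L := hL2
        _ = L ^ 1 := (pow_one L).symm
        _ ≤ L ^ 6 := Nat.pow_le_pow_right (by omega) (by norm_num)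
    have h4 : 1 < z := by omega
    exact_mod_cast h4
  have hlogz : Real.log (z : ℝ) = 2 ^ (l / 8) * Real.log 2 := by
    rw [hz, ← hl]
    push_cast
    rw [Real.log_pow]
    push_cast
    ring
  have hJV : 2 ^ (l / 16) / V ≤ Real.log (z : ℝ) := by
    rw [hlogz]
    have h3 : (2 : ℝ) ^ (l / 16) / V = 2 ^ (l / 16) * (6 * ((l : ℝ) + 1) * Real.exp 9) := by
      rw [hV, Real.exp_neg]
      field_simp
    rw [h3]
    have h4 : (2 : ℝ) ^ (l / 16) * 2 ^ (l / 16) ≤ 2 ^ (l / 8) := by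
      rw [← pow_add]
      exact pow_le_pow_right₀ (by norm_num) (by omega)
    calc (2 : ℝ) ^ (l / 16) * (6 * ((l : ℝ) + 1) * Real.exp 9)
        ≤ 2 ^ (l / 16) * (2 ^ (l / 16) * Real.log 2) :=
          mul_le_mul_of_nonneg_left hbig (by positivity)
      _ = (2 ^ (l / 16) * 2 ^ (l / 16)) * Real.log 2 := by ring
      _ ≤ 2 ^ (l / 8) * Real.log 2 := mul_le_mul_of_nonneg_right h4 (by linarith)
  obtain ⟨β, hβ⟩ : ∃ β : ℝ, β = (1 / 2 : ℝ) ^ d := ⟨_, rfl⟩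
  have hβ0 : 0 < β := by rw [hβ]; positivity
  have hβ1 : β ≤ 1 := by rw [hβ]; exact pow_le_one₀ (by norm_num) (by norm_num)
  have hJpos : 0 < l / 16 := by omega
  have hJr : (0 : ℝ) < ((l / 16 : ℕ) : ℝ) := by exact_mod_cast hJpos
  obtain ⟨Q, hQd⟩ : ∃ Q : ℝ, Q = cf d * V * ((l / 16 : ℕ) : ℝ) ^ β := ⟨_, rfl⟩
  have hQ0 : 0 < Q := by
    rw [hQd]
    exact mul_pos (mul_pos (hcf d) hV0) (Real.rpow_pos_of_pos hJr β)
  subst hz
  have hp2 : ∀ i : Pri L, 2 ≤ (fun q : Pri L => (q : ℕ)) i := fun i => (one_prime i).two_le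
  have hQl := hQ d (2 ^ 2 ^ (Nat.log 2 L / 8)) (prz (L ^ 6)) hEz V hV0 hVp hE
    ((2 ^ 2 ^ (Nat.log 2 L / 8) : ℕ) : ℝ) hz1 le_rfl (l / 16) ((hJ1 d hdr).trans hJl) hJV
  rw [← hβ, ← hQd] at hQl
  obtain ⟨y, hy0, -, hy1, hy2⟩ := Pool.Agent.RT.exists_wt (p := fun q : Pri L => (q : ℕ)) hp2
    hz1.le d hQ0 (by
      intro u hu hu0
      exact le_trans (hQl u hu hu0) (le_of_eq (sum_congr (by congr) fun _ _ => rfl)))
  obtain ⟨g, hg0, hg1, hg2⟩ := exists_cmp (p := fun q : Pri L => (q : ℕ)) hp2 (d := d) hy0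
    (by
      intro T hT
      exact le_antisymm (le_of_eq ((sum_congr (by congr) fun _ _ => rfl).trans (hy1 T hT)))
        (le_of_eq ((sum_congr (by congr) fun _ _ => rfl).trans (hy1 T hT)).symm))
  have hgE : En (wB (fun i : Pri L => 1 / ((i : ℕ) : ℝ))) (fun i => Real.log ((i : ℕ) : ℝ)) g ≤ 1 / Q := by
    refine le_trans (le_of_eq hg2) (le_trans (le_of_eq (sum_congr (by congr) fun _ _ => rfl)) hy2)
  have hpr : ∀ i : Pri L, (2 : ℝ) ≤ ((i : ℕ) : ℝ) := fun i => by exact_mod_cast hp2 i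
  have hq0 : ∀ i : Pri L, 0 < 1 / ((i : ℕ) : ℝ) := fun i => by
    have := hpr i
    positivity
  have hq1 : ∀ i : Pri L, 1 / ((i : ℕ) : ℝ) < 1 := fun i => by
    have := hpr i
    rw [div_lt_one (by linarith)]
    linarith
  have hlp : ∀ i : Pri L, 0 < Real.log ((i : ℕ) : ℝ) := fun i =>
    Real.log_pos (by have := hpr i; linarith)
  have hcard : ρ ≤ Fintype.card (Pri L) := by
    by_contra hlt
    have h3 : ∀ x : Pri L → Bool, g x = 0 := by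
      intro x
      refine hg0 x ?_
      have h4 : cnt x ≤ Fintype.card (Pri L) := by
        unfold cnt
        exact card_le_univ _
      omega
    have h5 : Ev (wB (fun i : Pri L => 1 / ((i : ℕ) : ℝ))) g = 0 := by
      unfold Ev
      exact sum_eq_zero fun x _ => by rw [h3 x, mul_zero]
    rw [h5] at hg1
    exact zero_ne_one hg1
  obtain ⟨ψ, c, hc0, hψ0, hψ1, hψ2, hψ3, hψ4⟩ :=
    exists_eq (q := fun i : Pri L => 1 / ((i : ℕ) : ℝ)) hq0 hq1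
      (l := fun i : Pri L => Real.log ((i : ℕ) : ℝ)) hlp hρ hcard
  have hcE : c ≤ 1 / Q := by
    refine le_trans (eq_le_En (fun i => (hq0 i).le) (fun i => (hq1 i).le) (fun i => (hlp i).le) hc0
      hψ0 hψ1 hψ3 (g := g) ?_ hg1) hgE
    intro x hx
    exact hg0 x (by omega)
  refine ⟨c, ψ, hc0, ?_, ?_⟩
  · rw [← hl, ← hd, ← hβ]
    refine hcE.trans ?_
    have hl0' : (0 : ℝ) < (l : ℝ) := by linarith
    have h3 : (l : ℝ) / 32 ≤ ((l / 16 : ℕ) : ℝ) := by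
      have h4 : l ≤ 32 * (l / 16) := by omega
      have h5 : (l : ℝ) ≤ 32 * ((l / 16 : ℕ) : ℝ) := by exact_mod_cast h4
      linarith
    have h4 : (l : ℝ) ^ β / 32 ≤ ((l / 16 : ℕ) : ℝ) ^ β := by
      calc (l : ℝ) ^ β / 32 ≤ (l : ℝ) ^ β / 32 ^ β := by
            refine div_le_div_of_nonneg_left (Real.rpow_nonneg hl0'.le _)
              (Real.rpow_pos_of_pos (by norm_num) _) ?_
            calc (32 : ℝ) ^ β ≤ 32 ^ (1 : ℝ) :=
                  Real.rpow_le_rpow_of_exponent_le (by norm_num) hβ1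
              _ = 32 := Real.rpow_one 32
        _ = ((l : ℝ) / 32) ^ β := (Real.div_rpow hl0'.le (by norm_num) β).symm
        _ ≤ ((l / 16 : ℕ) : ℝ) ^ β := Real.rpow_le_rpow (by positivity) h3 hβ0.le
    have hlβ : 0 < (l : ℝ) ^ β := Real.rpow_pos_of_pos hl0' β
    have hcfd := hcf d
    have h5 : cf d * (Real.exp (-9) / (12 * (l : ℝ))) * ((l : ℝ) ^ β / 32) ≤ Q := by
      rw [hQd]
      have h6 : Real.exp (-9) / (12 * (l : ℝ)) ≤ V := by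
        rw [hV]
        exact div_le_div_of_nonneg_left (Real.exp_pos _).le (by positivity) (by linarith)
      exact mul_le_mul (mul_le_mul_of_nonneg_left h6 hcfd.le) h4 (by positivity)
        (mul_nonneg hcfd.le hV0.le)
    have h6 : 1 / Q ≤ 1 / (cf d * (Real.exp (-9) / (12 * (l : ℝ))) * ((l : ℝ) ^ β / 32)) :=
      one_div_le_one_div_of_le (by positivity) h5
    have h7 : 1 / (cf d * (Real.exp (-9) / (12 * (l : ℝ))) * ((l : ℝ) ^ β / 32)) =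
        384 * Real.exp 9 / cf d * (l : ℝ) ^ (1 - β) := by
      rw [Real.rpow_sub hl0', Real.rpow_one, Real.exp_neg]
      field_simp
      ring
    rw [h7] at h6
    refine h6.trans (mul_le_mul_of_nonneg_right ?_ (Real.rpow_nonneg hl0'.le _))
    have h8 : 384 * Real.exp 9 / cf d ≤ ∑ d ∈ range r, 384 * Real.exp 9 / cf d :=
      single_le_sum (f := fun d => 384 * Real.exp 9 / cf d)
        (fun e _ => div_nonneg (by positivity) (hcf e).le) (mem_range.2 hdr)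
    linarith
  · exact ⟨hψ0, hψ2, eq_mono (fun i => (hq0 i).le) (fun i => (hq1 i).le) hlp hψ0 hψ1 hψ2,
      eq_sup hpr (one_sq hL2) hc0.le hψ2 hψ3 hψ4, hψ3, hψ4⟩

end Pool.Agent.UIV
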