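import Pool.Agent.UIV.Sup

/-! UIV/Per.  Averages of functions of residues over an arithmetic progression.

`m = ∏_{i∈S} p i`.  `t ↦ g (rs p (n0 + M t))` has period `m` and its sum over one period is `m Ev g`:
fix `e = rs p 0` and put `φ t i = (n0 + M t : ZMod (p i))` for `i ∈ S`, `e i` otherwise; `φ` maps `range m` into
`Fintype.piFinset (fun i => if i ∈ S then univ else {e i})`, a set with `m` elements
(`Fintype.card_piFinset`, `ZMod.card`), and is injective on it (`φ t = φ t'` gives `p i ∣ M (t - t')`, `p i ∣ t - t'` for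
`i ∈ S`, so `m ∣ t - t'` by pairwise coprimality (`Finset.prod_dvd_of_coprime` / `Finset.prod_dvd_of_isCoprime`)), so it is a
bijection (`Finset.eq_of_subset_of_card_le`) and `Ev_dep` applies.  For general `N = m q + r0`:
`∑_{t<N} = q m Ev g + (r0 terms)`, `|..| ≤ r0 B + r0 |Ev g| ≤ 2 m B` (`|Ev g| ≤ B`). -/

namespace Pool.Agent.UIV

open Finset

variable {ι : Type} [Fintype ι] [DecidableEq ι]

/-- uniform weights on the residues -/
noncomputable def wZ (p : ι → ℕ) (i : ι) (_ : ZMod (p i)) : ℝ := 1 / (p i : ℝ)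

/-- residues of `n` -/
def rs (p : ι → ℕ) (n : ℤ) (i : ι) : ZMod (p i) := (n : ZMod (p i))

theorem Pw_wZ (p : ι → ℕ) [∀ i, NeZero (p i)] : Pw (wZ p) := by
  refine ⟨fun i _ => ?_, fun i => ?_⟩
  · unfold wZ
    positivity
  · unfold wZ
    rw [sum_const, card_univ, ZMod.card, nsmul_eq_mul, mul_one_div, div_self]
    exact Nat.cast_ne_zero.2 (NeZero.ne (p i))

private theorem per_one {p : ι → ℕ} [∀ i, NeZero (p i)] (hco : ∀ i j, i ≠ j → Nat.Coprime (p i) (p j))
    {M : ℕ} {S : Finset ι} (hM : ∀ i ∈ S, Nat.Coprime M (p i)) (n0 : ℤ)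
    {g : (∀ i, ZMod (p i)) → ℝ} (hg : Dep S g) :
    ∑ t ∈ range (∏ i ∈ S, p i), g (rs p (n0 + M * (t : ℕ))) = ((∏ i ∈ S, p i : ℕ) : ℝ) * Ev (wZ p) g := by
  classical
  let φ : ℕ → ∀ i, ZMod (p i) := fun t i => if i ∈ S then rs p (n0 + M * (t : ℕ)) i else rs p 0 i
  have h1 : ∀ t : ℕ, g (rs p (n0 + M * (t : ℕ))) = g (φ t) := by
    intro t
    refine hg _ _ fun i hi => ?_
    show _ = if i ∈ S then rs p (n0 + M * (t : ℕ)) i else rs p 0 i
    rw [if_pos hi]
  have hm0 : ∀ i, (p i : ℝ) ≠ 0 := fun i => Nat.cast_ne_zero.2 (NeZero.ne (p i))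
  have h2 : ((∏ i ∈ S, p i : ℕ) : ℝ) * Ev (wZ p) g =
      ∑ y ∈ Fintype.piFinset (fun i => if i ∈ S then (univ : Finset (ZMod (p i))) else {rs p 0 i}), g y := by
    rw [Ev_dep (Pw_wZ p) hg (rs p 0), mul_sum]
    refine sum_congr rfl fun y _ => ?_
    have h3 : ∏ i ∈ S, wZ p i (y i) = (∏ i ∈ S, (p i : ℝ))⁻¹ := by
      unfold wZ
      rw [← prod_inv_distrib]
      exact prod_congr rfl fun i _ => one_div _
    rw [h3, ← mul_assoc]
    push_cast
    rw [mul_inv_cancel₀ (prod_ne_zero_iff.2 fun i _ => hm0 i), one_mul]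
  have hinj : Set.InjOn φ (range (∏ i ∈ S, p i) : Finset ℕ) := by
    intro t ht t' ht' h
    have ht1 := mem_range.1 (mem_coe.1 ht)
    have ht2 := mem_range.1 (mem_coe.1 ht')
    have h3 : ∀ i ∈ S, ((p i : ℕ) : ℤ) ∣ ((t' : ℤ) - (t : ℤ)) := by
      intro i hi
      have h4 := congrFun h i
      change (if i ∈ S then rs p (n0 + M * (t : ℕ)) i else rs p 0 i) =
        (if i ∈ S then rs p (n0 + M * (t' : ℕ)) i else rs p 0 i) at h4
      rw [if_pos hi, if_pos hi] at h4
      unfold rs at h4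
      rw [ZMod.intCast_eq_intCast_iff_dvd_sub] at h4
      have h5 : (n0 + (M : ℤ) * (t' : ℤ)) - (n0 + (M : ℤ) * (t : ℤ)) = (M : ℤ) * ((t' : ℤ) - (t : ℤ)) := by ring
      rw [h5] at h4
      have h6 : IsCoprime ((p i : ℕ) : ℤ) (M : ℤ) := (Nat.isCoprime_iff_coprime.2 (hM i hi)).symm
      exact h6.dvd_of_dvd_mul_left h4
    have h4 : (∏ i ∈ S, ((p i : ℕ) : ℤ)) ∣ ((t' : ℤ) - (t : ℤ)) := by
      refine Finset.prod_dvd_of_coprime ?_ h3
      intro i _ j _ hij
      exact Nat.isCoprime_iff_coprime.2 (hco i j hij)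
    have h5 : (∏ i ∈ S, ((p i : ℕ) : ℤ)) = ((∏ i ∈ S, p i : ℕ) : ℤ) := by push_cast; rfl
    rw [h5] at h4
    have h6 : ((t' : ℤ) - (t : ℤ)) = 0 := by
      refine Int.eq_zero_of_abs_lt_dvd h4 ?_
      rw [abs_lt]
      omega
    omega
  have h3 : (range (∏ i ∈ S, p i)).image φ =
      Fintype.piFinset (fun i => if i ∈ S then (univ : Finset (ZMod (p i))) else {rs p 0 i}) := by
    refine eq_of_subset_of_card_le ?_ ?_
    · intro y hy
      obtain ⟨t, _, rfl⟩ := mem_image.1 hy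
      rw [Fintype.mem_piFinset]
      intro i
      by_cases hi : i ∈ S
      · rw [if_pos hi]
        exact mem_univ _
      · rw [if_neg hi, mem_singleton]
        show (if i ∈ S then rs p (n0 + M * (t : ℕ)) i else rs p 0 i) = rs p 0 i
        rw [if_neg hi]
    · rw [card_image_of_injOn hinj, card_range, Fintype.card_piFinset]
      refine le_of_eq ?_
      rw [← prod_subset (subset_univ S)]
      · refine prod_congr rfl fun i hi => ?_
        rw [if_pos hi, card_univ, ZMod.card]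
      · intro i _ hi
        rw [if_neg hi, card_singleton]
  rw [h2, ← h3, sum_image hinj]
  exact sum_congr rfl fun t _ => h1 t

theorem per_avg {p : ι → ℕ} [∀ i, NeZero (p i)] (hco : ∀ i j, i ≠ j → Nat.Coprime (p i) (p j))
    {M : ℕ} {S : Finset ι} (hM : ∀ i ∈ S, Nat.Coprime M (p i)) (n0 : ℤ)
    {g : (∀ i, ZMod (p i)) → ℝ} (hg : Dep S g) {B : ℝ} (hB : ∀ x, |g x| ≤ B) (N : ℕ) :
    |∑ t ∈ range N, g (rs p (n0 + M * (t : ℕ))) - N * Ev (wZ p) g| ≤
      2 * (∏ i ∈ S, (p i : ℝ)) * B := by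
  have hB0 : 0 ≤ B := (abs_nonneg _).trans (hB (rs p 0))
  have hE : |Ev (wZ p) g| ≤ B := by
    rw [abs_le]
    constructor
    · have h1 := Ev_mono (Pw_wZ p) (f := fun _ => -B) (g := g) (fun x => (abs_le.1 (hB x)).1)
      rwa [Ev_const (Pw_wZ p)] at h1
    · have h1 := Ev_mono (Pw_wZ p) (f := g) (g := fun _ => B) (fun x => (abs_le.1 (hB x)).2)
      rwa [Ev_const (Pw_wZ p)] at h1
  have hm : (∏ i ∈ S, (p i : ℝ)) = ((∏ i ∈ S, p i : ℕ) : ℝ) := by push_cast; rfl
  rw [hm]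
  obtain ⟨m, hm'⟩ : ∃ m : ℕ, m = ∏ i ∈ S, p i := ⟨_, rfl⟩
  have hm1 : 0 < m := by
    rw [hm']
    exact Finset.prod_pos fun i _ => Nat.pos_of_ne_zero (NeZero.ne (p i))
  rw [← hm']
  induction N using Nat.strong_induction_on generalizing n0 with
  | _ N ih =>
    by_cases hN : N < m
    · have h1 : |∑ t ∈ range N, g (rs p (n0 + M * (t : ℕ)))| ≤ N * B := by
        refine (abs_sum_le_sum_abs _ _).trans ?_
        refine (sum_le_sum fun t _ => hB _).trans ?_
        rw [sum_const, card_range, nsmul_eq_mul]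
      have h2 : |(N : ℝ) * Ev (wZ p) g| ≤ N * B := by
        rw [abs_mul, abs_of_nonneg (Nat.cast_nonneg N)]
        exact mul_le_mul_of_nonneg_left hE (Nat.cast_nonneg N)
      have h3 : (N : ℝ) ≤ m := by exact_mod_cast hN.le
      have h4 : (N : ℝ) * B ≤ m * B := mul_le_mul_of_nonneg_right h3 hB0
      have h5 := abs_sub (∑ t ∈ range N, g (rs p (n0 + M * (t : ℕ)))) ((N : ℝ) * Ev (wZ p) g)
      linarith
    · push Not at hN
      obtain ⟨K, rfl⟩ := Nat.exists_eq_add_of_le hN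
      have h1 := ih K (by omega) (n0 + M * (m : ℕ))
      have h2 := per_one hco hM n0 hg
      rw [← hm'] at h2
      have h3 : ∑ t ∈ range (m + K), g (rs p (n0 + M * (t : ℕ))) =
          (m : ℝ) * Ev (wZ p) g + ∑ t ∈ range K, g (rs p (n0 + M * (m : ℕ) + M * (t : ℕ))) := by
        rw [sum_range_add, h2]
        congr 1
        refine sum_congr rfl fun t _ => ?_
        congr 2
        push_cast
        ring
      have h4 : ∑ t ∈ range (m + K), g (rs p (n0 + M * (t : ℕ))) - ((m + K : ℕ) : ℝ) * Ev (wZ p) g =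
          ∑ t ∈ range K, g (rs p (n0 + M * (m : ℕ) + M * (t : ℕ))) - (K : ℝ) * Ev (wZ p) g := by
        rw [h3]
        push_cast
        ring
      rw [h4]
      exact h1

end Pool.Agent.UIV
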