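import Pool.Agent.UIV.Enr
import Pool.Agent.UIV.Per
import Pool.Agent.RS.Base

/-! UIV/PatOp.  Replacement of `F` on the points with pattern `T` by a function of the coordinates off `T`. -/

namespace Pool.Agent.UIV

open Finset Pool.Agent.RS

variable {ι : Type} [Fintype ι] [DecidableEq ι]

/-- set of the coordinates where `x` agrees with `a` -/
def Hs {α : ι → Type} [∀ i, DecidableEq (α i)] (a x : ∀ i, α i) : Finset ι :=
  univ.filter (fun i => x i = a i)

/-- the kernel -/
private noncomputable def po_k {p : ι → ℕ} (a : ∀ i, ZMod (p i)) (T : Finset ι) (i : ι) (x y : ZMod (p i)) : ℝ :=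
  if i ∈ T then (if y = a i then 1 else 0)
  else if x = a i then (if y = a i then 0 else 1 / ((p i : ℝ) - 1)) else (if x = y then 1 else 0)

omit [Fintype ι] in
private theorem po_nn {p : ι → ℕ} (hp : ∀ i, 2 ≤ p i) (a : ∀ i, ZMod (p i)) (T : Finset ι) (i : ι)
    (x y : ZMod (p i)) : 0 ≤ po_k a T i x y := by
  have h2 : (2 : ℝ) ≤ p i := by exact_mod_cast hp i
  have h1 : 0 ≤ 1 / ((p i : ℝ) - 1) := div_nonneg zero_le_one (by linarith)
  unfold po_k
  split_ifs <;> first | exact zero_le_one | exact le_rfl | exact h1

omit [Fintype ι] in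
private theorem po_row {p : ι → ℕ} [∀ i, NeZero (p i)] (hp : ∀ i, 2 ≤ p i) (a : ∀ i, ZMod (p i)) (T : Finset ι)
    (i : ι) (x : ZMod (p i)) : ∑ y, po_k a T i x y = 1 := by
  have h2 : (2 : ℝ) ≤ p i := by exact_mod_cast hp i
  have h1 : ((p i : ℝ) - 1) ≠ 0 := by
    intro h
    linarith
  by_cases hi : i ∈ T
  · simp only [po_k, if_pos hi]
    rw [Finset.sum_ite_eq' univ (a i), if_pos (mem_univ _)]
  · by_cases hx : x = a i
    · simp only [po_k, if_neg hi, if_pos hx]
      have e : ∀ y : ZMod (p i), (if y = a i then (0 : ℝ) else 1 / ((p i : ℝ) - 1)) =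
          1 / ((p i : ℝ) - 1) - (if y = a i then 1 / ((p i : ℝ) - 1) else 0) := by
        intro y
        split_ifs <;> ring
      rw [Finset.sum_congr rfl fun y _ => e y, Finset.sum_sub_distrib, Finset.sum_const, card_univ, ZMod.card,
        Finset.sum_ite_eq' univ (a i), if_pos (mem_univ _), nsmul_eq_mul]
      field_simp
    · simp only [po_k, if_neg hi, if_neg hx]
      rw [Finset.sum_ite_eq univ x, if_pos (mem_univ _)]

omit [Fintype ι] in
private theorem po_col {p : ι → ℕ} [∀ i, NeZero (p i)] (hp : ∀ i, 2 ≤ p i) (a : ∀ i, ZMod (p i)) (T : Finset ι)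
    (i : ι) (y : ZMod (p i)) : ∑ x, 1 / (p i : ℝ) * po_k a T i x y =
      if i ∈ T then (if y = a i then 1 else 0) else (if y = a i then 0 else 1 / ((p i : ℝ) - 1)) := by
  have h2 : (2 : ℝ) ≤ p i := by exact_mod_cast hp i
  have h0 : (p i : ℝ) ≠ 0 := by
    intro h
    linarith
  have h1 : ((p i : ℝ) - 1) ≠ 0 := by
    intro h
    linarith
  by_cases hi : i ∈ T
  · simp only [po_k, if_pos hi]
    rw [Finset.sum_const, card_univ, ZMod.card, nsmul_eq_mul, ← mul_assoc, mul_one_div_cancel h0, one_mul]
  · simp only [po_k, if_neg hi]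
    by_cases hy : y = a i
    · rw [if_pos hy]
      refine Finset.sum_eq_zero fun x _ => ?_
      by_cases hx : x = a i
      · rw [if_pos hx, mul_zero]
      · rw [if_neg hx, if_neg (fun h => hx (h.trans hy)), mul_zero]
    · rw [if_neg hy]
      have e : ∀ x : ZMod (p i), 1 / (p i : ℝ) * (if x = a i then 1 / ((p i : ℝ) - 1)
          else (if x = y then 1 else 0)) =
          (if x = a i then 1 / (p i : ℝ) * (1 / ((p i : ℝ) - 1)) else 0) + (if x = y then 1 / (p i : ℝ) else 0) := by
        intro x
        by_cases hx : x = a i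
        · rw [if_pos hx, if_pos hx, if_neg (fun h => hy (h.symm.trans hx)), add_zero]
        · rw [if_neg hx, if_neg hx, zero_add, mul_ite, mul_one, mul_zero]
      rw [Finset.sum_congr rfl fun x _ => e x, Finset.sum_add_distrib, Finset.sum_ite_eq' univ (a i),
        if_pos (mem_univ _), Finset.sum_ite_eq' univ y, if_pos (mem_univ _)]
      field_simp
      ring

theorem pat_op {p : ι → ℕ} [∀ i, NeZero (p i)] (hp : ∀ i, 2 ≤ p i) {V : ℝ}
    (hV : V ≤ ∏ i, (1 - 1 / (p i : ℝ))) (a : ∀ i, ZMod (p i)) (T : Finset ι) {D : ℝ}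
    {F : (∀ i, ZMod (p i)) → ℝ}
    (hF : ∀ S : Finset ι, D < PP p S → ∀ x, Cm (wZ p) S F x = 0) :
    ∃ G : (∀ i, ZMod (p i)) → ℝ, Dep (univ \ T) G ∧
      (∀ S : Finset ι, D < PP p S → ∀ x, Cm (wZ p) S G x = 0) ∧
      (∀ x, Hs a x = T → G x = F x) ∧
      V * Ev (wZ p) (fun x => G x ^ 2) ≤
        PP p T * Ev (wZ p) (fun x => if Hs a x = T then F x ^ 2 else 0) := by
  classical
  have hw : Pw (wZ p) := Pw_wZ p
  have hp2 : ∀ i, (2 : ℝ) ≤ p i := fun i => by exact_mod_cast hp i
  refine ⟨Tk (po_k a T) F, ?_, ?_, ?_, ?_⟩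
  · refine Tk_dep (fun i hi x x' y => ?_) F
    have hi' : i ∈ T := by
      by_contra h
      exact hi (mem_sdiff.mpr ⟨mem_univ _, h⟩)
    simp only [po_k, if_pos hi']
  · intro S hS x
    have e1 : Tk (po_k a T) F = fun x => ∑ S' : Finset ι, Tk (po_k a T) (Cm (wZ p) S' F) x := by
      funext z
      have e2 : F = fun y => ∑ S' : Finset ι, Cm (wZ p) S' F y := by
        funext y
        exact (sum_Cm F y).symm
      conv_lhs => rw [e2]
      exact Tk_sum univ (po_k a T) (fun S' => Cm (wZ p) S' F) z
    rw [e1, Cm_sum]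
    refine Finset.sum_eq_zero fun S' _ => ?_
    by_cases hS' : D < PP p S'
    · have e3 : Cm (wZ p) S' F = fun _ => 0 := funext fun y => hF S' hS' y
      have e4 : Tk (po_k a T) (Cm (wZ p) S' F) = fun _ => 0 := by
        rw [e3]
        funext z
        unfold Tk
        simp
      rw [e4]
      unfold Cm Tk
      simp
    · have hsub : ¬ S ⊆ S' := by
        intro h
        have h3 : PP p S ≤ PP p S' := by
          unfold PP
          refine Finset.prod_le_prod_of_subset_of_one_le h (fun i _ => ?_) (fun i _ _ => ?_)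
          · have := hp2 i
            linarith
          · have := hp2 i
            linarith
        linarith [not_lt.mp hS']
      have hd : Dep S' (Tk (po_k a T) (Cm (wZ p) S' F)) :=
        Tk_dep_one (c := fun _ => 1) (fun i _ x => po_row hp a T i x) (Cm_dep S' F)
      exact Cm_zero hw hsub hd x
  · intro x hx
    have e1 : ∀ y : (∀ i, ZMod (p i)), ∏ i, po_k a T i (x i) (y i) = ∏ i, (if x i = y i then (1 : ℝ) else 0) := by
      intro y
      refine Finset.prod_congr rfl fun i _ => ?_
      by_cases hi : i ∈ T
      · have h3 : x i = a i := by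
          rw [← hx] at hi
          exact (mem_filter.mp hi).2
        simp only [po_k, if_pos hi]
        rw [h3]
        by_cases h4 : y i = a i
        · rw [if_pos h4, if_pos h4.symm]
        · rw [if_neg h4, if_neg (fun h => h4 h.symm)]
      · have h3 : x i ≠ a i := by
          intro h
          apply hi
          rw [← hx]
          exact mem_filter.mpr ⟨mem_univ _, h⟩
        simp only [po_k, if_neg hi, if_neg h3]
    have e2 : Tk (fun (_ : ι) a b => if a = b then (1 : ℝ) else 0) F x = F x := by rw [Tk_id]
    rw [← e2]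
    unfold Tk
    exact Finset.sum_congr rfl fun y _ => by rw [e1 y]
  · -- Jensen
    have hJ : ∀ x, Tk (po_k a T) F x ^ 2 ≤ Tk (po_k a T) (fun y => F y ^ 2) x := by
      intro x
      have hK : ∀ y : (∀ i, ZMod (p i)), 0 ≤ ∏ i, po_k a T i (x i) (y i) := fun y =>
        Finset.prod_nonneg fun i _ => po_nn hp a T i _ _
      have hs : ∑ y : (∀ i, ZMod (p i)), ∏ i, po_k a T i (x i) (y i) = 1 := by
        have h3 := Finset.prod_univ_sum (fun _ => univ) (fun i b => po_k a T i (x i) b)
        rw [Fintype.piFinset_univ] at h3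
        rw [← h3]
        exact Finset.prod_eq_one fun i _ => po_row hp a T i (x i)
      have h4 := Finset.sum_sq_le_sum_mul_sum_of_sq_eq_mul univ
        (r := fun y : (∀ i, ZMod (p i)) => (∏ i, po_k a T i (x i) (y i)) * F y)
        (f := fun y => ∏ i, po_k a T i (x i) (y i))
        (g := fun y => (∏ i, po_k a T i (x i) (y i)) * F y ^ 2)
        (fun y _ => hK y) (fun y _ => mul_nonneg (hK y) (sq_nonneg _)) (fun y _ => by ring)
      rw [hs, one_mul] at h4
      exact h4
    have hV2 : ∀ y : (∀ i, ZMod (p i)), V * ∏ i, (∑ x, 1 / (p i : ℝ) * po_k a T i x (y i)) ≤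
        PP p T * ((∏ i, wZ p i (y i)) * (if Hs a y = T then 1 else 0)) := by
      intro y
      by_cases hy : Hs a y = T
      · rw [if_pos hy, mul_one]
        have e1 : ∏ i, (∑ x, 1 / (p i : ℝ) * po_k a T i x (y i)) =
            ∏ i, (if i ∈ T then (1 : ℝ) else 1 / ((p i : ℝ) - 1)) := by
          refine Finset.prod_congr rfl fun i _ => ?_
          rw [po_col hp a T i (y i)]
          by_cases hi : i ∈ T
          · rw [if_pos hi, if_pos hi]
            rw [← hy] at hi
            rw [if_pos (mem_filter.mp hi).2]
          · rw [if_neg hi, if_neg hi]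
            have h3 : y i ≠ a i := by
              intro h
              apply hi
              rw [← hy]
              exact mem_filter.mpr ⟨mem_univ _, h⟩
            rw [if_neg h3]
        have e2 : PP p T = ∏ i, (if i ∈ T then (p i : ℝ) else 1) := by
          unfold PP
          rw [Finset.prod_ite_mem, univ_inter]
        rw [e1, e2, ← Finset.prod_mul_distrib]
        have hn : 0 ≤ ∏ i, (if i ∈ T then (1 : ℝ) else 1 / ((p i : ℝ) - 1)) := by
          refine Finset.prod_nonneg fun i _ => ?_
          have := hp2 i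
          split_ifs
          · exact zero_le_one
          · exact div_nonneg zero_le_one (by linarith)
        refine (mul_le_mul_of_nonneg_right hV hn).trans ?_
        rw [← Finset.prod_mul_distrib]
        refine Finset.prod_le_prod (fun i _ => ?_) (fun i _ => ?_)
        · have h3 := hp2 i
          have h4 : 0 ≤ 1 - 1 / (p i : ℝ) := by
            rw [sub_nonneg, div_le_one (by linarith)]
            linarith
          refine mul_nonneg h4 ?_
          split_ifs
          · exact zero_le_one
          · exact div_nonneg zero_le_one (by linarith)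
        · have h3 := hp2 i
          have h0 : (p i : ℝ) ≠ 0 := by
            intro h
            linarith
          have h1 : ((p i : ℝ) - 1) ≠ 0 := by
            intro h
            linarith
          have h5 : 0 ≤ 1 / (p i : ℝ) := div_nonneg zero_le_one (by linarith)
          unfold wZ
          split_ifs
          · rw [mul_one, mul_one_div_cancel h0]
            linarith
          · rw [one_mul]
            refine le_of_eq ?_
            field_simp
      · rw [if_neg hy, mul_zero, mul_zero]
        have hz : ∃ i, ¬ (i ∈ T ↔ y i = a i) := by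
          by_contra h
          push Not at h
          apply hy
          ext i
          rw [Hs, mem_filter]
          exact ⟨fun h3 => (h i).mpr h3.2, fun h3 => ⟨mem_univ _, (h i).mp h3⟩⟩
        obtain ⟨i, hi⟩ := hz
        have e1 : ∏ i, (∑ x, 1 / (p i : ℝ) * po_k a T i x (y i)) = 0 := by
          refine Finset.prod_eq_zero (mem_univ i) ?_
          rw [po_col hp a T i (y i)]
          by_cases hiT : i ∈ T
          · rw [if_pos hiT, if_neg (fun h => hi ⟨fun _ => h, fun _ => hiT⟩)]
          · rw [if_neg hiT]
            have h3 : y i = a i := by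
              by_contra h
              exact hi ⟨fun h4 => absurd h4 hiT, fun h4 => absurd h4 h⟩
            rw [if_pos h3]
        rw [e1, mul_zero]
    have hE : Ev (wZ p) (fun x => Tk (po_k a T) (fun y => F y ^ 2) x) =
        ∑ y : (∀ i, ZMod (p i)), (∏ i, (∑ x, 1 / (p i : ℝ) * po_k a T i x (y i))) * F y ^ 2 := by
      unfold Ev Tk
      simp only [Finset.mul_sum]
      rw [Finset.sum_comm]
      refine Finset.sum_congr rfl fun y _ => ?_
      have h3 := Finset.prod_univ_sum (fun _ => univ) (fun i x => 1 / (p i : ℝ) * po_k a T i x (y i))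
      rw [Fintype.piFinset_univ] at h3
      rw [h3, Finset.sum_mul]
      refine Finset.sum_congr rfl fun x _ => ?_
      rw [Finset.prod_mul_distrib]
      unfold wZ
      ring
    have hVn : V * Ev (wZ p) (fun x => Tk (po_k a T) F x ^ 2) ≤
        V * Ev (wZ p) (fun x => Tk (po_k a T) (fun y => F y ^ 2) x) ∨ V ≤ 0 := by
      rcases le_or_gt V 0 with h | h
      · right
        exact h
      · left
        exact mul_le_mul_of_nonneg_left (Ev_mono hw hJ) h.le
    have hR : 0 ≤ PP p T * Ev (wZ p) (fun x => if Hs a x = T then F x ^ 2 else 0) := by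
      refine mul_nonneg ?_ (Ev_nonneg hw fun x => ?_)
      · unfold PP
        exact Finset.prod_nonneg fun i _ => Nat.cast_nonneg _
      · split_ifs
        · exact sq_nonneg _
        · exact le_rfl
    rcases hVn with h | h
    · refine h.trans ?_
      rw [hE, Finset.mul_sum]
      unfold Ev
      rw [Finset.mul_sum]
      refine Finset.sum_le_sum fun y _ => ?_
      have h3 := mul_le_mul_of_nonneg_right (hV2 y) (sq_nonneg (F y))
      refine le_trans (le_of_eq ?_) (h3.trans (le_of_eq ?_))
      · ring
      · by_cases hy : Hs a y = T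
        · simp only [if_pos hy]
          ring
        · simp only [if_neg hy]
          ring
    · refine le_trans ?_ hR
      exact mul_nonpos_of_nonpos_of_nonneg h (Ev_nonneg hw fun x => sq_nonneg _)

end Pool.Agent.UIV
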