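import Pool.Agent.UIV.IntSq
import Pool.Agent.UIV.PatOp
import Pool.Agent.UIV.Leak

/-! UIV/Pat.  The mean square of `F` over the terms of the progression with fewer than `ρ` hits.

`pat_T`: `G` from `pat_op`.  If no `t < N` has pattern `T` the left side is `0`.  Otherwise let `t1` be the least
one; `PT = ∏_{i∈T} p i` (a natural number, cast `PP p T`).  Every `t < N` with pattern `T` satisfies `p i ∣ M (t - t1)` for
`i ∈ T` (both `n0 + M t ≡ b`), so `PT ∣ t - t1`, `t = t1 + PT t'` with `t' < N / PT + 1 =: N'`.  So the left side is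
`≤ ∑_{t' < N'} G (rs p ((n0 + M t1) + (M PT) t'))^2 ≤ (N' + 2 D^4) Ev G^2` by `int_sq` (`M PT` is coprime to the
`p i`, `i ∉ T`), `N' + 2 D^4 ≤ N/PT + 1 + 2 D^4 ≤ 2 N/PT` by `hN`, and `V Ev G^2 ≤ PT Ev (1 F^2)`.
(Here `rs p (n0 + M t) i = rs p b i ↔ (p i : ℤ) ∣ n0 + M t - b`, `ZMod.intCast_eq_intCast_iff_dvd_sub`.)
`pat_sum`: sum of `pat_T` over `T` with `T.card < ρ` (`Hc a x = (Hs a x).card`). -/

namespace Pool.Agent.UIV

open Finset Pool.Agent.RS

variable {ι : Type} [Fintype ι] [DecidableEq ι]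

omit [DecidableEq ι] in
private theorem pat_hit_dvd {p : ι → ℕ} {b m : ℤ} {i : ι} :
    i ∈ Hs (rs p b) (rs p m) ↔ (p i : ℤ) ∣ m - b := by
  unfold Hs rs
  simp only [mem_filter, mem_univ, true_and]
  rw [← ZMod.intCast_eq_intCast_iff_dvd_sub]
  exact eq_comm

omit [DecidableEq ι] in
private theorem pat_PP_dvd {p : ι → ℕ} (hp : ∀ i, (p i).Prime) (hinj : Function.Injective p)
    {M : ℕ} (hM : ∀ i, Nat.Coprime M (p i)) {n0 b : ℤ} {T : Finset ι} {t1 t : ℕ} (hle : t1 ≤ t)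
    (h1 : Hs (rs p b) (rs p (n0 + M * (t1 : ℕ))) = T)
    (h2 : Hs (rs p b) (rs p (n0 + M * (t : ℕ))) = T) : (∏ i ∈ T, p i) ∣ t - t1 := by
  refine Finset.prod_dvd_of_isRelPrime ?_ ?_
  · intro i _ j _ hij
    exact Nat.coprime_iff_isRelPrime.1
      ((Nat.coprime_primes (hp i) (hp j)).2 (fun h => hij (hinj h)))
  · intro i hi
    have e1 : (p i : ℤ) ∣ (n0 + M * (t1 : ℕ)) - b := pat_hit_dvd.1 (by rw [h1]; exact hi)
    have e2 : (p i : ℤ) ∣ (n0 + M * (t : ℕ)) - b := pat_hit_dvd.1 (by rw [h2]; exact hi)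
    have e3 : (p i : ℤ) ∣ (M : ℤ) * ((t - t1 : ℕ) : ℤ) := by
      have := dvd_sub e2 e1
      rw [Nat.cast_sub hle]
      have e4 : (n0 + M * (t : ℕ)) - b - ((n0 + M * (t1 : ℕ)) - b) = (M : ℤ) * ((t : ℤ) - t1) := by
        ring
      rwa [e4] at this
    have e5 : p i ∣ M * (t - t1) := by exact_mod_cast e3
    exact (Nat.Coprime.dvd_of_dvd_mul_left (hM i).symm e5)

theorem pat_T {p : ι → ℕ} [∀ i, NeZero (p i)] (hp : ∀ i, (p i).Prime)
    (hinj : Function.Injective p) {M : ℕ} (hM : ∀ i, Nat.Coprime M (p i)) (n0 b : ℤ)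
    {V : ℝ} (hV0 : 0 < V) (hV : V ≤ ∏ i, (1 - 1 / (p i : ℝ))) {D : ℝ} (hD : 1 ≤ D)
    {F : (∀ i, ZMod (p i)) → ℝ}
    (hF : ∀ S : Finset ι, D < PP p S → ∀ x, Cm (wZ p) S F x = 0) (T : Finset ι) {N : ℕ}
    (hN : (1 + 2 * D ^ 4) * PP p T ≤ N) :
    ∑ t ∈ range N, (if Hs (rs p b) (rs p (n0 + M * (t : ℕ))) = T then
        F (rs p (n0 + M * (t : ℕ))) ^ 2 else 0) ≤
      2 * N / V * Ev (wZ p) (fun x => if Hs (rs p b) x = T then F x ^ 2 else 0) := by
  have hE1 : 0 ≤ Ev (wZ p) (fun x => if Hs (rs p b) x = T then F x ^ 2 else 0) := by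
    apply Ev_nonneg (Pw_wZ p)
    intro x
    split_ifs
    · positivity
    · exact le_refl _
  have hR : 0 ≤ 2 * N / V * Ev (wZ p) (fun x => if Hs (rs p b) x = T then F x ^ 2 else 0) := by
    apply mul_nonneg _ hE1
    positivity
  by_cases hex : ∃ t, t < N ∧ Hs (rs p b) (rs p (n0 + M * (t : ℕ))) = T
  swap
  · push Not at hex
    rw [Finset.sum_eq_zero]
    · exact hR
    · intro t ht
      rw [if_neg (hex t (mem_range.1 ht))]
  classical
  obtain ⟨G, hG1, hG2, hG3, hG4⟩ := pat_op (fun i => (hp i).two_le) hV (rs p b) T hF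
  set t1 := Nat.find hex with ht1
  have hsp := Nat.find_spec hex
  rw [← ht1] at hsp
  have hmin : ∀ t, t < N → Hs (rs p b) (rs p (n0 + M * (t : ℕ))) = T → t1 ≤ t :=
    fun t h1 h2 => Nat.find_min' hex ⟨h1, h2⟩
  set P : ℕ := ∏ i ∈ T, p i with hP
  have hPpos : 0 < P := Finset.prod_pos (fun i _ => (hp i).pos)
  have hPP : PP p T = (P : ℝ) := by
    unfold PP
    rw [hP]
    push_cast
    rfl
  set EG := Ev (wZ p) (fun x => G x ^ 2) with hEG
  have hEG0 : 0 ≤ EG := Ev_nonneg (Pw_wZ p) (fun x => by positivity)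
  set N' : ℕ := N / P + 1 with hN'
  have hsub : (range N).filter (fun t => Hs (rs p b) (rs p (n0 + M * (t : ℕ))) = T) ⊆
      (range N').image (fun t' => t1 + P * t') := by
    intro t ht
    rw [mem_filter, mem_range] at ht
    have hle := hmin t ht.1 ht.2
    obtain ⟨c, hc⟩ := pat_PP_dvd hp hinj hM hle hsp.2 ht.2
    rw [mem_image]
    refine ⟨c, ?_, ?_⟩
    · rw [mem_range, hN']
      have h1 : P * c < N := by
        rw [hP, ← hc]
        omega
      have h2 : c ≤ N / P := by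
        rw [Nat.le_div_iff_mul_le hPpos, mul_comm]
        exact h1.le
      omega
    · have : P * c = t - t1 := hc.symm
      omega
  have hinj2 : Set.InjOn (fun t' => t1 + P * t') (range N' : Set ℕ) := by
    intro x _ y _ hxy
    have h1 : P * x = P * y := by
      have : t1 + P * x = t1 + P * y := hxy
      omega
    exact Nat.eq_of_mul_eq_mul_left hPpos h1
  have hstep1 : ∑ t ∈ range N, (if Hs (rs p b) (rs p (n0 + M * (t : ℕ))) = T then
        F (rs p (n0 + M * (t : ℕ))) ^ 2 else 0) ≤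
      ∑ t' ∈ range N', G (rs p ((n0 + M * (t1 : ℕ)) + ((M * P : ℕ) : ℤ) * (t' : ℕ))) ^ 2 := by
    rw [← Finset.sum_filter]
    calc ∑ t ∈ (range N).filter (fun t => Hs (rs p b) (rs p (n0 + M * (t : ℕ))) = T),
          F (rs p (n0 + M * (t : ℕ))) ^ 2
        = ∑ t ∈ (range N).filter (fun t => Hs (rs p b) (rs p (n0 + M * (t : ℕ))) = T),
          G (rs p (n0 + M * (t : ℕ))) ^ 2 := by
          apply Finset.sum_congr rfl
          intro t ht
          rw [hG3 _ (mem_filter.1 ht).2]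
      _ ≤ ∑ t ∈ (range N').image (fun t' => t1 + P * t'), G (rs p (n0 + M * (t : ℕ))) ^ 2 := by
          apply Finset.sum_le_sum_of_subset_of_nonneg hsub
          intro t _ _
          positivity
      _ = ∑ t' ∈ range N', G (rs p (n0 + M * ((t1 + P * t' : ℕ) : ℤ))) ^ 2 := by
          rw [Finset.sum_image hinj2]
      _ = _ := by
          apply Finset.sum_congr rfl
          intro t' _
          have : n0 + M * ((t1 + P * t' : ℕ) : ℤ) =
              (n0 + M * (t1 : ℕ)) + ((M * P : ℕ) : ℤ) * (t' : ℕ) := by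
            push_cast
            ring
          rw [this]
  have hcop : ∀ i, i ∉ T → Nat.Coprime (M * P) (p i) := by
    intro i hi
    apply Nat.Coprime.mul_left (hM i)
    apply Nat.Coprime.prod_left
    intro j hj
    exact (Nat.coprime_primes (hp j) (hp i)).2 (fun h => hi (hinj h ▸ hj))
  have hint := int_sq hp hinj hcop (n0 + M * (t1 : ℕ)) hD hG1 hG2 N'
  have hint2 : ∑ t' ∈ range N', G (rs p ((n0 + M * (t1 : ℕ)) + ((M * P : ℕ) : ℤ) * (t' : ℕ))) ^ 2 ≤
      (N' + 2 * D ^ 4) * EG := by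
    have := (abs_le.1 hint).2
    rw [← hEG] at this
    linarith
  have hPr : (0 : ℝ) < (P : ℝ) := by exact_mod_cast hPpos
  have hN'' : (N' : ℝ) + 2 * D ^ 4 ≤ 2 * N / P := by
    have h1 : ((N / P : ℕ) : ℝ) ≤ (N : ℝ) / P := Nat.cast_div_le
    have h2 : 1 + 2 * D ^ 4 ≤ (N : ℝ) / P := by
      rw [le_div_iff₀ hPr, ← hPP]
      exact hN
    have h3 : (N' : ℝ) = ((N / P : ℕ) : ℝ) + 1 := by
      rw [hN']
      push_cast
      ring
    rw [h3]
    have h4 : 2 * (N : ℝ) / P = (N : ℝ) / P + (N : ℝ) / P := by ring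
    rw [h4]
    linarith
  have hV4 : EG ≤ P * Ev (wZ p) (fun x => if Hs (rs p b) x = T then F x ^ 2 else 0) / V := by
    rw [le_div_iff₀ hV0, mul_comm EG V, ← hPP]
    exact hG4
  calc _ ≤ _ := hstep1
    _ ≤ _ := hint2
    _ ≤ (2 * N / P) * EG := by
        apply mul_le_mul_of_nonneg_right hN'' hEG0
    _ ≤ (2 * N / P) * (P * Ev (wZ p) (fun x => if Hs (rs p b) x = T then F x ^ 2 else 0) / V) := by
        apply mul_le_mul_of_nonneg_left hV4
        positivity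
    _ = _ := by
        field_simp

private theorem pat_ite {p : ι → ℕ} {a x : ∀ i, ZMod (p i)} (ρ : ℕ) (c : ℝ) :
    (if Hc a x < ρ then c else 0) =
      ∑ T ∈ (univ : Finset (Finset ι)).filter (fun T => T.card < ρ),
        (if Hs a x = T then c else 0) := by
  rw [Finset.sum_ite_eq]
  have : Hs a x ∈ (univ : Finset (Finset ι)).filter (fun T => T.card < ρ) ↔ Hc a x < ρ := by
    rw [mem_filter]
    unfold Hs Hc
    simp
  by_cases h : Hc a x < ρ
  · rw [if_pos h, if_pos (this.2 h)]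
  · rw [if_neg h, if_neg (fun h2 => h (this.1 h2))]

theorem pat_sum {p : ι → ℕ} [∀ i, NeZero (p i)] (hp : ∀ i, (p i).Prime)
    (hinj : Function.Injective p) {M : ℕ} (hM : ∀ i, Nat.Coprime M (p i)) (n0 b : ℤ)
    {V : ℝ} (hV0 : 0 < V) (hV : V ≤ ∏ i, (1 - 1 / (p i : ℝ))) {D : ℝ} (hD : 1 ≤ D)
    {F : (∀ i, ZMod (p i)) → ℝ}
    (hF : ∀ S : Finset ι, D < PP p S → ∀ x, Cm (wZ p) S F x = 0) (ρ : ℕ) {N : ℕ}
    (hN : ∀ T : Finset ι, T.card < ρ → (1 + 2 * D ^ 4) * PP p T ≤ N) :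
    ∑ t ∈ range N, (if Hc (rs p b) (rs p (n0 + M * (t : ℕ))) < ρ then
        F (rs p (n0 + M * (t : ℕ))) ^ 2 else 0) ≤
      2 * N / V * Ev (wZ p) (fun x => if Hc (rs p b) x < ρ then F x ^ 2 else 0) := by
  have h1 : ∑ t ∈ range N, (if Hc (rs p b) (rs p (n0 + M * (t : ℕ))) < ρ then
        F (rs p (n0 + M * (t : ℕ))) ^ 2 else 0) =
      ∑ T ∈ (univ : Finset (Finset ι)).filter (fun T => T.card < ρ),
        ∑ t ∈ range N, (if Hs (rs p b) (rs p (n0 + M * (t : ℕ))) = T then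
          F (rs p (n0 + M * (t : ℕ))) ^ 2 else 0) := by
    rw [Finset.sum_comm]
    apply Finset.sum_congr rfl
    intro t _
    exact pat_ite ρ _
  have h2 : Ev (wZ p) (fun x => if Hc (rs p b) x < ρ then F x ^ 2 else 0) =
      ∑ T ∈ (univ : Finset (Finset ι)).filter (fun T => T.card < ρ),
        Ev (wZ p) (fun x => if Hs (rs p b) x = T then F x ^ 2 else 0) := by
    rw [← Ev_sum]
    apply Ev_congr
    intro x
    exact pat_ite ρ _
  rw [h1, h2, Finset.mul_sum]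
  apply Finset.sum_le_sum
  intro T hT
  exact pat_T hp hinj hM n0 b hV0 hV hD hF T (hN T (mem_filter.1 hT).2)

end Pool.Agent.UIV
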