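import Pool.Agent.UIV.Cov

/-! UIV/TermE.  One term of the energy estimate.

`g` insensitive outside `R`, `ψ` monotone, `0 ≤ ψ ≤ B`, `q = 1/p i`, `Δ = ψ+ - ψ- ∈ [0, B]`.
Average over the coordinate `i` (`Ev_Av`, for fixed `x`; write `g_b = g (update x i b)`):
`∑_b (1/p) g_b^2 ψ_b (ψ_b - Av ψ) = q g_a^2 ψ+ (1-q) Δ - q ∑_{b≠a} g_b^2 q ψ- Δ`
(`Av_hit`: the average is `q ψ+ + (1-q) ψ-`; `ψ_a = ψ+`, `ψ_b = ψ-` for `b ≠ a`).
So the left side minus the first term on the right is the expectation of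
`q^2 g_a^2 ψ+ Δ + q ψ- Δ (q ∑_{b≠a} g_b^2 - g_z^2)`, and `q ∑_{b≠a} g_b^2 ≤ q ∑_{b∈R\a} g_b^2 + g_z^2`; it is
`≤ q^2 B^2 ∑_{b∈R} g_b^2`, whose expectation is `q B^2 Ev (1[x i ∈ R i] g^2)` (`Ev_R`). -/

namespace Pool.Agent.UIV

open Finset

variable {ι : Type} [Fintype ι] [DecidableEq ι] {α : ι → Type} [∀ i, Fintype (α i)]
  [∀ i, DecidableEq (α i)]

private theorem term_pt {β : Type} [Fintype β] [DecidableEq β] {q : ℝ} (hq : 0 ≤ q)
    (hq1 : ∑ _b : β, q = 1) {R : Finset β} {a z : β} (ha : a ∈ R) {G : β → ℝ}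
    (hG : ∀ b, 0 ≤ G b) (hz : ∀ b, b ∉ R → G b = G z) {u v B : ℝ} (hv : 0 ≤ v) (huv : v ≤ u)
    (huB : u ≤ B) {ψ : β → ℝ} (h1 : ψ a = u) (h2 : ∀ b, b ≠ a → ψ b = v) {A : ℝ}
    (hA : A = q * u + (1 - q) * v) :
    q * (G a * (u * (u - v)) - G z * (v * (u - v))) ≤
      ∑ b, q * (G b * (ψ b * (ψ b - A))) + B ^ 2 * q * (q * ∑ b ∈ R, G b) := by
  have hu : 0 ≤ u := hv.trans huv
  have hB : 0 ≤ B := hu.trans huB
  have hd : 0 ≤ u - v := sub_nonneg.2 huv
  have e1 : ∑ b, q * (G b * (ψ b * (ψ b - A))) =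
      q * (G a * (u * ((1 - q) * (u - v)))) - q * (v * (u - v)) * (q * ∑ b ∈ univ.erase a, G b) := by
    rw [← Finset.add_sum_erase _ _ (mem_univ a), h1, hA]
    have e2 : ∑ b ∈ univ.erase a, q * (G b * (ψ b * (ψ b - (q * u + (1 - q) * v)))) =
        ∑ b ∈ univ.erase a, -(q * (v * (u - v)) * q) * G b := by
      refine Finset.sum_congr rfl fun b hb => ?_
      rw [h2 b (Finset.ne_of_mem_erase hb)]
      ring
    rw [e2, ← Finset.mul_sum]
    ring
  have e3 : q * ∑ b ∈ univ.erase a, G b ≤ q * ∑ b ∈ R.erase a, G b + G z := by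
    have e4 : ∑ b ∈ univ.erase a, G b ≤ ∑ b ∈ R.erase a, G b + ∑ _b : β, G z := by
      have e5 : ∑ b ∈ univ.erase a, G b ≤
          ∑ b ∈ univ.erase a, ((if b ∈ R.erase a then G b else 0) + G z) := by
        refine Finset.sum_le_sum fun b hb => ?_
        by_cases hbR : b ∈ R
        · rw [if_pos (Finset.mem_erase.2 ⟨Finset.ne_of_mem_erase hb, hbR⟩)]
          have := hG z
          linarith
        · rw [if_neg (fun h => hbR (Finset.mem_of_mem_erase h)), hz b hbR, zero_add]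
      rw [Finset.sum_add_distrib] at e5
      have e6 : ∑ b ∈ univ.erase a, (if b ∈ R.erase a then G b else 0) ≤ ∑ b ∈ R.erase a, G b := by
        rw [← Finset.sum_filter]
        refine Finset.sum_le_sum_of_subset_of_nonneg ?_ fun b _ _ => hG b
        intro b hb
        exact (Finset.mem_filter.1 hb).2
      have e7 : ∑ _b ∈ univ.erase a, G z ≤ ∑ _b : β, G z :=
        Finset.sum_le_sum_of_subset_of_nonneg (Finset.erase_subset _ _) fun b _ _ => hG z
      linarith
    have e8 : q * ∑ _b : β, G z = G z := by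
      rw [Finset.sum_const, nsmul_eq_mul]
      rw [Finset.sum_const, nsmul_eq_mul] at hq1
      calc q * (((univ : Finset β).card : ℝ) * G z) = (((univ : Finset β).card : ℝ) * q) * G z := by
            ring
        _ = G z := by rw [hq1, one_mul]
    have e9 := mul_le_mul_of_nonneg_left e4 hq
    rw [mul_add, e8] at e9
    exact e9
  have e10 : ∑ b ∈ R, G b = G a + ∑ b ∈ R.erase a, G b := (Finset.add_sum_erase _ _ ha).symm
  have hS : 0 ≤ ∑ b ∈ R.erase a, G b := Finset.sum_nonneg fun b _ => hG b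
  have e11 : u * (u - v) ≤ B ^ 2 := by nlinarith
  have e12 : v * (u - v) ≤ B ^ 2 := by nlinarith
  have e13 : q * (v * (u - v)) * (q * ∑ b ∈ univ.erase a, G b) ≤
      q * (v * (u - v)) * (q * ∑ b ∈ R.erase a, G b + G z) :=
    mul_le_mul_of_nonneg_left e3 (by positivity)
  have e14 : q * q * (u * (u - v)) * G a ≤ q * q * B ^ 2 * G a :=
    mul_le_mul_of_nonneg_right (mul_le_mul_of_nonneg_left e11 (by positivity)) (hG a)
  have e15 : q * q * (v * (u - v)) * ∑ b ∈ R.erase a, G b ≤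
      q * q * B ^ 2 * ∑ b ∈ R.erase a, G b :=
    mul_le_mul_of_nonneg_right (mul_le_mul_of_nonneg_left e12 (by positivity)) hS
  rw [e1, e10]
  nlinarith

theorem term_le {w : ∀ i, α i → ℝ} (hw : Pw w) {p : ι → ℝ} (hu : ∀ i b, w i b = 1 / p i)
    (hp : ∀ i, 1 ≤ p i) {R : ∀ i, Finset (α i)} {z : ∀ i, α i} {a : ∀ i, α i}
    (ha : ∀ i, a i ∈ R i) {B : ℝ} {ψ : (ι → Bool) → ℝ} (hψ : Monotone ψ)
    (h0 : ∀ x, 0 ≤ ψ x) (hB : ∀ x, ψ x ≤ B) {g : (∀ i, α i) → ℝ} (hg : Ins R z g) (i : ι) :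
    1 / p i * Ev w (fun x => g (Function.update x i (a i)) ^ 2 *
          (ψ (Function.update (hit a x) i true) *
            (ψ (Function.update (hit a x) i true) - ψ (Function.update (hit a x) i false))) -
        g (Function.update x i (z i)) ^ 2 *
          (ψ (Function.update (hit a x) i false) *
            (ψ (Function.update (hit a x) i true) - ψ (Function.update (hit a x) i false)))) ≤
      Ev w (fun x => g x ^ 2 * (ψ (hit a x) *
        (ψ (hit a x) - Av (wB (fun i => 1 / p i)) i ψ (hit a x)))) +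
      B ^ 2 * (1 / p i) * Ev w (fun x => if x i ∈ R i then g x ^ 2 else 0) := by
  have hp0 : 0 < p i := lt_of_lt_of_le one_pos (hp i)
  have hq0 : 0 ≤ 1 / p i := by positivity
  have hq1 : ∑ _b : α i, 1 / p i = 1 := by
    have h2 := hw.one i
    rw [Finset.sum_congr rfl fun b _ => hu i b] at h2
    exact h2
  rw [← Ev_Av hw i (fun x => g x ^ 2 * (ψ (hit a x) *
    (ψ (hit a x) - Av (wB (fun i => 1 / p i)) i ψ (hit a x)))),
    Ev_R hw hu i (R i) (fun x => g x ^ 2), ← Ev_sum, ← Ev_smul, ← Ev_smul, ← Ev_smul, ← Ev_add]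
  refine Ev_mono hw fun x => ?_
  have hAv : Av (wB (fun i => 1 / p i)) i ψ (hit a x) =
      1 / p i * ψ (Function.update (hit a x) i true) +
        (1 - 1 / p i) * ψ (Function.update (hit a x) i false) := by
    unfold Av wB
    rw [Fintype.sum_bool]
    simp only [if_true, Bool.false_eq_true, if_false]
  have key := term_pt (β := α i) hq0 hq1 (R := R i) (a := a i) (z := z i) (ha i)
    (G := fun b => g (Function.update x i b) ^ 2) (fun b => sq_nonneg _)
    (fun b hb => by
      show g (Function.update x i b) ^ 2 = g (Function.update x i (z i)) ^ 2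
      rw [hg i x b hb])
    (u := ψ (Function.update (hit a x) i true)) (v := ψ (Function.update (hit a x) i false)) (B := B)
    (h0 _) (hψ (update_le_update_iff.2 ⟨Bool.false_le _, fun _ _ => le_rfl⟩)) (hB _)
    (ψ := fun b => ψ (Function.update (hit a x) i (decide (b = a i))))
    (by
      show ψ (Function.update (hit a x) i (decide (a i = a i))) = _
      rw [decide_eq_true rfl])
    (fun b hb => by
      show ψ (Function.update (hit a x) i (decide (b = a i))) = _
      rw [decide_eq_false hb])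
    hAv
  refine key.trans (le_of_eq ?_)
  congr 1
  unfold Av
  refine Finset.sum_congr rfl fun b _ => ?_
  rw [hu i b]
  congr 1
  show g (Function.update x i b) ^ 2 * _ = g (Function.update x i b) ^ 2 * (ψ (hit a (Function.update x i b)) * (ψ (hit a (Function.update x i b)) - Av (wB (fun i => 1 / p i)) i ψ (hit a (Function.update x i b))))
  rw [hit_update, Av_update]
  rfl

end Pool.Agent.UIV
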