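import Pool.Agent.UIV.PtE
import Pool.Agent.UIV.TermE

/-! UIV/ProdE.  The energy of a product.

`Ep (fp s) = ∑_i (l i/p i) Ev (∑_{b∈R i} (..)^2) ≤ ∑_i l i ∑_{j∈s} (1/p i) Ev (..)` by `pt_sum`, and `term_le` for
`g = fp (s.erase j)` (`fp_ins`).  `∑_i l i g^2 ψ (ψ - Av_i ψ) = g^2 ψ Nl ψ ≤ c j g^2 ψ`, and
`∑_i l i B^2/p i Ev (1[x i ∈ R i] g^2) ≤ B^2 δ Ev (nh g^2)` as `l i / p i ≤ δ`. -/

namespace Pool.Agent.UIV

open Finset

variable {ι κ : Type} [Fintype ι] [DecidableEq ι] [DecidableEq κ] {α : ι → Type}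
  [∀ i, Fintype (α i)] [∀ i, DecidableEq (α i)]

omit [DecidableEq κ] [∀ i, DecidableEq (α i)] in
private lemma pe_sum {w : ∀ i, α i → ℝ} {τ : Type} (t : Finset τ) (F : τ → (∀ i, α i) → ℝ) :
    Ev w (fun x => ∑ j ∈ t, F j x) = ∑ j ∈ t, Ev w (F j) := by
  unfold Ev
  rw [Finset.sum_comm]
  exact Finset.sum_congr rfl fun x _ => Finset.mul_sum _ _ _

omit [∀ i, DecidableEq (α i)] in
private lemma pe_mono {w : ∀ i, α i → ℝ} (hw : Pw w) {f g : (∀ i, α i) → ℝ} (h : ∀ x, f x ≤ g x) :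
    Ev w f ≤ Ev w g := by
  unfold Ev
  exact Finset.sum_le_sum fun x _ =>
    mul_le_mul_of_nonneg_left (h x) (Finset.prod_nonneg fun i _ => hw.nn i _)

omit [∀ i, DecidableEq (α i)] in
private lemma pe_smul {w : ∀ i, α i → ℝ} (c : ℝ) (f : (∀ i, α i) → ℝ) :
    Ev w (fun x => c * f x) = c * Ev w f := by
  unfold Ev
  rw [Finset.mul_sum]
  exact Finset.sum_congr rfl fun x _ => by ring

theorem Ep_prod_le {w : ∀ i, α i → ℝ} (hw : Pw w) {p : ι → ℝ} (hu : ∀ i b, w i b = 1 / p i)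
    (hp : ∀ i, 1 ≤ p i) {l : ι → ℝ} (hl : ∀ i, 0 ≤ l i) {δ : ℝ} (hδ : ∀ i, l i / p i ≤ δ)
    {R : ∀ i, Finset (α i)} {z : ∀ i, α i} {a : κ → ∀ i, α i} (ha : ∀ j i, a j i ∈ R i)
    (hz : ∀ i, z i ∉ R i) {B : ℝ} {ψ : κ → (ι → Bool) → ℝ} (hψ : ∀ j, Monotone (ψ j))
    (h0 : ∀ j x, 0 ≤ ψ j x) (hB : ∀ j x, ψ j x ≤ B) {c : κ → ℝ}
    (hc : ∀ j x, Nl (wB (fun i => 1 / p i)) l (ψ j) x ≤ c j) (s : Finset κ) :
    Ep w l p R z (fp ψ a s) ≤
      ∑ j ∈ s, (c j * Ev w (fun x => fp ψ a (s.erase j) x ^ 2 * ψ j (hit (a j) x)) +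
        B ^ 2 * δ * Ev w (fun x => nh R x * fp ψ a (s.erase j) x ^ 2)) := by
  have h1 : Ep w l p R z (fp ψ a s) ≤ ∑ i, ∑ j ∈ s, (l i *
      Ev w (fun x => fp ψ a (s.erase j) x ^ 2 * (ψ j (hit (a j) x) *
        (ψ j (hit (a j) x) - Av (wB (fun i => 1 / p i)) i (ψ j) (hit (a j) x)))) +
      l i / p i * (B ^ 2 * Ev w (fun x => if x i ∈ R i then fp ψ a (s.erase j) x ^ 2 else 0))) := by
    unfold Ep
    refine Finset.sum_le_sum fun i _ => ?_
    have hpi : 0 < p i := lt_of_lt_of_le one_pos (hp i)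
    have hlp : 0 ≤ l i / p i := div_nonneg (hl i) hpi.le
    rw [← pe_sum]
    refine (mul_le_mul_of_nonneg_left (pe_mono hw (fun x => pt_sum hψ h0 ha hz s i x)) hlp).trans ?_
    rw [pe_sum, Finset.mul_sum]
    refine Finset.sum_le_sum fun j _ => ?_
    have ht := term_le hw hu hp (ha j) (hψ j) (h0 j) (hB j) (fp_ins (ψ := ψ) ha hz (s.erase j)) i
    have e1 : ∀ E : ℝ, l i / p i * E = l i * (1 / p i * E) := fun E => by ring
    rw [e1]
    refine (mul_le_mul_of_nonneg_left ht (hl i)).trans (le_of_eq ?_)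
    ring
  refine h1.trans ?_
  rw [Finset.sum_comm]
  refine Finset.sum_le_sum fun j _ => ?_
  rw [Finset.sum_add_distrib]
  refine add_le_add ?_ ?_
  · rw [← pe_smul]
    have : (∑ i, l i * Ev w (fun x => fp ψ a (s.erase j) x ^ 2 * (ψ j (hit (a j) x) *
        (ψ j (hit (a j) x) - Av (wB (fun i => 1 / p i)) i (ψ j) (hit (a j) x)))))
        = Ev w (fun x => ∑ i, l i * (fp ψ a (s.erase j) x ^ 2 * (ψ j (hit (a j) x) *
        (ψ j (hit (a j) x) - Av (wB (fun i => 1 / p i)) i (ψ j) (hit (a j) x))))) := by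
      rw [pe_sum]
      exact Finset.sum_congr rfl fun i _ => (pe_smul _ _).symm
    rw [this]
    refine pe_mono hw fun x => ?_
    have e : (∑ i, l i * (fp ψ a (s.erase j) x ^ 2 * (ψ j (hit (a j) x) *
        (ψ j (hit (a j) x) - Av (wB (fun i => 1 / p i)) i (ψ j) (hit (a j) x)))))
        = fp ψ a (s.erase j) x ^ 2 * ψ j (hit (a j) x) *
          Nl (wB (fun i => 1 / p i)) l (ψ j) (hit (a j) x) := by
      unfold Nl
      rw [Finset.mul_sum]
      exact Finset.sum_congr rfl fun i _ => by ring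
    rw [e, mul_comm (c j)]
    exact mul_le_mul_of_nonneg_left (hc j _) (mul_nonneg (sq_nonneg _) (h0 j _))
  · have e : Ev w (fun x => nh R x * fp ψ a (s.erase j) x ^ 2)
        = ∑ i, Ev w (fun x => if x i ∈ R i then fp ψ a (s.erase j) x ^ 2 else 0) := by
      rw [← pe_sum]
      congr 1
      funext x
      unfold nh
      rw [Finset.sum_mul]
      exact Finset.sum_congr rfl fun i _ => by split_ifs <;> ring
    rw [e, Finset.mul_sum]
    refine Finset.sum_le_sum fun i _ => ?_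
    have hn : 0 ≤ Ev w (fun x => if x i ∈ R i then fp ψ a (s.erase j) x ^ 2 else 0) := by
      unfold Ev
      exact Finset.sum_nonneg fun x _ =>
        mul_nonneg (Finset.prod_nonneg fun i _ => hw.nn i _) (by dsimp only; split_ifs <;> positivity)
    calc l i / p i * (B ^ 2 * Ev w (fun x => if x i ∈ R i then fp ψ a (s.erase j) x ^ 2 else 0))
        ≤ δ * (B ^ 2 * Ev w (fun x => if x i ∈ R i then fp ψ a (s.erase j) x ^ 2 else 0)) :=
          mul_le_mul_of_nonneg_right (hδ i) (mul_nonneg (sq_nonneg _) hn)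
      _ = _ := by ring

end Pool.Agent.UIV
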