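import Pool.Agent.UIV.Wst
import Pool.Agent.UIV.Cov

/-! UIV/PtE.  Pointwise estimate of the increments of a product of one-body functions.

Fix `i`, `x`.  For `b`, `C_b = {j ∈ s : a j i = b}`; `ψ j± = ψ j (update (hit (a j) x) i true/false)`.  By `hit_update`,
`fp s (update x i b) = ∏_{j∈C_b} ψ j+ ∏_{j∈s \ C_b} ψ j-`, and `fp s (update x i (z i)) = ∏_{j∈s} ψ j-` (`z i ≠ a j i`).
`pt_b` : `weier` for `C_b` (`u = ψ+`, `v = ψ-`, monotonicity), multiplied by `(∏_{s \ C_b} ψ-)^2`; for `j ∈ C_b`:
`∏_{C_b \ j} ψ+ ∏_{s \ C_b} ψ- = fp (s.erase j) (update x i b)`, with `b = a j i`, and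
`∏_{s \ j} ψ- = fp (s.erase j) (update x i (z i))`.
`pt_sum`: sum over `b ∈ R i`: every `j ∈ s` occurs for exactly one `b`, namely `b = a j i ∈ R i`. -/

namespace Pool.Agent.UIV

open Finset

variable {ι κ : Type} [Fintype ι] [DecidableEq ι] [DecidableEq κ] {α : ι → Type}
  [∀ i, Fintype (α i)] [∀ i, DecidableEq (α i)]

omit [Fintype ι] [∀ i, Fintype (α i)] [DecidableEq κ] in
private theorem pte_fp (ψ : κ → (ι → Bool) → ℝ) (a : κ → ∀ i, α i) (s : Finset κ) (i : ι)
    (x : ∀ i, α i) (b : α i) :
    fp ψ a s (Function.update x i b) =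
      (∏ k ∈ s.filter (fun k => a k i = b), ψ k (Function.update (hit (a k) x) i true)) *
        ∏ k ∈ s.filter (fun k => ¬ a k i = b), ψ k (Function.update (hit (a k) x) i false) := by
  unfold fp
  rw [← Finset.prod_filter_mul_prod_filter_not s (fun k => a k i = b)]
  congr 1
  · refine Finset.prod_congr rfl fun k hk => ?_
    rw [hit_update, (Finset.mem_filter.1 hk).2]
    simp
  · refine Finset.prod_congr rfl fun k hk => ?_
    have h : ¬ b = a k i := fun h => (Finset.mem_filter.1 hk).2 h.symm
    rw [hit_update, decide_eq_false h]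

omit [Fintype ι] [∀ i, Fintype (α i)] [DecidableEq κ] in
private theorem pte_z (ψ : κ → (ι → Bool) → ℝ) {a : κ → ∀ i, α i} {R : ∀ i, Finset (α i)}
    (ha : ∀ j i, a j i ∈ R i) (s : Finset κ) (i : ι) (x : ∀ i, α i) {b : α i} (hb : b ∉ R i) :
    fp ψ a s (Function.update x i b) = ∏ k ∈ s, ψ k (Function.update (hit (a k) x) i false) := by
  unfold fp
  refine Finset.prod_congr rfl fun k _ => ?_
  have h : ¬ b = a k i := fun h => hb (h ▸ ha k i)
  rw [hit_update, decide_eq_false h]

omit [Fintype ι] in
private theorem pte_ft (y : ι → Bool) (i : ι) (c : Bool) :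
    Function.update y i false ≤ Function.update y i c := by
  intro k
  by_cases hk : k = i
  · subst hk
    rw [Function.update_self, Function.update_self]
    exact Bool.false_le c
  · rw [Function.update_of_ne hk, Function.update_of_ne hk]

omit [Fintype ι] [∀ i, Fintype (α i)] in
private theorem pte_b {ψ : κ → (ι → Bool) → ℝ} (hmono : ∀ j, Monotone (ψ j))
    (h0 : ∀ j x, 0 ≤ ψ j x) {a : κ → ∀ i, α i} {R : ∀ i, Finset (α i)} {z : ∀ i, α i}
    (ha : ∀ j i, a j i ∈ R i) (hz : ∀ i, z i ∉ R i) (s : Finset κ) (i : ι) (x : ∀ i, α i) (b : α i) :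
    (fp ψ a s (Function.update x i b) - fp ψ a s (Function.update x i (z i))) ^ 2 ≤
      ∑ j ∈ s.filter (fun k => a k i = b), (fp ψ a (s.erase j) (Function.update x i (a j i)) ^ 2 *
          (ψ j (Function.update (hit (a j) x) i true) *
            (ψ j (Function.update (hit (a j) x) i true) -
              ψ j (Function.update (hit (a j) x) i false))) -
        fp ψ a (s.erase j) (Function.update x i (z i)) ^ 2 *
          (ψ j (Function.update (hit (a j) x) i false) *
            (ψ j (Function.update (hit (a j) x) i true) -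
              ψ j (Function.update (hit (a j) x) i false)))) := by
  have hw := weier (s.filter (fun k => a k i = b)) (fun k => ψ k (Function.update (hit (a k) x) i true))
    (fun k => ψ k (Function.update (hit (a k) x) i false)) (fun j _ => h0 j _)
    (fun j _ => hmono j (pte_ft _ _ _))
  have e1 : fp ψ a s (Function.update x i (z i)) =
      (∏ k ∈ s.filter (fun k => a k i = b), ψ k (Function.update (hit (a k) x) i false)) *
        ∏ k ∈ s.filter (fun k => ¬ a k i = b), ψ k (Function.update (hit (a k) x) i false) := by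
    rw [pte_z ψ ha s i x (hz i), Finset.prod_filter_mul_prod_filter_not]
  have e2 : ∀ j ∈ s.filter (fun k => a k i = b),
      fp ψ a (s.erase j) (Function.update x i (a j i)) =
        (∏ k ∈ (s.filter (fun k => a k i = b)).erase j, ψ k (Function.update (hit (a k) x) i true)) *
          ∏ k ∈ s.filter (fun k => ¬ a k i = b), ψ k (Function.update (hit (a k) x) i false) := by
    intro j hj
    have hj2 := (Finset.mem_filter.1 hj).2
    rw [pte_fp, hj2, Finset.filter_erase, Finset.filter_erase, Finset.erase_eq_of_notMem (s := s.filter (fun k => ¬ a k i = b))]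
    intro h
    exact (Finset.mem_filter.1 h).2 hj2
  have e3 : ∀ j ∈ s.filter (fun k => a k i = b),
      fp ψ a (s.erase j) (Function.update x i (z i)) =
        (∏ k ∈ (s.filter (fun k => a k i = b)).erase j, ψ k (Function.update (hit (a k) x) i false)) *
          ∏ k ∈ s.filter (fun k => ¬ a k i = b), ψ k (Function.update (hit (a k) x) i false) := by
    intro j hj
    have hj2 := (Finset.mem_filter.1 hj).2
    rw [pte_z ψ ha _ i x (hz i), ← Finset.prod_filter_mul_prod_filter_not (s.erase j) (fun k => a k i = b),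
      Finset.filter_erase, Finset.filter_erase, Finset.erase_eq_of_notMem (s := s.filter (fun k => ¬ a k i = b))]
    intro h
    exact (Finset.mem_filter.1 h).2 hj2
  rw [e1, pte_fp, ← sub_mul, mul_pow]
  refine (mul_le_mul_of_nonneg_right hw (sq_nonneg _)).trans (le_of_eq ?_)
  rw [Finset.sum_mul]
  refine Finset.sum_congr rfl fun j hj => ?_
  rw [e2 j hj, e3 j hj]
  ring

omit [Fintype ι] [∀ i, Fintype (α i)] in
theorem pt_sum {ψ : κ → (ι → Bool) → ℝ} (hmono : ∀ j, Monotone (ψ j))
    (h0 : ∀ j x, 0 ≤ ψ j x) {a : κ → ∀ i, α i} {R : ∀ i, Finset (α i)} {z : ∀ i, α i}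
    (ha : ∀ j i, a j i ∈ R i) (hz : ∀ i, z i ∉ R i) (s : Finset κ) (i : ι) (x : ∀ i, α i) :
    ∑ b ∈ R i, (fp ψ a s (Function.update x i b) - fp ψ a s (Function.update x i (z i))) ^ 2 ≤
      ∑ j ∈ s, (fp ψ a (s.erase j) (Function.update x i (a j i)) ^ 2 *
          (ψ j (Function.update (hit (a j) x) i true) *
            (ψ j (Function.update (hit (a j) x) i true) -
              ψ j (Function.update (hit (a j) x) i false))) -
        fp ψ a (s.erase j) (Function.update x i (z i)) ^ 2 *
          (ψ j (Function.update (hit (a j) x) i false) *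
            (ψ j (Function.update (hit (a j) x) i true) -
              ψ j (Function.update (hit (a j) x) i false)))) := by
  refine (Finset.sum_le_sum fun b _ => pte_b hmono h0 ha hz s i x b).trans (le_of_eq ?_)
  exact Finset.sum_fiberwise_of_maps_to (fun j _ => ha j i) _

/-- products are insensitive outside `R` -/
theorem fp_ins {ψ : κ → (ι → Bool) → ℝ} {a : κ → ∀ i, α i} {R : ∀ i, Finset (α i)}
    {z : ∀ i, α i} (ha : ∀ j i, a j i ∈ R i) (hz : ∀ i, z i ∉ R i) (s : Finset κ) :
    Ins R z (fp ψ a s) := by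
  intro i x b hb
  rw [pte_z ψ ha s i x hb, pte_z ψ ha s i x (hz i)]

omit [Fintype ι] [∀ i, Fintype (α i)] [DecidableEq κ] in
/-- products increase if a coordinate is moved from `z i` to any other value -/
theorem fp_up {ψ : κ → (ι → Bool) → ℝ} (hmono : ∀ j, Monotone (ψ j)) (h0 : ∀ j x, 0 ≤ ψ j x)
    {a : κ → ∀ i, α i} {R : ∀ i, Finset (α i)} {z : ∀ i, α i} (ha : ∀ j i, a j i ∈ R i)
    (hz : ∀ i, z i ∉ R i) (s : Finset κ) (i : ι) (x : ∀ i, α i) (b : α i) :
    fp ψ a s (Function.update x i (z i)) ≤ fp ψ a s (Function.update x i b) := by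
  rw [pte_z ψ ha s i x (hz i)]
  unfold fp
  refine Finset.prod_le_prod (fun j _ => h0 j _) fun j _ => ?_
  rw [hit_update]
  exact hmono j (pte_ft _ _ _)

end Pool.Agent.UIV
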