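import Pool.Agent.UIV.KillU
import Pool.Agent.RS.Rankin

/-! UIV/RankU.  The Rankin version of the main theorem in an arbitrary interval `(y0, y0 + x]`; copy of
`RS/Rankin.lean` with `killU`. -/

set_option autoImplicit false

namespace Pool.Agent.UIV

open Finset Filter Pool.Agent.RS Pool.Agent.RS.Rankin Pool.Agent.Helper9.GW

open Classical in
/-- `killU` for `r = 1` with coprimality -/
theorem killU' : ∃ c : ℝ, 0 < c ∧ ∃ L0 : ℕ, ∀ L d : ℕ, L0 ≤ L → L ^ 3 ≤ d ^ 4 → d ≤ L →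
    ∀ (M : ℕ), 0 < M → (∀ q : ℕ, q.Prime → q ∣ M → q ≤ L ^ 6) →
    ∀ (b : ℕ) (A : Finset ℕ) (s H : ℕ), M * (2 ^ (8 * d) + 1) ≤ H →
    (∀ a ∈ A, ¬ (s < a ∧ a ≤ s + 2 * H)) →
    ((A.filter (fun a : ℕ => IsCoprime ((b : ℤ) - (a : ℤ)) (M : ℤ))).card : ℝ) ≤ c * d →
    ∃ n, s < n ∧ n ≤ s + 2 * H ∧ n ≡ b [MOD M] ∧ ∀ a ∈ A, a ≤ n → ¬ (n - a).Prime := by
  obtain ⟨c, hc, L0, h⟩ := killU 1 le_rfl
  refine ⟨c, hc, L0, fun L d h1 h2 h3 M h4 h5 b A s H h7 h8 h9 => ?_⟩
  have hle : M * (2 ^ ((1 + 6) * d) + 1) ≤ H := by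
    refine le_trans (Nat.mul_le_mul_left _ ?_) h7
    have : 2 ^ ((1 + 6) * d) ≤ 2 ^ (8 * d) := Nat.pow_le_pow_right (by norm_num) (by omega)
    omega
  have hcost : ∑ a ∈ A, RT.cst 1 L (M.primeFactors.filter
      (fun q : ℕ => (q : ℤ) ∣ (b : ℤ) - (a : ℤ))).card ≤ c * d := by
    refine le_trans (le_of_eq ?_) h9
    rw [Finset.card_filter]
    push_cast
    refine Finset.sum_congr rfl fun a _ => ?_
    by_cases hco : IsCoprime ((b : ℤ) - (a : ℤ)) (M : ℤ)
    · have h10 : M.primeFactors.filter (fun q : ℕ => (q : ℤ) ∣ (b : ℤ) - (a : ℤ)) = ∅ := by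
        rw [Finset.filter_eq_empty_iff]
        intro q hq hd
        have hqp := Nat.prime_of_mem_primeFactors hq
        have hqM : (q : ℤ) ∣ (M : ℤ) := Int.natCast_dvd_natCast.2 (Nat.dvd_of_mem_primeFactors hq)
        have h11 := hco.isUnit_of_dvd' hd hqM
        exact (Nat.prime_iff_prime_int.1 hqp).not_unit h11
      rw [h10, if_pos hco]
      unfold RT.cst
      simp
    · have h10 : 0 < (M.primeFactors.filter (fun q : ℕ => (q : ℤ) ∣ (b : ℤ) - (a : ℤ))).card := by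
        rw [Finset.card_pos]
        by_contra hcon
        rw [Finset.not_nonempty_iff_eq_empty, Finset.filter_eq_empty_iff] at hcon
        apply hco
        rw [Int.isCoprime_iff_gcd_eq_one]
        by_contra hg
        obtain ⟨q, hqp, hqd⟩ := Nat.exists_prime_and_dvd hg
        have h11 : (q : ℤ) ∣ (b : ℤ) - (a : ℤ) :=
          (Int.natCast_dvd_natCast.2 hqd).trans (Int.gcd_dvd_left _ _)
        have h12 : (q : ℤ) ∣ (M : ℤ) :=
          (Int.natCast_dvd_natCast.2 hqd).trans (Int.gcd_dvd_right _ _)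
        exact hcon (Nat.mem_primeFactors.2 ⟨hqp, Int.natCast_dvd_natCast.1 h12, h4.ne'⟩) h11
      rw [if_neg hco]
      unfold RT.cst
      rw [if_neg (by omega)]
  obtain ⟨n, n1, n2, n3, n4⟩ := h L d h1 h2 h3 M h4 h5 M.primeFactors
    (fun q hq => Nat.prime_of_mem_primeFactors hq) (Nat.prod_primeFactors_dvd M) b A s H hle h8
    hcost
  refine ⟨n, n1, n2, n3, fun a ha han hp => ?_⟩
  have h13 := n4 a ha han
  rw [Nat.primeFactorsList_prime hp] at h13
  simp at h13

open Classical in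
/-- Theorem R with Rankin's trick: a set `A` of natural numbers whose elements `≤ Y` are counted
with the small weight `wt x`. -/
theorem rankinU (B : ℕ) {δ : ℝ} (hδ : 0 < δ) : ∃ c : ℝ, 0 < c ∧ ∀ᶠ x : ℕ in atTop,
    ∀ (y0 : ℕ) (A : Finset ℕ) (Y : ℕ), (Y : ℝ) ≤ Real.log x * Real.log (Real.log x) ^ B →
    Pool.Agent.Helper9.GW.wt x * ((A.filter (fun q => q ≤ Y)).card : ℝ) +
      ((A.filter (fun q => ¬ q ≤ Y)).card : ℝ) ≤ c * (Real.log x * Real.log (Real.log x)) →
    (x : ℝ) ^ (1 - δ) + 2 ≤ (((Finset.Ioc y0 (y0 + x)).filter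
      (fun n => ∀ a ∈ A, a ≤ 2 * n → ¬ (2 * n - a).Prime)).card : ℝ) := by
  obtain ⟨c0, hc0, L0, hkill⟩ := killU'
  set δ1 := min δ (1 / 2) with hδ1
  have hδ10 : 0 < δ1 := by rw [hδ1]; positivity
  have hδ12 : δ1 ≤ 1 / 2 := min_le_right _ _
  have hδ1δ : δ1 ≤ δ := min_le_left _ _
  set η := δ1 / 64 with hη
  have hη0 : 0 < η := by positivity
  have hη1 : η ≤ 1 / 128 := by rw [hη]; linarith
  set c := c0 * η / (2882 * 8 * (B + 6)) with hc
  have hcpos : 0 < c := by positivity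
  refine ⟨c, hcpos, ?_⟩
  have hcast : Tendsto (fun k : ℕ => (k : ℝ)) atTop atTop := tendsto_natCast_atTop_atTop
  have t1 : Tendsto (fun k : ℕ => Real.log k) atTop atTop := Real.tendsto_log_atTop.comp hcast
  have t2 : Tendsto (fun k : ℕ => Real.log (Real.log k)) atTop atTop :=
    Real.tendsto_log_atTop.comp t1
  have t3 : Tendsto (fun k : ℕ => Real.log (Real.log (Real.log k))) atTop atTop :=
    Real.tendsto_log_atTop.comp t2
  have t4 : Tendsto (fun k : ℕ => Real.log (Real.log (Real.log (Real.log k)))) atTop atTop :=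
    Real.tendsto_log_atTop.comp t3
  have hk : Tendsto (fun x : ℕ => ⌊Real.log x / 4⌋₊) atTop atTop :=
    tendsto_nat_floor_atTop.comp (t1.atTop_div_const (by norm_num))
  filter_upwards [hk.eventually par_eventually, t1.eventually (growth B hcpos),
    t1.eventually_ge_atTop (max 40 (max (L0 : ℝ) (max (1 / η ^ 4) (96 / δ1)))),
    t2.eventually_ge_atTop (max (32 * 2 ^ B + 10) (8 / δ1)),
    t3.eventually_ge_atTop 4, t4.eventually_ge_atTop 4,
    eventually_ge_atTop 2] with x hpar hgrow g1 g2 g3 g4 hx2 y0 A Y hY hcond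
  obtain ⟨g1a, g1b, g1c, g1d⟩ : 40 ≤ Real.log x ∧ (L0 : ℝ) ≤ Real.log x ∧
      1 / η ^ 4 ≤ Real.log x ∧ 96 / δ1 ≤ Real.log x := by
    simp only [max_le_iff] at g1
    exact ⟨g1.1, g1.2.1, g1.2.2.1, g1.2.2.2⟩
  obtain ⟨g2a, g2b⟩ : 32 * 2 ^ B + 10 ≤ Real.log (Real.log x) ∧
      8 / δ1 ≤ Real.log (Real.log x) := by
    simp only [max_le_iff] at g2
    exact ⟨g2.1, g2.2⟩
  set k := ⌊Real.log x / 4⌋₊ with hkdef
  set L1 := Real.log x with hL1
  set L2 := Real.log L1 with hL2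
  set L3 := Real.log L2 with hL3
  set L4 := Real.log L3 with hL4
  set l := Real.log k with hl
  set l2 := Real.log l with hl2
  set l3 := Real.log l2 with hl3
  have h2B : (1 : ℝ) ≤ 2 ^ B := one_le_pow₀ (by norm_num)
  have hL42 : 42 ≤ L2 := by linarith
  obtain ⟨hku, hkl, hl1, hlu, hl2l, hl2u, hl3l⟩ :=
    log_compare hkdef hL2 hL3 hL4 hl hl2 hl3 g1a hL42 g3 g4
  have hk0 : (0 : ℝ) < k := by linarith
  have p1 : 0 < l := by linarith
  have p2 : 0 < l2 := by linarith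
  have p3 : 0 < l3 := by linarith
  have hx0 : (0 : ℝ) < x := by
    have : 0 < x := by omega
    exact_mod_cast this
  -- survivors
  obtain ⟨b, hb0, hbS⟩ := survivors hpar (B + 1) A Y (by
    refine hY.trans ?_
    have h1 : L2 ^ B ≤ (2 * l) ^ B := pow_le_pow_left₀ (by linarith) (by linarith) B
    have h2 : (8 : ℝ) * 2 ^ B ≤ l := by linarith
    calc L1 * L2 ^ B ≤ (8 * k) * (2 * l) ^ B := by
          apply mul_le_mul (by linarith) h1 (by positivity) (by linarith)
      _ = k * (8 * 2 ^ B) * l ^ B := by rw [mul_pow]; ring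
      _ ≤ k * l * l ^ B := by
          apply mul_le_mul_of_nonneg_right _ (by positivity)
          exact mul_le_mul_of_nonneg_left h2 hk0.le
      _ = k * l ^ (B + 1) := by rw [pow_succ]; ring)
  set s := ((A.filter (fun q => q ≤ Y)).card : ℝ) with hs
  set t := ((A.filter (fun q => ¬ q ≤ Y)).card : ℝ) with ht
  have hs0 : 0 ≤ s := Nat.cast_nonneg _
  have ht0 : 0 ≤ t := Nat.cast_nonneg _
  have hL2p : 0 < L2 := by linarith
  have hL3p : 0 < L3 := by linarith
  have hL4p : 0 < L4 := by linarith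
  have hwt : l2 ^ 2 / (l * l3) ≤ 4 * Pool.Agent.Helper9.GW.wt x := by
    have h2 : 4 * Pool.Agent.Helper9.GW.wt x = L3 ^ 2 / (L2 / 2 * (L4 / 2)) := by
      unfold Pool.Agent.Helper9.GW.wt
      rw [← hL1, ← hL2, ← hL3, ← hL4]
      field_simp
      norm_num
    rw [h2]
    apply div_le_div₀ (by positivity)
    · exact pow_le_pow_left₀ p2.le hl2u 2
    · positivity
    · exact mul_le_mul hl1 hl3l (by positivity) p1.le
  -- parameters
  set L := Nat.log 2 (2 * x) + 1 with hLdef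
  have hxL : 2 * x < 2 ^ L := Nat.lt_pow_succ_log_self (by norm_num) _
  have hLx : 2 ^ (L - 1) ≤ 2 * x := by
    rw [hLdef, Nat.add_sub_cancel]
    exact Nat.pow_log_le_self 2 (by omega)
  have hlog2 := Real.log_two_lt_d9
  have hlog2' := Real.log_two_gt_d9
  have hL1L : L1 ≤ L := by
    have h1 : L1 ≤ Real.log ((2 : ℝ) ^ L) := by
      refine Real.log_le_log hx0 ?_
      have h2 : (2 * (x : ℝ)) < 2 ^ L := by exact_mod_cast hxL
      linarith
    rw [Real.log_pow] at h1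
    have h2 : (0 : ℝ) ≤ L := Nat.cast_nonneg _
    have h3 : (L : ℝ) * Real.log 2 ≤ L * 1 := mul_le_mul_of_nonneg_left (by linarith) h2
    linarith
  have hLL1 : (L : ℝ) ≤ 2 * L1 := by
    have h1 : Real.log ((2 : ℝ) ^ (L - 1)) ≤ Real.log (2 * x) := by
      refine Real.log_le_log (by positivity) ?_
      exact_mod_cast hLx
    rw [Real.log_pow, Real.log_mul (by norm_num) hx0.ne', ← hL1] at h1
    have h2 : ((L - 1 : ℕ) : ℝ) = (L : ℝ) - 1 := by
      rw [hLdef]; push_cast; simp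
    rw [h2] at h1
    have h3 : ((L : ℝ) - 1) * 0.69 ≤ ((L : ℝ) - 1) * Real.log 2 :=
      mul_le_mul_of_nonneg_left (by linarith) (by linarith)
    linarith
  have hLpos : (0 : ℝ) < L := by linarith
  set d := ⌊η * L⌋₊ + 1 with hd
  have hdu : (d : ℝ) ≤ η * L + 1 := by
    rw [hd]; push_cast
    have := Nat.floor_le (show 0 ≤ η * L by positivity)
    linarith
  have hdl : η * L ≤ d := by
    rw [hd]; push_cast
    exact (Nat.lt_floor_add_one _).le
  have hdL : d ≤ L := by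
    have h1 : (d : ℝ) ≤ L := by
      have h2 : η * L ≤ 1 / 128 * L := mul_le_mul_of_nonneg_right hη1 hLpos.le
      linarith
    exact_mod_cast h1
  have hdL4 : L ^ 3 ≤ d ^ 4 := by
    have h1 : ((L : ℝ)) ^ 3 ≤ (d : ℝ) ^ 4 := by
      have h2 : (η * L) ^ 4 ≤ (d : ℝ) ^ 4 := pow_le_pow_left₀ (by positivity) hdl 4
      refine le_trans ?_ h2
      have h3 : 1 ≤ η ^ 4 * L := by
        have h4 : 1 / η ^ 4 ≤ L := g1c.trans hL1L
        rw [div_le_iff₀ (by positivity)] at h4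
        linarith
      calc (L : ℝ) ^ 3 = 1 * L ^ 3 := by ring
        _ ≤ (η ^ 4 * L) * L ^ 3 := mul_le_mul_of_nonneg_right h3 (by positivity)
        _ = (η * L) ^ 4 := by ring
    exact_mod_cast h1
  set M := 2 * modulus (zz l) with hM
  have hMpos : 0 < M := by
    have := modulus_pos (zz l)
    omega
  obtain ⟨z1, z2, z3⟩ := hpar.zz_facts
  obtain ⟨e1, e2, e3, f1, f2, f3⟩ := hpar.facts
  have hzk : (zz l : ℝ) ≤ k := by
    refine z2.trans ?_
    rw [← e1, div_le_iff₀ (by positivity)]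
    have : 1 ≤ l ^ 2 := one_le_pow₀ (by linarith)
    exact le_mul_of_one_le_right hk0.le this
  have hLL0 : L0 ≤ L := by
    have : (L0 : ℝ) ≤ L := g1b.trans hL1L
    exact_mod_cast this
  have hqM : ∀ q : ℕ, q.Prime → q ∣ M → q ≤ L ^ 6 := by
    intro q hq hqM
    have hL2 : 2 ≤ L := by
      have : (2 : ℝ) ≤ L := by linarith
      exact_mod_cast this
    have hLL6 : L ≤ L ^ 6 := Nat.le_self_pow (by norm_num) L
    rcases (Nat.Prime.dvd_mul hq).1 hqM with h | h
    · have := Nat.le_of_dvd (by norm_num) h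
      omega
    · unfold modulus at h
      obtain ⟨ℓ, hℓ, hqℓ⟩ := (Prime.dvd_finsetProd_iff hq.prime _).1 h
      have h1 := mem_oddPrimes.1 hℓ
      have h2 := Nat.le_of_dvd h1.1.pos hqℓ
      have h3 : (zz l : ℝ) ≤ L := by linarith
      have h4 : zz l ≤ L := by exact_mod_cast h3
      omega
  set H := M * (2 ^ (8 * d) + 1) with hH
  have hHpos : 0 < H := by positivity
  set m := x / (2 * H) with hm
  obtain ⟨P, hP⟩ : ∃ P : ℕ → Prop, P = fun N => N % 2 = 0 ∧
    ∀ a ∈ A, a ≤ N → ¬ (N - a).Prime := ⟨_, rfl⟩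
  have hPiff : ∀ N, P N ↔ (N % 2 = 0 ∧ ∀ a ∈ A, a ≤ N → ¬ (N - a).Prime) := by
    intro N; rw [hP]
  have hmx : 2 * H * m ≤ x := Nat.mul_div_le x (2 * H)
  have hsurv : ((A.filter (fun a : ℕ => IsCoprime ((b : ℤ) - (a : ℤ)) (M : ℤ))).card : ℝ) ≤
      c0 * d := by
    have q1 : l2 ^ 2 / (l * l3) * s + t ≤ 4 * (c * (L1 * L2)) := by
      have h4 := mul_le_mul_of_nonneg_right hwt hs0
      have h5 : 4 * Pool.Agent.Helper9.GW.wt x * s + 4 * t ≤ 4 * (c * (L1 * L2)) := by linarith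
      linarith
    have q2 : 2882 * (((B + 1 : ℕ) : ℝ) + 5) / l *
        (l2 ^ 2 / (l * l3) * s + t) ≤ 2882 * (((B + 1 : ℕ) : ℝ) + 5) / l * (4 * (c * (L1 * L2))) :=
      mul_le_mul_of_nonneg_left q1 (by positivity)
    refine hbS.trans (q2.trans ?_)
    have q3 : L2 / l ≤ 2 := by
      rw [div_le_iff₀ p1]; linarith
    have hBpos : (0 : ℝ) < 2882 * 8 * (B + 6) := by positivity
    calc 2882 * (((B + 1 : ℕ) : ℝ) + 5) / l * (4 * (c * (L1 * L2)))
        = 2882 * 4 * (B + 6) * c * L1 * (L2 / l) := by push_cast; ring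
      _ ≤ 2882 * 4 * (B + 6) * c * L1 * 2 :=
          mul_le_mul_of_nonneg_left q3 (by positivity)
      _ = c0 * η * L1 := by
          rw [hc]
          field_simp
          norm_num
      _ ≤ c0 * η * L := mul_le_mul_of_nonneg_left hL1L (by positivity)
      _ = c0 * (η * L) := by ring
      _ ≤ c0 * d := mul_le_mul_of_nonneg_left hdl hc0.le
  have hcount0 : ∀ s', 2 * y0 + x ≤ s' → s' + 2 * H ≤ 2 * y0 + x + 2 * H * m →
      (∀ a ∈ A, ¬ (s' < a ∧ a ≤ s' + 2 * H)) → ∃ n, s' < n ∧ n ≤ s' + 2 * H ∧ P n := by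
    intro s' hs1 hs2 hs3
    obtain ⟨n, h1, h2, h3, h4⟩ := hkill L d hLL0 hdL4 hdL M hMpos hqM b A s' H
      hH.ge hs3 hsurv
    refine ⟨n, h1, h2, (hPiff n).2 ⟨?_, h4⟩⟩
    have h5 : n ≡ b [MOD 2] := h3.of_dvd (Dvd.intro _ rfl)
    have h6 : n % 2 = b % 2 := h5
    rw [h6, hb0]
  have hcount := count_blocks A P (2 * y0 + x) H m hcount0
  have hinj : ((Finset.Ioc (2 * y0 + x) (2 * y0 + x + 2 * H * m)).filter P).card ≤
      ((Finset.Ioc y0 (y0 + x)).filter (fun n => ∀ a ∈ A, a ≤ 2 * n → ¬ (2 * n - a).Prime)).card := by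
    refine Finset.card_le_card_of_injOn (fun N => N / 2) ?_ ?_
    · intro N hN
      rw [Finset.mem_coe, Finset.mem_filter, Finset.mem_Ioc, hPiff] at hN
      obtain ⟨⟨h1, h2⟩, h3, h4⟩ := hN
      have h7 : 2 * (N / 2) = N := by omega
      rw [Finset.mem_coe, Finset.mem_filter, Finset.mem_Ioc]
      have h8 : y0 < N / 2 := by omega
      have h9 : N / 2 ≤ y0 + x := by omega
      refine ⟨⟨h8, h9⟩, ?_⟩
      rw [h7]
      exact h4
    · intro N hN N' hN' hNN
      rw [Finset.mem_coe, Finset.mem_filter, Finset.mem_Ioc, hPiff] at hN hN'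
      have h5 := hN.2.1
      have h6 := hN'.2.1
      simp only at hNN
      omega
  have hAcard : (A.card : ℝ) ≤ L1 * L2 ^ B + 1 + c * (L1 * L2) := by
    have h1 : (A.card : ℝ) = s + t := by
      rw [hs, ht]
      have h2 := Finset.card_filter_add_card_filter_not (s := A) (fun q => q ≤ Y)
      rw [← h2]
      push_cast
      rfl
    have h2 : s ≤ Y + 1 := by
      rw [hs]
      have h3 : (A.filter (fun q => q ≤ Y)) ⊆ Finset.range (Y + 1) := by
        intro q hq
        rw [Finset.mem_range]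
        have := (Finset.mem_filter.1 hq).2
        omega
      have h4 := Finset.card_le_card h3
      rw [Finset.card_range] at h4
      exact_mod_cast h4
    have h3 : t ≤ c * (L1 * L2) := by
      have h5 : 0 ≤ Pool.Agent.Helper9.GW.wt x := by
        unfold Pool.Agent.Helper9.GW.wt
        rw [← hL1, ← hL2, ← hL3, ← hL4]
        exact div_nonneg (sq_nonneg _) (mul_nonneg hL2p.le hL4p.le)
      have h6 : 0 ≤ Pool.Agent.Helper9.GW.wt x * s := mul_nonneg h5 hs0
      linarith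
    linarith
  -- lower bound for the number of blocks
  have hbs := block_size (L := L) (d := d) (z := zz l) (M := M) (H := H) (L1 := L1)
    (l := l) hδ10 hη hLL1 hdu hM (by
      refine z2.trans ?_
      rw [← e1]
      gcongr) (by
      have : 4 / δ1 = 8 / δ1 / 2 := by ring
      rw [this]
      linarith) (by linarith) hH (by linarith)
  have hHr : (0 : ℝ) < H := by exact_mod_cast hHpos
  have hmr : (x : ℝ) / (2 * H) - 1 ≤ m := by
    have h5 := Nat.lt_div_mul_add (a := x) (b := 2 * H) (by omega)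
    have h6 : (x : ℝ) < (m : ℝ) * (2 * H) + 2 * H := by
      rw [hm]; exact_mod_cast h5
    rw [sub_le_iff_le_add, div_le_iff₀ (by positivity)]
    linarith
  have hxe : (x : ℝ) = Real.exp L1 := by rw [hL1, Real.exp_log hx0]
  have hquot : Real.exp (L1 - (11 + 3 / 8 * δ1 * L1)) ≤ (x : ℝ) / (2 * H) := by
    rw [Real.exp_sub, ← hxe]
    exact div_le_div_of_nonneg_left hx0.le (by positivity) hbs
  have hrp : (x : ℝ) ^ (1 - δ) ≤ Real.exp ((1 - δ1) * L1) := by
    rw [Real.rpow_def_of_pos hx0, ← hL1, Real.exp_le_exp, mul_comm]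
    exact mul_le_mul_of_nonneg_right (by linarith) (by linarith)
  have hsplit : 2 * Real.exp ((1 - δ1) * L1) ≤ Real.exp (L1 - (11 + 3 / 8 * δ1 * L1)) := by
    have h1 : L1 - (11 + 3 / 8 * δ1 * L1) = (1 - δ1) * L1 + (5 / 8 * δ1 * L1 - 11) := by ring
    rw [h1, Real.exp_add, mul_comm]
    apply mul_le_mul_of_nonneg_left _ (Real.exp_pos _).le
    have h2 := Real.add_one_le_exp (5 / 8 * δ1 * L1 - 11)
    have h3 : 96 ≤ δ1 * L1 := by
      rw [div_le_iff₀ hδ10] at g1d
      linarith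
    linarith
  have hhalf : Real.exp (L1 / 2) ≤ Real.exp ((1 - δ1) * L1) := by
    rw [Real.exp_le_exp]
    have h1 : 1 / 2 * L1 ≤ (1 - δ1) * L1 :=
      mul_le_mul_of_nonneg_right (by linarith) (by linarith)
    linarith
  have hfin1 : (m : ℝ) ≤ (((Finset.Ioc (2 * y0 + x) (2 * y0 + x + 2 * H * m)).filter P).card : ℝ) + A.card := by
    exact_mod_cast hcount
  have hfin2 : ((((Finset.Ioc (2 * y0 + x) (2 * y0 + x + 2 * H * m)).filter P).card : ℝ)) ≤
      (((Finset.Ioc y0 (y0 + x)).filter (fun n => ∀ a ∈ A, a ≤ 2 * n → ¬ (2 * n - a).Prime)).card : ℝ) := by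
    exact_mod_cast hinj
  linarith

end Pool.Agent.UIV
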