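import Pool.Agent.UIV.Enr

/-! UIV/Trn.  Truncation.  `l S = ∑_{i∈S} l i`, `θ i = s l i ≤ 1/2`, `F = ∑_{l S ≤ X} Cm S (Nz θ f)`.

Everything follows from the values `∏_S (1 - θ i) Cm S f` of the components of `Nz θ f`. -/

namespace Pool.Agent.UIV

open Finset

variable {ι : Type} [Fintype ι] [DecidableEq ι] {α : ι → Type} [∀ i, Fintype (α i)]
  [∀ i, DecidableEq (α i)]

open Classical in
/-- truncation at the level `X` -/
noncomputable def Trc (w : ∀ i, α i → ℝ) (l : ι → ℝ) (X : ℝ) (f : (∀ i, α i) → ℝ)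
    (x : ∀ i, α i) : ℝ :=
  ∑ S ∈ (univ : Finset (Finset ι)).filter (fun S => ∑ i ∈ S, l i ≤ X), Cm w S f x

theorem Cm_Nz {w : ∀ i, α i → ℝ} (hw : Pw w) (θ : ι → ℝ) (S : Finset ι) (f : (∀ i, α i) → ℝ)
    (x : ∀ i, α i) : Cm w S (Nz w θ f) x = (∏ i ∈ S, (1 - θ i)) * Cm w S f x := by
  have h1 : Nz w θ f = fun y => ∑ S' ∈ (univ : Finset (Finset ι)),
      (fun (S' : Finset ι) (y : ∀ i, α i) => (∏ i ∈ S', (1 - θ i)) * Cm w S' f y) S' y :=
    funext fun y => Nz_eq θ f y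
  rw [h1, Cm_sum]
  have h2 : ∀ S' ∈ (univ : Finset (Finset ι)),
      Cm w S (fun y => (∏ i ∈ S', (1 - θ i)) * Cm w S' f y) x =
        if S = S' then (∏ i ∈ S, (1 - θ i)) * Cm w S f x else 0 := by
    intro S' _
    rw [Cm_smul, Cm_Cm hw]
    by_cases h3 : S = S'
    · rw [if_pos h3, if_pos h3, h3]
    · rw [if_neg h3, if_neg h3, mul_zero]
  rw [Finset.sum_congr rfl h2, Finset.sum_ite_eq, if_pos (Finset.mem_univ S)]

open Classical in
private theorem trn_Trc {w : ∀ i, α i → ℝ} (hw : Pw w) (l : ι → ℝ) (X : ℝ) (S : Finset ι)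
    (f : (∀ i, α i) → ℝ) (x : ∀ i, α i) :
    Cm w S (Trc w l X f) x = if ∑ i ∈ S, l i ≤ X then Cm w S f x else 0 := by
  have h1 : Trc w l X f = fun y => ∑ S' ∈ (univ : Finset (Finset ι)).filter
      (fun S => ∑ i ∈ S, l i ≤ X),
      (fun (S' : Finset ι) (y : ∀ i, α i) => Cm w S' f y) S' y := rfl
  rw [h1, Cm_sum]
  have h2 : ∀ S' ∈ (univ : Finset (Finset ι)).filter (fun S => ∑ i ∈ S, l i ≤ X),
      Cm w S (fun y => Cm w S' f y) x = if S = S' then Cm w S f x else 0 := by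
    intro S' _
    exact Cm_Cm hw S S' f x
  rw [Finset.sum_congr rfl h2, Finset.sum_ite_eq]
  by_cases h3 : ∑ i ∈ S, l i ≤ X
  · rw [if_pos h3, if_pos (Finset.mem_filter.2 ⟨Finset.mem_univ S, h3⟩)]
  · have h4 : S ∉ (univ : Finset (Finset ι)).filter (fun S => ∑ i ∈ S, l i ≤ X) :=
      fun h => h3 (Finset.mem_filter.1 h).2
    rw [if_neg h3, if_neg h4]

theorem Cm_Trc {w : ∀ i, α i → ℝ} (hw : Pw w) (l : ι → ℝ) (X : ℝ) (S : Finset ι)
    (hS : X < ∑ i ∈ S, l i) (f : (∀ i, α i) → ℝ) (x : ∀ i, α i) :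
    Cm w S (Trc w l X f) x = 0 := by
  rw [trn_Trc hw, if_neg (not_le.2 hS)]

private theorem trn_sq {w : ∀ i, α i → ℝ} (hw : Pw w) (f : (∀ i, α i) → ℝ) :
    Ev w (fun x => f x ^ 2) = ∑ S : Finset ι, Ev w (fun x => Cm w S f x ^ 2) := by
  have h1 : Ev w (fun x => f x ^ 2) = Ev w (fun x => f x * f x) := Ev_congr fun x => by ring
  rw [h1, Ev_mul hw]
  refine Finset.sum_congr rfl fun S _ => Ev_congr fun x => by ring

private theorem trn_exp {t : ℝ} (h0 : 0 ≤ t) (h1 : t ≤ 1 / 2) : Real.exp (-(2 * t)) ≤ 1 - t := by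
  have h2 : 1 + 2 * t ≤ Real.exp (2 * t) := by
    have := Real.add_one_le_exp (2 * t)
    linarith
  rw [Real.exp_neg, inv_le_comm₀ (Real.exp_pos _) (by linarith)]
  refine le_trans ?_ h2
  rw [inv_eq_one_div, div_le_iff₀ (by linarith)]
  nlinarith

omit [Fintype ι] [DecidableEq ι] in
private theorem trn_low {l θ : ι → ℝ} {s : ℝ} (hl : ∀ i, 0 ≤ l i) (hs : 0 ≤ s)
    (hθ : ∀ i, θ i = s * l i) (hθ1 : ∀ i, θ i ≤ 1 / 2) (S : Finset ι) :
    Real.exp (-(2 * s * ∑ i ∈ S, l i)) ≤ ∏ i ∈ S, (1 - θ i) := by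
  have h1 : Real.exp (-(2 * s * ∑ i ∈ S, l i)) = ∏ i ∈ S, Real.exp (-(2 * θ i)) := by
    rw [← Real.exp_sum]
    congr 1
    rw [Finset.mul_sum, ← Finset.sum_neg_distrib]
    refine Finset.sum_congr rfl fun i _ => ?_
    rw [hθ i]
    ring
  rw [h1]
  refine Finset.prod_le_prod (fun i _ => (Real.exp_pos _).le) fun i _ => ?_
  refine trn_exp ?_ (hθ1 i)
  rw [hθ i]
  exact mul_nonneg hs (hl i)

omit [Fintype ι] [DecidableEq ι] in
private theorem trn_up {l θ : ι → ℝ} {s : ℝ}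
    (hθ : ∀ i, θ i = s * l i) (hθ1 : ∀ i, θ i ≤ 1 / 2) (S : Finset ι) :
    ∏ i ∈ S, (1 - θ i) ≤ Real.exp (-(s * ∑ i ∈ S, l i)) := by
  have h1 : Real.exp (-(s * ∑ i ∈ S, l i)) = ∏ i ∈ S, Real.exp (-(θ i)) := by
    rw [← Real.exp_sum]
    congr 1
    rw [Finset.mul_sum, ← Finset.sum_neg_distrib]
    refine Finset.sum_congr rfl fun i _ => ?_
    rw [hθ i]
  rw [h1]
  refine Finset.prod_le_prod (fun i _ => ?_) fun i _ => ?_
  · have := hθ1 i
    linarith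
  · have := Real.add_one_le_exp (-(θ i))
    linarith

private theorem trn_coef {w : ∀ i, α i → ℝ} (hw : Pw w) (θ : ι → ℝ) (S : Finset ι)
    (f : (∀ i, α i) → ℝ) :
    Ev w (fun x => Cm w S (Nz w θ f) x ^ 2) =
      (∏ i ∈ S, (1 - θ i)) ^ 2 * Ev w (fun x => Cm w S f x ^ 2) := by
  rw [← Ev_smul]
  refine Ev_congr fun x => ?_
  rw [Cm_Nz hw]
  ring

theorem trunc_lower {w : ∀ i, α i → ℝ} (hw : Pw w) {l θ : ι → ℝ} {s μ X : ℝ}
    (hl : ∀ i, 0 ≤ l i) (hs : 0 ≤ s) (hθ : ∀ i, θ i = s * l i) (hθ1 : ∀ i, θ i ≤ 1 / 2)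
    (hμ : 0 < μ) (hX : 2 * μ ≤ X) (f : (∀ i, α i) → ℝ)
    (hE : En w l f ≤ μ * Ev w (fun x => f x ^ 2)) :
    Real.exp (-(8 * s * μ)) / 2 * Ev w (fun x => f x ^ 2) ≤
      Ev w (fun x => Trc w l X (Nz w θ f) x ^ 2) := by
  classical
  rw [trn_sq hw (Trc w l X (Nz w θ f))]
  have hterm : ∀ S ∈ (univ : Finset (Finset ι)),
      Real.exp (-(8 * s * μ)) * (Ev w (fun x => Cm w S f x ^ 2) -
        1 / (2 * μ) * ((∑ i ∈ S, l i) * Ev w (fun x => Cm w S f x ^ 2))) ≤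
      Ev w (fun x => Cm w S (Trc w l X (Nz w θ f)) x ^ 2) := by
    intro S _
    have he : 0 ≤ Ev w (fun x => Cm w S f x ^ 2) := Ev_nonneg hw fun x => sq_nonneg _
    have hlS : 0 ≤ ∑ i ∈ S, l i := Finset.sum_nonneg fun i _ => hl i
    have hr : 0 ≤ Ev w (fun x => Cm w S (Trc w l X (Nz w θ f)) x ^ 2) :=
      Ev_nonneg hw fun x => sq_nonneg _
    rcases le_or_gt (∑ i ∈ S, l i) (2 * μ) with h | h
    · have h1 : Ev w (fun x => Cm w S (Trc w l X (Nz w θ f)) x ^ 2) =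
          (∏ i ∈ S, (1 - θ i)) ^ 2 * Ev w (fun x => Cm w S f x ^ 2) := by
        rw [← trn_coef hw]
        refine Ev_congr fun x => ?_
        rw [trn_Trc hw, if_pos (h.trans hX)]
      rw [h1]
      have h2 : Real.exp (-(8 * s * μ)) ≤ (∏ i ∈ S, (1 - θ i)) ^ 2 := by
        have h3 := trn_low hl hs hθ hθ1 S
        have h4 : Real.exp (-(8 * s * μ)) ≤ Real.exp (-(2 * s * ∑ i ∈ S, l i)) ^ 2 := by
          rw [← Real.exp_nat_mul]
          apply Real.exp_le_exp.2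
          push_cast
          have h5 : s * (∑ i ∈ S, l i) ≤ s * (2 * μ) := mul_le_mul_of_nonneg_left h hs
          nlinarith
        exact h4.trans (pow_le_pow_left₀ (Real.exp_pos _).le h3 2)
      have h6 : Ev w (fun x => Cm w S f x ^ 2) -
          1 / (2 * μ) * ((∑ i ∈ S, l i) * Ev w (fun x => Cm w S f x ^ 2)) ≤
          Ev w (fun x => Cm w S f x ^ 2) := by
        have h7 : 0 ≤ 1 / (2 * μ) * ((∑ i ∈ S, l i) * Ev w (fun x => Cm w S f x ^ 2)) := by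
          positivity
        linarith
      exact (mul_le_mul_of_nonneg_left h6 (Real.exp_pos _).le).trans
        (mul_le_mul_of_nonneg_right h2 he)
    · refine le_trans ?_ hr
      apply mul_nonpos_of_nonneg_of_nonpos (Real.exp_pos _).le
      have h8 : 1 ≤ 1 / (2 * μ) * ∑ i ∈ S, l i := by
        rw [one_div, inv_mul_eq_div, le_div_iff₀ (by linarith)]
        linarith
      have h9 : Ev w (fun x => Cm w S f x ^ 2) ≤
          (1 / (2 * μ) * ∑ i ∈ S, l i) * Ev w (fun x => Cm w S f x ^ 2) :=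
        le_mul_of_one_le_left he h8
      linarith
  refine le_trans ?_ (Finset.sum_le_sum hterm)
  rw [← Finset.mul_sum, Finset.sum_sub_distrib, ← Finset.mul_sum, ← trn_sq hw f, ← En_eq hw l f]
  have h10 : 1 / (2 * μ) * En w l f ≤ Ev w (fun x => f x ^ 2) / 2 := by
    have h11 : 1 / (2 * μ) * En w l f ≤ 1 / (2 * μ) * (μ * Ev w (fun x => f x ^ 2)) :=
      mul_le_mul_of_nonneg_left hE (by positivity)
    have h12 : 1 / (2 * μ) * (μ * Ev w (fun x => f x ^ 2)) = Ev w (fun x => f x ^ 2) / 2 := by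
      field_simp
    linarith
  have h13 := Real.exp_pos (-(8 * s * μ))
  have h14 : Real.exp (-(8 * s * μ)) * (Ev w (fun x => f x ^ 2) / 2) ≤
      Real.exp (-(8 * s * μ)) * (Ev w (fun x => f x ^ 2) - 1 / (2 * μ) * En w l f) :=
    mul_le_mul_of_nonneg_left (by linarith) h13.le
  refine le_trans (le_of_eq ?_) h14
  ring

theorem trunc_tail {w : ∀ i, α i → ℝ} (hw : Pw w) {l θ : ι → ℝ} {s X : ℝ}
    (hl : ∀ i, 0 ≤ l i) (hs : 0 ≤ s) (hθ : ∀ i, θ i = s * l i) (hθ1 : ∀ i, θ i ≤ 1 / 2)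
    (f : (∀ i, α i) → ℝ) :
    Ev w (fun x => (Nz w θ f x - Trc w l X (Nz w θ f) x) ^ 2) ≤
      Real.exp (-(2 * s * X)) * Ev w (fun x => f x ^ 2) := by
  classical
  have h0 := trn_sq hw (fun x => Nz w θ f x - Trc w l X (Nz w θ f) x)
  rw [h0, trn_sq hw f, Finset.mul_sum]
  apply Finset.sum_le_sum
  intro S _
  have he : 0 ≤ Ev w (fun x => Cm w S f x ^ 2) := Ev_nonneg hw fun x => sq_nonneg _
  have hsub : ∀ x, Cm w S (fun y => Nz w θ f y - Trc w l X (Nz w θ f) y) x =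
      Cm w S (Nz w θ f) x - Cm w S (Trc w l X (Nz w θ f)) x := by
    intro x
    have h1 : (fun y => Nz w θ f y - Trc w l X (Nz w θ f) y) =
        fun y => Nz w θ f y + (fun z => (-1 : ℝ) * Trc w l X (Nz w θ f) z) y := by
      funext y
      ring
    rw [h1, Cm_add, Cm_smul]
    ring
  rcases le_or_gt (∑ i ∈ S, l i) X with h | h
  · have h1 : Ev w (fun x => Cm w S (fun y => Nz w θ f y - Trc w l X (Nz w θ f) y) x ^ 2) = 0 := by
      rw [← Ev_const hw (0 : ℝ)]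
      refine Ev_congr fun x => ?_
      rw [hsub, trn_Trc hw, if_pos h]
      ring
    rw [h1]
    exact mul_nonneg (Real.exp_pos _).le he
  · have h1 : Ev w (fun x => Cm w S (fun y => Nz w θ f y - Trc w l X (Nz w θ f) y) x ^ 2) =
        (∏ i ∈ S, (1 - θ i)) ^ 2 * Ev w (fun x => Cm w S f x ^ 2) := by
      rw [← trn_coef hw]
      refine Ev_congr fun x => ?_
      rw [hsub, Cm_Trc hw l X S h, sub_zero]
    rw [h1]
    refine mul_le_mul_of_nonneg_right ?_ he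
    have h2 : 0 ≤ ∏ i ∈ S, (1 - θ i) := Finset.prod_nonneg fun i _ => by
      have := hθ1 i
      linarith
    have h3 : ∏ i ∈ S, (1 - θ i) ≤ Real.exp (-(s * X)) := by
      refine (trn_up hθ hθ1 S).trans (Real.exp_le_exp.2 ?_)
      have := mul_le_mul_of_nonneg_left h.le hs
      linarith
    refine (pow_le_pow_left₀ h2 h3 2).trans (le_of_eq ?_)
    rw [← Real.exp_nat_mul]
    congr 1
    push_cast
    ring

end Pool.Agent.UIV
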