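import Pool.Agent.UIV.Ind
import Pool.Agent.UIV.Trn
import Pool.Agent.UIV.Pat
import Pool.Agent.UIV.One

/-! UIV/Sieve.  The abstract sieve.

`l i = log (p i)`, `w = wZ p`, `a j = rs p (b j)`, `R i = univ.image (fun j => a j i)`, `z i ∉ R i` (exists as
`card (R i) ≤ K < p i = card (ZMod (p i))`), `f = fp ψ a univ`, `θ i = s l i ≤ s t1 ≤ 1/2`, `X = log D`,
`F = Trc w l X (Nz w θ f)`, `E = Ev f^2`.
* `energy_bound` (`s = univ`): `E > 0`, `En f ≤ Ep f ≤ μ E` (`En_le_Ep`, `fp_ins`).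
* `F` has level `D`: `D < PP p S ↔ X < ∑_{i∈S} l i` (`Real.log_prod`), `Cm_Trc`.
* `Ev F^2 ≥ exp(-8 s μ)/2 E` (`trunc_lower`); `int_sq` with `T = ∅`: `∑_{t<N} F(n_t)^2 ≥ (N - 2 D^4) Ev F^2 ≥
  (N/2) Ev F^2` (`hN0`), so `≥ N exp(-8 s μ)/4 E`.
* `f x = 0` if `Hc (a j) x < ρ j` (`cnt (hit (a j) x) = Hc (a j) x`), so `leak` (`τ = s t1`,
  `∑ θ i w i (a i) = ∑ s l i/p i ≤ s Λ`) and `trunc_tail` give, with `F^2 ≤ 2 (Nz f)^2 + 2 (Nz f - F)^2`,
  `Ev (1[Hc < ρ j] F^2) ≤ (2 r s^2 t1 Λ + 2 exp (-2 s X)) E`.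
* `pat_sum` (`(1 + 2 D^4) PP T ≤ 4 D^4 PP T ≤ N`).
If for every `t < N` some `j` has `Hc (a j) (rs p (n0 + M t)) < ρ j` then
`∑_t F^2 ≤ ∑_j ∑_t 1[..] F^2 ≤ K (2N/V) (2 r s^2 t1 Λ + 2 exp(-2 s X)) E < N exp(-8 s μ)/4 E`: contradiction.
(`rs p (n0 + M t) i = rs p (b j) i ↔ (p i : ℤ) ∣ n0 + M t - b j`.) -/

namespace Pool.Agent.UIV

open Finset Pool.Agent.RS

private theorem sv_cnt {ι : Type} [Fintype ι] [DecidableEq ι] {α : ι → Type} [∀ i, DecidableEq (α i)]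
    (a x : ∀ i, α i) : cnt (hit a x) = Hc a x := by
  unfold cnt Hc
  congr 1
  ext i
  simp only [Finset.mem_filter, Finset.mem_univ, true_and, hit, decide_eq_true_eq]

private theorem sv_dvd {ι : Type} [Fintype ι] [DecidableEq ι] (p : ι → ℕ) (n b : ℤ) :
    Hc (rs p b) (rs p n) = (univ.filter (fun i => (p i : ℤ) ∣ n - b)).card := by
  unfold Hc
  congr 1
  ext i
  simp only [Finset.mem_filter, Finset.mem_univ, true_and]
  unfold rs
  rw [ZMod.intCast_eq_intCast_iff_dvd_sub, dvd_sub_comm]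

theorem sieve_u {ι κ : Type} [Fintype ι] [DecidableEq ι] [Fintype κ] [DecidableEq κ]
    {p : ι → ℕ} (hp : ∀ i, (p i).Prime) (hinj : Function.Injective p) {M : ℕ}
    (hM : ∀ i, Nat.Coprime M (p i)) (n0 : ℤ) (b : κ → ℤ) (ρ : κ → ℕ) {r : ℕ}
    (hρ : ∀ j, ρ j ≤ r) {Z0 t0 δ K B P1 μ : ℝ} (hZ0 : 1 ≤ Z0) (hpZ : ∀ i, Z0 ≤ p i)
    (ht0 : 0 < t0) (hl : ∀ i, t0 ≤ Real.log (p i)) (hδ0 : 0 ≤ δ)
    (hδ : ∀ i, Real.log (p i) / p i ≤ δ) (hK : 2 * K ≤ Z0) (hκ : (Fintype.card κ : ℝ) ≤ K)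
    (hB1 : 1 ≤ B) {c : κ → ℝ} (hc0 : ∀ j, 0 ≤ c j) {ψ : κ → (ι → Bool) → ℝ}
    (hψ : ∀ j, Obd (fun i => (p i : ℝ)) (ρ j) (c j) B (ψ j)) (hμ : μ = 2 * ∑ j, c j + 1)
    (hP1 : ∑ i, 1 / (p i : ℝ) ≤ P1) (h1 : B ^ 2 * (2 * μ / t0 + 4 * K * P1) ≤ Z0 / 6)
    (h2 : K * (B ^ 2 * δ * (2 * μ / t0 + 4 * K * P1)) ≤ 1 / 2)
    {D s t1 V Λ : ℝ} (hD : 1 ≤ D) (hs : 0 ≤ s) (ht1 : ∀ i, Real.log (p i) ≤ t1)
    (ht1' : 0 ≤ t1) (hst : s * t1 ≤ 1 / 2) (hΛ : ∑ i, Real.log (p i) / p i ≤ Λ)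
    (hμD : 2 * μ ≤ Real.log D) (hV0 : 0 < V) (hV : V ≤ ∏ i, (1 - 1 / (p i : ℝ))) {N : ℕ}
    (hN0 : 4 * D ^ 4 ≤ N) (hN : ∀ T : Finset ι, T.card < r → 4 * D ^ 4 * PP p T ≤ N)
    (hfin : K * (2 / V) * (2 * (r * s ^ 2 * t1 * Λ) + 2 * Real.exp (-(2 * s * Real.log D))) <
      Real.exp (-(8 * s * μ)) / 4) :
    ∃ t < N, ∀ j, ρ j ≤ (univ.filter (fun i => (p i : ℤ) ∣ n0 + M * (t : ℕ) - b j)).card := by
  have hne : ∀ i, NeZero (p i) := fun i => ⟨(hp i).ne_zero⟩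
  have hpos : ∀ i, (0 : ℝ) < p i := fun i => by exact_mod_cast (hp i).pos
  have hl0 : ∀ i, 0 ≤ Real.log (p i) := fun i => le_trans ht0.le (hl i)
  have hw := Pw_wZ p
  -- the residues
  obtain ⟨a, ha⟩ : ∃ a : κ → ∀ i, ZMod (p i), a = fun j => rs p (b j) := ⟨_, rfl⟩
  obtain ⟨R, hRdef⟩ : ∃ R : ∀ i, Finset (ZMod (p i)), R = fun i => univ.image (fun j => a j i) := ⟨_, rfl⟩
  have hRc : ∀ i, ((R i).card : ℝ) ≤ K := by
    intro i
    refine le_trans ?_ hκ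
    rw [hRdef]
    exact_mod_cast Finset.card_image_le
  have haR : ∀ j i, a j i ∈ R i := by
    intro j i
    rw [hRdef]
    exact Finset.mem_image_of_mem _ (Finset.mem_univ j)
  have hzex : ∀ i, ∃ z : ZMod (p i), z ∉ R i := by
    intro i
    by_contra hcon
    push Not at hcon
    have h3 : R i = univ := Finset.eq_univ_iff_forall.2 hcon
    have h4 : ((R i).card : ℝ) = p i := by
      rw [h3, Finset.card_univ, ZMod.card]
    have h5 := hRc i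
    have h6 := hpZ i
    have h7 := hpos i
    rw [h4] at h5
    linarith
  choose z hz using hzex
  have hK0 : 0 ≤ K := le_trans (Nat.cast_nonneg _) hκ
  have hμ1 : 1 ≤ μ := by
    rw [hμ]
    have : 0 ≤ ∑ j, c j := Finset.sum_nonneg fun j _ => hc0 j
    linarith
  obtain ⟨f, hf⟩ : ∃ f : (∀ i, ZMod (p i)) → ℝ, f = fp ψ a univ := ⟨_, rfl⟩
  obtain ⟨E, hE⟩ : ∃ E, E = Ev (wZ p) (fun x => f x ^ 2) := ⟨_, rfl⟩
  have heb := energy_bound hw (p := fun i => (p i : ℝ)) (fun i _ => rfl) hZ0 hpZ (l := fun i => Real.log (p i)) ht0 hl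
    hδ0 hδ haR hz hRc hK hκ hB1 (fun j => (hψ j).mono) (fun j => (hψ j).nn) (fun j => (hψ j).le)
    (fun j => (hψ j).ev) hc0 (fun j => (hψ j).nl) hμ hP1 h1 h2 univ
  rw [← hf, ← hE] at heb
  have hE0 := heb.1
  have hEn : En (wZ p) (fun i => Real.log (p i)) f ≤ μ * E := by
    refine le_trans (En_le_Ep hw (p := fun i => (p i : ℝ)) (fun i _ => rfl) hl0 (R := R) (z := z) ?_) heb.2
    rw [hf]
    exact fp_ins haR hz univ
  -- the noise
  obtain ⟨θ, hθ⟩ : ∃ θ : ι → ℝ, θ = fun i => s * Real.log (p i) := ⟨_, rfl⟩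
  have hθ' : ∀ i, θ i = s * Real.log (p i) := fun i => by rw [hθ]
  have hθ0 : ∀ i, 0 ≤ θ i := fun i => by
    rw [hθ']
    exact mul_nonneg hs (hl0 i)
  have hθτ : ∀ i, θ i ≤ s * t1 := fun i => by
    rw [hθ']
    exact mul_le_mul_of_nonneg_left (ht1 i) hs
  have hθ1 : ∀ i, θ i ≤ 1 / 2 := fun i => le_trans (hθτ i) hst
  obtain ⟨X, hX⟩ : ∃ X, X = Real.log D := ⟨_, rfl⟩
  obtain ⟨F, hF⟩ : ∃ F : (∀ i, ZMod (p i)) → ℝ, F = Trc (wZ p) (fun i => Real.log (p i)) X (Nz (wZ p) θ f) := ⟨_, rfl⟩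
  have hlow : Real.exp (-(8 * s * μ)) / 2 * E ≤ Ev (wZ p) (fun x => F x ^ 2) := by
    rw [hE, hF]
    refine trunc_lower hw (l := fun i => Real.log (p i)) hl0 hs hθ' hθ1 (by linarith) (by rw [hX]; exact hμD) f ?_
    rw [← hE]
    exact hEn
  have hlev : ∀ S : Finset ι, D < PP p S → ∀ x, Cm (wZ p) S F x = 0 := by
    intro S hS x
    rw [hF]
    refine Cm_Trc hw _ X S ?_ _ x
    rw [hX]
    have h3 : ∑ i ∈ S, Real.log (p i) = Real.log (PP p S) := by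
      unfold PP
      rw [Real.log_prod]
      intro i _
      exact (hpos i).ne'
    rw [h3]
    exact Real.log_lt_log (by linarith) hS
  have hD4 : 1 ≤ D ^ 4 := one_le_pow₀ hD
  have hEF : 0 ≤ Ev (wZ p) (fun x => F x ^ 2) := Ev_nonneg hw fun x => sq_nonneg _
  have hint := int_sq hp hinj (M := M) (T := ∅) (fun i _ => hM i) n0 hD (G := F) (by
    intro x y hxy
    have : x = y := funext fun i => hxy i (by simp)
    rw [this]) hlev N
  have hN1 : (0 : ℝ) < N := by linarith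
  have hsum : (N : ℝ) * (Real.exp (-(8 * s * μ)) / 4) * E ≤ ∑ t ∈ range N, F (rs p (n0 + M * (t : ℕ))) ^ 2 := by
    have h3 := (abs_le.1 hint).1
    have h4 : (N : ℝ) / 2 * Ev (wZ p) (fun x => F x ^ 2) ≤ (N - 2 * D ^ 4) * Ev (wZ p) (fun x => F x ^ 2) :=
      mul_le_mul_of_nonneg_right (by linarith) hEF
    have h5 : (N : ℝ) / 2 * (Real.exp (-(8 * s * μ)) / 2 * E) ≤ (N : ℝ) / 2 * Ev (wZ p) (fun x => F x ^ 2) :=
      mul_le_mul_of_nonneg_left hlow (by linarith)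
    nlinarith
  -- the leak
  have hΛ0 : 0 ≤ Λ := le_trans (Finset.sum_nonneg fun i _ => div_nonneg (hl0 i) (hpos i).le) hΛ
  have hr0 : (0 : ℝ) ≤ r := Nat.cast_nonneg r
  obtain ⟨η, hη⟩ : ∃ η, η = 2 * (r * s ^ 2 * t1 * Λ) + 2 * Real.exp (-(2 * s * Real.log D)) := ⟨_, rfl⟩
  have hη0 : 0 ≤ η := by
    rw [hη]
    have := Real.exp_pos (-(2 * s * Real.log D))
    positivity
  have hleak : ∀ j, Ev (wZ p) (fun x => if Hc (a j) x < ρ j then F x ^ 2 else 0) ≤ η * E := by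
    intro j
    have hfz : ∀ x, Hc (a j) x < ρ j → f x = 0 := by
      intro x hx
      rw [hf]
      unfold fp
      refine Finset.prod_eq_zero (Finset.mem_univ j) ?_
      apply (hψ j).zero
      rw [sv_cnt]
      exact hx
    have h3 := leak hw hθ0 (fun i => by linarith [hθ1 i]) hθτ (a j) (ρ j) hfz
    have h4 := trunc_tail hw (l := fun i => Real.log (p i)) (X := X) hl0 hs hθ' hθ1 f
    rw [← hE] at h3 h4
    rw [← hF] at h4
    have h5 : ∑ i, θ i * wZ p i (a j i) ≤ s * Λ := by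
      have h6 : ∑ i, θ i * wZ p i (a j i) = s * ∑ i, Real.log (p i) / p i := by
        rw [Finset.mul_sum]
        refine Finset.sum_congr rfl fun i _ => ?_
        rw [hθ']
        unfold wZ
        ring
      rw [h6]
      exact mul_le_mul_of_nonneg_left hΛ hs
    have h5' : 0 ≤ ∑ i, θ i * wZ p i (a j i) := Finset.sum_nonneg fun i _ => mul_nonneg (hθ0 i) (hw.nn i _)
    have h6 : (∑ i, θ i * wZ p i (a j i)) * (ρ j * (s * t1)) * E ≤ r * s ^ 2 * t1 * Λ * E := by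
      refine mul_le_mul_of_nonneg_right ?_ hE0.le
      have h7 : ((ρ j : ℕ) : ℝ) ≤ r := by exact_mod_cast hρ j
      have h8 : (ρ j : ℝ) * (s * t1) ≤ r * (s * t1) := mul_le_mul_of_nonneg_right h7 (mul_nonneg hs ht1')
      have h9 : (∑ i, θ i * wZ p i (a j i)) * (ρ j * (s * t1)) ≤ s * Λ * (r * (s * t1)) :=
        mul_le_mul h5 h8 (by positivity) (by positivity)
      linarith
    have h7 : Ev (wZ p) (fun x => if Hc (a j) x < ρ j then F x ^ 2 else 0) ≤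
        Ev (wZ p) (fun x => 2 * (if Hc (a j) x < ρ j then Nz (wZ p) θ f x ^ 2 else 0) +
          2 * (Nz (wZ p) θ f x - F x) ^ 2) := by
      refine Ev_mono hw fun x => ?_
      split_ifs
      · nlinarith [sq_nonneg (2 * Nz (wZ p) θ f x - F x)]
      · nlinarith [sq_nonneg (Nz (wZ p) θ f x - F x)]
    rw [Ev_add, Ev_smul, Ev_smul] at h7
    rw [hη, ← hX]
    have h8 : 2 * (r * s ^ 2 * t1 * Λ) * E = 2 * (r * s ^ 2 * t1 * Λ * E) := by ring
    nlinarith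
  -- the patterns
  have hpat : ∀ j, ∑ t ∈ range N, (if Hc (rs p (b j)) (rs p (n0 + M * (t : ℕ))) < ρ j then
      F (rs p (n0 + M * (t : ℕ))) ^ 2 else 0) ≤ 2 * N / V * (η * E) := by
    intro j
    have h3 := pat_sum hp hinj hM n0 (b j) hV0 hV hD hlev (ρ j) (N := N) (by
      intro T hT
      have h4 := hN T (lt_of_lt_of_le hT (hρ j))
      have h5 : 0 ≤ PP p T := by
        unfold PP
        exact Finset.prod_nonneg fun i _ => (hpos i).le
      have h6 : (1 + 2 * D ^ 4) * PP p T ≤ 4 * D ^ 4 * PP p T := mul_le_mul_of_nonneg_right (by linarith) h5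
      linarith)
    refine le_trans h3 (mul_le_mul_of_nonneg_left ?_ (by positivity))
    have h4 := hleak j
    rw [ha] at h4
    exact h4
  by_contra hcon
  push Not at hcon
  have hle : ∑ t ∈ range N, F (rs p (n0 + M * (t : ℕ))) ^ 2 ≤
      ∑ j, ∑ t ∈ range N, (if Hc (rs p (b j)) (rs p (n0 + M * (t : ℕ))) < ρ j then
        F (rs p (n0 + M * (t : ℕ))) ^ 2 else 0) := by
    rw [Finset.sum_comm]
    refine Finset.sum_le_sum fun t ht => ?_
    obtain ⟨j, hj⟩ := hcon t (Finset.mem_range.1 ht)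
    have h3 : (if Hc (rs p (b j)) (rs p (n0 + M * (t : ℕ))) < ρ j then
        F (rs p (n0 + M * (t : ℕ))) ^ 2 else 0) = F (rs p (n0 + M * (t : ℕ))) ^ 2 := by
      rw [if_pos]
      rw [sv_dvd]
      exact hj
    refine le_trans (le_of_eq h3.symm) ?_
    refine Finset.single_le_sum (f := fun j => if Hc (rs p (b j)) (rs p (n0 + M * (t : ℕ))) < ρ j then
        F (rs p (n0 + M * (t : ℕ))) ^ 2 else 0) (fun i _ => ?_) (Finset.mem_univ j)
    split_ifs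
    · exact sq_nonneg _
    · exact le_refl _
  have hle2 : ∑ j, ∑ t ∈ range N, (if Hc (rs p (b j)) (rs p (n0 + M * (t : ℕ))) < ρ j then
        F (rs p (n0 + M * (t : ℕ))) ^ 2 else 0) ≤ K * (2 * N / V * (η * E)) := by
    refine le_trans (Finset.sum_le_sum fun j _ => hpat j) ?_
    rw [Finset.sum_const, nsmul_eq_mul, Finset.card_univ]
    exact mul_le_mul_of_nonneg_right hκ (by positivity)
  have hfin' : (N : ℝ) * E * (K * (2 / V) * η) < N * E * (Real.exp (-(8 * s * μ)) / 4) := by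
    rw [hη]
    exact mul_lt_mul_of_pos_left hfin (mul_pos hN1 hE0)
  have e1 : K * (2 * N / V * (η * E)) = (N : ℝ) * E * (K * (2 / V) * η) := by ring
  have e2 : (N : ℝ) * (Real.exp (-(8 * s * μ)) / 4) * E = N * E * (Real.exp (-(8 * s * μ)) / 4) := by ring
  rw [e1] at hle2
  rw [e2] at hsum
  linarith

end Pool.Agent.UIV
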