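import Pool.Agent.UIV.EvB

/-! UIV/Sup.  Functions of the coordinates in `S`. -/

namespace Pool.Agent.UIV

open Finset

variable {ι : Type} [Fintype ι] [DecidableEq ι] {α : ι → Type} [∀ i, Fintype (α i)]
  [∀ i, DecidableEq (α i)]

theorem Ev_dep {w : ∀ i, α i → ℝ} (hw : Pw w) {S : Finset ι} {g : (∀ i, α i) → ℝ}
    (hg : Dep S g) (e : ∀ i, α i) :
    Ev w g = ∑ y ∈ Fintype.piFinset (fun i => if i ∈ S then (univ : Finset (α i)) else {e i}),
      (∏ i ∈ S, w i (y i)) * g y := by
  set pr : (∀ i, α i) → (∀ i, α i) := fun x i => if i ∈ S then x i else e i with hpr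
  set P : Finset (∀ i, α i) :=
    Fintype.piFinset (fun i => if i ∈ S then (univ : Finset (α i)) else {e i}) with hP
  have hmap : ∀ x ∈ (univ : Finset (∀ i, α i)), pr x ∈ P := by
    intro x _
    rw [hP, Fintype.mem_piFinset]
    intro i
    by_cases hi : i ∈ S
    · rw [if_pos hi]
      exact mem_univ _
    · rw [if_neg hi, mem_singleton]
      exact if_neg hi
  have hgp : ∀ x, g x = g (pr x) := fun x => hg _ _ fun i hi => (if_pos hi).symm
  unfold Ev
  rw [← Finset.sum_fiberwise_of_maps_to hmap]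
  refine Finset.sum_congr rfl fun y hy => ?_
  have hfib : (univ.filter fun x => pr x = y) =
      Fintype.piFinset (fun i => if i ∈ S then ({y i} : Finset (α i)) else univ) := by
    rw [hP, Fintype.mem_piFinset] at hy
    ext x
    rw [mem_filter, Fintype.mem_piFinset]
    constructor
    · rintro ⟨_, hx⟩ i
      by_cases hi : i ∈ S
      · rw [if_pos hi, mem_singleton, ← hx]
        exact (if_pos hi).symm
      · rw [if_neg hi]
        exact mem_univ _
    · intro hx
      refine ⟨mem_univ _, ?_⟩
      funext i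
      have h1 := hx i
      have h2 := hy i
      by_cases hi : i ∈ S
      · rw [if_pos hi, mem_singleton] at h1
        exact (if_pos hi).trans h1
      · rw [if_neg hi, mem_singleton] at h2
        exact (if_neg hi).trans h2.symm
  have h1 : ∑ x ∈ univ.filter (fun x => pr x = y), (∏ i, w i (x i)) * g x =
      (∑ x ∈ univ.filter (fun x => pr x = y), ∏ i, w i (x i)) * g y := by
    rw [Finset.sum_mul]
    refine Finset.sum_congr rfl fun x hx => ?_
    rw [hgp x, (mem_filter.1 hx).2]
  rw [h1, hfib, ← Finset.prod_univ_sum]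
  congr 1
  have h2 : ∀ i, (∑ a ∈ (if i ∈ S then ({y i} : Finset (α i)) else univ), w i a) =
      if i ∈ S then w i (y i) else 1 := by
    intro i
    by_cases hi : i ∈ S
    · rw [if_pos hi, if_pos hi, sum_singleton]
    · rw [if_neg hi, if_neg hi]
      exact hw.one i
  rw [Finset.prod_congr rfl fun i _ => h2 i, Finset.prod_ite_mem, univ_inter]

theorem sup_dep {w : ∀ i, α i → ℝ} (hw : Pw w) {S : Finset ι} {g : (∀ i, α i) → ℝ}
    (hg : Dep S g) (x : ∀ i, α i) :
    (∏ i ∈ S, w i (x i)) * g x ^ 2 ≤ Ev w (fun y => g y ^ 2) := by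
  have hg2 : Dep S (fun y => g y ^ 2) := fun a b hab => by
    show g a ^ 2 = g b ^ 2
    rw [hg a b hab]
  rw [Ev_dep hw hg2 x]
  refine Finset.single_le_sum (f := fun y => (∏ i ∈ S, w i (y i)) * g y ^ 2) (fun y _ => ?_) ?_
  · exact mul_nonneg (Finset.prod_nonneg fun i _ => hw.nn i _) (sq_nonneg _)
  · rw [Fintype.mem_piFinset]
    intro i
    by_cases hi : i ∈ S
    · rw [if_pos hi]
      exact mem_univ _
    · rw [if_neg hi]
      exact mem_singleton_self _

end Pool.Agent.UIV
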