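import Pool.Agent.UIV.Defs

/-! UIV/TkA.  Algebra of the operators with product kernels.

`Tk_comp`: `∑_y ∏ k (x i) (y i) ∑_z ∏ k' (y i) (z i) f z`, exchange the sums; for fixed `z`
`∑_y ∏_i (k i (x i) (y i) * k' i (y i) (z i)) = ∏_i ∑_c k i (x i) c * k' i c (z i)`
(`Finset.prod_univ_sum`, `Fintype.piFinset_univ`).
`Tk_adj`: exchange the sums, `∏ w i (x i) * k i (x i) (y i) = ∏ w i (y i) * k' i (y i) (x i)`.
`Tk_expand`: `Finset.prod_add` (or `Finset.prod_add_distrib`-type) : `∏_i (c i * k1 + k2) =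
∑_S (∏_{i∈S} c i * k1) ∏_{i∉S} k2`, and `∏_i (if i ∈ S then k1 i else k2 i) (x i) (y i)` splits.
`Tk_id`: `∏_i (if x i = y i then 1 else 0) = if x = y then 1 else 0`.
`Av_eq_Tk`: the sum over `y` reduces to the `y` with `y j = x j` for `j ≠ i`, that is
`y = Function.update x i a` (`Finset.sum_bij` / `Finset.sum_nbij'`, or apply `Finset.sum_eq_sum_of_...`;
another way: `Fintype.sum_equiv` for `Equiv.piSplitAt`).
`Tk_dep`: for `i ∉ S` the kernel does not see `x i`.
`Tk_dep_one`: `f` depends only on `S'`; write `f y = f (fun i => if i ∈ S' then y i else x i)` and, for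
`i ∉ S'`, sum out `y i`; the easiest way: with `P` = the kernel `if i ∈ S' then k i else (fun _ b => [b = default])` ...
or: by `Tk_comp`, `f = Tk k0 f` for `k0 i = δ` on `S'`, `k0 i a b = [b = e i]` off `S'` (`e` a fixed
point), as `f` depends only on `S'`, and `∑_c k i a c * [b = e i] = [b = e i]` for `i ∉ S'`; so
`Tk k f = Tk k'' f` with `k'' i a b` independent of `a` for `i ∉ S'`, then `Tk_dep`.
`Tk_dep_zero`: the same, with `∑_c k i a c = 0` for one `i ∉ S'`. -/

namespace Pool.Agent.UIV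

open Finset

variable {ι : Type} [Fintype ι] [DecidableEq ι] {α : ι → Type} [∀ i, Fintype (α i)]
  [∀ i, DecidableEq (α i)]

omit [∀ i, DecidableEq (α i)] in
theorem Tk_add (k : ∀ i, α i → α i → ℝ) (f g : (∀ i, α i) → ℝ) (x : ∀ i, α i) :
    Tk k (fun y => f y + g y) x = Tk k f x + Tk k g x := by
  unfold Tk
  rw [← Finset.sum_add_distrib]
  exact Finset.sum_congr rfl fun y _ => mul_add _ _ _

omit [∀ i, DecidableEq (α i)] in
theorem Tk_smul (k : ∀ i, α i → α i → ℝ) (c : ℝ) (f : (∀ i, α i) → ℝ) (x : ∀ i, α i) :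
    Tk k (fun y => c * f y) x = c * Tk k f x := by
  unfold Tk
  rw [Finset.mul_sum]
  exact Finset.sum_congr rfl fun y _ => by ring

omit [∀ i, DecidableEq (α i)] in
theorem Tk_sum {β : Type} (s : Finset β) (k : ∀ i, α i → α i → ℝ) (f : β → (∀ i, α i) → ℝ)
    (x : ∀ i, α i) : Tk k (fun y => ∑ b ∈ s, f b y) x = ∑ b ∈ s, Tk k (f b) x := by
  unfold Tk
  rw [Finset.sum_comm]
  exact Finset.sum_congr rfl fun y _ => Finset.mul_sum _ _ _

omit [∀ i, DecidableEq (α i)] in
theorem Tk_comp (k k' : ∀ i, α i → α i → ℝ) (f : (∀ i, α i) → ℝ) :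
    Tk k (Tk k' f) = Tk (fun i a b => ∑ c, k i a c * k' i c b) f := by
  classical
  funext x
  unfold Tk
  have h1 : ∀ z : ∀ i, α i, ∏ i, ∑ c, k i (x i) c * k' i c (z i) =
      ∑ y : ∀ i, α i, (∏ i, k i (x i) (y i)) * ∏ i, k' i (y i) (z i) := by
    intro z
    rw [Finset.prod_univ_sum, Fintype.piFinset_univ]
    exact Finset.sum_congr rfl fun y _ => Finset.prod_mul_distrib
  have h2 : ∀ y : ∀ i, α i, (∏ i, k i (x i) (y i)) * ∑ z : ∀ i, α i, (∏ i, k' i (y i) (z i)) * f z =
      ∑ z : ∀ i, α i, (∏ i, k i (x i) (y i)) * (∏ i, k' i (y i) (z i)) * f z := by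
    intro y
    rw [Finset.mul_sum]
    exact Finset.sum_congr rfl fun z _ => by ring
  rw [Finset.sum_congr rfl fun y _ => h2 y, Finset.sum_comm]
  refine Finset.sum_congr rfl fun z _ => ?_
  rw [h1 z, Finset.sum_mul]

theorem Tk_id (f : (∀ i, α i) → ℝ) : Tk (fun _ a b => if a = b then 1 else 0) f = f := by
  funext x
  unfold Tk
  rw [Finset.sum_eq_single x]
  · rw [Finset.prod_eq_one fun i _ => if_pos rfl, one_mul]
  · intro y _ hy
    obtain ⟨i, hi⟩ : ∃ i, x i ≠ y i := by
      by_contra h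
      push Not at h
      exact hy (funext fun i => (h i).symm)
    rw [Finset.prod_eq_zero (Finset.mem_univ i) (if_neg hi), zero_mul]
  · intro h
    exact absurd (Finset.mem_univ x) h

omit [∀ i, DecidableEq (α i)] in
theorem Tk_adj {w : ∀ i, α i → ℝ} {k k' : ∀ i, α i → α i → ℝ}
    (h : ∀ i a b, w i a * k i a b = w i b * k' i b a) (f g : (∀ i, α i) → ℝ) :
    Ev w (fun x => Tk k f x * g x) = Ev w (fun x => f x * Tk k' g x) := by
  unfold Ev Tk
  have h1 : ∀ x : ∀ i, α i, (∏ i, w i (x i)) * ((∑ y : ∀ i, α i, (∏ i, k i (x i) (y i)) * f y) * g x) =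
      ∑ y : ∀ i, α i, (∏ i, w i (x i) * k i (x i) (y i)) * (f y * g x) := by
    intro x
    rw [Finset.sum_mul, Finset.mul_sum]
    refine Finset.sum_congr rfl fun y _ => ?_
    rw [Finset.prod_mul_distrib]
    ring
  have h2 : ∀ y : ∀ i, α i, (∏ i, w i (y i)) * (f y * ∑ x : ∀ i, α i, (∏ i, k' i (y i) (x i)) * g x) =
      ∑ x : ∀ i, α i, (∏ i, w i (y i) * k' i (y i) (x i)) * (f y * g x) := by
    intro y
    rw [Finset.mul_sum, Finset.mul_sum]
    refine Finset.sum_congr rfl fun x _ => ?_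
    rw [Finset.prod_mul_distrib]
    ring
  rw [Finset.sum_congr rfl fun x _ => h1 x, Finset.sum_congr rfl fun y _ => h2 y, Finset.sum_comm]
  refine Finset.sum_congr rfl fun y _ => Finset.sum_congr rfl fun x _ => ?_
  rw [Finset.prod_congr rfl fun i _ => h i (x i) (y i)]

omit [∀ i, DecidableEq (α i)] in
theorem Tk_expand (c : ι → ℝ) (k1 k2 : ∀ i, α i → α i → ℝ) (f : (∀ i, α i) → ℝ)
    (x : ∀ i, α i) : Tk (fun i a b => c i * k1 i a b + k2 i a b) f x =
      ∑ S : Finset ι, (∏ i ∈ S, c i) *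
        Tk (fun i a b => if i ∈ S then k1 i a b else k2 i a b) f x := by
  unfold Tk
  have h1 : ∀ S : Finset ι, (∏ i ∈ S, c i) * ∑ y : ∀ i, α i,
      (∏ i, if i ∈ S then k1 i (x i) (y i) else k2 i (x i) (y i)) * f y =
      ∑ y : ∀ i, α i, ((∏ i ∈ S, c i * k1 i (x i) (y i)) * ∏ i ∈ univ \ S, k2 i (x i) (y i)) * f y := by
    intro S
    rw [Finset.mul_sum]
    refine Finset.sum_congr rfl fun y _ => ?_
    rw [Finset.prod_ite, Finset.filter_mem_eq_inter, Finset.univ_inter, Finset.filter_notMem_eq_sdiff,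
      Finset.prod_mul_distrib]
    ring
  rw [Finset.sum_congr rfl fun S _ => h1 S, Finset.sum_comm]
  refine Finset.sum_congr rfl fun y _ => ?_
  rw [Finset.prod_add, Finset.powerset_univ, Finset.sum_mul]

theorem Av_eq_Tk (w : ∀ i, α i → ℝ) (i : ι) (f : (∀ i, α i) → ℝ) :
    Av w i f = Tk (fun j a b => if j = i then w j b else (if a = b then 1 else 0)) f := by
  classical
  funext x
  unfold Tk Av
  have h1 : ∀ y : ∀ i, α i, y ∉ univ.image (Function.update x i) →
      (∏ j, if j = i then w j (y j) else if x j = y j then (1 : ℝ) else 0) * f y = 0 := by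
    intro y hy
    obtain ⟨j, hj, hj'⟩ : ∃ j, j ≠ i ∧ x j ≠ y j := by
      by_contra h
      push Not at h
      apply hy
      rw [Finset.mem_image]
      refine ⟨y i, Finset.mem_univ _, ?_⟩
      funext j
      by_cases hj : j = i
      · subst hj
        rw [Function.update_self]
      · rw [Function.update_of_ne hj]
        exact h j hj
    rw [Finset.prod_eq_zero (Finset.mem_univ j) (by rw [if_neg hj, if_neg hj']), zero_mul]
  rw [← Finset.sum_subset (Finset.subset_univ (univ.image (Function.update x i))) fun y _ hy => h1 y hy,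
    Finset.sum_image fun a _ b _ hab => Function.update_injective x i hab]
  refine Finset.sum_congr rfl fun a _ => ?_
  rw [Finset.prod_eq_single i]
  · rw [if_pos rfl, Function.update_self]
  · intro j _ hj
    rw [if_neg hj, Function.update_of_ne hj, if_pos rfl]
  · intro h
    exact absurd (Finset.mem_univ i) h

omit [∀ i, DecidableEq (α i)] in
/-- a kernel which does not see the coordinates off `S` -/
theorem Tk_dep {k : ∀ i, α i → α i → ℝ} {S : Finset ι}
    (h : ∀ i, i ∉ S → ∀ a a' b, k i a b = k i a' b) (f : (∀ i, α i) → ℝ) : Dep S (Tk k f) := by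
  intro x y hxy
  unfold Tk
  refine Finset.sum_congr rfl fun z _ => ?_
  congr 1
  refine Finset.prod_congr rfl fun i _ => ?_
  by_cases hi : i ∈ S
  · rw [hxy i hi]
  · exact h i hi _ _ _

open Classical in
/-- projection to the coordinates in `S'` -/
private noncomputable def kE {J : Type} {A : J → Type} (S' : Finset J) (e : ∀ i, A i) (i : J) (a b : A i) : ℝ :=
  if i ∈ S' then (if a = b then 1 else 0) else (if b = e i then 1 else 0)

omit [∀ i, DecidableEq (α i)] in
private theorem Tk_kE {S' : Finset ι} (e : ∀ i, α i) {f : (∀ i, α i) → ℝ} (hf : Dep S' f) :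
    Tk (kE S' e) f = f := by
  classical
  funext x
  unfold Tk
  rw [Finset.sum_eq_single (fun i => if i ∈ S' then x i else e i)]
  · rw [Finset.prod_eq_one, one_mul]
    · refine hf _ _ fun i hi => ?_
      rw [if_pos hi]
    · intro i _
      unfold kE
      by_cases hi : i ∈ S'
      · rw [if_pos hi]
        exact if_pos (if_pos hi).symm
      · rw [if_neg hi]
        exact if_pos (if_neg hi)
  · intro y _ hy
    obtain ⟨i, hi⟩ : ∃ i, y i ≠ if i ∈ S' then x i else e i := by
      by_contra h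
      push Not at h
      exact hy (funext h)
    rw [Finset.prod_eq_zero (Finset.mem_univ i), zero_mul]
    unfold kE
    by_cases hi' : i ∈ S'
    · rw [if_pos hi'] at hi ⊢
      exact if_neg fun h => hi h.symm
    · rw [if_neg hi'] at hi ⊢
      exact if_neg hi
  · intro h
    exact absurd (Finset.mem_univ _) h

omit [Fintype ι] [DecidableEq ι] [∀ i, DecidableEq (α i)] in
private theorem sum_kE {S' : Finset ι} (e : ∀ i, α i) (k : ∀ i, α i → α i → ℝ) {i : ι} (hi : i ∉ S')
    (a b : α i) : ∑ c, k i a c * kE S' e i c b = (∑ c, k i a c) * kE S' e i b b := by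
  rw [Finset.sum_mul]
  refine Finset.sum_congr rfl fun c _ => ?_
  unfold kE
  rw [if_neg hi, if_neg hi]

/-- if `f` depends only on `S'` and the row sums of `k` are constant off `S'` then `Tk k f` depends
only on `S'`, and vanishes if one of these row sums is `0` -/
theorem Tk_dep_one {k : ∀ i, α i → α i → ℝ} {S' : Finset ι} {c : ι → ℝ}
    (h : ∀ i, i ∉ S' → ∀ a, ∑ b, k i a b = c i) {f : (∀ i, α i) → ℝ} (hf : Dep S' f) :
    Dep S' (Tk k f) := by
  intro x y hxy
  have h1 : Tk k f = Tk (fun i a b => ∑ c, k i a c * kE S' x i c b) f := by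
    rw [← Tk_comp, Tk_kE x hf]
  rw [h1]
  refine Tk_dep (S := S') ?_ f x y hxy
  intro i hi a a' b
  rw [sum_kE x k hi, sum_kE x k hi, h i hi, h i hi]

theorem Tk_dep_zero {k : ∀ i, α i → α i → ℝ} {S' : Finset ι} {i : ι} (hi : i ∉ S')
    (h : ∀ a, ∑ b, k i a b = 0) {f : (∀ i, α i) → ℝ} (hf : Dep S' f) (x : ∀ i, α i) :
    Tk k f x = 0 := by
  have h1 : Tk k f = Tk (fun i a b => ∑ c, k i a c * kE S' x i c b) f := by
    rw [← Tk_comp, Tk_kE x hf]
  rw [h1]
  unfold Tk
  refine Finset.sum_eq_zero fun y _ => ?_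
  rw [Finset.prod_eq_zero (Finset.mem_univ i), zero_mul]
  show ∑ c, k i (x i) c * kE S' x i c (y i) = 0
  rw [sum_kE x k hi, h, zero_mul]

end Pool.Agent.UIV
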