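import Mathlib

/-! UIV/Wst.  A Weierstrass type product inequality.

`P = ∏_C u`, `Q = ∏_C v`, `P_j = ∏_{C \ j} u`, `Q_j = ∏_{C \ j} v`, so `P = u_j P_j`, `Q = v_j Q_j`.
`P - Q ≤ ∑_j P_j (u_j - v_j)` (induction on `C`), `0 ≤ P - Q`, `0 ≤ Q_j ≤ P_j`.  Hence
`(P-Q)^2 ≤ (P-Q) ∑ P_j (u_j - v_j) = ∑ (P P_j - Q P_j)(u_j - v_j) ≤ ∑ (P P_j - Q Q_j)(u_j - v_j)`, and
`P P_j = P_j^2 u_j`, `Q Q_j = Q_j^2 v_j`. -/

namespace Pool.Agent.UIV

open Finset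

private theorem weier_aux {κ : Type} [DecidableEq κ] (C : Finset κ) (u v : κ → ℝ) :
    (∀ j ∈ C, 0 ≤ v j) → (∀ j ∈ C, v j ≤ u j) →
    ∏ j ∈ C, u j - ∏ j ∈ C, v j ≤ ∑ j ∈ C, (∏ k ∈ C.erase j, u k) * (u j - v j) := by
  induction C using Finset.induction_on with
  | empty => intro _ _; simp
  | insert a s ha ih =>
    intro hv huv
    have hv' : ∀ j ∈ s, 0 ≤ v j := fun j hj => hv j (mem_insert_of_mem hj)
    have huv' : ∀ j ∈ s, v j ≤ u j := fun j hj => huv j (mem_insert_of_mem hj)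
    have h1 := ih hv' huv'
    have hva : 0 ≤ v a := hv a (mem_insert_self a s)
    have hua : v a ≤ u a := huv a (mem_insert_self a s)
    have hPQ : ∏ j ∈ s, v j ≤ ∏ j ∈ s, u j := prod_le_prod hv' huv'
    rw [prod_insert ha, prod_insert ha, sum_insert ha, erase_insert ha]
    have h2 : ∑ j ∈ s, (∏ k ∈ (insert a s).erase j, u k) * (u j - v j)
        = u a * ∑ j ∈ s, (∏ k ∈ s.erase j, u k) * (u j - v j) := by
      rw [mul_sum]
      refine sum_congr rfl fun j hj => ?_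
      have hne : a ≠ j := fun h => ha (h ▸ hj)
      rw [erase_insert_of_ne hne, prod_insert (fun h => ha (mem_of_mem_erase h))]
      ring
    rw [h2]
    have h3 : u a * (∏ j ∈ s, u j - ∏ j ∈ s, v j) ≤
        u a * ∑ j ∈ s, (∏ k ∈ s.erase j, u k) * (u j - v j) :=
      mul_le_mul_of_nonneg_left h1 (hva.trans hua)
    have h4 : v a * (∏ j ∈ s, u j - ∏ j ∈ s, v j) ≤ u a * (∏ j ∈ s, u j - ∏ j ∈ s, v j) :=
      mul_le_mul_of_nonneg_right hua (sub_nonneg.2 hPQ)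
    nlinarith

theorem weier {κ : Type} [DecidableEq κ] (C : Finset κ) (u v : κ → ℝ) (hv : ∀ j ∈ C, 0 ≤ v j)
    (huv : ∀ j ∈ C, v j ≤ u j) :
    (∏ j ∈ C, u j - ∏ j ∈ C, v j) ^ 2 ≤
      ∑ j ∈ C, ((∏ k ∈ C.erase j, u k) ^ 2 * (u j * (u j - v j)) -
        (∏ k ∈ C.erase j, v k) ^ 2 * (v j * (u j - v j))) := by
  have h1 := weier_aux C u v hv huv
  have hPQ : 0 ≤ ∏ j ∈ C, u j - ∏ j ∈ C, v j := sub_nonneg.2 (prod_le_prod hv huv)
  have hQ : 0 ≤ ∏ j ∈ C, v j := prod_nonneg hv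
  calc (∏ j ∈ C, u j - ∏ j ∈ C, v j) ^ 2
      = (∏ j ∈ C, u j - ∏ j ∈ C, v j) * (∏ j ∈ C, u j - ∏ j ∈ C, v j) := sq _
    _ ≤ (∏ j ∈ C, u j - ∏ j ∈ C, v j) *
        ∑ j ∈ C, (∏ k ∈ C.erase j, u k) * (u j - v j) := mul_le_mul_of_nonneg_left h1 hPQ
    _ = ∑ j ∈ C, (∏ j ∈ C, u j - ∏ j ∈ C, v j) * ((∏ k ∈ C.erase j, u k) * (u j - v j)) := by
        rw [mul_sum]
    _ ≤ _ := by
        refine sum_le_sum fun j hj => ?_
        have hP1 : ∏ k ∈ C, u k = u j * ∏ k ∈ C.erase j, u k := (mul_prod_erase C u hj).symm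
        have hQ1 : ∏ k ∈ C, v k = v j * ∏ k ∈ C.erase j, v k := (mul_prod_erase C v hj).symm
        have hle : ∏ k ∈ C.erase j, v k ≤ ∏ k ∈ C.erase j, u k :=
          prod_le_prod (fun k hk => hv k (mem_of_mem_erase hk))
            (fun k hk => huv k (mem_of_mem_erase hk))
        have h5 : 0 ≤ (u j - v j) * ((∏ k ∈ C, v k) *
            (∏ k ∈ C.erase j, u k - ∏ k ∈ C.erase j, v k)) :=
          mul_nonneg (sub_nonneg.2 (huv j hj)) (mul_nonneg hQ (sub_nonneg.2 hle))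
        rw [hQ1] at h5
        rw [hP1, hQ1]
        nlinarith

end Pool.Agent.UIV
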